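import Pool.Agent.Lib_MP_2c424f_pr.Defs

/-!
# Piece BXA: the geometry of the box
-/

set_option autoImplicit false

open Finset

namespace Pool.Agent.QC

variable {d n : ℕ}

/-- BOX. adjacent vertices differ in exactly one coordinate, by one -/
theorem bg_adj {x y : Bx d n} (h : (BG d n).Adj x y) : ∃ i,
    ((y i : ℕ) = x i + 1 ∨ (x i : ℕ) = y i + 1) ∧ ∀ j, j ≠ i → y j = x j := by
  classical
  have h1 : bd x y = 1 := h
  unfold bd at h1
  have h2 : ∃ i, ((x i : ℤ) - (y i : ℤ)).natAbs ≠ 0 := by
    by_contra hcon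
    push Not at hcon
    rw [Finset.sum_eq_zero (fun i _ => hcon i)] at h1
    omega
  obtain ⟨i, hi⟩ := h2
  rw [← Finset.add_sum_erase _ _ (Finset.mem_univ i)] at h1
  refine ⟨i, ?_, ?_⟩
  · omega
  · intro j hj
    have h3 : ∑ i ∈ Finset.univ.erase i, ((x i : ℤ) - (y i : ℤ)).natAbs = 0 := by omega
    rw [Finset.sum_eq_zero_iff] at h3
    have h4 := h3 j (by simp [hj])
    apply Fin.ext
    omega

theorem BXA_split (w x : Bx d n) (i : Fin d) :
    bd w x = ((w i : ℤ) - (x i : ℤ)).natAbs +
      ∑ j ∈ Finset.univ.erase i, ((w j : ℤ) - (x j : ℤ)).natAbs := by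
  unfold bd
  rw [← Finset.add_sum_erase _ _ (Finset.mem_univ i)]

theorem BXA_rest {w x y : Bx d n} {i : Fin d} (h : ∀ j, j ≠ i → y j = x j) :
    ∑ j ∈ Finset.univ.erase i, ((w j : ℤ) - (y j : ℤ)).natAbs =
      ∑ j ∈ Finset.univ.erase i, ((w j : ℤ) - (x j : ℤ)).natAbs := by
  refine Finset.sum_congr rfl fun j hj => ?_
  rw [h j (Finset.ne_of_mem_erase hj)]

theorem bd_step (w x y : Bx d n) (h : (BG d n).Adj x y) :
    bd w y = bd w x + 1 ∨ bd w x = bd w y + 1 := by
  obtain ⟨i, hi, hj⟩ := bg_adj h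
  rw [BXA_split w x i, BXA_split w y i, BXA_rest (w := w) hj]
  omega

theorem BXA_ne {α : Type*} (p : α → Prop) (h : ∀ y, p y → Nonempty (Fin d)) :
    cnt p = 0 ∨ Nonempty (Fin d) := by
  by_cases hn : Nonempty (Fin d)
  · exact Or.inr hn
  · left
    have : p = fun _ => False := by
      funext y
      simp only [eq_iff_iff, iff_false]
      exact fun hy => hn (h y hy)
    rw [this]
    simp [cnt]

/-- BOX. injection `y ↦ (i, sign)` into `Fin d × Bool` -/
theorem bg_deg (x : Bx d n) : cnt (fun y => (BG d n).Adj x y) ≤ 2 * d := by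
  classical
  rcases BXA_ne (d := d) (fun y : Bx d n => (BG d n).Adj x y) (fun y hy => (bg_adj hy).elim fun i _ => ⟨i⟩)
    with h0 | h0
  · rw [h0]
    exact Nat.zero_le _
  rw [cnt_eq]
  have h1 : (univ.filter fun y => (BG d n).Adj x y).card ≤
      (univ : Finset (Fin d × Bool)).card := by
    have key : ∀ y, (BG d n).Adj x y → ∃ p : Fin d × Bool,
        (y p.1 : ℤ) = (x p.1 : ℤ) + (if p.2 then 1 else -1) ∧ ∀ j, j ≠ p.1 → y j = x j := by
      intro y hy
      obtain ⟨i, hi, hj⟩ := bg_adj hy
      rcases hi with hi | hi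
      · exact ⟨(i, true), by simp; omega, hj⟩
      · exact ⟨(i, false), by simp; omega, hj⟩
    choose! F hF1 hF2 using key
    refine Finset.card_le_card_of_injOn F (fun _ _ => by simp) ?_
    intro y hy z hz hyz
    simp only [coe_filter, mem_univ, true_and, Set.mem_ofPred_eq] at hy hz
    have h1 := hF1 y hy
    have h2 := hF1 z hz
    have h3 := hF2 y hy
    have h4 := hF2 z hz
    rw [← hyz] at h2 h4
    funext j
    by_cases hj : j = (F y).1
    · subst hj
      apply Fin.ext
      omega
    · rw [h3 j hj, h4 j hj]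
  refine h1.trans ?_
  simp [Fintype.card_prod, mul_comm]

/-- BOX. such a `y` is determined by the coordinate `i` (which satisfies `x i ≠ w i`; `y i` is `x i ± 1` towards `w i`), and the
number of coordinates with `x i ≠ w i` is at most `bd w x`. -/
theorem bg_inner (w x : Bx d n) :
    cnt (fun y => (BG d n).Adj x y ∧ bd w x = bd w y + 1) ≤ bd w x := by
  classical
  rcases BXA_ne (d := d) (fun y : Bx d n => (BG d n).Adj x y ∧ bd w x = bd w y + 1)
    (fun y hy => (bg_adj hy.1).elim fun i _ => ⟨i⟩) with h0 | h0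
  · rw [h0]
    exact Nat.zero_le _
  have h1 : cnt (fun y => (BG d n).Adj x y ∧ bd w x = bd w y + 1) ≤
      (univ.filter fun i : Fin d => x i ≠ w i).card := by
    rw [cnt_eq]
    have key : ∀ y, ((BG d n).Adj x y ∧ bd w x = bd w y + 1) → ∃ i : Fin d,
        x i ≠ w i ∧ ((w i : ℤ) - (x i : ℤ)).natAbs = ((w i : ℤ) - (y i : ℤ)).natAbs + 1 ∧
        ((y i : ℕ) = x i + 1 ∨ (x i : ℕ) = y i + 1) ∧ ∀ j, j ≠ i → y j = x j := by
      intro y ⟨hy, hd⟩
      obtain ⟨i, hi, hj⟩ := bg_adj hy
      rw [BXA_split w x i, BXA_split w y i, BXA_rest (w := w) hj] at hd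
      have h2 : ((w i : ℤ) - (x i : ℤ)).natAbs = ((w i : ℤ) - (y i : ℤ)).natAbs + 1 := by omega
      refine ⟨i, ?_, h2, hi, hj⟩
      intro h3
      rw [h3] at h2
      omega
    choose! F hF1 hF2 hF3 hF4 using key
    refine Finset.card_le_card_of_injOn F ?_ ?_
    · intro y hy
      simp only [coe_filter, mem_univ, true_and, Set.mem_ofPred_eq] at hy ⊢
      exact hF1 y hy
    · intro y hy z hz hyz
      simp only [coe_filter, mem_univ, true_and, Set.mem_ofPred_eq] at hy hz
      have a1 := hF2 y hy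
      have a2 := hF3 y hy
      have a3 := hF4 y hy
      have b1 := hF2 z hz
      have b2 := hF3 z hz
      have b3 := hF4 z hz
      rw [← hyz] at b1 b2 b3
      funext j
      by_cases hj : j = F y
      · subst hj
        apply Fin.ext
        omega
      · rw [a3 j hj, b3 j hj]
  refine h1.trans ?_
  unfold bd
  rw [Finset.card_eq_sum_ones, Finset.sum_filter]
  refine Finset.sum_le_sum fun i _ => ?_
  split_ifs with h
  · have : (x i : ℕ) ≠ w i := fun h' => h (Fin.ext h')
    omega
  · omega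

theorem BXA_self (x : Bx d n) : bd x x = 0 := by simp [bd]

theorem BXA_symm (x y : Bx d n) : bd x y = bd y x := by
  unfold bd
  refine Finset.sum_congr rfl fun i _ => ?_
  omega

theorem BXA_tri (x y z : Bx d n) : bd x z ≤ bd x y + bd y z := by
  unfold bd
  rw [← Finset.sum_add_distrib]
  refine Finset.sum_le_sum fun i _ => ?_
  omega

theorem BXA_pos (x y : Bx d n) (h : bd x y = 0) : x = y := by
  unfold bd at h
  rw [Finset.sum_eq_zero_iff] at h
  funext i
  have := h i (Finset.mem_univ i)
  apply Fin.ext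
  omega

/-- BOX. `z = x ± e_i = y ± e_j`, `x ≠ y`. If there is a common neighbour, `x - y` is `± e_i ± e_j` with `i ≠ j` (then `z` is one of the
two mixed vertices) or `± 2 e_i` (then `z` is the midpoint). (Or: the common neighbours are neighbours `z` of `x` with
`bd y z = 1`; apply a case distinction on `bd x y ∈ {0, 2}`: for `bd x y = 2` they are the inner neighbours of `x` with respect to `w = y`,
so there are at most `bd y x = 2` by `bg_inner`.) -/
theorem bg_common (x y : Bx d n) (h : x ≠ y) :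
    cnt (fun z => (BG d n).Adj x z ∧ (BG d n).Adj y z) ≤ 2 := by
  classical
  by_cases h2 : bd y x = 2
  · refine (cnt_mono (p' := fun z => (BG d n).Adj x z ∧ bd y x = bd y z + 1) ?_).trans
      ((bg_inner y x).trans h2.le)
    intro z ⟨h3, h4⟩
    refine ⟨h3, ?_⟩
    have h5 : bd y z = 1 := h4
    omega
  · have h3 : cnt (fun z => (BG d n).Adj x z ∧ (BG d n).Adj y z) ≤
        cnt (fun _ : Bx d n => False) := by
      refine cnt_mono ?_
      intro z ⟨h3, h4⟩
      have h5 : bd y z = 1 := h4
      have h6 : bd y x ≠ 0 := fun h7 => h (BXA_pos _ _ h7).symm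
      have h7 := bd_step y x z h3
      omega
    refine h3.trans ?_
    simp [cnt]

theorem bx_lg (d n : ℕ) : IsLG (BG d n) bd (2 * d) where
  self := BXA_self
  pos := BXA_pos
  symm := BXA_symm
  tri := BXA_tri
  step := bd_step
  deg := bg_deg
  inner := bg_inner
  common := bg_common

end Pool.Agent.QC
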