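import Mathlib

/-!
# MP_2c424f_pr: definitions

Proper colourings of boxes of `ℤ^d` with `q ≥ (2 + ε) d` colours are disordered.
-/

set_option autoImplicit false

open Finset

namespace Pool.Agent.QC

/-- number of elements with a property (used for finite types only) -/
noncomputable def cnt {α : Type*} (p : α → Prop) : ℕ := {a | p a}.ncard

/-! ## Graphs with a distance -/

/-- A finite graph which looks like a part of `ℤ^d` (`D = 2 d`): every edge changes the distance to every
vertex `w` by exactly one, a vertex `x` has at most `dist w x` neighbours which are closer to `w`, the degrees are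
at most `D`, and two different vertices have at most two common neighbours. -/
structure IsLG {V : Type} [Fintype V] (G : SimpleGraph V) (dist : V → V → ℕ) (D : ℕ) : Prop where
  self : ∀ x, dist x x = 0
  pos : ∀ x y, dist x y = 0 → x = y
  symm : ∀ x y, dist x y = dist y x
  tri : ∀ x y z, dist x z ≤ dist x y + dist y z
  step : ∀ w x y, G.Adj x y → dist w y = dist w x + 1 ∨ dist w x = dist w y + 1
  deg : ∀ x, cnt (fun y => G.Adj x y) ≤ D
  inner : ∀ w x, cnt (fun y => G.Adj x y ∧ dist w x = dist w y + 1) ≤ dist w x
  common : ∀ x y, x ≠ y → cnt (fun z => G.Adj x z ∧ G.Adj y z) ≤ 2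

variable {V K : Type} [Fintype V] [Fintype K] [Inhabited K]

open scoped Classical in
/-- the neighbours -/
noncomputable def nb (G : SimpleGraph V) (v : V) : Finset V := univ.filter fun u => G.Adj v u

open scoped Classical in
/-- the ball -/
noncomputable def ball (dist : V → V → ℕ) (v : V) (r : ℕ) : Finset V :=
  univ.filter fun u => dist v u ≤ r

/-! ## List colourings -/

open scoped Classical in
/-- The proper list colourings of the graph induced on `S` (with the value `default` outside of `S`). -/
noncomputable def LC (G : SimpleGraph V) (S : Finset V) (L : V → Finset K) : Finset (V → K) :=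
  univ.filter fun f => (∀ v, v ∉ S → f v = default) ∧ (∀ v ∈ S, f v ∈ L v) ∧
    ∀ u ∈ S, ∀ v ∈ S, G.Adj u v → f u ≠ f v

/-- their number -/
noncomputable def Z (G : SimpleGraph V) (S : Finset V) (L : V → Finset K) : ℕ := (LC G S L).card

open scoped Classical in
/-- the number of those with `f v = c` -/
noncomputable def Zc (G : SimpleGraph V) (S : Finset V) (L : V → Finset K) (v : V) (c : K) : ℕ :=
  ((LC G S L).filter fun f => f v = c).card

/-- the probability of `f v = c` -/
noncomputable def Pr (G : SimpleGraph V) (S : Finset V) (L : V → Finset K) (v : V) (c : K) : ℝ :=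
  (Zc G S L v c : ℝ) / Z G S L

open scoped Classical in
/-- remove the colour `c` from the lists of the vertices in `T` -/
noncomputable def rm (L : V → Finset K) (T : Finset V) (c : K) : V → Finset K :=
  fun u => if u ∈ T then (L u).erase c else L u

open scoped Classical in
/-- every list has at least `s` more elements than the vertex has neighbours in `S` -/
def Slack (G : SimpleGraph V) (S : Finset V) (L : V → Finset K) (s : ℕ) : Prop :=
  ∀ v ∈ S, (S.filter fun u => G.Adj v u).card + s ≤ (L v).card

/-! ## The outward recursion -/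

open scoped Classical in
/-- the outer neighbours of `v` in `S₀` (farther from `w`) -/
noncomputable def Out (G : SimpleGraph V) (dist : V → V → ℕ) (w : V) (S₀ : Finset V) (v : V) :
    Finset V :=
  S₀.filter fun u => G.Adj v u ∧ dist w u = dist w v + 1

open scoped Classical in
/-- the outward recursion, `k` levels -/
noncomputable def rho (G : SimpleGraph V) (dist : V → V → ℕ) (w : V) (S₀ : Finset V)
    (L₀ : V → Finset K) : ℕ → V → K → ℝ
  | 0, v, c => if c ∈ L₀ v then 1 / ((L₀ v).card : ℝ) else 0
  | k + 1, v, c => if c ∈ L₀ v then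
      (∏ u ∈ Out G dist w S₀ v, (1 - rho G dist w S₀ L₀ k u c)) /
        ∑ c' ∈ L₀ v, ∏ u ∈ Out G dist w S₀ v, (1 - rho G dist w S₀ L₀ k u c') else 0

/-- The instances of level `m`: everything at a distance `> m` from `w` is as in `(S₀, L₀)`. -/
structure Cls (G : SimpleGraph V) (dist : V → V → ℕ) (w : V) (S₀ : Finset V) (L₀ : V → Finset K)
    (s m : ℕ) (S : Finset V) (L : V → Finset K) : Prop where
  sub : S ⊆ S₀
  lsub : ∀ v, L v ⊆ L₀ v
  out : ∀ u ∈ S₀, m < dist w u → u ∈ S ∧ L u = L₀ u
  slack : Slack G S L s

/-- the error after `k` levels -/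
noncomputable def err (q s D M : ℕ) : ℕ → ℝ
  | 0 => 1 / (s : ℝ) * (1 + q / s) * (M / s)
  | k + 1 => 1 / (s : ℝ) * (1 + q / s) * (D * err q s D M k + M / s)

/-! ## Jeffreys divergence from the constant 1 (not normalised) -/

/-- `∑ (r - 1) log r` -/
noncomputable def Js (r : K → ℝ) : ℝ := ∑ c, (r c - 1) * Real.log (r c)

/-- the constant of contraction -/
noncomputable def kap (x : ℝ) : ℝ := x * Real.exp (x - 1)

/-! ## Proper colourings of the whole graph, events -/

/-- proper colourings -/
def Proper (G : SimpleGraph V) (f : V → K) : Prop := ∀ u v, G.Adj u v → f u ≠ f v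

/-- the function `F` of the colouring depends only on the colours of the vertices in `Q` -/
def DepOn {α : Type} (Q : Set V) (F : (V → K) → α) : Prop :=
  ∀ f f' : V → K, (∀ x ∈ Q, f x = f' x) → F f = F f'

/-! ## Paths -/

open scoped Classical in
/-- the possible next vertices of a self-avoiding path (the head of the list is the last vertex) -/
noncomputable def nxt (G : SimpleGraph V) : List V → Finset V
  | [] => ∅
  | h :: π => univ.filter fun v => G.Adj h v ∧ v ∉ h :: π

/-- the path `π` can be continued by `n` steps through vertices in `A` -/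
def Ext (G : SimpleGraph V) (A : V → Prop) : ℕ → List V → Prop
  | 0, _ => True
  | n + 1, π => ∃ v ∈ nxt G π, A v ∧ Ext G A n (v :: π)

/-- there is a path with `n` steps which starts at `u`, with colours `a`, `b` -/
def Cn (G : SimpleGraph V) (a b : K) (n : ℕ) (u : V) (f : V → K) : Prop :=
  (f u = a ∨ f u = b) ∧ Ext G (fun v => f v = a ∨ f v = b) n [u]

/-- the subgraph of the vertices with colours `a`, `b` -/
def Gab (G : SimpleGraph V) (a b : K) (f : V → K) : SimpleGraph V where
  Adj x y := G.Adj x y ∧ (f x = a ∨ f x = b) ∧ (f y = a ∨ f y = b)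
  symm := ⟨fun _ _ h => ⟨h.1.symm, h.2.2, h.2.1⟩⟩
  loopless := ⟨fun x h => h.1.ne rfl⟩

open scoped Classical in
/-- the number of vertices of `π` in the ball of radius `M` of `v` -/
noncomputable def near (dist : V → V → ℕ) (M : ℕ) (π : List V) (v : V) : ℕ :=
  (π.filter fun x => dist v x ≤ M).length

open scoped Classical in
/-- the factor of a step: `e₁` if at most `m` vertices of `π` are near `v`, otherwise `K₀` -/
noncomputable def fac (dist : V → V → ℕ) (M m : ℕ) (e₁ K₀ : ℝ) (π : List V) (v : V) : ℝ :=
  if near dist M π v ≤ m then e₁ else K₀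

/-- the sum over the continuations of the path `π` by `n` steps of the product of the factors / `q` -/
noncomputable def om (G : SimpleGraph V) (dist : V → V → ℕ) (M m : ℕ) (e₁ K₀ q : ℝ) :
    ℕ → List V → ℝ
  | 0, _ => 1
  | n + 1, π => ∑ v ∈ nxt G π, fac dist M m e₁ K₀ π v / q * om G dist M m e₁ K₀ q n (v :: π)

open scoped Classical in
/-- a bound for the number of the continuations of `π` by `n` steps with a crowded step -/
noncomputable def bad (G : SimpleGraph V) (dist : V → V → ℕ) (M m D : ℕ) : ℕ → List V → ℝ
  | 0, _ => 0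
  | n + 1, π => ∑ v ∈ nxt G π, if near dist M π v ≤ m then bad G dist M m D n (v :: π) else (D : ℝ) ^ n

open scoped Classical in
/-- the number of vertices of the path after `x` which are in the ball of radius `R` of `x` -/
noncomputable def vis (dist : V → V → ℕ) (R : ℕ) (x : V) : List V → ℕ
  | [] => 0
  | b :: π => if b = x then 0 else vis dist R x π + if dist x b ≤ R then 1 else 0

open scoped Classical in
/-- the number of the steps after `x` which lead into the ball of radius `R` of `x` or stay there and decrease
the distance from `x` -/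
noncomputable def aft (dist : V → V → ℕ) (R : ℕ) (x : V) : List V → ℕ
  | [] => 0
  | [_] => 0
  | b :: a :: π => if b = x then 0 else
      aft dist R x (a :: π) + if dist x b ≤ R ∧ dist x b < dist x a then 1 else 0

/-! ## Basic facts on `cnt` -/

open scoped Classical in
theorem cnt_eq {α : Type*} [Fintype α] (p : α → Prop) : cnt p = (univ.filter p).card := by
  unfold cnt
  rw [← Set.ncard_coe_finset]
  congr 1
  ext a
  simp

theorem cnt_mono {α : Type*} [Finite α] {p p' : α → Prop} (h : ∀ a, p a → p' a) :
    cnt p ≤ cnt p' := Set.ncard_le_ncard (fun a ha => h a ha) (Set.toFinite _)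

theorem cnt_congr {α : Type*} {p p' : α → Prop} (h : ∀ a, p a ↔ p' a) : cnt p = cnt p' := by
  have : p = p' := funext fun a => propext (h a)
  rw [this]

theorem cnt_or {α : Type*} [Finite α] (p p' : α → Prop) :
    cnt (fun a => p a ∨ p' a) ≤ cnt p + cnt p' := Set.ncard_union_le _ _

/-- union bound -/
theorem cnt_ex {α ι : Type*} [Finite α] (A : Finset ι) (p : ι → α → Prop) :
    cnt (fun a => ∃ i ∈ A, p i a) ≤ ∑ i ∈ A, cnt (p i) := by
  classical
  haveI := Fintype.ofFinite α
  simp only [cnt_eq]
  refine (Finset.card_le_card ?_).trans Finset.card_biUnion_le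
  intro a ha
  simp only [mem_filter, mem_univ, true_and, mem_biUnion] at ha ⊢
  exact ha

theorem cnt_bij {α β : Type*} {p : α → Prop} {p' : β → Prop} (f : α → β)
    (h1 : ∀ a, p a → p' (f a)) (h2 : ∀ a b, p a → p b → f a = f b → a = b)
    (h3 : ∀ b, p' b → ∃ a, p a ∧ f a = b) : cnt p = cnt p' :=
  Set.ncard_congr (fun a _ => f a) h1 h2 (fun b hb => by
    obtain ⟨a, ha, hab⟩ := h3 b hb
    exact ⟨a, ha, hab⟩)

/-! ## The box -/

/-- the vertices of the box with `n + 1` points on each side -/
abbrev Bx (d n : ℕ) : Type := Fin d → Fin (n + 1)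

/-- the `ℓ¹` distance -/
def bd {d n : ℕ} (x y : Bx d n) : ℕ := ∑ i, ((x i : ℤ) - (y i : ℤ)).natAbs

/-- nearest neighbours -/
def BG (d n : ℕ) : SimpleGraph (Bx d n) where
  Adj x y := bd x y = 1
  symm := ⟨fun x y h => by
    unfold bd at h ⊢
    refine (Finset.sum_congr rfl fun i _ => ?_).trans h
    omega⟩
  loopless := ⟨fun x h => by simp [bd] at h⟩

/-- the two opposite corners -/
def c0 (d n : ℕ) : Bx d n := fun _ => 0
def c1 (d n : ℕ) : Bx d n := fun _ => Fin.last n

/-- `D_{q,d}(n+1)` -/
noncomputable def Dq (q d n : ℕ) : ℝ :=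
  (cnt (fun f : Bx d n → Fin q => Proper (BG d n) f ∧ f (c0 d n) = f (c1 d n)) : ℝ) /
    cnt (fun f : Bx d n → Fin q => Proper (BG d n) f) - 1 / q

end Pool.Agent.QC
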