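import Pool.Agent.Lib_MP_2c424f_pr.FIN

/-!
# LIM: the critical number of colours
-/

set_option autoImplicit false

open Finset

namespace Pool.Agent.QC

/-- long-range order: `D_{q,d}(n+1)` does not tend to `0` -/
def LRO (q d : ℕ) : Prop := ¬ Filter.Tendsto (fun n => Dq q d n) Filter.atTop (nhds 0)

/-- `q_c(d)`: the largest `q ≥ 2` with long-range order -/
noncomputable def qc (d : ℕ) : ℕ := sSup {q : ℕ | 2 ≤ q ∧ LRO q d}

theorem not_lro {q d : ℕ} {A c : ℝ} (hc : 0 < c)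
    (h : ∀ n : ℕ, |Dq q d n| ≤ A * Real.exp (-(c * n))) : ¬ LRO q d := by
  unfold LRO
  rw [not_not]
  have h1 : Filter.Tendsto (fun n : ℕ => A * Real.exp (-(c * n))) Filter.atTop (nhds 0) := by
    have h2 : Filter.Tendsto (fun n : ℕ => c * (n : ℝ)) Filter.atTop Filter.atTop :=
      tendsto_natCast_atTop_atTop.const_mul_atTop hc
    have h3 := (Real.tendsto_exp_neg_atTop_nhds_zero.comp h2).const_mul A
    rw [mul_zero] at h3
    exact h3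
  exact squeeze_zero_norm (fun n => by rw [Real.norm_eq_abs]; exact h n) h1

/-- the two corners -/
theorem main_decay {ε : ℝ} (hε : 0 < ε) : ∃ d₀ : ℕ, ∀ d ≥ d₀, ∀ q : ℕ, (2 + ε) * d ≤ q →
    ∃ A c : ℝ, 0 < c ∧ ∀ n : ℕ, |Dq q d n| ≤ A * Real.exp (-(c * n)) := by
  obtain ⟨d₀, h⟩ := main_pair hε
  refine ⟨max d₀ 1, ?_⟩
  intro d hd q hq
  obtain ⟨A, c, hc, hA⟩ := h d ((le_max_left _ _).trans hd) q hq
  have hd1 : 1 ≤ d := (le_max_right _ _).trans hd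
  refine ⟨|A|, c, hc, ?_⟩
  intro n
  have h1 := hA n (c0 d n) (c1 d n)
  rw [bd_corners] at h1
  have h2 : Real.exp (-(c * (d * n : ℕ))) ≤ Real.exp (-(c * n)) := by
    refine Real.exp_le_exp.2 (neg_le_neg (mul_le_mul_of_nonneg_left ?_ hc.le))
    exact_mod_cast Nat.le_mul_of_pos_left n hd1
  calc |Dq q d n| ≤ A * Real.exp (-(c * (d * n : ℕ))) := h1
    _ ≤ |A| * Real.exp (-(c * (d * n : ℕ))) :=
      mul_le_mul_of_nonneg_right (le_abs_self A) (Real.exp_pos _).le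
    _ ≤ _ := mul_le_mul_of_nonneg_left h2 (abs_nonneg A)

theorem main_qc {ε : ℝ} (hε : 0 < ε) : ∃ d₀ : ℕ, ∀ d ≥ d₀, (∀ q : ℕ, LRO q d → (q : ℝ) < (2 + ε) * d) ∧
    (qc d : ℝ) ≤ (2 + ε) * d := by
  obtain ⟨d₀, h⟩ := main_decay hε
  refine ⟨d₀, ?_⟩
  intro d hd
  have h1 : ∀ q : ℕ, LRO q d → (q : ℝ) < (2 + ε) * d := by
    intro q hq
    by_contra hc
    obtain ⟨A, c, hcp, hA⟩ := h d hd q (not_lt.1 hc)
    exact not_lro hcp hA hq
  refine ⟨h1, ?_⟩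
  have h2 : qc d ≤ ⌊(2 + ε) * d⌋₊ := by
    unfold qc
    refine csSup_le' ?_
    rintro q ⟨-, hq⟩
    exact Nat.le_floor (h1 q hq).le
  have h3 : (⌊(2 + ε) * (d : ℝ)⌋₊ : ℝ) ≤ (2 + ε) * d := Nat.floor_le (by positivity)
  exact (Nat.cast_le.2 h2).trans h3

end Pool.Agent.QC
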