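import Pool.Agent.Lib_MP_2c424f_pr.FIN

/-!
# CND: the same with prescribed colours on a distant set
-/

set_option autoImplicit false

open Finset

namespace Pool.Agent.QC

variable {V K : Type} [Fintype V] [Fintype K] {G : SimpleGraph V} {dist : V → V → ℕ} {D : ℕ}

/-- CND. several points, with a condition -/
theorem con_many (hG : IsLG G dist D) {a b : K} {ℓ M : ℕ} {h : ℝ} (h0 : 0 ≤ h)
    (hc : ∀ (u : V) (E : (V → K) → Prop), DepOn {y | ℓ + M < dist u y} E →
      (cnt (fun f : V → K => Proper G f ∧ E f ∧ Cn G a b ℓ u f) : ℝ) ≤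
        h * cnt (fun f : V → K => Proper G f ∧ E f)) {O : Set V} (E : (V → K) → Prop)
    (hE : DepOn O E) :
    ∀ P : List V, P.Pairwise (fun x y => 2 * ℓ + M < dist x y) →
    (∀ p ∈ P, ∀ x ∈ O, ℓ + M < dist p x) →
    (cnt (fun f : V → K => Proper G f ∧ E f ∧ ∀ p ∈ P, Cn G a b ℓ p f) : ℝ) ≤
      h ^ P.length * cnt (fun f : V → K => Proper G f ∧ E f) := by
  intro P
  induction P with
  | nil =>
    intro _ _
    have : cnt (fun f : V → K => Proper G f ∧ E f ∧ ∀ p ∈ ([] : List V), Cn G a b ℓ p f) =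
        cnt (fun f : V → K => Proper G f ∧ E f) := cnt_congr (fun f => by simp)
    rw [this]; simp
  | cons u P ih =>
    intro hP hO
    rw [List.pairwise_cons] at hP
    obtain ⟨hu, hP⟩ := hP
    have h1 := hc u (fun f => E f ∧ ∀ p ∈ P, Cn G a b ℓ p f) (by
      intro f f' hf
      have e0 : E f = E f' := hE f f' fun x hx => hf x (hO u (by simp) x hx)
      show (E f ∧ _) = (E f' ∧ _)
      rw [e0]
      congr 1
      apply propext
      refine forall_congr' fun p => forall_congr' fun hp => ?_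
      have := cn_dep hG a b ℓ p f f' (by
        intro y hy
        apply hf y
        have h2 := hu p hp
        have h3 := hG.tri u y p
        have h4 : dist p y ≤ ℓ := hy
        have h5 := hG.symm p y
        show ℓ + M < dist u y
        omega)
      exact iff_of_eq this)
    have h2 : cnt (fun f : V → K => Proper G f ∧ E f ∧ ∀ p ∈ u :: P, Cn G a b ℓ p f) =
        cnt (fun f : V → K => Proper G f ∧ (E f ∧ ∀ p ∈ P, Cn G a b ℓ p f) ∧ Cn G a b ℓ u f) :=
      cnt_congr (fun f => by
        simp only [List.forall_mem_cons]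
        tauto)
    rw [h2]
    refine h1.trans ?_
    calc h * (cnt (fun f : V → K => Proper G f ∧ E f ∧ ∀ p ∈ P, Cn G a b ℓ p f) : ℝ)
        ≤ h * (h ^ P.length * cnt (fun f : V → K => Proper G f ∧ E f)) :=
          mul_le_mul_of_nonneg_left (ih hP fun p hp => hO p (by simp [hp])) h0
      _ = h ^ (u :: P).length * cnt (fun f : V → K => Proper G f ∧ E f) := by
          rw [List.length_cons, pow_succ]; ring

/-- CND. the points of a chain are near its first point -/
theorem con_chn_near (hG : IsLG G dist D) {r : ℕ} {x : V} : ∀ {π : List V}, Chn dist r π →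
    π.getLast? = some x → ∀ p ∈ π, dist x p ≤ r * (π.length - 1)
  | [], h, _, _, _ => absurd h (by simp [Chn])
  | [a], _, hx, p, hp => by
    simp only [List.getLast?_singleton, Option.some.injEq] at hx
    rw [List.mem_singleton] at hp
    rw [hp, hx, hG.self]
    exact Nat.zero_le _
  | v :: h :: π, hc, hx, p, hp => by
    obtain ⟨h1, -, h3⟩ := hc
    have hx' : (h :: π).getLast? = some x := by
      rw [List.getLast?_cons_cons] at hx
      exact hx
    have ih := con_chn_near hG h3 hx'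
    have hh := ih h (by simp)
    simp only [List.length_cons, Nat.add_sub_cancel] at ih hh ⊢
    rcases List.mem_cons.1 hp with rfl | hp
    · have := hG.tri x h p
      rw [Nat.mul_add, Nat.mul_one]
      omega
    · have := ih p hp
      rw [Nat.mul_add, Nat.mul_one]
      omega

/-- CND. the probability that `w` is connected with the set `Q` -/
theorem con_uni (hG : IsLG G dist D) {a b : K} {ℓ M B N : ℕ} (hℓ : 1 ≤ ℓ) {h : ℝ} (h0 : 0 ≤ h)
    (hc : ∀ (u : V) (E : (V → K) → Prop), DepOn {y | ℓ + M < dist u y} E →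
      (cnt (fun f : V → K => Proper G f ∧ E f ∧ Cn G a b ℓ u f) : ℝ) ≤
        h * cnt (fun f : V → K => Proper G f ∧ E f))
    (hB : ∀ x, cnt (fun y => dist x y ≤ 2 * ℓ + M) ≤ B) {w : V} {Q : Set V} {r : ℕ}
    (hQ : ∀ x ∈ Q, r ≤ dist w x) (hN : (2 * ℓ + M) * (2 * N + 1) < r) (E : (V → K) → Prop)
    (hE : DepOn Q E) :
    (cnt (fun f : V → K => Proper G f ∧ E f ∧ ∃ y ∈ Q, (Gab G a b f).Reachable w y) : ℝ) ≤
      (B : ℝ) ^ (2 * N) * h ^ (N + 1) * cnt (fun f : V → K => Proper G f ∧ E f) := by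
  classical
  set R : ℕ := 2 * ℓ + M with hR
  have hR1 : 1 ≤ R := by omega
  have hfar : ∀ (π : List V), Chn dist R π → π.length = 2 * N + 1 → π.getLast? = some w →
      ∀ p ∈ π, ∀ y ∈ Q, R < dist p y := by
    intro π hch hl hlast p hp y hy
    have h1 := con_chn_near hG hch hlast p hp
    rw [hl, Nat.add_sub_cancel] at h1
    have h2 := hQ y hy
    have h3 := hG.tri w p y
    rw [Nat.mul_add, Nat.mul_one] at hN
    omega
  have hmono : cnt (fun f : V → K => Proper G f ∧ E f ∧ ∃ y ∈ Q, (Gab G a b f).Reachable w y) ≤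
      cnt (fun f : V → K => ∃ π ∈ (seqs dist R w (2 * N)).filter
        (fun π => Chn dist R π ∧ π.length = 2 * N + 1 ∧ π.getLast? = some w),
        Proper G f ∧ E f ∧ ∀ p ∈ evn π, Cn G a b ℓ p f) := by
    apply cnt_mono
    rintro f ⟨hf, hEf, y, hy, hr⟩
    have hwy := hQ y hy
    have hN2 : R * (2 * N) < dist w y := by
      rw [Nat.mul_add, Nat.mul_one] at hN
      omega
    have hne : w ≠ y := by
      intro h1
      rw [← h1, hG.self w] at hN2
      omega
    obtain ⟨π, hl, hch, hlast, hreach⟩ := exists_chn hG (H := Gab G a b f) (fun x y hxy => hxy.1)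
      hR1 hr hN2
    refine ⟨π, Finset.mem_filter.2 ⟨chn_mem_seqs hch hl hlast, hch, hl, hlast⟩, hf, hEf, ?_⟩
    intro p hp
    have hup : (Gab G a b f).Reachable w p := hreach p (evn_sub hp)
    have hpy := hfar π hch hl hlast p (evn_sub hp) y hy
    have hpy' : p ≠ y := by
      intro h1
      rw [h1, hG.self y] at hpy
      omega
    have hcol : f p = a ∨ f p = b := uni_edge (hup.symm.trans hr) hpy'
    exact cn_of_reach hG hcol (hup.symm.trans hr) (by omega)
  have hsum : (cnt (fun f : V → K => ∃ π ∈ (seqs dist R w (2 * N)).filter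
        (fun π => Chn dist R π ∧ π.length = 2 * N + 1 ∧ π.getLast? = some w),
        Proper G f ∧ E f ∧ ∀ p ∈ evn π, Cn G a b ℓ p f) : ℝ) ≤
      ∑ π ∈ (seqs dist R w (2 * N)).filter
        (fun π => Chn dist R π ∧ π.length = 2 * N + 1 ∧ π.getLast? = some w),
        (cnt (fun f : V → K => Proper G f ∧ E f ∧ ∀ p ∈ evn π, Cn G a b ℓ p f) : ℝ) := by
    have h1 := cnt_ex ((seqs dist R w (2 * N)).filter
        (fun π => Chn dist R π ∧ π.length = 2 * N + 1 ∧ π.getLast? = some w))
        (fun π (f : V → K) => Proper G f ∧ E f ∧ ∀ p ∈ evn π, Cn G a b ℓ p f)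
    exact_mod_cast h1
  have hterm : ∀ π ∈ (seqs dist R w (2 * N)).filter
        (fun π => Chn dist R π ∧ π.length = 2 * N + 1 ∧ π.getLast? = some w),
        (cnt (fun f : V → K => Proper G f ∧ E f ∧ ∀ p ∈ evn π, Cn G a b ℓ p f) : ℝ) ≤
        h ^ (N + 1) * cnt (fun f : V → K => Proper G f ∧ E f) := by
    intro π hπ
    obtain ⟨-, hch, hl, hlast⟩ := Finset.mem_filter.1 hπ
    have h1 := con_many hG h0 hc E hE (evn π) (evn_pairwise hG hch)
      (fun p hp x hx => by
        have := hfar π hch hl hlast p (evn_sub hp) x hx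
        omega)
    rw [evn_length hl] at h1
    exact h1
  have hcard : (((seqs dist R w (2 * N)).filter
        (fun π => Chn dist R π ∧ π.length = 2 * N + 1 ∧ π.getLast? = some w)).card : ℝ) ≤
        (B : ℝ) ^ (2 * N) := by
    have h1 := (Finset.card_filter_le (seqs dist R w (2 * N))
      (fun π => Chn dist R π ∧ π.length = 2 * N + 1 ∧ π.getLast? = some w)).trans
      (seqs_card hB w (2 * N))
    exact_mod_cast h1
  have hnn : 0 ≤ h ^ (N + 1) * (cnt (fun f : V → K => Proper G f ∧ E f) : ℝ) := by positivity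
  calc (cnt (fun f : V → K => Proper G f ∧ E f ∧ ∃ y ∈ Q, (Gab G a b f).Reachable w y) : ℝ)
      ≤ _ := by exact_mod_cast hmono
    _ ≤ _ := hsum
    _ ≤ ∑ π ∈ (seqs dist R w (2 * N)).filter
        (fun π => Chn dist R π ∧ π.length = 2 * N + 1 ∧ π.getLast? = some w),
        h ^ (N + 1) * (cnt (fun f : V → K => Proper G f ∧ E f) : ℝ) := Finset.sum_le_sum hterm
    _ = (((seqs dist R w (2 * N)).filter
        (fun π => Chn dist R π ∧ π.length = 2 * N + 1 ∧ π.getLast? = some w)).card : ℝ) *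
        (h ^ (N + 1) * (cnt (fun f : V → K => Proper G f ∧ E f) : ℝ)) := by
        rw [Finset.sum_const, nsmul_eq_mul]
    _ ≤ (B : ℝ) ^ (2 * N) * (h ^ (N + 1) * (cnt (fun f : V → K => Proper G f ∧ E f) : ℝ)) :=
        mul_le_mul_of_nonneg_right hcard hnn
    _ = (B : ℝ) ^ (2 * N) * h ^ (N + 1) * cnt (fun f : V → K => Proper G f ∧ E f) := by ring

/-- CND. swap with prescribed colours on `Q` -/
theorem con_ab {a b : K} (w : V) (Q : Set V) (σ : V → K) :
    cnt (fun f : V → K => Proper G f ∧ (∀ x ∈ Q, f x = σ x) ∧ f w = a) ≤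
      cnt (fun f : V → K => Proper G f ∧ (∀ x ∈ Q, f x = σ x) ∧ f w = b) +
        cnt (fun f : V → K => Proper G f ∧ (∀ x ∈ Q, f x = σ x) ∧
          ∃ y ∈ Q, (Gab G a b f).Reachable w y) := by
  classical
  have h1 : cnt (fun f : V → K => Proper G f ∧ (∀ x ∈ Q, f x = σ x) ∧ f w = a) ≤
      cnt (fun f : V → K => (Proper G f ∧ (∀ x ∈ Q, f x = σ x) ∧ f w = a ∧
          ¬ ∃ y ∈ Q, (Gab G a b f).Reachable w y) ∨
        (Proper G f ∧ (∀ x ∈ Q, f x = σ x) ∧ ∃ y ∈ Q, (Gab G a b f).Reachable w y)) := by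
    apply cnt_mono
    rintro f ⟨hf, hσ, hw⟩
    by_cases hr : ∃ y ∈ Q, (Gab G a b f).Reachable w y
    · exact Or.inr ⟨hf, hσ, hr⟩
    · exact Or.inl ⟨hf, hσ, hw, hr⟩
  refine h1.trans ((cnt_or _ _).trans (Nat.add_le_add_right ?_ _))
  unfold cnt
  refine Set.ncard_le_ncard_of_injOn (fun f => kswap G a b w f) ?_ ?_ (Set.toFinite _)
  · rintro f ⟨hf, hσ, hw, hr⟩
    refine ⟨kswap_proper hf (Or.inl hw), ?_, ?_⟩
    · intro x hx
      show kswap G a b w f x = σ x
      unfold kswap
      rw [if_neg (fun h => hr ⟨x, hx, h⟩), hσ x hx]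
    · show kswap G a b w f w = b
      unfold kswap
      rw [if_pos (SimpleGraph.Reachable.refl w), hw, Equiv.swap_apply_left]
  · rintro f ⟨hf, hσ, hw, hr⟩ f' ⟨hf', hσ', hw', hr'⟩ he
    have he' : kswap G a b w f = kswap G a b w f' := he
    rw [← kswap_kswap (G := G) (a := a) (b := b) (u := w) (f := f) (Or.inl hw), he',
      kswap_kswap (Or.inl hw')]

/-- CND. the conditional law of the colour of `w` -/
theorem con_kempe {R : ℝ} (hR : 0 ≤ R) (w : V) (Q : Set V) (σ : V → K)
    (h : ∀ a b : K, a ≠ b → (cnt (fun f : V → K => Proper G f ∧ (∀ x ∈ Q, f x = σ x) ∧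
      ∃ y ∈ Q, (Gab G a b f).Reachable w y) : ℝ) ≤ R)
    (hq : 0 < Fintype.card K)
    (hp : 0 < cnt (fun f : V → K => Proper G f ∧ ∀ x ∈ Q, f x = σ x)) (c : K) :
    |(cnt (fun f : V → K => Proper G f ∧ (∀ x ∈ Q, f x = σ x) ∧ f w = c) : ℝ) /
        cnt (fun f : V → K => Proper G f ∧ ∀ x ∈ Q, f x = σ x) - 1 / Fintype.card K| ≤
      R / cnt (fun f : V → K => Proper G f ∧ ∀ x ∈ Q, f x = σ x) := by
  classical
  set P : ℝ := (cnt (fun f : V → K => Proper G f ∧ ∀ x ∈ Q, f x = σ x) : ℝ) with hP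
  have hPpos : 0 < P := by
    rw [hP]
    exact_mod_cast hp
  have hqr : (0 : ℝ) < Fintype.card K := by exact_mod_cast hq
  have hN : P = ∑ b : K, (cnt (fun f : V → K => Proper G f ∧ (∀ x ∈ Q, f x = σ x) ∧ f w = b) : ℝ) := by
    rw [hP, kem_fib (fun f : V → K => Proper G f ∧ ∀ x ∈ Q, f x = σ x) (fun f => f w)]
    refine Finset.sum_congr rfl fun b _ => ?_
    congr 1
    apply cnt_congr
    intro f
    rw [and_assoc]
  have hab : ∀ a b : K, (cnt (fun f : V → K => Proper G f ∧ (∀ x ∈ Q, f x = σ x) ∧ f w = a) : ℝ) -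
      cnt (fun f : V → K => Proper G f ∧ (∀ x ∈ Q, f x = σ x) ∧ f w = b) ≤ R := by
    intro a b
    by_cases hne : a = b
    · subst hne
      rw [sub_self]
      exact hR
    · have h1 : (cnt (fun f : V → K => Proper G f ∧ (∀ x ∈ Q, f x = σ x) ∧ f w = a) : ℝ) ≤
          cnt (fun f : V → K => Proper G f ∧ (∀ x ∈ Q, f x = σ x) ∧ f w = b) +
            cnt (fun f : V → K => Proper G f ∧ (∀ x ∈ Q, f x = σ x) ∧
              ∃ y ∈ Q, (Gab G a b f).Reachable w y) := by
        exact_mod_cast con_ab w Q σ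
      have h2 := h a b hne
      linarith
  set F : K → ℝ := fun b => (cnt (fun f : V → K => Proper G f ∧ (∀ x ∈ Q, f x = σ x) ∧ f w = b) : ℝ)
    with hF
  have key : |Fintype.card K * F c - P| ≤ Fintype.card K * R := by
    have e : (Fintype.card K : ℝ) * F c - P = ∑ b : K, (F c - F b) := by
      rw [hN, Finset.sum_sub_distrib, Finset.sum_const, Finset.card_univ, nsmul_eq_mul]
    rw [e]
    refine (Finset.abs_sum_le_sum_abs _ _).trans ?_
    calc ∑ b : K, |F c - F b| ≤ ∑ _b : K, R := Finset.sum_le_sum fun b _ => by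
          rw [abs_le]
          constructor
          · have := hab b c
            show -R ≤ F c - F b
            have h3 : F b - F c ≤ R := this
            linarith
          · exact hab c b
      _ = Fintype.card K * R := by rw [Finset.sum_const, Finset.card_univ, nsmul_eq_mul]
  have e : F c / P - 1 / Fintype.card K = (Fintype.card K * F c - P) / (Fintype.card K * P) := by
    field_simp
  show |F c / P - 1 / Fintype.card K| ≤ R / P
  rw [e, abs_div, abs_of_pos (mul_pos hqr hPpos), div_le_div_iff₀ (mul_pos hqr hPpos) hPpos]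
  calc |Fintype.card K * F c - P| * P ≤ Fintype.card K * R * P :=
        mul_le_mul_of_nonneg_right key hPpos.le
    _ = R * (Fintype.card K * P) := by ring

/-- CND. the conditional law of the colour of a vertex of the box, given the colours of a set of
vertices at a distance at least `r` from it -/
theorem main_cond {ε : ℝ} (hε : 0 < ε) : ∃ d₀ : ℕ, ∀ d ≥ d₀, ∀ q : ℕ, (2 + ε) * d ≤ q →
    ∃ A c : ℝ, 0 < c ∧ ∀ (n : ℕ) (Q : Set (Bx d n)) (σ : Bx d n → Fin q) (w : Bx d n) (r : ℕ),
      (∀ x ∈ Q, r ≤ bd w x) →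
      0 < cnt (fun f : Bx d n → Fin q => Proper (BG d n) f ∧ ∀ x ∈ Q, f x = σ x) →
      ∀ b : Fin q,
        |(cnt (fun f : Bx d n → Fin q => Proper (BG d n) f ∧ (∀ x ∈ Q, f x = σ x) ∧ f w = b) : ℝ) /
          cnt (fun f : Bx d n → Fin q => Proper (BG d n) f ∧ ∀ x ∈ Q, f x = σ x) - 1 / q| ≤
        A * Real.exp (-(c * r)) := by
  have hx0 : 0 < 2 / (2 + ε) := by positivity
  have hx1 : 2 / (2 + ε) < 1 := by
    rw [div_lt_one (by linarith)]
    linarith
  obtain ⟨z, M, hz0, hz1, hcrit⟩ := crit hx0 hx1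
  obtain ⟨C, hC2, hC⟩ := fin_choose hz0 hz1
  obtain ⟨d₁, hd1, hcr⟩ := hcrit C
  refine ⟨max d₁ (2 * M + 1), ?_⟩
  intro d hd q hq
  have hd' : d₁ ≤ d := (le_max_left _ _).trans hd
  have hdM : 2 * M + 1 ≤ d := (le_max_right _ _).trans hd
  have hdpos : (0 : ℝ) < d := by exact_mod_cast (show 0 < d by omega)
  have hq2 : 2 * d < q := by
    have : (2 * d : ℝ) < q := by nlinarith
    exact_mod_cast this
  have hqpos : 0 < q := by omega
  let _ : Inhabited (Fin q) := ⟨⟨0, hqpos⟩⟩
  have hxq : (2 * d : ℝ) ≤ 2 / (2 + ε) * Fintype.card (Fin q) := by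
    rw [Fintype.card_fin, div_mul_eq_mul_div, le_div_iff₀ (by linarith)]
    nlinarith
  set W : ℕ := (2 * (C * d) + M) * 2 with hW
  have hWpos : 0 < W := by
    have : 0 < C * d := Nat.mul_pos (by omega) (by omega)
    omega
  set c : ℝ := Real.log 2 / W with hc
  have hWr : (0 : ℝ) < W := by exact_mod_cast hWpos
  have hl := Real.log_pos (show (1 : ℝ) < 2 by norm_num)
  have hcpos : 0 < c := by positivity
  refine ⟨2 * Real.exp (c * W), c, hcpos, ?_⟩
  intro n Q σ w r hQ hp b
  set P : ℕ := cnt (fun f : Bx d n → Fin q => Proper (BG d n) f ∧ ∀ x ∈ Q, f x = σ x) with hP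
  have hPr : (0 : ℝ) < P := by exact_mod_cast hp
  set h : ℝ := 2 * z ^ (C * d) with hh
  have hh0 : 0 ≤ h := by positivity
  set B : ℕ := 4 ^ M * (32 * C) ^ d with hB
  have hBh : (B : ℝ) ^ 2 * h ≤ 1 / 2 := fin_small hz0 hC M d hdM
  have hB1 : 1 ≤ (B : ℝ) := by
    have : 0 < B := by
      rw [hB]
      have : 0 < 32 * C := by omega
      positivity
    exact_mod_cast this
  have hh1 : h ≤ 1 := by nlinarith
  -- the trivial bound
  have htriv : |(cnt (fun f : Bx d n → Fin q => Proper (BG d n) f ∧ (∀ x ∈ Q, f x = σ x) ∧ f w = b) :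
      ℝ) / P - 1 / q| ≤ 1 := by
    have h1 : (cnt (fun f : Bx d n → Fin q => Proper (BG d n) f ∧ (∀ x ∈ Q, f x = σ x) ∧ f w = b) :
        ℝ) / P ≤ 1 := by
      refine div_le_one_of_le₀ ?_ (Nat.cast_nonneg _)
      have : cnt (fun f : Bx d n → Fin q => Proper (BG d n) f ∧ (∀ x ∈ Q, f x = σ x) ∧ f w = b) ≤
          P := cnt_mono fun f hf => ⟨hf.1, hf.2.1⟩
      exact_mod_cast this
    have h2 : (0 : ℝ) ≤ (cnt (fun f : Bx d n → Fin q => Proper (BG d n) f ∧ (∀ x ∈ Q, f x = σ x) ∧
        f w = b) : ℝ) / P := by positivity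
    have h3 : (1 : ℝ) / q ≤ 1 := by
      rw [div_le_one (by exact_mod_cast hqpos)]
      exact_mod_cast hqpos
    have h4 : (0 : ℝ) ≤ 1 / q := by positivity
    rw [abs_le]
    constructor <;> linarith
  by_cases hr : r ≤ W
  · have h2 : (1 : ℝ) ≤ Real.exp (c * W) * Real.exp (-(c * r)) := by
      rw [← Real.exp_add]
      refine Real.one_le_exp ?_
      have : (r : ℝ) ≤ W := by exact_mod_cast hr
      nlinarith
    calc _ ≤ (1 : ℝ) := htriv
      _ ≤ Real.exp (c * W) * Real.exp (-(c * r)) := h2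
      _ ≤ 2 * (Real.exp (c * W) * Real.exp (-(c * r))) := by linarith
      _ = _ := by ring
  · have hr : W < r := not_le.1 hr
    -- `N` with `R (2 N + 1) < r`
    set N : ℕ := (r - W) / W with hN
    have hNr : W * N + W ≤ r := by
      have := Nat.mul_div_le (r - W) W
      rw [← hN] at this
      omega
    have hNr2 : (2 * (C * d) + M) * (2 * N + 1) < r := by
      have e : (2 * (C * d) + M) * (2 * N + 1) = W * N + (2 * (C * d) + M) := by
        rw [hW]
        ring
      rw [e]
      have : 2 * (C * d) + M < W := by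
        have : 0 < C * d := Nat.mul_pos (by omega) (by omega)
        omega
      omega
    have huni : ∀ a b : Fin q, a ≠ b →
        (cnt (fun f : Bx d n → Fin q => Proper (BG d n) f ∧ (∀ x ∈ Q, f x = σ x) ∧
          ∃ y ∈ Q, (Gab (BG d n) a b f).Reachable w y) : ℝ) ≤ (1 / 2) ^ N * P := by
      intro a b hab
      have h1 := con_uni (bx_lg d n) (a := a) (b := b) (ℓ := C * d) (M := M) (B := B) (N := N)
        (Nat.mul_pos (by omega) (by omega)) hh0
        (fun u E hE => hcr (Bx d n) (Fin q) (BG d n) bd d hd' (bx_lg d n) hxq a b hab u E hE)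
        (fun x => bx_ball' hC2 M x) (w := w) (Q := Q) (r := r) hQ hNr2
        (fun f => ∀ x ∈ Q, f x = σ x) (by
          intro f f' hf
          apply propext
          refine forall_congr' fun x => forall_congr' fun hx => ?_
          rw [hf x hx])
      refine h1.trans ?_
      refine mul_le_mul_of_nonneg_right ?_ (Nat.cast_nonneg _)
      have e : (B : ℝ) ^ (2 * N) * h ^ (N + 1) = ((B : ℝ) ^ 2 * h) ^ N * h := by
        rw [pow_mul, mul_pow, pow_succ]
        ring
      rw [e]
      have h2 : ((B : ℝ) ^ 2 * h) ^ N ≤ (1 / 2) ^ N := pow_le_pow_left₀ (by positivity) hBh N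
      have h3 : (0 : ℝ) ≤ (1 / 2) ^ N := by positivity
      calc ((B : ℝ) ^ 2 * h) ^ N * h ≤ (1 / 2) ^ N * 1 := mul_le_mul h2 hh1 hh0 h3
        _ = _ := mul_one _
    have hk := con_kempe (K := Fin q) (G := BG d n) (R := (1 / 2) ^ N * P) (by positivity) w Q σ
      huni (by rw [Fintype.card_fin]; exact hqpos) hp b
    rw [Fintype.card_fin] at hk
    have e1 : (1 / 2 : ℝ) ^ N * P / P = (1 / 2) ^ N := by
      field_simp
    rw [e1] at hk
    refine hk.trans ?_
    have hNW : (r : ℝ) / W - 2 ≤ N := by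
      have h1 : r - W < W * (N + 1) := by
        rw [hN]
        exact Nat.lt_mul_div_succ _ hWpos
      have h2 : r ≤ W * (N + 2) := by
        have : W * (N + 2) = W * (N + 1) + W := by ring
        omega
      have h3 : (r : ℝ) ≤ W * (N + 2) := by exact_mod_cast h2
      have h4 : (r : ℝ) / W ≤ N + 2 := by
        rw [div_le_iff₀ hWr]
        linarith
      linarith
    have e2 : (1 / 2 : ℝ) ^ N = Real.exp (-(Real.log 2 * N)) := by
      rw [Real.exp_neg, mul_comm, Real.exp_nat_mul, Real.exp_log (by norm_num), one_div, inv_pow]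
    have e3 : 2 * Real.exp (c * W) * Real.exp (-(c * r)) =
        Real.exp (Real.log 2 + c * W - c * r) := by
      rw [sub_eq_add_neg, Real.exp_add, Real.exp_add, Real.exp_log (by norm_num)]
    rw [e2, e3]
    refine Real.exp_le_exp.2 ?_
    have e4 : c * r = Real.log 2 * (r / W) := by
      rw [hc]
      ring
    have e5 : c * W = Real.log 2 := by
      rw [hc]
      field_simp
    rw [e4, e5]
    nlinarith

end Pool.Agent.QC
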