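import Pool.Agent.Lib_MP_2c424f_pr.Defs

/-!
# Piece BXB: balls in the box
-/

set_option autoImplicit false

open Finset

namespace Pool.Agent.QC

variable {d n : ℕ}

private theorem BXB_geo1 {μ : ℝ} (a : ℕ) : ∀ m, m ≤ a + 1 →
    (1 - μ) * ∑ k ∈ range m, μ ^ (((a : ℤ) - (k : ℤ)).natAbs) = μ ^ (a + 1 - m) - μ ^ (a + 1)
  | 0, _ => by simp
  | m + 1, hm => by
      rw [sum_range_succ, mul_add, BXB_geo1 a m (by omega)]
      have e1 : ((a : ℤ) - (m : ℤ)).natAbs = a + 1 - (m + 1) := by omega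
      have e2 : a + 1 - m = (a + 1 - (m + 1)) + 1 := by omega
      rw [e1, e2, pow_succ]
      ring

private theorem BXB_geo2 {μ : ℝ} (a : ℕ) : ∀ j,
    (1 - μ) * ∑ k ∈ range (a + 1 + j), μ ^ (((a : ℤ) - (k : ℤ)).natAbs) =
      1 + μ - μ ^ (j + 1) - μ ^ (a + 1)
  | 0 => by
      rw [add_zero, BXB_geo1 a (a + 1) le_rfl]
      simp
  | j + 1 => by
      rw [← add_assoc, sum_range_succ, mul_add, BXB_geo2 a j]
      have e1 : ((a : ℤ) - ((a + 1 + j : ℕ) : ℤ)).natAbs = j + 1 := by omega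
      rw [e1]
      ring

private theorem BXB_geo {μ : ℝ} (h0 : 0 < μ) (h1 : μ < 1) (a : Fin (n + 1)) :
    ∑ k : Fin (n + 1), μ ^ (((a : ℤ) - (k : ℤ)).natAbs) ≤ (1 + μ) / (1 - μ) := by
  have e : ∑ k : Fin (n + 1), μ ^ (((a : ℤ) - (k : ℤ)).natAbs) =
      ∑ k ∈ range (n + 1), μ ^ ((((a : ℕ) : ℤ) - (k : ℤ)).natAbs) :=
    Fin.sum_univ_eq_sum_range (fun k => μ ^ ((((a : ℕ) : ℤ) - (k : ℤ)).natAbs)) (n + 1)
  rw [e, le_div_iff₀ (by linarith), mul_comm]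
  obtain ⟨j, hj⟩ : ∃ j, n + 1 = (a : ℕ) + 1 + j := ⟨n - a, by omega⟩
  have hg := BXB_geo2 (μ := μ) (a : ℕ) j
  rw [← hj] at hg
  rw [hg]
  have p1 : 0 < μ ^ (j + 1) := pow_pos h0 _
  have p2 : 0 < μ ^ ((a : ℕ) + 1) := pow_pos h0 _
  linarith

/-- BOX. Ball bound, for `0 < μ < 1`: `#{y | bd x y ≤ r} ≤ ∑_y μ^(bd x y) μ^(-r) = μ^(-r) ∏_i ∑_{y_i} μ^|x_i - y_i| ≤
μ^(-r) ((1 + μ) / (1 - μ))^d` (`Finset.prod_univ_sum`, geometric series). -/
theorem bx_ball {μ : ℝ} (h0 : 0 < μ) (h1 : μ < 1) (x : Bx d n) (r : ℕ) :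
    (cnt (fun y => bd x y ≤ r) : ℝ) ≤ (μ ^ r)⁻¹ * ((1 + μ) / (1 - μ)) ^ d := by
  have hr : 0 < μ ^ r := pow_pos h0 r
  have s1 : (cnt (fun y : Bx d n => bd x y ≤ r) : ℝ) ≤
      ∑ y : Bx d n, (μ ^ r)⁻¹ * μ ^ bd x y := by
    rw [cnt_eq, Finset.card_eq_sum_ones]
    push_cast
    refine (Finset.sum_le_sum (g := fun y => (μ ^ r)⁻¹ * μ ^ bd x y) fun y hy => ?_).trans
      (Finset.sum_le_sum_of_subset_of_nonneg (Finset.subset_univ _) fun y _ _ => ?_)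
    · have hy' : bd x y ≤ r := by simpa using hy
      have : μ ^ r ≤ μ ^ bd x y := pow_le_pow_of_le_one h0.le h1.le hy'
      rw [inv_mul_eq_div, le_div_iff₀ hr]
      linarith
    · positivity
  refine s1.trans ?_
  rw [← Finset.mul_sum]
  refine mul_le_mul_of_nonneg_left ?_ (by positivity)
  have s2 : ∑ y : Bx d n, μ ^ bd x y =
      ∏ i : Fin d, ∑ k : Fin (n + 1), μ ^ (((x i : ℤ) - (k : ℤ)).natAbs) := by
    rw [Finset.prod_univ_sum, Fintype.piFinset_univ]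
    refine Finset.sum_congr rfl fun y _ => ?_
    unfold bd
    rw [Finset.prod_pow_eq_pow_sum]
  rw [s2]
  calc ∏ i : Fin d, ∑ k : Fin (n + 1), μ ^ (((x i : ℤ) - (k : ℤ)).natAbs)
      ≤ ∏ _i : Fin d, (1 + μ) / (1 - μ) :=
        Finset.prod_le_prod (fun i _ => Finset.sum_nonneg fun k _ => by positivity)
          (fun i _ => BXB_geo h0 h1 (x i))
    _ = ((1 + μ) / (1 - μ)) ^ d := by
        rw [Finset.prod_const, Finset.card_univ, Fintype.card_fin]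

/-- BOX. With `μ = 1 - 1 / C`, `C ≥ 2`: `μ^(-C) ≤ 4`, `(1 + μ) / (1 - μ) ≤ 2 C`; for `r = 2 C d + M`:
`#ball ≤ 4^(2 d + M) (2 C)^d ≤ 4^M (32 C)^d`. -/
theorem bx_ball' {C : ℕ} (hC : 2 ≤ C) (M : ℕ) (x : Bx d n) :
    cnt (fun y => bd x y ≤ 2 * (C * d) + M) ≤ 4 ^ M * (32 * C) ^ d := by
  have hC' : (2 : ℝ) ≤ (C : ℝ) := by exact_mod_cast hC
  have hC0 : (0 : ℝ) < (C : ℝ) := by linarith
  set μ : ℝ := 1 - 1 / (C : ℝ) with hμ
  have hinv : 1 / (C : ℝ) ≤ 1 / 2 := one_div_le_one_div_of_le (by norm_num) hC'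
  have hinv0 : 0 < 1 / (C : ℝ) := by positivity
  have h0 : 0 < μ := by rw [hμ]; linarith
  have h1 : μ < 1 := by rw [hμ]; linarith
  have hhalf : 1 / 2 ≤ μ := by rw [hμ]; linarith
  have key : (1 / 4 : ℝ) ≤ μ ^ C := by
    have hb : 1 + ((C : ℝ) / 2) * (-(1 / (C : ℝ))) ≤ (1 + (-(1 / (C : ℝ)))) ^ ((C : ℝ) / 2) :=
      one_add_mul_self_le_rpow_one_add (by linarith) (by linarith)
    have e1 : 1 + ((C : ℝ) / 2) * (-(1 / (C : ℝ))) = 1 / 2 := by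
      field_simp
      ring
    have e2 : (1 : ℝ) + (-(1 / (C : ℝ))) = μ := by rw [hμ]; ring
    rw [e1, e2] at hb
    have e3 : μ ^ C = (μ ^ ((C : ℝ) / 2)) * (μ ^ ((C : ℝ) / 2)) := by
      rw [← Real.rpow_add h0, add_halves, Real.rpow_natCast]
    rw [e3]
    have hpos : 0 ≤ μ ^ ((C : ℝ) / 2) := by positivity
    nlinarith
  have hb := bx_ball h0 h1 x (2 * (C * d) + M)
  have f1 : (1 + μ) / (1 - μ) ≤ 2 * (C : ℝ) := by
    have e4 : 1 - μ = 1 / (C : ℝ) := by rw [hμ]; ring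
    rw [e4, div_div_eq_mul_div, div_one]
    nlinarith
  have f1' : 0 ≤ (1 + μ) / (1 - μ) := by
    apply div_nonneg <;> linarith
  have f2 : (μ ^ (2 * (C * d) + M))⁻¹ ≤ 4 ^ M * 16 ^ d := by
    have g1 : (1 / 16 : ℝ) ^ d * (1 / 4) ^ M ≤ μ ^ (2 * (C * d) + M) := by
      rw [pow_add]
      have g2 : μ ^ (2 * (C * d)) = ((μ ^ C) * (μ ^ C)) ^ d := by
        rw [← pow_add, ← pow_mul]
        congr 1
        ring
      rw [g2]
      refine mul_le_mul ?_ ?_ (by positivity) (by positivity)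
      · refine pow_le_pow_left₀ (by norm_num) ?_ d
        nlinarith
      · exact pow_le_pow_left₀ (by norm_num) (by linarith) M
    have g3 : (0 : ℝ) < (1 / 16 : ℝ) ^ d * (1 / 4) ^ M := by positivity
    have g4 := inv_anti₀ g3 g1
    refine g4.trans (le_of_eq ?_)
    rw [mul_inv, one_div, one_div, inv_pow, inv_pow, inv_inv, inv_inv]
    ring
  have hfin : (cnt (fun y => bd x y ≤ 2 * (C * d) + M) : ℝ) ≤ 4 ^ M * (32 * (C : ℝ)) ^ d := by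
    refine hb.trans ?_
    calc (μ ^ (2 * (C * d) + M))⁻¹ * ((1 + μ) / (1 - μ)) ^ d
        ≤ (4 ^ M * 16 ^ d) * (2 * (C : ℝ)) ^ d :=
          mul_le_mul f2 (pow_le_pow_left₀ f1' f1 d) (by positivity) (by positivity)
      _ = 4 ^ M * (32 * (C : ℝ)) ^ d := by
          rw [mul_assoc, ← mul_pow]
          congr 2
          ring
  exact_mod_cast hfin

theorem bd_corners (d n : ℕ) : bd (c0 d n) (c1 d n) = d * n := by
  unfold bd c0 c1
  simp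

end Pool.Agent.QC
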