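import Pool.Agent.Lib_MP_2c424f_pr.LCB

/-!
# Piece RHA: basic facts on the outward recursion
-/

set_option autoImplicit false

open Finset

namespace Pool.Agent.QC

variable {V K : Type} [Fintype V] [Fintype K] [Inhabited K]
variable (G : SimpleGraph V) (dist : V → V → ℕ) (w : V) (S₀ : Finset V) (L₀ : V → Finset K)

/-- values outside of the list -/
theorem rho_zero_of {k : ℕ} {v : V} {c : K} (hc : c ∉ L₀ v) : rho G dist w S₀ L₀ k v c = 0 := by
  cases k with
  | zero => rw [rho, if_neg hc]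
  | succ k => rw [rho, if_neg hc]

theorem rha_prod {ι : Type*} (s : Finset ι) (b : ι → ℝ) (hb : ∀ i ∈ s, 0 ≤ b i ∧ b i ≤ 1) :
    1 - ∑ i ∈ s, b i ≤ ∏ i ∈ s, (1 - b i) := by
  classical
  induction s using Finset.induction_on with
  | empty => simp
  | insert a s ha ih =>
    rw [Finset.sum_insert ha, Finset.prod_insert ha]
    have h1 := ih fun i hi => hb i (Finset.mem_insert_of_mem hi)
    have h2 := hb a (Finset.mem_insert_self a s)
    have h3 : ∏ i ∈ s, (1 - b i) ≤ 1 := Finset.prod_le_one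
      (fun x hx => by
        have := (hb x (Finset.mem_insert_of_mem hx)).2
        linarith)
      (fun x hx => by
        have := (hb x (Finset.mem_insert_of_mem hx)).1
        linarith)
    nlinarith [h2.1, h2.2]

theorem rha_out_sub {v u : V} (hu : u ∈ Out G dist w S₀ v) : u ∈ S₀ ∧ G.Adj v u := by
  classical
  unfold Out at hu
  rw [Finset.mem_filter] at hu
  exact ⟨hu.1, hu.2.1⟩

theorem rha_card {s : ℕ} (hsl : Slack G S₀ L₀ s) {v : V} (hv : v ∈ S₀) :
    (Out G dist w S₀ v).card + s ≤ (L₀ v).card := by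
  classical
  have h1 := hsl v hv
  have h2 : (Out G dist w S₀ v).card ≤ (S₀.filter fun u => G.Adj v u).card := by
    apply Finset.card_le_card
    intro u hu
    exact Finset.mem_filter.2 (rha_out_sub G dist w S₀ hu)
  have h3 : (S₀.filter fun u => G.Adj v u).card + s ≤ (L₀ v).card := by
    convert h1
  omega

theorem rha_den {s : ℕ} (hs : 1 ≤ s) (hsl : Slack G S₀ L₀ s) (k : ℕ)
    (hf : ∀ v ∈ S₀, (∀ c, 0 ≤ rho G dist w S₀ L₀ k v c) ∧
      (∀ c, rho G dist w S₀ L₀ k v c ≤ 1 / (s : ℝ)) ∧ ∑ c, rho G dist w S₀ L₀ k v c = 1)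
    {v : V} (hv : v ∈ S₀) :
    (s : ℝ) ≤ ∑ c ∈ L₀ v, ∏ u ∈ Out G dist w S₀ v, (1 - rho G dist w S₀ L₀ k u c) := by
  classical
  have hs0 : (1 : ℝ) ≤ s := by exact_mod_cast hs
  have hs1 : 1 / (s : ℝ) ≤ 1 := by
    rw [div_le_one (by linarith)]
    exact hs0
  have h1 : ∀ c ∈ L₀ v, 1 - ∑ u ∈ Out G dist w S₀ v, rho G dist w S₀ L₀ k u c ≤
      ∏ u ∈ Out G dist w S₀ v, (1 - rho G dist w S₀ L₀ k u c) := by
    intro c _
    apply rha_prod
    intro u hu
    have h2 := hf u (rha_out_sub G dist w S₀ hu).1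
    exact ⟨h2.1 c, (h2.2.1 c).trans hs1⟩
  refine le_trans ?_ (Finset.sum_le_sum h1)
  rw [Finset.sum_sub_distrib, Finset.sum_const, nsmul_eq_mul, mul_one, Finset.sum_comm]
  have h3 : ∀ u ∈ Out G dist w S₀ v, ∑ c ∈ L₀ v, rho G dist w S₀ L₀ k u c ≤ 1 := by
    intro u hu
    have h2 := hf u (rha_out_sub G dist w S₀ hu).1
    rw [← h2.2.2]
    exact Finset.sum_le_sum_of_subset_of_nonneg (Finset.subset_univ _) fun c _ _ => h2.1 c
  have h4 := Finset.sum_le_sum h3
  rw [Finset.sum_const, nsmul_eq_mul, mul_one] at h4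
  have h5 : ((Out G dist w S₀ v).card : ℝ) + s ≤ ((L₀ v).card : ℝ) := by
    exact_mod_cast rha_card G dist w S₀ L₀ hsl hv
  linarith

/-- RHA. All basic facts by one induction on `k` (for all `v ∈ S₀`): `0 ≤ ρ`, `ρ ≤ 1 / s`, `∑ ρ = 1`. For
`k = 0`: `(L₀ v).card ≥ s ≥ 1`. Step: the factors `1 - ρ` are in `[0, 1]`, and
`∑_{c ∈ L₀ v} ∏_{u ∈ Out v} (1 - ρ u c) ≥ ∑_{c ∈ L₀ v} (1 - ∑_u ρ u c) ≥ (L₀ v).card - (Out v).card ≥ s`
(`Finset.prod_one_sub_ge`-like inequality `∏ (1 - b) ≥ 1 - ∑ b` for `b ∈ [0,1]`; `∑_c ρ u c = 1`;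
`Out v ⊆ S₀.filter (G.Adj v)` and `Slack`). -/
theorem rho_facts {s : ℕ} (hs : 1 ≤ s) (hsl : Slack G S₀ L₀ s) (k : ℕ) : ∀ v ∈ S₀,
    (∀ c, 0 ≤ rho G dist w S₀ L₀ k v c) ∧ (∀ c, rho G dist w S₀ L₀ k v c ≤ 1 / (s : ℝ)) ∧
    ∑ c, rho G dist w S₀ L₀ k v c = 1 := by
  classical
  have hs0 : (1 : ℝ) ≤ s := by exact_mod_cast hs
  have hs1 : 1 / (s : ℝ) ≤ 1 := by
    rw [div_le_one (by linarith)]
    exact hs0
  induction k with
  | zero =>
    intro v hv
    have h1 := rha_card G dist w S₀ L₀ hsl hv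
    have h2 : (s : ℝ) ≤ ((L₀ v).card : ℝ) := by
      have : s ≤ (L₀ v).card := by omega
      exact_mod_cast this
    have h3 : (0 : ℝ) < ((L₀ v).card : ℝ) := by linarith
    refine ⟨?_, ?_, ?_⟩
    · intro c
      rw [rho]
      split_ifs
      · positivity
      · exact le_refl _
    · intro c
      rw [rho]
      split_ifs
      · exact one_div_le_one_div_of_le (by linarith) h2
      · positivity
    · have h4 : ∀ c, rho G dist w S₀ L₀ 0 v c = if c ∈ L₀ v then 1 / ((L₀ v).card : ℝ) else 0 := by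
        intro c
        rw [rho]
      rw [Finset.sum_congr rfl fun c _ => h4 c, Finset.sum_ite_mem, Finset.univ_inter,
        Finset.sum_const, nsmul_eq_mul]
      field_simp
  | succ k ih =>
    intro v hv
    have hden := rha_den G dist w S₀ L₀ hs hsl k ih hv
    set Dn := ∑ c ∈ L₀ v, ∏ u ∈ Out G dist w S₀ v, (1 - rho G dist w S₀ L₀ k u c) with hDn
    have hD0 : 0 < Dn := by linarith
    have hval : ∀ c, rho G dist w S₀ L₀ (k + 1) v c = if c ∈ L₀ v then
        (∏ u ∈ Out G dist w S₀ v, (1 - rho G dist w S₀ L₀ k u c)) / Dn else 0 := by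
      intro c
      rw [rho, hDn]
    have hp : ∀ c, 0 ≤ ∏ u ∈ Out G dist w S₀ v, (1 - rho G dist w S₀ L₀ k u c) ∧
        ∏ u ∈ Out G dist w S₀ v, (1 - rho G dist w S₀ L₀ k u c) ≤ 1 := by
      intro c
      constructor
      · apply Finset.prod_nonneg
        intro u hu
        have := (ih u (rha_out_sub G dist w S₀ hu).1).2.1 c
        linarith
      · apply Finset.prod_le_one
        · intro u hu
          have := (ih u (rha_out_sub G dist w S₀ hu).1).2.1 c
          linarith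
        · intro u hu
          have := (ih u (rha_out_sub G dist w S₀ hu).1).1 c
          linarith
    refine ⟨?_, ?_, ?_⟩
    · intro c
      rw [hval]
      split_ifs
      · exact div_nonneg (hp c).1 hD0.le
      · exact le_refl _
    · intro c
      rw [hval]
      split_ifs
      · calc (∏ u ∈ Out G dist w S₀ v, (1 - rho G dist w S₀ L₀ k u c)) / Dn ≤ 1 / Dn :=
            div_le_div_of_nonneg_right (hp c).2 hD0.le
          _ ≤ 1 / (s : ℝ) := one_div_le_one_div_of_le (by linarith) hden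
      · positivity
    · rw [Finset.sum_congr rfl fun c _ => hval c, Finset.sum_ite_mem, Finset.univ_inter,
        ← Finset.sum_div, ← hDn]
      exact div_self hD0.ne'

/-- RHA. the denominator of the recursion (proof in `rho_facts`) -/
theorem rho_den {s : ℕ} (hs : 1 ≤ s) (hsl : Slack G S₀ L₀ s) (k : ℕ) {v : V} (hv : v ∈ S₀) :
    (s : ℝ) ≤ ∑ c ∈ L₀ v, ∏ u ∈ Out G dist w S₀ v, (1 - rho G dist w S₀ L₀ k u c) :=
  rha_den G dist w S₀ L₀ hs hsl k (rho_facts G dist w S₀ L₀ hs hsl k) hv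

/-- RHA. positivity: if `2 ≤ s` then the factors `1 - ρ ≥ 1/2` are positive -/
theorem rho_pos {s : ℕ} (hs : 2 ≤ s) (hsl : Slack G S₀ L₀ s) (k : ℕ) {v : V} (hv : v ∈ S₀) {c : K}
    (hc : c ∈ L₀ v) : 0 < rho G dist w S₀ L₀ k v c := by
  classical
  have hs0 : (2 : ℝ) ≤ s := by exact_mod_cast hs
  cases k with
  | zero =>
    have h1 := rha_card G dist w S₀ L₀ hsl hv
    have h2 : (s : ℝ) ≤ ((L₀ v).card : ℝ) := by
      have : s ≤ (L₀ v).card := by omega
      exact_mod_cast this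
    have h3 : (0 : ℝ) < ((L₀ v).card : ℝ) := by linarith
    rw [rho, if_pos hc]
    positivity
  | succ k =>
    rw [rho, if_pos hc]
    have hden := rho_den G dist w S₀ L₀ (by omega : 1 ≤ s) hsl k hv
    apply div_pos
    · apply Finset.prod_pos
      intro u hu
      have h1 := (rho_facts G dist w S₀ L₀ (by omega : 1 ≤ s) hsl k u
        (rha_out_sub G dist w S₀ hu).1).2.1 c
      have h2 : 1 / (s : ℝ) ≤ 1 / 2 := one_div_le_one_div_of_le (by norm_num) hs0
      linarith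
    · linarith

end Pool.Agent.QC
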