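import Pool.Agent.Lib_MP_2c424f_pr.RAT
import Pool.Agent.Lib_MP_2c424f_pr.RHA

/-!
# Piece CLA: the product of the recursion
-/

set_option autoImplicit false

open Finset

namespace Pool.Agent.QC

variable {V K : Type} [Fintype V] [Fintype K] [Inhabited K]

/-- CLM. `N_c := Z G S' (rm L (nb G v) c) / Z G S' L` (`S' = S.erase v`) is close to the product of the outward
recursion.

Proof. Let `T = nb G v ∩ S'` (`Z_congr`: only the lists on `S'` matter). `ratio` with `b u = ρ_(k-1) u c`,
`t u = err (k-1)` for the outer neighbours `u` (`dist w u = dist w v + 1`; then `k ≥ 1` as `dist w u ≤ M`), and `b u = 0`,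
`t u = 1 / s` for the inner ones. For `T₁ ⊆ T`, `u ∈ T`, `u ∉ T₁`: the instance `(S', rm L T₁ c)` has slack `s`
(`slack_erase`). If `u` is inner: `Pr ≤ 1 / s` (`Pr_le`). If `u` is outer: the instance is in the class of the level
`dist w u`: a vertex `u' ∈ S₀` with `dist w u' > dist w v + 1` is in `S`, is not `v`, is not a neighbour of `v` (`step`)
so its list is unchanged; and the list of `u` itself is unchanged since `u ∉ T₁`, and equal to `L₀ u` since
`dist w u > dist w v`; so the induction hypothesis `ih` applies. The outer neighbours in `T` are exactly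
`Out G dist w S₀ v` (vertices of `S₀` farther than `v` are in `S`). There are at most `D` of them (`deg`) and at most
`dist w v ≤ M` inner ones (`inner`); `∏ (1 - b u)` is the product over `Out`. For `k = 0` the set `Out` is empty
(`dist w u ≤ M`), and the statement is the one with `E = 0`. -/
theorem clm_ratio {G : SimpleGraph V} {dist : V → V → ℕ} {D : ℕ} (hG : IsLG G dist D) {w : V}
    {S₀ : Finset V} {L₀ : V → Finset K} {s M : ℕ} (hs : 1 ≤ s) (hlev : ∀ v ∈ S₀, dist w v ≤ M)
    (hsl : Slack G S₀ L₀ s) {S : Finset V} {L : V → Finset K} {v : V} (hv : v ∈ S)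
    (hC : Cls G dist w S₀ L₀ s (dist w v) S L) (c : K) (ρ : V → K → ℝ)
    (hρ : ∀ u ∈ S₀, 0 ≤ ρ u c ∧ ρ u c ≤ 1 / s) {E : ℝ} (hE : 0 ≤ E) [DecidableEq V]
    (ih : ∀ u ∈ S₀, dist w u = dist w v + 1 → ∀ S' L', Cls G dist w S₀ L₀ s (dist w u) S' L' → u ∈ S' →
      L' u = L₀ u → |Pr G S' L' u c - ρ u c| ≤ E) :
    |(Z G (S.erase v) (rm L (nb G v) c) : ℝ) / Z G (S.erase v) L -
      ∏ u ∈ Out G dist w S₀ v, (1 - ρ u c)| ≤ D * E + M / s := by
  classical
  have hs0 : (0 : ℝ) < s := by exact_mod_cast hs
  have hvS₀ : v ∈ S₀ := hC.sub hv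
  set T : Finset V := (nb G v).filter (fun u => u ∈ S.erase v) with hTdef
  have hTS : T ⊆ S.erase v := fun u hu => (Finset.mem_filter.1 hu).2
  have hTnb : T ⊆ nb G v := Finset.filter_subset _ _
  have hTmem : ∀ u, u ∈ T ↔ G.Adj v u ∧ u ∈ S.erase v := by
    intro u
    rw [hTdef, Finset.mem_filter]
    unfold nb
    rw [Finset.mem_filter]
    exact ⟨fun h => ⟨h.1.2, h.2⟩, fun h => ⟨⟨Finset.mem_univ _, h.1⟩, h.2⟩⟩
  have hZ : Z G (S.erase v) (rm L (nb G v) c) = Z G (S.erase v) (rm L T c) := by
    apply Z_congr
    intro u hu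
    unfold rm
    by_cases hun : u ∈ nb G v
    · have huT : u ∈ T := by
        rw [hTdef, Finset.mem_filter]
        exact ⟨hun, hu⟩
      rw [if_pos hun, if_pos huT]
    · have huT : u ∉ T := fun h => hun (hTnb h)
      rw [if_neg hun, if_neg huT]
  have hslT : ∀ T₁ ⊆ T, Slack G (S.erase v) (rm L T₁ c) s := by
    intro T₁ hT₁
    have h1 := slack_erase G hC.slack hv (hT₁.trans hTnb) c
    convert h1
  have hout_lt : dist w v < dist w v + 1 := Nat.lt_succ_self _
  -- the main estimate
  have key := ratio G (S.erase v) L c T hTS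
    (fun T₁ hT₁ => Z_pos G hs (hslT T₁ hT₁))
    (fun u => if dist w u = dist w v + 1 then ρ u c else 0)
    (fun u => if dist w u = dist w v + 1 then E else 1 / (s : ℝ))
    (by
      intro u hu
      have huS₀ : u ∈ S₀ := hC.sub (Finset.mem_of_mem_erase (hTS hu))
      split_ifs
      · obtain ⟨h1, h2⟩ := hρ u huS₀
        refine ⟨h1, h2.trans ?_⟩
        rw [div_le_one hs0]
        exact_mod_cast hs
      · exact ⟨le_refl _, zero_le_one⟩)
    (by
      intro T₁ hT₁ u hu huT₁
      have huS' : u ∈ S.erase v := hTS hu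
      have huS₀ : u ∈ S₀ := hC.sub (Finset.mem_of_mem_erase huS')
      split_ifs with hd
      · refine ih u huS₀ hd (S.erase v) (rm L T₁ c) ?_ huS' ?_
        · refine ⟨?_, ?_, ?_, hslT T₁ hT₁⟩
          · exact fun x hx => hC.sub (Finset.mem_of_mem_erase hx)
          · intro x
            unfold rm
            split_ifs
            · exact (Finset.erase_subset _ _).trans (hC.lsub x)
            · exact hC.lsub x
          · intro x hx hdx
            have hdx' : dist w v < dist w x := by omega
            obtain ⟨h1, h2⟩ := hC.out x hx hdx'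
            have hxv : x ≠ v := by
              intro h0
              rw [h0] at hdx'
              exact lt_irrefl _ hdx'
            have hxT : x ∉ T₁ := by
              intro h0
              have h3 := ((hTmem x).1 (hT₁ h0)).1
              rcases hG.step w v x h3 with h4 | h4 <;> omega
            refine ⟨Finset.mem_erase.2 ⟨hxv, h1⟩, ?_⟩
            unfold rm
            rw [if_neg hxT]
            exact h2
        · unfold rm
          rw [if_neg huT₁]
          exact (hC.out u huS₀ (by omega)).2
      · rw [sub_zero, abs_of_nonneg (Pr_nonneg G _ _ _ _)]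
        exact Pr_le G hs huS' (hslT T₁ hT₁) c)
  have hOT : Out G dist w S₀ v ⊆ T := by
    intro u hu
    unfold Out at hu
    rw [Finset.mem_filter] at hu
    obtain ⟨h1, h2, h3⟩ := hu
    rw [hTmem]
    refine ⟨h2, Finset.mem_erase.2 ⟨?_, (hC.out u h1 (by omega)).1⟩⟩
    intro h0
    rw [h0] at h3
    omega
  have hprod : ∏ u ∈ T, (1 - (if dist w u = dist w v + 1 then ρ u c else 0)) =
      ∏ u ∈ Out G dist w S₀ v, (1 - ρ u c) := by
    rw [← Finset.prod_subset hOT]
    · refine Finset.prod_congr rfl fun u hu => ?_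
      unfold Out at hu
      rw [Finset.mem_filter] at hu
      rw [if_pos hu.2.2]
    · intro u hu hu'
      have h1 := (hTmem u).1 hu
      have h2 : ¬ dist w u = dist w v + 1 := by
        intro h3
        apply hu'
        unfold Out
        rw [Finset.mem_filter]
        exact ⟨hC.sub (Finset.mem_of_mem_erase h1.2), h1.1, h3⟩
      rw [if_neg h2, sub_zero]
  have hsum : ∑ u ∈ T, (if dist w u = dist w v + 1 then E else 1 / (s : ℝ)) ≤
      D * E + M / s := by
    rw [Finset.sum_ite, Finset.sum_const, Finset.sum_const, nsmul_eq_mul, nsmul_eq_mul]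
    have h1 : ((T.filter fun u => dist w u = dist w v + 1).card : ℝ) ≤ D := by
      have h2 : (T.filter fun u => dist w u = dist w v + 1).card ≤
          cnt (fun y => G.Adj v y) := by
        rw [cnt_eq]
        refine Finset.card_le_card fun u hu => ?_
        simp only [Finset.mem_filter, Finset.mem_univ, true_and] at hu ⊢
        exact ((hTmem u).1 hu.1).1
      exact_mod_cast h2.trans (hG.deg v)
    have h3 : ((T.filter fun u => ¬ dist w u = dist w v + 1).card : ℝ) ≤ M := by
      have h4 : (T.filter fun u => ¬ dist w u = dist w v + 1).card ≤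
          cnt (fun y => G.Adj v y ∧ dist w v = dist w y + 1) := by
        rw [cnt_eq]
        refine Finset.card_le_card fun u hu => ?_
        simp only [Finset.mem_filter, Finset.mem_univ, true_and] at hu ⊢
        have h5 := ((hTmem u).1 hu.1).1
        refine ⟨h5, ?_⟩
        rcases hG.step w v u h5 with h6 | h6
        · exact absurd h6 hu.2
        · exact h6
      exact_mod_cast (h4.trans (hG.inner w v)).trans (hlev v hvS₀)
    have h7 : ((T.filter fun u => dist w u = dist w v + 1).card : ℝ) * E ≤ D * E :=
      mul_le_mul_of_nonneg_right h1 hE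
    have h8 : ((T.filter fun u => ¬ dist w u = dist w v + 1).card : ℝ) * (1 / (s : ℝ)) ≤
        M / s := by
      rw [mul_one_div]
      exact div_le_div_of_nonneg_right h3 hs0.le
    linarith
  rw [hZ, ← hprod]
  exact key.trans hsum

end Pool.Agent.QC
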