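import Pool.Agent.Lib_MP_2c424f_pr.CLA

/-!
# Piece CLB: the marginals are given by the outward recursion
-/

set_option autoImplicit false

open Finset

namespace Pool.Agent.QC

variable {V K : Type} [Fintype V] [Fintype K] [Inhabited K]

/-- CLM. elementary: `N c / ∑ N` and `N' c / ∑ N'` for `|N - N'| ≤ δ`, `∑ N' ≥ s`, `N c / ∑ N ≤ 1 / s`:
`N c / ∑ N - N' c / ∑ N' = (N c - N' c) / ∑ N' + (N c / ∑ N) * (∑ N' - ∑ N) / ∑ N'`. -/
theorem clm_quot {ι : Type} (A : Finset ι) (N N' : ι → ℝ) {δ s q : ℝ} (hs : 0 < s)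
    (hA : (A.card : ℝ) ≤ q) (hN : ∀ i ∈ A, |N i - N' i| ≤ δ) (hS : s ≤ ∑ i ∈ A, N' i)
    (hp : 0 < ∑ i ∈ A, N i) {i : ι} (hi : i ∈ A) (h0 : 0 ≤ N i) (h1 : N i / ∑ i ∈ A, N i ≤ 1 / s) :
    |N i / ∑ i ∈ A, N i - N' i / ∑ i ∈ A, N' i| ≤ 1 / s * (1 + q / s) * δ := by
  have hδ : 0 ≤ δ := (abs_nonneg _).trans (hN i hi)
  have hq : 0 ≤ q := (Nat.cast_nonneg _).trans hA
  have hdiff : |∑ i ∈ A, N' i - ∑ i ∈ A, N i| ≤ q * δ := by
    rw [← Finset.sum_sub_distrib]
    refine (Finset.abs_sum_le_sum_abs _ _).trans ?_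
    refine (Finset.sum_le_sum fun j hj => ?_ : _ ≤ ∑ j ∈ A, δ).trans ?_
    · rw [abs_sub_comm]
      exact hN j hj
    · rw [Finset.sum_const, nsmul_eq_mul]
      exact mul_le_mul_of_nonneg_right hA hδ
  set P := ∑ i ∈ A, N i with hP
  set P' := ∑ i ∈ A, N' i with hP'
  have hP'pos : 0 < P' := lt_of_lt_of_le hs hS
  have key : N i / P - N' i / P' = (N i - N' i) / P' + N i / P * ((P' - P) / P') := by
    field_simp
    ring
  have hinv : 1 / P' ≤ 1 / s := one_div_le_one_div_of_le hs hS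
  have hinv0 : 0 ≤ 1 / P' := by positivity
  have e1 : |(N i - N' i) / P'| ≤ δ * (1 / s) := by
    rw [abs_div, abs_of_pos hP'pos, div_eq_mul_one_div]
    exact mul_le_mul (hN i hi) hinv hinv0 hδ
  have e2 : |N i / P * ((P' - P) / P')| ≤ 1 / s * (q * δ * (1 / s)) := by
    rw [abs_mul, abs_of_nonneg (div_nonneg h0 hp.le), abs_div, abs_of_pos hP'pos,
      div_eq_mul_one_div |P' - P| P']
    refine mul_le_mul h1 ?_ (mul_nonneg (abs_nonneg _) hinv0) (by positivity)
    exact mul_le_mul hdiff hinv hinv0 (mul_nonneg hq hδ)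
  rw [key]
  refine (abs_add_le _ _).trans ((add_le_add e1 e2).trans (le_of_eq ?_))
  ring

theorem clb_err_nonneg (q s D M k : ℕ) : 0 ≤ err q s D M k := by
  induction k with
  | zero => unfold err; positivity
  | succ k ih => unfold err; positivity

/-- the common part of the two cases -/
theorem clb_step {G : SimpleGraph V} {dist : V → V → ℕ} {D : ℕ} (hG : IsLG G dist D) {w : V}
    {S₀ : Finset V} {L₀ : V → Finset K} {s M : ℕ} (hs : 1 ≤ s) (hlev : ∀ v ∈ S₀, dist w v ≤ M)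
    (hsl : Slack G S₀ L₀ s) {v : V} {S : Finset V} {L : V → Finset K} (hv : v ∈ S)
    (hC : Cls G dist w S₀ L₀ s (dist w v) S L) (hL : L v = L₀ v) (ρ : V → K → ℝ)
    (hρ : ∀ c, ∀ u ∈ S₀, 0 ≤ ρ u c ∧ ρ u c ≤ 1 / s) {E : ℝ} (hE : 0 ≤ E)
    (hden : (s : ℝ) ≤ ∑ c' ∈ L₀ v, ∏ u ∈ Out G dist w S₀ v, (1 - ρ u c'))
    (ih : ∀ u ∈ S₀, dist w u = dist w v + 1 → ∀ S' L', Cls G dist w S₀ L₀ s (dist w u) S' L' → u ∈ S' →
      L' u = L₀ u → ∀ c, |Pr G S' L' u c - ρ u c| ≤ E) {c : K} (hc : c ∈ L₀ v) :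
    |Pr G S L v c - (∏ u ∈ Out G dist w S₀ v, (1 - ρ u c)) /
        ∑ c' ∈ L₀ v, ∏ u ∈ Out G dist w S₀ v, (1 - ρ u c')| ≤
      1 / (s : ℝ) * (1 + (Fintype.card K : ℝ) / s) * (D * E + M / s) := by
  classical
  have hs' : (0 : ℝ) < s := by exact_mod_cast hs
  have hsl' : Slack G (S.erase v) L s := by
    have h := slack_erase G hC.slack hv (T := ∅) (Finset.empty_subset _) c
    rwa [rm_empty] at h
  have hZ1 : 0 < Z G (S.erase v) L := Z_pos G hs hsl'
  have hZ1' : (0 : ℝ) < Z G (S.erase v) L := by exact_mod_cast hZ1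
  have hZ2 : 0 < Z G S L := Z_pos G hs hC.slack
  have hZ2' : (0 : ℝ) < Z G S L := by exact_mod_cast hZ2
  have hsumN : ∑ c' ∈ L₀ v, (Z G (S.erase v) (rm L (nb G v) c') : ℝ) / Z G (S.erase v) L =
      (Z G S L : ℝ) / Z G (S.erase v) L := by
    rw [← Finset.sum_div]
    congr 1
    rw [Z_sum G hv L, hL]
    push_cast
    refine Finset.sum_congr rfl fun c' hc' => ?_
    rw [Zc_eq G hv (by rw [hL]; exact hc')]
  have hquo : ∀ c' ∈ L₀ v, (Z G (S.erase v) (rm L (nb G v) c') : ℝ) / Z G (S.erase v) L /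
      ∑ c' ∈ L₀ v, (Z G (S.erase v) (rm L (nb G v) c') : ℝ) / Z G (S.erase v) L =
        Pr G S L v c' := by
    intro c' hc'
    rw [hsumN]
    unfold Pr
    rw [Zc_eq G hv (by rw [hL]; exact hc')]
    field_simp
  have hmain := clm_quot (L₀ v)
    (fun c' => (Z G (S.erase v) (rm L (nb G v) c') : ℝ) / Z G (S.erase v) L)
    (fun c' => ∏ u ∈ Out G dist w S₀ v, (1 - ρ u c'))
    (δ := D * E + M / s) (s := s) (q := Fintype.card K) hs'
    (by exact_mod_cast Finset.card_le_univ _)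
    (fun c' _ => clm_ratio hG hs hlev hsl hv hC c' ρ (hρ c') hE
      (fun u hu hd S' L' h1 h2 h3 => ih u hu hd S' L' h1 h2 h3 c'))
    hden (by rw [hsumN]; positivity) hc (by positivity)
    (by
      rw [hquo c hc]
      exact Pr_le G hs hv hC.slack c)
  rw [hquo c hc] at hmain
  exact hmain

/-- CLM. The marginals.

Proof. Induction on `k`. If `c ∉ L₀ v = L v` both are `0` (`Zc_zero`, `rho_zero_of`). Otherwise
`Pr G S L v c = Zc / ∑_{c' ∈ L v} Zc` (`Z_sum`), `Zc_eq`, and division of all terms by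
`Z G (S.erase v) L > 0` (`slack_erase` with `T = ∅`, `rm_empty`, `Z_pos`): `N_c / ∑ N_c'`. `clm_ratio` (with
`ρ = rho … (k-1)`, `E = err (k-1)` by the induction hypothesis; for `k = 0` with `ρ = 0`, `E = 0`: there are no `u ∈ S₀`
with `dist w u = M + 1`, and `rho … 0 v c = 1 / (L₀ v).card` is the quotient with all products equal to `1` as
`Out … v = ∅`), `rho_den`, `clm_quot` with `A = L₀ v`, `Pr_le`. -/
theorem claim {G : SimpleGraph V} {dist : V → V → ℕ} {D : ℕ} (hG : IsLG G dist D) {w : V}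
    {S₀ : Finset V} {L₀ : V → Finset K} {s M : ℕ} (hs : 1 ≤ s) (hlev : ∀ v ∈ S₀, dist w v ≤ M)
    (hsl : Slack G S₀ L₀ s) (k : ℕ) : ∀ v S L, dist w v + k = M → v ∈ S →
    Cls G dist w S₀ L₀ s (dist w v) S L → L v = L₀ v → ∀ c,
    |Pr G S L v c - rho G dist w S₀ L₀ k v c| ≤ err (Fintype.card K) s D M k := by
  classical
  have hs' : (0 : ℝ) < s := by exact_mod_cast hs
  have hzero : ∀ k v S L, v ∈ S → L v = L₀ v → ∀ c, c ∉ L₀ v →
      |Pr G S L v c - rho G dist w S₀ L₀ k v c| ≤ err (Fintype.card K) s D M k := by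
    intro k v S L hv hL c hc
    have h1 : Pr G S L v c = 0 := by
      unfold Pr
      rw [Zc_zero G hv (by rw [hL]; exact hc), Nat.cast_zero, zero_div]
    rw [h1, rho_zero_of G dist w S₀ L₀ hc, sub_zero, abs_zero]
    exact clb_err_nonneg _ _ _ _ _
  induction k with
  | zero =>
    intro v S L hd hv hC hL c
    by_cases hc : c ∈ L₀ v
    · have hout : Out G dist w S₀ v = ∅ := by
        unfold Out
        refine Finset.filter_eq_empty_iff.2 fun u hu h => ?_
        have := hlev u hu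
        have := h.2
        omega
      have hcard : (s : ℝ) ≤ ((L₀ v).card : ℝ) := by
        have := hsl v (hC.sub hv)
        exact_mod_cast (Nat.le_add_left _ _).trans this
      have h := clb_step hG hs hlev hsl hv hC hL (fun _ _ => 0)
        (fun _ _ _ => ⟨le_refl _, by positivity⟩) (E := 0) le_rfl
        (by rw [hout]; simpa using hcard)
        (by
          intro u hu h1
          have := hlev u hu
          omega) hc
      rw [hout] at h
      simp only [Finset.prod_empty, Finset.sum_const, nsmul_eq_mul, mul_one, mul_zero,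
        zero_add] at h
      unfold rho err
      rw [if_pos hc]
      exact h
    · exact hzero 0 v S L hv hL c hc
  | succ k ih =>
    intro v S L hd hv hC hL c
    by_cases hc : c ∈ L₀ v
    · have hf := rho_facts G dist w S₀ L₀ hs hsl k
      have h := clb_step hG hs hlev hsl hv hC hL (fun u c => rho G dist w S₀ L₀ k u c)
        (fun c u hu => ⟨(hf u hu).1 c, (hf u hu).2.1 c⟩) (clb_err_nonneg _ _ _ _ _)
        (rho_den G dist w S₀ L₀ hs hsl k (hC.sub hv))
        (by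
          intro u hu h1 S' L' h2 h3 h4 c
          exact ih u S' L' (by omega) h3 h2 h4 c) hc
      unfold rho err
      rw [if_pos hc]
      exact h
    · exact hzero (k + 1) v S L hv hL c hc

end Pool.Agent.QC
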