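import Pool.Agent.Lib_MP_2c424f_pr.Defs

/-!
# Piece CRN: a limit
-/

set_option autoImplicit false

open Finset Filter

namespace Pool.Agent.QC

/-- CRI. Pure analysis. For constants `0 < z < 1`, `A > 0`, `τ > 0`, `M`, `C` there is `d₀` such that for `d ≥ d₀`, with
`I` a natural number `≥ τ d - M - 2`: `(((2 M + 1 : ℝ) / (2 d)) ^ I) * A ^ (C d) * (1 + C d) ≤ z ^ (C d)`.

Proof. For `d` large `(2 M + 1) / (2 d) ≤ 1` and `I ≥ τ d / 2`, so the left side is at most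
`((2 M + 1) / (2 d))^(τ d / 2) * A^(C d) * (1 + C d)`, whose `d`-th root tends to `0`. (Or: choose `ε > 0` with
`ε^(τ/2) * max A 1 ^ C * 2^(C+1) ≤ z^C`, and `d` with `(2 M + 1) / (2 d) ≤ ε`, `1 + C d ≤ 2^(C d)·2`.) -/
theorem cri_num {z A τ : ℝ} (hz0 : 0 < z) (hz1 : z < 1) (hA : 0 < A) (hτ : 0 < τ) (M C : ℕ) :
    ∃ d₀ : ℕ, 0 < d₀ ∧ ∀ d : ℕ, d₀ ≤ d → ∀ I : ℕ, τ * d - M - 2 ≤ I →
      ((2 * M + 1 : ℝ) / (2 * d)) ^ I * A ^ (C * d) * (1 + (C * d : ℕ)) ≤ z ^ (C * d) := by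
  have hA1 : (1 : ℝ) ≤ max A 1 := le_max_right _ _
  have hAp : (0 : ℝ) < 2 * max A 1 := by linarith
  obtain ⟨N, hN⟩ := exists_nat_ge (2 / τ)
  have hNτ : (2 : ℝ) ≤ N * τ := by
    rw [div_le_iff₀ hτ] at hN
    exact hN
  have hy0 : 0 < z / (2 * max A 1) := div_pos hz0 hAp
  have hy1 : z / (2 * max A 1) ≤ 1 := by
    rw [div_le_one hAp]
    linarith
  have hyN : 0 < (z / (2 * max A 1)) ^ (C * N) := pow_pos hy0 _
  obtain ⟨d1, hd1⟩ := exists_nat_ge ((2 * M + 1) / (2 * (z / (2 * max A 1)) ^ (C * N)))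
  obtain ⟨d2, hd2⟩ := exists_nat_ge (2 * (M + 2) / τ)
  refine ⟨max 1 (max d1 d2), lt_of_lt_of_le Nat.zero_lt_one (le_max_left _ _), ?_⟩
  intro d hd I hI
  have hd1' : d1 ≤ d := (le_max_left _ _).trans ((le_max_right _ _).trans hd)
  have hd2' : d2 ≤ d := (le_max_right _ _).trans ((le_max_right _ _).trans hd)
  have hdpos : 1 ≤ d := (le_max_left _ _).trans hd
  have hdR : (1 : ℝ) ≤ d := by exact_mod_cast hdpos
  have hd1R : (d1 : ℝ) ≤ d := by exact_mod_cast hd1'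
  have hd2R : (d2 : ℝ) ≤ d := by exact_mod_cast hd2'
  -- the base is small
  have hx : ((2 * M + 1 : ℝ) / (2 * d)) ≤ (z / (2 * max A 1)) ^ (C * N) := by
    rw [div_le_iff₀ (by linarith)]
    have h1 := hd1.trans hd1R
    rw [div_le_iff₀ (by linarith)] at h1
    linarith
  have hx0 : 0 ≤ ((2 * M + 1 : ℝ) / (2 * d)) := by positivity
  -- the exponent is large
  have hI2 : (d : ℝ) ≤ N * I := by
    have h1 := hd2.trans hd2R
    rw [div_le_iff₀ hτ] at h1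
    have h2 : τ * d / 2 ≤ I := by
      refine le_trans ?_ hI
      linarith
    have h3 : (N : ℝ) * (τ * d / 2) ≤ N * I := mul_le_mul_of_nonneg_left h2 (Nat.cast_nonneg N)
    have h4 : (2 : ℝ) * d ≤ N * τ * d := mul_le_mul_of_nonneg_right hNτ (by linarith)
    linarith
  have hI3 : d ≤ N * I := by exact_mod_cast hI2
  have key : ((2 * M + 1 : ℝ) / (2 * d)) ^ I ≤ (z / (2 * max A 1)) ^ (C * d) := by
    calc ((2 * M + 1 : ℝ) / (2 * d)) ^ I ≤ ((z / (2 * max A 1)) ^ (C * N)) ^ I :=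
          pow_le_pow_left₀ hx0 hx I
      _ = (z / (2 * max A 1)) ^ (C * (N * I)) := by rw [← pow_mul, mul_assoc]
      _ ≤ (z / (2 * max A 1)) ^ (C * d) :=
          pow_le_pow_of_le_one hy0.le hy1 (Nat.mul_le_mul_left C hI3)
  have hA2 : A ^ (C * d) ≤ (max A 1) ^ (C * d) := pow_le_pow_left₀ hA.le (le_max_left _ _) _
  have h2 : (1 + ((C * d : ℕ) : ℝ)) ≤ 2 ^ (C * d) := by
    have h := Nat.lt_two_pow_self (n := C * d)
    have h' : 1 + C * d ≤ 2 ^ (C * d) := by omega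
    exact_mod_cast h'
  calc ((2 * M + 1 : ℝ) / (2 * d)) ^ I * A ^ (C * d) * (1 + (C * d : ℕ))
      ≤ (z / (2 * max A 1)) ^ (C * d) * (max A 1) ^ (C * d) * 2 ^ (C * d) := by
        apply mul_le_mul _ h2 (by positivity) (by positivity)
        exact mul_le_mul key hA2 (by positivity) (by positivity)
    _ = z ^ (C * d) := by
        rw [mul_assoc, ← mul_pow, ← mul_pow]
        congr 1
        have : (2 * max A 1) ≠ 0 := hAp.ne'
        rw [mul_comm (max A 1) 2, div_mul_cancel₀ _ this]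

end Pool.Agent.QC
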