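import Pool.Agent.Lib_MP_2c424f_pr.PPR
import Pool.Agent.Lib_MP_2c424f_pr.CRN

/-!
# Piece CRI: the finite size criterion
-/

set_option autoImplicit false

open Finset Filter

namespace Pool.Agent.QC

theorem cri_ubd_mono {V K : Type} [Fintype V] [Fintype K] {G : SimpleGraph V} {dist : V → V → ℕ} {M m : ℕ}
    {e₁ K₁ K₀ : ℝ} (hK : K₁ ≤ K₀) (h : UBd (K := K) G dist M m e₁ K₁) : UBd (K := K) G dist M m e₁ K₀ := by
  intro v Q hv E g hE hg
  obtain ⟨h1, h2⟩ := h v Q hv E g hE hg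
  refine ⟨h1, h2.trans ?_⟩
  exact mul_le_mul_of_nonneg_right hK (Nat.cast_nonneg _)

/-- CRI. The finite size criterion.

Proof. Let `z = √x` (`x < z < 1`) and `e = 1 / z - 1`, so `x (1 + e) = z`. `ub_main` for `x`, `e` gives `M`, `τ`, `q₀`. Let
`K₀ = max (1 / (1 - x)) (1 + e)`, `m = ⌊τ q⌋₊`, `I = (m - 2 M) / 2` (so `2 I + 2 M ≤ m` if `m ≥ 2 M`, true for large `d`; and
`I ≥ τ q / 2 - M - 2 ≥ τ d - M - 2` since `q ≥ 2 d / x ≥ 2 d`), `D = 2 d`, `ℓ = C d`. `cn_le`, `om_le`, `bad_single` with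
`θ = D / (2 M + 1) ≥ 1`: `D + θ (2 M + 1) = 2 D`, so
`om ≤ ((1 + e) D / q)^ℓ + (K₀ / q)^ℓ ((2 M + 1) / D)^I (2 D)^ℓ (1 + ℓ) ≤ z^ℓ + (2 K₀ x)^ℓ ((2 M + 1) / D)^I (1 + ℓ) ≤ 2 z^ℓ`
by `cri_num` with `A = 2 K₀ x` (`D / q ≤ x`). (`UBd` with `1 / (1 - x)` implies `UBd` with the larger `K₀`.) -/
theorem crit {x : ℝ} (hx0 : 0 < x) (hx1 : x < 1) : ∃ (z : ℝ) (M : ℕ), 0 < z ∧ z < 1 ∧
    ∀ C : ℕ, ∃ d₀ : ℕ, 0 < d₀ ∧ ∀ (V K : Type) [Fintype V] [Fintype K] [Inhabited K] (G : SimpleGraph V)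
      (dist : V → V → ℕ) (d : ℕ), d₀ ≤ d → IsLG G dist (2 * d) → (2 * d : ℝ) ≤ x * Fintype.card K →
      ∀ (a b : K), a ≠ b → ∀ (u : V) (E : (V → K) → Prop), DepOn {y | C * d + M < dist u y} E →
        (cnt (fun f : V → K => Proper G f ∧ E f ∧ Cn G a b (C * d) u f) : ℝ) ≤
          2 * z ^ (C * d) * cnt (fun f : V → K => Proper G f ∧ E f) := by
  set z : ℝ := Real.sqrt x with hz
  have hz0 : 0 < z := Real.sqrt_pos.2 hx0
  have hzz : z * z = x := Real.mul_self_sqrt hx0.le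
  have hz1 : z < 1 := by
    nlinarith
  set e : ℝ := 1 / z - 1 with he
  have he0 : 0 < e := by
    have : 1 < 1 / z := by rw [lt_div_iff₀ hz0]; linarith
    linarith
  have hxe : x * (1 + e) = z := by
    rw [he, ← hzz]
    field_simp
    ring
  obtain ⟨M, τ, q₀, hτ, hq₀, hub⟩ := ub_main hx0 hx1 he0
  refine ⟨z, M, hz0, hz1, fun C => ?_⟩
  set K₀ : ℝ := max (1 / (1 - x)) (1 + e) with hK₀
  have hK0 : 0 < K₀ := lt_of_lt_of_le (by linarith) (le_max_right _ _)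
  obtain ⟨d₁, hd₁, hnum⟩ := cri_num (A := 2 * K₀ * x) hz0 hz1 (by positivity) hτ M C
  refine ⟨max (max d₁ (M + 1)) (max q₀ ⌈2 * M / τ⌉₊), lt_of_lt_of_le hd₁ ((le_max_left _ _).trans (le_max_left _ _)), ?_⟩
  intro V K _ _ _ G dist d hd hG hdq a b hab u E hE
  have hdd₁ : d₁ ≤ d := ((le_max_left _ _).trans (le_max_left _ _)).trans hd
  have hdM : M + 1 ≤ d := ((le_max_right _ _).trans (le_max_left _ _)).trans hd
  have hdq₀ : q₀ ≤ d := ((le_max_left _ _).trans (le_max_right _ _)).trans hd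
  have hdτ : 2 * M / τ ≤ d := by
    have h1 : ⌈2 * M / τ⌉₊ ≤ d := ((le_max_right _ _).trans (le_max_right _ _)).trans hd
    exact (Nat.le_ceil _).trans (by exact_mod_cast h1)
  rw [div_le_iff₀ hτ] at hdτ
  set q : ℝ := (Fintype.card K : ℝ) with hq
  have hd0 : (0 : ℝ) < d := by
    have : 0 < d := by omega
    exact_mod_cast this
  have hq0 : 0 < q := by
    by_contra h
    push Not at h
    have : x * q ≤ 0 := mul_nonpos_of_nonneg_of_nonpos hx0.le h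
    linarith
  have h2dq : 2 * (d : ℝ) ≤ q := by
    refine hdq.trans ?_
    nlinarith
  have hcard : q₀ ≤ Fintype.card K := by
    have h1 : (q₀ : ℝ) ≤ q := by
      have : (q₀ : ℝ) ≤ d := by exact_mod_cast hdq₀
      linarith
    rw [hq] at h1
    exact_mod_cast h1
  have hD : ((2 * d : ℕ) : ℝ) = 2 * d := by push_cast; ring
  set m : ℕ := ⌊τ * q⌋₊ with hm
  have hU : UBd (K := K) G dist M m (1 + e) K₀ :=
    cri_ubd_mono (le_max_left _ _) (hub V K G dist (2 * d) hG hcard (by rw [hD]; exact hdq))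
  have hτq : 2 * (τ * d) ≤ τ * q := by nlinarith
  have hmM : 2 * M ≤ m := by
    apply Nat.le_floor
    push_cast
    nlinarith
  have hmq : τ * q < m + 1 := Nat.lt_floor_add_one _
  set I : ℕ := (m - 2 * M) / 2 with hI
  have hI1 : 2 * I + 2 * M ≤ m := by omega
  have hI2 : m ≤ 2 * I + 2 * M + 1 := by omega
  have hI3 : τ * d - M - 2 ≤ I := by
    have : (m : ℝ) ≤ 2 * I + 2 * M + 1 := by exact_mod_cast hI2
    linarith
  have hM1 : (0 : ℝ) < 2 * M + 1 := by positivity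
  set θ : ℝ := ((2 * d : ℕ) : ℝ) / (2 * M + 1) with hθ
  have hθ1 : 1 ≤ θ := by
    rw [hθ, le_div_iff₀ hM1, hD]
    have : (M : ℝ) + 1 ≤ d := by exact_mod_cast hdM
    linarith
  have hbad := bad_single (D := 2 * d) hG hI1 hθ1 (C * d) u
  have hom := om_le (D := 2 * d) (q := q) (M := M) (m := m) hG (show (0 : ℝ) ≤ 1 + e by linarith)
    (show 1 + e ≤ K₀ from le_max_right _ _) hq0 (C * d) [u]
  have hcn := cn_le (D := 2 * d) hG (show (0 : ℝ) ≤ 1 + e by linarith) hK0.le hU hab u (C * d) E hE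
  have t1 : ((1 + e) * ((2 * d : ℕ) : ℝ) / q) ^ (C * d) ≤ z ^ (C * d) := by
    apply pow_le_pow_left₀ (by positivity)
    rw [div_le_iff₀ hq0, hD, ← hxe]
    nlinarith
  have t2 : (K₀ / q) ^ (C * d) * bad G dist M m (2 * d) (C * d) [u] ≤ z ^ (C * d) := by
    have e1 : (((2 * d : ℕ) : ℝ) + θ * (2 * M + 1)) = 2 * (2 * d) := by
      rw [hθ, div_mul_cancel₀ _ hM1.ne', hD]
      ring
    have e2 : (θ ^ I)⁻¹ = ((2 * M + 1 : ℝ) / (2 * d)) ^ I := by
      rw [← inv_pow, hθ, inv_div, hD]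
    rw [e1, e2] at hbad
    have h3 : 0 ≤ (K₀ / q) ^ (C * d) := by positivity
    have h4 : (K₀ / q * (2 * (2 * d))) ^ (C * d) ≤ (2 * K₀ * x) ^ (C * d) := by
      apply pow_le_pow_left₀ (by positivity)
      rw [div_mul_eq_mul_div, div_le_iff₀ hq0]
      nlinarith
    have h5 : 0 ≤ ((2 * M + 1 : ℝ) / (2 * d)) ^ I := by positivity
    calc (K₀ / q) ^ (C * d) * bad G dist M m (2 * d) (C * d) [u]
        ≤ (K₀ / q) ^ (C * d) * (((2 * M + 1 : ℝ) / (2 * d)) ^ I * (2 * (2 * (d : ℝ))) ^ (C * d) * (1 + (C * d : ℕ))) :=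
          mul_le_mul_of_nonneg_left hbad h3
      _ = ((2 * M + 1 : ℝ) / (2 * d)) ^ I * (K₀ / q * (2 * (2 * d))) ^ (C * d) * (1 + (C * d : ℕ)) := by
          rw [mul_pow (K₀ / q)]
          ring
      _ ≤ ((2 * M + 1 : ℝ) / (2 * d)) ^ I * (2 * K₀ * x) ^ (C * d) * (1 + (C * d : ℕ)) := by
          apply mul_le_mul_of_nonneg_right _ (by positivity)
          exact mul_le_mul_of_nonneg_left h4 h5
      _ ≤ z ^ (C * d) := hnum d hdd₁ I hI3
  refine hcn.trans ?_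
  apply mul_le_mul_of_nonneg_right _ (Nat.cast_nonneg _)
  refine hom.trans ?_
  linarith

end Pool.Agent.QC
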