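import Pool.Agent.Lib_MP_2c424f_pr.KEA

/-!
# Piece KEM: Kempe chains
-/

set_option autoImplicit false

open Finset

namespace Pool.Agent.QC

variable {V K : Type} [Fintype V] [Fintype K] {G : SimpleGraph V}

/-- KEM. `#(f u = a, f v = a) ≤ #(f u = b, f v = a) + #(u, v connected)`: `kswap` is an injection from the proper `f`
with `f u = a`, `f v = c`, `v` not connected with `u`, to those with `f u = b`, `f v = c`, `v` not connected with `u`. -/
theorem kempe_ab {a b : K} (hab : a ≠ b) (u v : V) (c : K) :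
    cnt (fun f : V → K => Proper G f ∧ f u = a ∧ f v = c) ≤
      cnt (fun f : V → K => Proper G f ∧ f u = b ∧ f v = c) +
        cnt (fun f : V → K => Proper G f ∧ (Gab G a b f).Reachable u v) := by
  classical
  have h1 : cnt (fun f : V → K => Proper G f ∧ f u = a ∧ f v = c) ≤
      cnt (fun f : V → K => (Proper G f ∧ f u = a ∧ f v = c ∧ ¬ (Gab G a b f).Reachable u v) ∨
        (Proper G f ∧ (Gab G a b f).Reachable u v)) := by
    apply cnt_mono
    rintro f ⟨hf, hu, hv⟩
    by_cases hr : (Gab G a b f).Reachable u v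
    · exact Or.inr ⟨hf, hr⟩
    · exact Or.inl ⟨hf, hu, hv, hr⟩
  refine h1.trans ((cnt_or _ _).trans (Nat.add_le_add_right ?_ _))
  unfold cnt
  refine Set.ncard_le_ncard_of_injOn (fun f => kswap G a b u f) ?_ ?_ (Set.toFinite _)
  · rintro f ⟨hf, hu, hv, hr⟩
    refine ⟨kswap_proper hf (Or.inl hu), ?_, ?_⟩
    · show kswap G a b u f u = b
      unfold kswap
      rw [if_pos (SimpleGraph.Reachable.refl u), hu, Equiv.swap_apply_left]
    · show kswap G a b u f v = c
      unfold kswap
      rw [if_neg hr, hv]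
  · rintro f ⟨hf, hu, hv, hr⟩ f' ⟨hf', hu', hv', hr'⟩ he
    have he' : kswap G a b u f = kswap G a b u f' := he
    rw [← kswap_kswap (G := G) (a := a) (b := b) (u := u) (f := f) (Or.inl hu), he',
      kswap_kswap (Or.inl hu')]

open scoped Classical in
theorem kem_fib (p : (V → K) → Prop) (φ : (V → K) → K) :
    (cnt p : ℝ) = ∑ b : K, (cnt (fun f : V → K => p f ∧ φ f = b) : ℝ) := by
  have h1 : (univ.filter p).card = ∑ b ∈ (univ : Finset K),
      ((univ.filter p).filter (fun f => φ f = b)).card :=
    Finset.card_eq_sum_card_fiberwise (fun f _ => by simp)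
  rw [cnt_eq, h1]
  push_cast
  refine Finset.sum_congr rfl fun b _ => ?_
  rw [cnt_eq, Finset.filter_filter]
  congr 2
  ext f
  simp only [mem_filter, mem_univ, true_and]

/-- KEM. `q #(f u = f v) - #proper = ∑_{a, b} (#(f u = a, f v = a) - #(f u = b, f v = a))`, and each term is at most
`R` in absolute value. -/
theorem kempe {R : ℝ} (hR : 0 ≤ R) (u v : V)
    (h : ∀ a b : K, a ≠ b →
      (cnt (fun f : V → K => Proper G f ∧ (Gab G a b f).Reachable u v) : ℝ) ≤ R)
    (hq : 0 < Fintype.card K) (hp : 0 < cnt (fun f : V → K => Proper G f)) :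
    |(cnt (fun f : V → K => Proper G f ∧ f u = f v) : ℝ) / cnt (fun f : V → K => Proper G f) -
      1 / Fintype.card K| ≤ Fintype.card K * (R / cnt (fun f : V → K => Proper G f)) := by
  classical
  have hE : (cnt (fun f : V → K => Proper G f ∧ f u = f v) : ℝ) =
      ∑ a : K, (cnt (fun f : V → K => Proper G f ∧ f u = a ∧ f v = a) : ℝ) := by
    rw [kem_fib (fun f : V → K => Proper G f ∧ f u = f v) (fun f => f v)]
    refine Finset.sum_congr rfl fun a _ => ?_
    congr 1
    apply cnt_congr
    intro f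
    constructor
    · rintro ⟨⟨h1, h2⟩, h3⟩
      exact ⟨h1, h2.trans h3, h3⟩
    · rintro ⟨h1, h2, h3⟩
      exact ⟨⟨h1, h2.trans h3.symm⟩, h3⟩
  have hN : (cnt (fun f : V → K => Proper G f) : ℝ) =
      ∑ a : K, ∑ b : K, (cnt (fun f : V → K => Proper G f ∧ f u = b ∧ f v = a) : ℝ) := by
    rw [kem_fib (fun f : V → K => Proper G f) (fun f => f v)]
    refine Finset.sum_congr rfl fun a _ => ?_
    rw [kem_fib (fun f : V → K => Proper G f ∧ f v = a) (fun f => f u)]
    refine Finset.sum_congr rfl fun b _ => ?_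
    congr 1
    apply cnt_congr
    intro f
    constructor
    · rintro ⟨⟨h1, h2⟩, h3⟩
      exact ⟨h1, h3, h2⟩
    · rintro ⟨h1, h2, h3⟩
      exact ⟨⟨h1, h3⟩, h2⟩
  have hab : ∀ a b : K, |(cnt (fun f : V → K => Proper G f ∧ f u = a ∧ f v = a) : ℝ) -
      cnt (fun f : V → K => Proper G f ∧ f u = b ∧ f v = a)| ≤ R := by
    intro a b
    by_cases hne : a = b
    · subst hne
      rw [sub_self, abs_zero]
      exact hR
    · have h1 : (cnt (fun f : V → K => Proper G f ∧ f u = a ∧ f v = a) : ℝ) ≤
          cnt (fun f : V → K => Proper G f ∧ f u = b ∧ f v = a) +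
            cnt (fun f : V → K => Proper G f ∧ (Gab G a b f).Reachable u v) := by
        exact_mod_cast kempe_ab hne u v a
      have h2 : (cnt (fun f : V → K => Proper G f ∧ f u = b ∧ f v = a) : ℝ) ≤
          cnt (fun f : V → K => Proper G f ∧ f u = a ∧ f v = a) +
            cnt (fun f : V → K => Proper G f ∧ (Gab G b a f).Reachable u v) := by
        exact_mod_cast kempe_ab (Ne.symm hne) u v a
      have h3 := h a b hne
      have h4 := h b a (Ne.symm hne)
      rw [abs_le]
      constructor <;> linarith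
  have hq' : (0 : ℝ) < Fintype.card K := by exact_mod_cast hq
  have hp' : (0 : ℝ) < cnt (fun f : V → K => Proper G f) := by exact_mod_cast hp
  have hmain : |(Fintype.card K : ℝ) * (cnt (fun f : V → K => Proper G f ∧ f u = f v) : ℝ) -
      cnt (fun f : V → K => Proper G f)| ≤ (Fintype.card K : ℝ) * (Fintype.card K * R) := by
    have h5 : (Fintype.card K : ℝ) * (cnt (fun f : V → K => Proper G f ∧ f u = f v) : ℝ) -
        cnt (fun f : V → K => Proper G f) = ∑ a : K, ∑ b : K,
          ((cnt (fun f : V → K => Proper G f ∧ f u = a ∧ f v = a) : ℝ) -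
            cnt (fun f : V → K => Proper G f ∧ f u = b ∧ f v = a)) := by
      rw [hE, hN, Finset.mul_sum, ← Finset.sum_sub_distrib]
      refine Finset.sum_congr rfl fun a _ => ?_
      rw [Finset.sum_sub_distrib, Finset.sum_const, nsmul_eq_mul, Finset.card_univ]
    rw [h5]
    refine (Finset.abs_sum_le_sum_abs _ _).trans ?_
    have h6 : ∀ a ∈ (univ : Finset K), |∑ b : K,
          ((cnt (fun f : V → K => Proper G f ∧ f u = a ∧ f v = a) : ℝ) -
            cnt (fun f : V → K => Proper G f ∧ f u = b ∧ f v = a))| ≤ Fintype.card K * R := by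
      intro a _
      refine (Finset.abs_sum_le_sum_abs _ _).trans ?_
      refine (Finset.sum_le_sum fun b _ => hab a b).trans (le_of_eq ?_)
      rw [Finset.sum_const, nsmul_eq_mul, Finset.card_univ]
    refine (Finset.sum_le_sum h6).trans (le_of_eq ?_)
    rw [Finset.sum_const, nsmul_eq_mul, Finset.card_univ]
  have h7 : (cnt (fun f : V → K => Proper G f ∧ f u = f v) : ℝ) / cnt (fun f : V → K => Proper G f) -
      1 / Fintype.card K = ((Fintype.card K : ℝ) * (cnt (fun f : V → K => Proper G f ∧ f u = f v) : ℝ) -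
      cnt (fun f : V → K => Proper G f)) / (Fintype.card K * cnt (fun f : V → K => Proper G f)) := by
    field_simp
  rw [h7, abs_div, abs_of_pos (mul_pos hq' hp'), div_le_iff₀ (mul_pos hq' hp')]
  refine hmain.trans (le_of_eq ?_)
  field_simp

end Pool.Agent.QC
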