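import Pool.Agent.Lib_MP_2c424f_pr.Defs

/-!
# Piece SKB: connections and paths
-/

set_option autoImplicit false

open Finset

namespace Pool.Agent.QC

variable {V K : Type} [Fintype V] [Fintype K] {G : SimpleGraph V} {dist : V → V → ℕ} {D : ℕ}

/-- SKE. a path in a graph gives an extension: if `p` is a path from `x` to `y` in the subgraph `H` of the vertices in `A` and
`π = x :: …` is disjoint from the rest of the path then `Ext G A n π` for `n ≤ p.length`. Induction on the path. -/
theorem ext_of_walk {A : V → Prop} {H : SimpleGraph V} (hH : ∀ x y, H.Adj x y → G.Adj x y ∧ A y) :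
    ∀ {x y : V} (p : H.Walk x y), p.IsPath → ∀ (π : List V), (∀ z ∈ p.support, z ≠ x → z ∉ π) →
      ∀ n ≤ p.length, Ext G A n (x :: π) := by
  intro x y p
  induction p with
  | nil =>
    intro _ π _ n hn
    have : n = 0 := by simpa using hn
    subst this
    exact trivial
  | @cons x v y h p ih =>
    intro hp π hπ n hn
    cases n with
    | zero => exact trivial
    | succ n =>
      rw [SimpleGraph.Walk.cons_isPath_iff] at hp
      obtain ⟨hp1, hp2⟩ := hp
      have hvx : v ≠ x := fun e => hp2 (e ▸ p.start_mem_support)
      have hvπ : v ∉ π := hπ v (by simp) hvx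
      refine ⟨v, ?_, (hH x v h).2, ?_⟩
      · simp only [nxt, mem_filter, mem_univ, true_and, List.mem_cons, not_or]
        exact ⟨(hH x v h).1, hvx, hvπ⟩
      · refine ih hp1 (x :: π) ?_ n (by simpa using hn)
        intro z hz _
        have hzx : z ≠ x := fun e => hp2 (e ▸ hz)
        simp only [List.mem_cons, not_or]
        exact ⟨hzx, hπ z (by simp [hz]) hzx⟩

theorem SKB_dist_walk (hG : IsLG G dist D) {H : SimpleGraph V} (hH : ∀ x y, H.Adj x y → G.Adj x y)
    (w : V) : ∀ {x y : V} (p : H.Walk x y), dist w y ≤ dist w x + p.length := by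
  intro x y p
  induction p with
  | nil => simp
  | @cons x v y h p ih =>
    have h1 := hG.step w x v (hH x v h)
    rw [SimpleGraph.Walk.length_cons]
    omega

/-- SKE. A two-coloured connection of `x` with a vertex at distance `≥ n` gives a path with `n` steps: every walk from
`x` to `y` has at least `dist x y` steps (`step`), take a path (`Reachable.exists_isPath`). -/
theorem cn_of_reach (hG : IsLG G dist D) {a b : K} {f : V → K} {x y : V} (hx : f x = a ∨ f x = b)
    (h : (Gab G a b f).Reachable x y) {n : ℕ} (hn : n ≤ dist x y) : Cn G a b n x f := by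
  obtain ⟨p, hp⟩ := h.exists_isPath
  refine ⟨hx, ?_⟩
  have hl : dist x y ≤ dist x x + p.length :=
    SKB_dist_walk hG (H := Gab G a b f) (fun x y h => h.1) x p
  rw [hG.self] at hl
  exact ext_of_walk (H := Gab G a b f) (fun x y h => ⟨h.1, h.2.2⟩) p hp [] (by simp) n (by omega)

end Pool.Agent.QC
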