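import Pool.Agent.Lib_MP_2c424f_pr.SKC

/-!
# Piece SKD: counting chains
-/

set_option autoImplicit false

open Finset

namespace Pool.Agent.QC

variable {V K : Type} [Fintype V] [Fintype K] {G : SimpleGraph V} {dist : V → V → ℕ} {D : ℕ}

open scoped Classical in
/-- all lists with `n + 1` points, consecutive points within distance `r`, starting (last) at `x` -/
noncomputable def seqs (dist : V → V → ℕ) (r : ℕ) (x : V) : ℕ → Finset (List V)
  | 0 => {[x]}
  | n + 1 => (seqs dist r x n).biUnion fun π =>
      (univ.filter fun v => ∃ h ∈ π.head?, dist h v ≤ r).image fun v => v :: π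

theorem seqs_card {r B : ℕ} (hB : ∀ x, cnt (fun y => dist x y ≤ r) ≤ B) (x : V) (n : ℕ) :
    (seqs dist r x n).card ≤ B ^ n := by
  classical
  induction n with
  | zero => simp [seqs]
  | succ n ih =>
    unfold seqs
    refine Finset.card_biUnion_le.trans ?_
    have h1 : ∀ π ∈ seqs dist r x n,
        ((univ.filter fun v => ∃ h ∈ π.head?, dist h v ≤ r).image fun v => v :: π).card ≤ B := by
      intro π _
      refine Finset.card_image_le.trans ?_
      cases hπ : π.head? with
      | none => simp
      | some h =>
        have := hB h
        rw [cnt_eq] at this
        refine le_trans (Finset.card_le_card ?_) this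
        intro v hv
        simp only [mem_filter, mem_univ, true_and, Option.mem_def, Option.some.injEq] at hv ⊢
        obtain ⟨h', rfl, h2⟩ := hv
        exact h2
    refine (Finset.sum_le_card_nsmul _ _ B h1).trans ?_
    rw [smul_eq_mul, pow_succ]
    exact Nat.mul_le_mul_right B ih

theorem chn_mem_seqs {r n : ℕ} {x : V} {π : List V} (h : Chn dist r π) (hl : π.length = n + 1)
    (hx : π.getLast? = some x) : π ∈ seqs dist r x n := by
  classical
  induction n generalizing π with
  | zero =>
    match π, h, hl, hx with
    | [v], _, _, hx =>
      simp only [List.getLast?_singleton, Option.some.injEq] at hx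
      subst hx
      simp [seqs]
  | succ n ih =>
    match π, h, hl, hx with
    | [v], _, hl, _ => simp at hl
    | v :: p :: π, h, hl, hx =>
      have h1 : p :: π ∈ seqs dist r x n := by
        apply ih h.2.2
        · simpa using hl
        · simpa using hx
      unfold seqs
      simp only [mem_biUnion, mem_image, mem_filter, mem_univ, true_and]
      exact ⟨p :: π, h1, v, ⟨p, by simp, h.1⟩, rfl⟩

/-- every second element of a list -/
def evn : List V → List V
  | [] => []
  | [a] => [a]
  | a :: _ :: π => a :: evn π

theorem evn_sub {π : List V} {x : V} (h : x ∈ evn π) : x ∈ π := by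
  induction π using evn.induct with
  | case1 => exact h
  | case2 a => exact h
  | case3 a b π ih =>
    simp only [evn, List.mem_cons] at h ⊢
    rcases h with h | h
    · exact Or.inl h
    · exact Or.inr (Or.inr (ih h))

/-- SKE. For a chain the elements of `evn π` have pairwise distances `> r`, and for length `2 n + 1` there are `n + 1` of
them. -/
theorem evn_pairwise (hG : IsLG G dist D) {r : ℕ} {π : List V} (h : Chn dist r π) :
    (evn π).Pairwise (fun x y => r < dist x y) := by
  induction π using evn.induct with
  | case1 => exact List.Pairwise.nil
  | case2 a => simp [evn]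
  | case3 a b π ih =>
    simp only [evn, List.pairwise_cons]
    refine ⟨?_, ?_⟩
    · intro y hy
      rw [hG.symm]
      exact h.2.1 y (evn_sub hy)
    · match π, h, ih with
      | [], _, _ => exact List.Pairwise.nil
      | p :: π, h, ih => exact ih h.2.2.2.2

theorem evn_length {π : List V} {n : ℕ} (h : π.length = 2 * n + 1) : (evn π).length = n + 1 := by
  induction n generalizing π with
  | zero =>
    match π, h with
    | [a], _ => simp [evn]
  | succ n ih =>
    match π, h with
    | [a], h => simp at h
    | a :: b :: π, h =>
      simp only [evn, List.length_cons]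
      rw [ih]
      simp only [List.length_cons] at h
      omega

end Pool.Agent.QC
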