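import Pool.Agent.Lib_MP_2c424f_pr.SKA
import Pool.Agent.Lib_MP_2c424f_pr.SKB
import Pool.Agent.Lib_MP_2c424f_pr.SKD

/-!
# Piece UNI: exponential decay of two-coloured connections
-/

set_option autoImplicit false

open Finset

namespace Pool.Agent.QC

variable {V K : Type} [Fintype V] [Fintype K] {G : SimpleGraph V} {dist : V → V → ℕ} {D : ℕ}

omit [Fintype V] [Fintype K] in
theorem uni_edge {a b : K} {f : V → K} {x y : V} (h : (Gab G a b f).Reachable x y) (hne : x ≠ y) :
    f x = a ∨ f x = b := by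
  obtain ⟨p⟩ := h
  cases p with
  | nil => exact absurd rfl hne
  | cons hadj _ => exact hadj.2.1

/-- UNI. Let `r = 2 ℓ + M`, `B` a bound for the number of points of the balls of radius `r`. If
`dist u v > r (2 N)` (and `≥ 2 ℓ`) then the number of the proper colourings for which `u`, `v` are connected by a two-coloured path is
at most `B^(2N) h^(N+1)` times the number of proper colourings.

Proof. `exists_chn` (for `H = Gab G a b f`): a chain `π` of `2 N + 1` points reachable from `u`; it is in `seqs`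
(`chn_mem_seqs`). Every `p ∈ π` has a colour in `{a, b}` (it is `u` or it is reached by an edge) and is at a distance `≥ ℓ` from `u` or from
`v` (`tri`, `symm`), so `Cn G a b ℓ p f` (`cn_of_reach`). Union bound over `seqs` restricted to the chains (`cnt_ex`), `cn_many`
for `evn π` (`evn_pairwise`, `evn_length`, `evn_sub`), `seqs_card`. -/
theorem uni (hG : IsLG G dist D) {a b : K} {ℓ M B N : ℕ} (hℓ : 1 ≤ ℓ) {h : ℝ} (h0 : 0 ≤ h)
    (hc : ∀ (u : V) (E : (V → K) → Prop), DepOn {y | ℓ + M < dist u y} E →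
      (cnt (fun f : V → K => Proper G f ∧ E f ∧ Cn G a b ℓ u f) : ℝ) ≤
        h * cnt (fun f : V → K => Proper G f ∧ E f))
    (hB : ∀ x, cnt (fun y => dist x y ≤ 2 * ℓ + M) ≤ B) {u v : V}
    (hN : (2 * ℓ + M) * (2 * N) < dist u v) (hd : 2 * ℓ ≤ dist u v) :
    (cnt (fun f : V → K => Proper G f ∧ (Gab G a b f).Reachable u v) : ℝ) ≤
      (B : ℝ) ^ (2 * N) * h ^ (N + 1) * cnt (fun f : V → K => Proper G f) := by
  classical
  have huv : u ≠ v := by
    intro h1
    rw [h1, hG.self v] at hd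
    omega
  have hmono : cnt (fun f : V → K => Proper G f ∧ (Gab G a b f).Reachable u v) ≤
      cnt (fun f : V → K => ∃ π ∈ (seqs dist (2 * ℓ + M) u (2 * N)).filter
        (fun π => Chn dist (2 * ℓ + M) π ∧ π.length = 2 * N + 1),
        Proper G f ∧ ∀ p ∈ evn π, Cn G a b ℓ p f) := by
    apply cnt_mono
    rintro f ⟨hf, hr⟩
    obtain ⟨π, hl, hch, hlast, hreach⟩ := exists_chn hG (H := Gab G a b f) (fun x y hxy => hxy.1)
      (show 1 ≤ 2 * ℓ + M by omega) hr hN
    refine ⟨π, Finset.mem_filter.2 ⟨chn_mem_seqs hch hl hlast, hch, hl⟩, hf, ?_⟩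
    intro p hp
    have hup : (Gab G a b f).Reachable u p := hreach p (evn_sub hp)
    have hcol : f p = a ∨ f p = b := by
      by_cases hpu : p = u
      · subst hpu
        exact uni_edge hr huv
      · exact uni_edge hup.symm hpu
    by_cases hdu : ℓ ≤ dist p u
    · exact cn_of_reach hG hcol hup.symm hdu
    · have hdv : ℓ ≤ dist p v := by
        have h1 := hG.tri u p v
        have h2 := hG.symm u p
        omega
      exact cn_of_reach hG hcol (hup.symm.trans hr) hdv
  have hsum : (cnt (fun f : V → K => ∃ π ∈ (seqs dist (2 * ℓ + M) u (2 * N)).filter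
        (fun π => Chn dist (2 * ℓ + M) π ∧ π.length = 2 * N + 1),
        Proper G f ∧ ∀ p ∈ evn π, Cn G a b ℓ p f) : ℝ) ≤
      ∑ π ∈ (seqs dist (2 * ℓ + M) u (2 * N)).filter
        (fun π => Chn dist (2 * ℓ + M) π ∧ π.length = 2 * N + 1),
        (cnt (fun f : V → K => Proper G f ∧ ∀ p ∈ evn π, Cn G a b ℓ p f) : ℝ) := by
    have h1 := cnt_ex ((seqs dist (2 * ℓ + M) u (2 * N)).filter
        (fun π => Chn dist (2 * ℓ + M) π ∧ π.length = 2 * N + 1))
        (fun π (f : V → K) => Proper G f ∧ ∀ p ∈ evn π, Cn G a b ℓ p f)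
    exact_mod_cast h1
  have hterm : ∀ π ∈ (seqs dist (2 * ℓ + M) u (2 * N)).filter
        (fun π => Chn dist (2 * ℓ + M) π ∧ π.length = 2 * N + 1),
        (cnt (fun f : V → K => Proper G f ∧ ∀ p ∈ evn π, Cn G a b ℓ p f) : ℝ) ≤
        h ^ (N + 1) * cnt (fun f : V → K => Proper G f) := by
    intro π hπ
    obtain ⟨-, hch, hl⟩ := Finset.mem_filter.1 hπ
    have h1 := cn_many hG h0 hc (evn π) (evn_pairwise hG hch)
    rw [evn_length hl] at h1
    exact h1
  have hcard : (((seqs dist (2 * ℓ + M) u (2 * N)).filter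
        (fun π => Chn dist (2 * ℓ + M) π ∧ π.length = 2 * N + 1)).card : ℝ) ≤ (B : ℝ) ^ (2 * N) := by
    have h1 := (Finset.card_filter_le (seqs dist (2 * ℓ + M) u (2 * N))
      (fun π => Chn dist (2 * ℓ + M) π ∧ π.length = 2 * N + 1)).trans
      (seqs_card hB u (2 * N))
    exact_mod_cast h1
  have hnn : 0 ≤ h ^ (N + 1) * (cnt (fun f : V → K => Proper G f) : ℝ) := by positivity
  calc (cnt (fun f : V → K => Proper G f ∧ (Gab G a b f).Reachable u v) : ℝ)
      ≤ _ := by exact_mod_cast hmono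
    _ ≤ _ := hsum
    _ ≤ ∑ π ∈ (seqs dist (2 * ℓ + M) u (2 * N)).filter
        (fun π => Chn dist (2 * ℓ + M) π ∧ π.length = 2 * N + 1),
        h ^ (N + 1) * (cnt (fun f : V → K => Proper G f) : ℝ) := Finset.sum_le_sum hterm
    _ = (((seqs dist (2 * ℓ + M) u (2 * N)).filter
        (fun π => Chn dist (2 * ℓ + M) π ∧ π.length = 2 * N + 1)).card : ℝ) *
        (h ^ (N + 1) * (cnt (fun f : V → K => Proper G f) : ℝ)) := by
        rw [Finset.sum_const, nsmul_eq_mul]
    _ ≤ (B : ℝ) ^ (2 * N) * (h ^ (N + 1) * (cnt (fun f : V → K => Proper G f) : ℝ)) :=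
        mul_le_mul_of_nonneg_right hcard hnn
    _ = (B : ℝ) ^ (2 * N) * h ^ (N + 1) * cnt (fun f : V → K => Proper G f) := by ring

end Pool.Agent.QC
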