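import Pool.Agent.Lib_MP_2c424f_pr.CRI
import Pool.Agent.Lib_MP_2c424f_pr.UNI
import Pool.Agent.Lib_MP_2c424f_pr.KEM
import Pool.Agent.Lib_MP_2c424f_pr.BXA
import Pool.Agent.Lib_MP_2c424f_pr.BXB

/-!
# FIN: assembly
-/

set_option autoImplicit false

open Finset

namespace Pool.Agent.QC

theorem fin_proper_pos {V K : Type} [Fintype V] [Fintype K] [Inhabited K] {G : SimpleGraph V}
    {dist : V → V → ℕ} {D : ℕ} (hG : IsLG G dist D) (hD : D < Fintype.card K) :
    0 < cnt (fun f : V → K => Proper G f) := by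
  have h := cnt_agree G (∅ : Set V) (fun _ => (default : K)) (by simp)
  have h2 : cnt (fun f : V → K => Proper G f ∧ ∀ x ∈ (∅ : Set V), f x = default) =
      cnt (fun f : V → K => Proper G f) := cnt_congr fun f => by simp
  rw [← h2, h]
  exact Z_pos G (s := Fintype.card K - D) (by omega) (fl_slack G ∅ _ hG.deg hD.le)

/-- the choice of `C` -/
theorem fin_choose {z : ℝ} (hz0 : 0 < z) (hz1 : z < 1) :
    ∃ C : ℕ, 2 ≤ C ∧ (32 * (C : ℝ)) ^ 2 * z ^ C ≤ 1 / 4 := by
  have h := tendsto_pow_const_mul_const_pow_of_abs_lt_one 2 (r := z) (by rwa [abs_of_pos hz0])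
  have h1 := (h.const_mul ((32 : ℝ) ^ 2))
  rw [mul_zero] at h1
  have h2 := (h1.eventually (ge_mem_nhds (show (0 : ℝ) < 1 / 4 by norm_num))).and
    (Filter.eventually_ge_atTop 2)
  obtain ⟨C, hC, hC2⟩ := h2.exists
  exact ⟨C, hC2, by rw [mul_pow, mul_assoc]; exact hC⟩

theorem fin_small {z : ℝ} {C : ℕ} (hz0 : 0 < z) (hC : (32 * (C : ℝ)) ^ 2 * z ^ C ≤ 1 / 4) (M d : ℕ)
    (hd : 2 * M + 1 ≤ d) :
    (((4 ^ M * (32 * C) ^ d : ℕ) : ℝ)) ^ 2 * (2 * z ^ (C * d)) ≤ 1 / 2 := by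
  have e : (((4 ^ M * (32 * C) ^ d : ℕ) : ℝ)) ^ 2 * (2 * z ^ (C * d)) =
      2 * 16 ^ M * ((32 * (C : ℝ)) ^ 2 * z ^ C) ^ d := by
    push_cast
    have e1 : ((32 * (C : ℝ)) ^ 2 * z ^ C) ^ d = ((32 * (C : ℝ)) ^ d) ^ 2 * z ^ (C * d) := by
      rw [mul_pow, ← pow_mul, ← pow_mul, ← pow_mul, mul_comm 2 d]
    have e2 : (16 : ℝ) ^ M = (4 ^ M) ^ 2 := by
      rw [show (16 : ℝ) = 4 ^ 2 by norm_num, ← pow_mul, ← pow_mul, mul_comm]
    rw [e1, e2]
    ring
  rw [e]
  have h0 : 0 ≤ (32 * (C : ℝ)) ^ 2 * z ^ C := by positivity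
  have h1 : ((32 * (C : ℝ)) ^ 2 * z ^ C) ^ d ≤ (1 / 4) ^ d := pow_le_pow_left₀ h0 hC d
  have h2 : ((1 : ℝ) / 4) ^ d ≤ (1 / 4) ^ (2 * M + 1) :=
    pow_le_pow_of_le_one (by norm_num) (by norm_num) hd
  have h3 : ((1 : ℝ) / 4) ^ (2 * M + 1) = 1 / (4 * 16 ^ M) := by
    rw [pow_succ, pow_mul, one_div_pow, one_div_pow, show ((4 : ℝ) ^ 2) = 16 by norm_num,
      one_div_mul_one_div, mul_comm]
  have h4 : (0 : ℝ) < 16 ^ M := by positivity
  calc 2 * 16 ^ M * ((32 * (C : ℝ)) ^ 2 * z ^ C) ^ d ≤ 2 * 16 ^ M * (1 / (4 * 16 ^ M)) := by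
        refine mul_le_mul_of_nonneg_left ?_ (by positivity)
        rw [← h3]
        exact h1.trans h2
    _ = 1 / 2 := by
        field_simp
        norm_num

/-- the two-point function minus `1/q` -/
noncomputable def Cor (q d n : ℕ) (u v : Bx d n) : ℝ :=
  (cnt (fun f : Bx d n → Fin q => Proper (BG d n) f ∧ f u = f v) : ℝ) /
    cnt (fun f : Bx d n → Fin q => Proper (BG d n) f) - 1 / q

theorem fin_abs_le {q d n : ℕ} (hq : 0 < q) (u v : Bx d n) : |Cor q d n u v| ≤ 1 := by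
  unfold Cor
  have h1 : (cnt (fun f : Bx d n → Fin q => Proper (BG d n) f ∧ f u = f v) : ℝ) /
      cnt (fun f : Bx d n → Fin q => Proper (BG d n) f) ≤ 1 := by
    refine div_le_one_of_le₀ ?_ (Nat.cast_nonneg _)
    have : cnt (fun f : Bx d n → Fin q => Proper (BG d n) f ∧ f u = f v) ≤
        cnt (fun f : Bx d n → Fin q => Proper (BG d n) f) := cnt_mono fun f hf => hf.1
    exact_mod_cast this
  have h2 : (0 : ℝ) ≤ (cnt (fun f : Bx d n → Fin q => Proper (BG d n) f ∧ f u = f v) : ℝ) /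
      cnt (fun f : Bx d n → Fin q => Proper (BG d n) f) := by positivity
  have h3 : (1 : ℝ) / q ≤ 1 := by
    rw [div_le_one (by exact_mod_cast hq)]
    exact_mod_cast hq
  have h4 : (0 : ℝ) ≤ 1 / q := by positivity
  rw [abs_le]
  constructor <;> linarith

/-- FIN. exponential decay of the two-point function -/
theorem main_pair {ε : ℝ} (hε : 0 < ε) : ∃ d₀ : ℕ, ∀ d ≥ d₀, ∀ q : ℕ, (2 + ε) * d ≤ q →
    ∃ A c : ℝ, 0 < c ∧ ∀ (n : ℕ) (u v : Bx d n), |Cor q d n u v| ≤ A * Real.exp (-(c * bd u v)) := by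
  have hx0 : 0 < 2 / (2 + ε) := by positivity
  have hx1 : 2 / (2 + ε) < 1 := by
    rw [div_lt_one (by linarith)]
    linarith
  obtain ⟨z, M, hz0, hz1, hcrit⟩ := crit hx0 hx1
  obtain ⟨C, hC2, hC⟩ := fin_choose hz0 hz1
  obtain ⟨d₁, hd1, hcr⟩ := hcrit C
  refine ⟨max d₁ (2 * M + 1), ?_⟩
  intro d hd q hq
  have hd' : d₁ ≤ d := (le_max_left _ _).trans hd
  have hdM : 2 * M + 1 ≤ d := (le_max_right _ _).trans hd
  have hdpos : (0 : ℝ) < d := by exact_mod_cast (show 0 < d by omega)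
  have hq2 : 2 * d < q := by
    have : (2 * d : ℝ) < q := by nlinarith
    exact_mod_cast this
  have hqpos : 0 < q := by omega
  let _ : Inhabited (Fin q) := ⟨⟨0, hqpos⟩⟩
  have hxq : (2 * d : ℝ) ≤ 2 / (2 + ε) * Fintype.card (Fin q) := by
    rw [Fintype.card_fin, div_mul_eq_mul_div, le_div_iff₀ (by linarith)]
    nlinarith
  set W : ℕ := (2 * (C * d) + M) * 2 with hW
  have hWpos : 0 < W := by
    have : 0 < C * d := Nat.mul_pos (by omega) (by omega)
    omega
  set c : ℝ := Real.log 2 / W with hc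
  have hWr : (0 : ℝ) < W := by exact_mod_cast hWpos
  have hcpos : 0 < c := by
    have := Real.log_pos (show (1 : ℝ) < 2 by norm_num)
    positivity
  refine ⟨2 * q + Real.exp (c * (2 * (C * d) : ℕ)), c, hcpos, ?_⟩
  intro n u v
  set t : ℕ := bd u v with ht
  by_cases hn : t < 2 * (C * d)
  · have h1 := fin_abs_le hqpos u v
    have h2 : (1 : ℝ) ≤ Real.exp (c * (2 * (C * d) : ℕ)) * Real.exp (-(c * t)) := by
      rw [← Real.exp_add]
      refine Real.one_le_exp ?_
      have : (t : ℝ) ≤ (2 * (C * d) : ℕ) := by exact_mod_cast hn.le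
      nlinarith
    have h3 : 0 ≤ 2 * (q : ℝ) * Real.exp (-(c * t)) := by positivity
    calc |Cor q d n u v| ≤ 1 := h1
      _ ≤ _ := by rw [add_mul]; linarith
  · have hn : 2 * (C * d) ≤ t := not_lt.1 hn
    have htpos : 0 < t := by
      have : 0 < C * d := Nat.mul_pos (by omega) (by omega)
      omega
    set N : ℕ := (t - 1) / W with hN
    set P : ℕ := cnt (fun f : Bx d n → Fin q => Proper (BG d n) f) with hP
    have hPpos : 0 < P := fin_proper_pos (bx_lg d n) (by rw [Fintype.card_fin]; exact hq2)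
    set h : ℝ := 2 * z ^ (C * d) with hh
    have hh0 : 0 ≤ h := by positivity
    set B : ℕ := 4 ^ M * (32 * C) ^ d with hB
    have hBh : (B : ℝ) ^ 2 * h ≤ 1 / 2 := fin_small hz0 hC M d hdM
    have hB1 : 1 ≤ (B : ℝ) := by
      have : 0 < B := by
        rw [hB]
        have : 0 < 32 * C := by omega
        positivity
      exact_mod_cast this
    have hh1 : h ≤ 1 := by nlinarith
    have huni : ∀ a b : Fin q, a ≠ b →
        (cnt (fun f : Bx d n → Fin q => Proper (BG d n) f ∧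
          (Gab (BG d n) a b f).Reachable u v) : ℝ) ≤ (1 / 2) ^ N * P := by
      intro a b hab
      have h1 := uni (bx_lg d n) (a := a) (b := b) (ℓ := C * d) (M := M) (B := B) (N := N)
        (Nat.mul_pos (by omega) (by omega)) hh0
        (fun u E hE => hcr (Bx d n) (Fin q) (BG d n) bd d hd' (bx_lg d n) hxq a b hab u E hE)
        (fun x => bx_ball' hC2 M x) (u := u) (v := v)
        (by
          rw [← mul_assoc, ← hW]
          have h8 : W * N ≤ t - 1 := by
            rw [hN]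
            exact Nat.mul_div_le (t - 1) W
          omega)
        hn
      refine h1.trans ?_
      refine mul_le_mul_of_nonneg_right ?_ (Nat.cast_nonneg _)
      have e : (B : ℝ) ^ (2 * N) * h ^ (N + 1) = ((B : ℝ) ^ 2 * h) ^ N * h := by
        rw [pow_mul, mul_pow, pow_succ]
        ring
      rw [e]
      have h2 : ((B : ℝ) ^ 2 * h) ^ N ≤ (1 / 2) ^ N := pow_le_pow_left₀ (by positivity) hBh N
      have h3 : (0 : ℝ) ≤ (1 / 2) ^ N := by positivity
      calc ((B : ℝ) ^ 2 * h) ^ N * h ≤ (1 / 2) ^ N * 1 := mul_le_mul h2 hh1 hh0 h3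
        _ = _ := mul_one _
    have hk := kempe (K := Fin q) (G := BG d n) (R := (1 / 2) ^ N * P) (by positivity) u
      v huni (by rw [Fintype.card_fin]; exact hqpos) hPpos
    rw [Fintype.card_fin] at hk
    have hPr : (P : ℝ) ≠ 0 := by exact_mod_cast hPpos.ne'
    have e1 : (1 / 2 : ℝ) ^ N * P / P = (1 / 2) ^ N := by field_simp
    rw [e1] at hk
    have hk2 : |Cor q d n u v| ≤ q * (1 / 2) ^ N := hk
    have hNW : (t : ℝ) / W - 1 ≤ N := by
      have h1 : t - 1 < W * (N + 1) := by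
        rw [hN]
        exact Nat.lt_mul_div_succ _ hWpos
      have h2 : t ≤ W * (N + 1) := by omega
      have h3 : (t : ℝ) ≤ W * (N + 1) := by exact_mod_cast h2
      have h4 : (t : ℝ) / W ≤ N + 1 := by
        rw [div_le_iff₀ hWr]
        linarith
      linarith
    have h5 : (1 / 2 : ℝ) ^ N ≤ 2 * Real.exp (-(c * t)) := by
      have e2 : (1 / 2 : ℝ) ^ N = Real.exp (-(Real.log 2 * N)) := by
        rw [Real.exp_neg, mul_comm, Real.exp_nat_mul, Real.exp_log (by norm_num), one_div, inv_pow]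
      have e3 : (2 : ℝ) * Real.exp (-(c * t)) = Real.exp (Real.log 2 - c * t) := by
        rw [sub_eq_add_neg, Real.exp_add, Real.exp_log (by norm_num)]
      rw [e2, e3]
      refine Real.exp_le_exp.2 ?_
      have hl := Real.log_pos (show (1 : ℝ) < 2 by norm_num)
      have e4 : c * t = Real.log 2 * (t / W) := by
        rw [hc]
        ring
      rw [e4]
      nlinarith
    calc |Cor q d n u v| ≤ q * (1 / 2) ^ N := hk2
      _ ≤ q * (2 * Real.exp (-(c * t))) := mul_le_mul_of_nonneg_left h5 (Nat.cast_nonneg _)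
      _ ≤ _ := by
        have : 0 ≤ Real.exp (c * (2 * (C * d) : ℕ)) * Real.exp (-(c * t)) := by positivity
        rw [add_mul]
        linarith

end Pool.Agent.QC
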