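import Pool.Agent.Lib_MP_2c424f_pr.Defs

/-!
# Piece JC: contraction of the Jeffreys divergence
-/

set_option autoImplicit false

open Finset

namespace Pool.Agent.QC

variable {K : Type} [Fintype K] [Nonempty K]

/-- JC. `t e^{-y t} ≤ 1 / (e y)`, i.e. `y t e^{-y t} ≤ e^{-1}` (`Real.add_one_le_exp` for `y t - 1`). -/
theorem jc_te (v : ℝ) : v * Real.exp (-v) ≤ Real.exp (-1) := by
  have h := Real.add_one_le_exp (v - 1)
  have h2 : v ≤ Real.exp (v - 1) := by linarith
  calc v * Real.exp (-v) ≤ Real.exp (v - 1) * Real.exp (-v) :=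
        mul_le_mul_of_nonneg_right h2 (Real.exp_pos _).le
    _ = Real.exp (-1) := by
        rw [← Real.exp_add]
        congr 1
        ring

/-- JC. Jensen: `∑_c e^{-y s(c)} ≥ q e^{-y}` if `∑ s = q` (tangent line: `e^{-y s} ≥ e^{-y} (1 - y (s - 1))`). -/
theorem jc_jensen (s : K → ℝ) (hs : ∑ c, s c = Fintype.card K) (y : ℝ) :
    Fintype.card K * Real.exp (-y) ≤ ∑ c, Real.exp (-(y * s c)) := by
  have h1 : ∀ c, Real.exp (-y) * (1 - y * (s c - 1)) ≤ Real.exp (-(y * s c)) := by
    intro c
    have h2 := Real.add_one_le_exp (-(y * (s c - 1)))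
    have h3 : Real.exp (-(y * s c)) = Real.exp (-y) * Real.exp (-(y * (s c - 1))) := by
      rw [← Real.exp_add]
      congr 1
      ring
    rw [h3]
    exact mul_le_mul_of_nonneg_left (by linarith) (Real.exp_pos _).le
  calc Fintype.card K * Real.exp (-y) = ∑ c, Real.exp (-y) * (1 - y * (s c - 1)) := by
        rw [← Finset.mul_sum]
        have h4 : ∑ c, (1 - y * (s c - 1)) = (Fintype.card K : ℝ) := by
          rw [Finset.sum_sub_distrib, ← Finset.mul_sum, Finset.sum_sub_distrib, hs]
          simp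
        rw [h4, mul_comm]
    _ ≤ _ := Finset.sum_le_sum fun c _ => h1 c

private theorem jc_dexp (y a t : ℝ) :
    HasDerivAt (fun t : ℝ => Real.exp (-(y * t * a))) (Real.exp (-(y * t * a)) * (-(y * a))) t := by
  have h1 : HasDerivAt (fun t : ℝ => y * t * a) (y * 1 * a) t :=
    ((hasDerivAt_id t).const_mul y).mul_const a
  have h : HasDerivAt (fun t : ℝ => -(y * t * a)) (-(y * a)) t :=
    h1.neg.congr_deriv (by ring)
  exact h.exp

private theorem jc_dlog (a t : ℝ) (h : 1 + t * a ≠ 0) :
    HasDerivAt (fun t : ℝ => Real.log (1 + t * a)) (a / (1 + t * a)) t := by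
  have h1 : HasDerivAt (fun t : ℝ => 1 + t * a) a t := by
    have h2 := ((hasDerivAt_id t).mul_const a).const_add 1
    simpa using h2
  exact h1.log h

/-- JC. The contraction: `s > 0`, `∑ s = q`, `r = q e^{-y s} / ∑ e^{-y s}` with `0 < y`.

Proof. Let `g(c) = s(c) - 1`, `W(t) = ∑_c e^{-y t g(c)}`, `r_t(c) = q e^{-y t g(c)} / W(t)` (so `r_0 = 1`, `r_1 = r`),
`φ(t) = - y ∑_c g(c) r_t(c)`. Then `φ(0) = 0` (`∑ g = 0`), and `φ(1) = Js r` since `log r(c) = - y s(c) - log (∑ e^{-y s} / q)`
and `∑ (r - 1) = 0`, `∑ g = 0`. Derivative: `∂_t r_t = r_t (- y g + y (∑ r_t g) / q)`, so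
`φ'(t) = y² (∑ r_t g² - (∑ r_t g)² / q) ≤ y² ∑ r_t g²`. With `s_t = 1 + t g = (1 - t) + t s > 0` we have
`r_t = q e^{-y s_t} / ∑ e^{-y s_t} ≤ e^{y} e^{-y s_t}` (`jc_jensen` for `s_t`) and `y s_t e^{-y s_t} ≤ e^{-1}` (`jc_te`), so
`y² r_t g² ≤ y e^{y-1} g² / s_t = kap y * g² / s_t`. Let
`F(t) = φ(t) - kap y * ∑_c g(c) log (1 + t g(c))`. Then `F(0) = 0`, `F'(t) ≤ 0` on `[0, 1]`, hence `F(1) ≤ 0`
(`antitoneOn_of_deriv_nonpos` or `image_le_of_deriv_right_le_deriv_boundary`), which is the claim
(`∑ g log s = Js s`). -/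
theorem js_contr (s : K → ℝ) (h0 : ∀ c, 0 < s c) (hs : ∑ c, s c = Fintype.card K) {y : ℝ}
    (hy : 0 < y) : Js (fun c => Fintype.card K * Real.exp (-(y * s c)) /
      ∑ c', Real.exp (-(y * s c'))) ≤ kap y * Js s := by
  set q : ℝ := (Fintype.card K : ℝ) with hq
  have hq0 : 0 < q := by
    rw [hq]
    exact_mod_cast Fintype.card_pos
  have hkap : kap y = y * Real.exp (y - 1) := rfl
  have hg0 : ∑ c, (s c - 1) = 0 := by
    rw [Finset.sum_sub_distrib, hs]
    simp [hq]
  -- the functions
  let W : ℝ → ℝ := fun t => ∑ c, Real.exp (-(y * t * (s c - 1)))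
  let A : ℝ → ℝ := fun t => ∑ c, (s c - 1) * Real.exp (-(y * t * (s c - 1)))
  let B : ℝ → ℝ := fun t => ∑ c, (s c - 1) ^ 2 * Real.exp (-(y * t * (s c - 1)))
  have hWpos : ∀ t, 0 < W t := fun t =>
    Finset.sum_pos (fun c _ => Real.exp_pos _) Finset.univ_nonempty
  have hWd : ∀ t, HasDerivAt W (-(y * A t)) t := by
    intro t
    have h1 := HasDerivAt.fun_sum (u := Finset.univ) (x := t)
      (A := fun (c : K) (t : ℝ) => Real.exp (-(y * t * (s c - 1))))
      (A' := fun c => Real.exp (-(y * t * (s c - 1))) * (-(y * (s c - 1))))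
      (fun c _ => jc_dexp y (s c - 1) t)
    refine h1.congr_deriv ?_
    simp only [A, Finset.mul_sum, ← Finset.sum_neg_distrib]
    exact Finset.sum_congr rfl fun c _ => by ring
  have hAd : ∀ t, HasDerivAt A (-(y * B t)) t := by
    intro t
    have h1 := HasDerivAt.fun_sum (u := Finset.univ) (x := t)
      (A := fun (c : K) (t : ℝ) => (s c - 1) * Real.exp (-(y * t * (s c - 1))))
      (A' := fun c => (s c - 1) * (Real.exp (-(y * t * (s c - 1))) * (-(y * (s c - 1)))))
      (fun c _ => (jc_dexp y (s c - 1) t).const_mul _)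
    refine h1.congr_deriv ?_
    simp only [B, Finset.mul_sum, ← Finset.sum_neg_distrib]
    exact Finset.sum_congr rfl fun c _ => by ring
  let F : ℝ → ℝ := fun t => -(y * q) * (A t / W t) -
    kap y * ∑ c, (s c - 1) * Real.log (1 + t * (s c - 1))
  have hst : ∀ t ∈ Set.Icc (0 : ℝ) 1, ∀ c, 0 < 1 + t * (s c - 1) := by
    rintro t ⟨ht0, ht1⟩ c
    have h1 := h0 c
    rcases eq_or_lt_of_le ht0 with rfl | ht
    · simp
    · nlinarith [mul_pos ht h1]
  have hFd : ∀ t ∈ Set.Icc (0 : ℝ) 1, HasDerivAt F
      (-(y * q) * ((-(y * B t) * W t - A t * -(y * A t)) / W t ^ 2) -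
        kap y * ∑ c, (s c - 1) * ((s c - 1) / (1 + t * (s c - 1)))) t := by
    intro t ht
    have h1 := ((hAd t).div (hWd t) (hWpos t).ne').const_mul (-(y * q))
    have h2 := (HasDerivAt.fun_sum (u := Finset.univ) (x := t)
      (A := fun (c : K) (t : ℝ) => (s c - 1) * Real.log (1 + t * (s c - 1)))
      (A' := fun c => (s c - 1) * ((s c - 1) / (1 + t * (s c - 1))))
      (fun c _ => (jc_dlog (s c - 1) t (hst t ht c).ne').const_mul _)).const_mul (kap y)
    exact h1.sub h2
  have hle : ∀ t ∈ Set.Icc (0 : ℝ) 1,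
      -(y * q) * ((-(y * B t) * W t - A t * -(y * A t)) / W t ^ 2) -
        kap y * ∑ c, (s c - 1) * ((s c - 1) / (1 + t * (s c - 1))) ≤ 0 := by
    intro t ht
    have hW := hWpos t
    have e1 : -(y * q) * ((-(y * B t) * W t - A t * -(y * A t)) / W t ^ 2) =
        y ^ 2 * q * (B t / W t) - y ^ 2 * q * (A t / W t) ^ 2 := by
      field_simp
      ring
    have e2 : y ^ 2 * q * (B t / W t) ≤
        kap y * ∑ c, (s c - 1) * ((s c - 1) / (1 + t * (s c - 1))) := by
      have e3 : y ^ 2 * q * (B t / W t) = ∑ c, (s c - 1) ^ 2 *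
          (y * (y * (q * Real.exp (-(y * t * (s c - 1))) / W t))) := by
        simp only [B]
        rw [Finset.sum_div, Finset.mul_sum]
        exact Finset.sum_congr rfl fun c _ => by ring
      rw [e3, Finset.mul_sum]
      refine Finset.sum_le_sum fun c _ => ?_
      have hs1 := hst t ht c
      -- the bound of `r_t`
      have hr : q * Real.exp (-(y * t * (s c - 1))) / W t ≤
          Real.exp y * Real.exp (-(y * (1 + t * (s c - 1)))) := by
        rw [div_le_iff₀ hW]
        have hj := jc_jensen (fun c => 1 + t * (s c - 1)) (by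
          rw [Finset.sum_add_distrib, ← Finset.mul_sum, hg0]
          simp) y
        have e4 : ∑ c, Real.exp (-(y * (1 + t * (s c - 1)))) = Real.exp (-y) * W t := by
          simp only [W, Finset.mul_sum, ← Real.exp_add]
          exact Finset.sum_congr rfl fun c _ => by
            congr 1
            ring
        rw [e4, mul_comm (Fintype.card K : ℝ)] at hj
        have hqW : q ≤ W t := le_of_mul_le_mul_left hj (Real.exp_pos _)
        have e5 : Real.exp y * Real.exp (-(y * (1 + t * (s c - 1)))) =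
            Real.exp (-(y * t * (s c - 1))) := by
          rw [← Real.exp_add]
          congr 1
          ring
        rw [e5, mul_comm]
        exact mul_le_mul_of_nonneg_left hqW (Real.exp_pos _).le
      have ht2 := jc_te (y * (1 + t * (s c - 1)))
      have h6 : y * (q * Real.exp (-(y * t * (s c - 1))) / W t) ≤
          Real.exp (y - 1) / (1 + t * (s c - 1)) := by
        rw [le_div_iff₀ hs1]
        calc y * (q * Real.exp (-(y * t * (s c - 1))) / W t) * (1 + t * (s c - 1))
            ≤ y * (Real.exp y * Real.exp (-(y * (1 + t * (s c - 1))))) *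
              (1 + t * (s c - 1)) := by
              refine mul_le_mul_of_nonneg_right ?_ hs1.le
              exact mul_le_mul_of_nonneg_left hr hy.le
          _ = Real.exp y * (y * (1 + t * (s c - 1)) *
              Real.exp (-(y * (1 + t * (s c - 1))))) := by ring
          _ ≤ Real.exp y * Real.exp (-1) :=
              mul_le_mul_of_nonneg_left ht2 (Real.exp_pos _).le
          _ = Real.exp (y - 1) := by
              rw [← Real.exp_add]
              congr 1
      calc (s c - 1) ^ 2 * (y * (y * (q * Real.exp (-(y * t * (s c - 1))) / W t)))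
          ≤ (s c - 1) ^ 2 * (y * (Real.exp (y - 1) / (1 + t * (s c - 1)))) := by
            refine mul_le_mul_of_nonneg_left ?_ (sq_nonneg _)
            exact mul_le_mul_of_nonneg_left h6 hy.le
        _ = kap y * ((s c - 1) * ((s c - 1) / (1 + t * (s c - 1)))) := by
            rw [hkap]
            ring
    have e7 : 0 ≤ y ^ 2 * q * (A t / W t) ^ 2 := by positivity
    rw [e1]
    linarith
  have hanti : AntitoneOn F (Set.Icc 0 1) := by
    refine antitoneOn_of_deriv_nonpos (convex_Icc 0 1)
      (fun t ht => (hFd t ht).continuousAt.continuousWithinAt)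
      (fun t ht => (hFd t (interior_subset ht)).differentiableAt.differentiableWithinAt)
      (fun t ht => ?_)
    rw [(hFd t (interior_subset ht)).deriv]
    exact hle t (interior_subset ht)
  have h01 := hanti (Set.left_mem_Icc.2 zero_le_one) (Set.right_mem_Icc.2 zero_le_one)
    zero_le_one
  have hF0 : F 0 = 0 := by
    simp only [F, A]
    simp [hg0]
  rw [hF0] at h01
  -- the value at `1`
  set R : K → ℝ := fun c => q * Real.exp (-(y * s c)) / ∑ c', Real.exp (-(y * s c')) with hR
  have hS : 0 < ∑ c', Real.exp (-(y * s c')) :=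
    Finset.sum_pos (fun c _ => Real.exp_pos _) Finset.univ_nonempty
  have hRsum : ∑ c, R c = q := by
    simp only [hR]
    rw [← Finset.sum_div, ← Finset.mul_sum, mul_div_assoc, div_self hS.ne', mul_one]
  have hRlog : ∀ c, Real.log (R c) = Real.log q - Real.log (∑ c', Real.exp (-(y * s c'))) -
      y * s c := by
    intro c
    simp only [hR]
    rw [Real.log_div (by positivity) hS.ne', Real.log_mul hq0.ne' (Real.exp_pos _).ne',
      Real.log_exp]
    ring
  have hJ : Js R = -(y * ∑ c, (s c - 1) * R c) := by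
    unfold Js
    have h1 : ∀ c, (R c - 1) * Real.log (R c) =
        (Real.log q - Real.log (∑ c', Real.exp (-(y * s c'))) - y) * (R c - 1) -
          y * ((s c - 1) * R c) + y * (s c - 1) := by
      intro c
      rw [hRlog]
      ring
    rw [Finset.sum_congr rfl fun c _ => h1 c, Finset.sum_add_distrib, Finset.sum_sub_distrib,
      ← Finset.mul_sum, ← Finset.mul_sum, ← Finset.mul_sum, hg0, Finset.sum_sub_distrib, hRsum]
    simp [hq]
  have hA1 : -(y * q) * (A 1 / W 1) = Js R := by
    rw [hJ]
    have e1 : ∑ c', Real.exp (-(y * s c')) = Real.exp (-y) * W 1 := by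
      simp only [W, Finset.mul_sum, ← Real.exp_add]
      exact Finset.sum_congr rfl fun c _ => by
        congr 1
        ring
    have e2 : ∀ c, R c = q * Real.exp (-(y * 1 * (s c - 1))) / W 1 := by
      intro c
      simp only [hR]
      rw [e1]
      have e3 : Real.exp (-(y * s c)) = Real.exp (-y) * Real.exp (-(y * 1 * (s c - 1))) := by
        rw [← Real.exp_add]
        congr 1
        ring
      rw [e3]
      have hW := hWpos 1
      have hE := Real.exp_pos (-y)
      field_simp
    have e4 : ∑ c, (s c - 1) * R c = q * (A 1 / W 1) := by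
      simp only [e2, A]
      rw [Finset.sum_div, Finset.mul_sum]
      exact Finset.sum_congr rfl fun c _ => by ring
    rw [e4]
    ring
  have hF1 : F 1 = Js R - kap y * Js s := by
    simp only [F]
    rw [hA1]
    congr 2
    unfold Js
    exact Finset.sum_congr rfl fun c _ => by
      congr 2
      ring
  rw [hF1] at h01
  linarith

end Pool.Agent.QC
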