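import Pool.Agent.Lib_MP_2c424f_pr.Defs

/-!
# Piece JDA: Jeffreys divergence: convexity, l1 bound
-/

set_option autoImplicit false

open Finset

namespace Pool.Agent.QC

variable {K : Type} [Fintype K]

theorem jda_term {t : ℝ} (ht : 0 < t) : 0 ≤ (t - 1) * Real.log t := by
  rcases le_total 1 t with h | h
  · exact mul_nonneg (by linarith) (Real.log_nonneg h)
  · exact mul_nonneg_of_nonpos_of_nonpos (by linarith) (Real.log_nonpos ht.le h)

theorem js_nonneg (r : K → ℝ) (h0 : ∀ c, 0 < r c) : 0 ≤ Js r := by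
  exact Finset.sum_nonneg fun c _ => jda_term (h0 c)

theorem jda_convex : ConvexOn ℝ (Set.Ioi (0 : ℝ)) (fun t => (t - 1) * Real.log t) := by
  have h1 : ConvexOn ℝ (Set.Ioi (0 : ℝ)) (fun t => t * Real.log t) :=
    Real.convexOn_mul_log.subset Set.Ioi_subset_Ici_self (convex_Ioi 0)
  have h2 : ConvexOn ℝ (Set.Ioi (0 : ℝ)) (-Real.log) := strictConcaveOn_log_Ioi.concaveOn.neg
  have h3 := h1.add h2
  have h4 : (fun t : ℝ => (t - 1) * Real.log t) = (fun t => t * Real.log t) + -Real.log := by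
    funext t
    simp only [Pi.add_apply, Pi.neg_apply]
    ring
  rw [h4]
  exact h3

theorem jda_log {t : ℝ} (ht : 0 < t) : 2 * (t - 1) ^ 2 ≤ (t - 1) * Real.log t * (t + 1) := by
  have hmono : MonotoneOn (fun x : ℝ => (x + 1) * Real.log x - 2 * (x - 1)) (Set.Ioi 0) := by
    have hd : ∀ x : ℝ, 0 < x → HasDerivAt (fun x : ℝ => (x + 1) * Real.log x - 2 * (x - 1))
        (1 * Real.log x + (x + 1) * x⁻¹ - 2 * 1) x := by
      intro x hx
      have h1 : HasDerivAt (fun x : ℝ => x + 1) 1 x := (hasDerivAt_id x).add_const 1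
      have h2 : HasDerivAt Real.log x⁻¹ x := Real.hasDerivAt_log hx.ne'
      have h3 : HasDerivAt (fun x : ℝ => 2 * (x - 1)) (2 * 1) x :=
        ((hasDerivAt_id x).sub_const 1).const_mul 2
      exact (h1.mul h2).sub h3
    apply monotoneOn_of_deriv_nonneg (convex_Ioi 0)
    · intro x hx
      exact (hd x hx).continuousAt.continuousWithinAt
    · intro x hx
      rw [interior_Ioi] at hx
      exact (hd x hx).differentiableAt.differentiableWithinAt
    · intro x hx
      rw [interior_Ioi] at hx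
      rw [(hd x hx).deriv]
      have h1 := Real.one_sub_inv_le_log_of_pos (show (0:ℝ) < x from hx)
      have h2 : (x + 1) * x⁻¹ = 1 + x⁻¹ := by
        have : x ≠ 0 := (show (0:ℝ) < x from hx).ne'
        field_simp
      rw [h2]
      linarith
  rcases le_total 1 t with h | h
  · have h1 := hmono (Set.mem_Ioi.2 one_pos) (Set.mem_Ioi.2 ht) h
    simp only [Real.log_one] at h1
    nlinarith
  · have h1 := hmono (Set.mem_Ioi.2 ht) (Set.mem_Ioi.2 one_pos) h
    simp only [Real.log_one] at h1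
    nlinarith

/-- JD. Convexity of `t ↦ (t - 1) log t` on `(0, ∞)` (`t log t` is convex, `- log t` is convex), Jensen
(`ConvexOn.map_sum_le`) with the weights `1 / A.card`, and sum over `c`. -/
theorem js_avg {ι : Type} (A : Finset ι) (hA : A.Nonempty) (r : ι → K → ℝ)
    (h0 : ∀ i ∈ A, ∀ c, 0 < r i c) {B : ℝ} (hB : ∀ i ∈ A, Js (r i) ≤ B) :
    Js (fun c => (∑ i ∈ A, r i c) / A.card) ≤ B := by
  have hc : (0 : ℝ) < A.card := by exact_mod_cast hA.card_pos
  have h1 : ∀ c, ((∑ i ∈ A, r i c) / A.card - 1) * Real.log ((∑ i ∈ A, r i c) / A.card) ≤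
      ∑ i ∈ A, (A.card : ℝ)⁻¹ * ((r i c - 1) * Real.log (r i c)) := by
    intro c
    have h2 := jda_convex.map_sum_le (t := A) (w := fun _ => (A.card : ℝ)⁻¹) (p := fun i => r i c)
      (fun i _ => (inv_pos.2 hc).le) (by
        rw [Finset.sum_const, nsmul_eq_mul]
        exact mul_inv_cancel₀ hc.ne') (fun i hi => Set.mem_Ioi.2 (h0 i hi c))
    simp only [smul_eq_mul] at h2
    rw [← Finset.mul_sum, inv_mul_eq_div] at h2
    exact h2
  unfold Js
  calc ∑ c, ((∑ i ∈ A, r i c) / A.card - 1) * Real.log ((∑ i ∈ A, r i c) / A.card)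
      ≤ ∑ c, ∑ i ∈ A, (A.card : ℝ)⁻¹ * ((r i c - 1) * Real.log (r i c)) :=
        Finset.sum_le_sum fun c _ => h1 c
    _ = ∑ i ∈ A, (A.card : ℝ)⁻¹ * Js (r i) := by
        rw [Finset.sum_comm]
        refine Finset.sum_congr rfl fun i _ => ?_
        rw [← Finset.mul_sum]
        rfl
    _ ≤ ∑ i ∈ A, (A.card : ℝ)⁻¹ * B :=
        Finset.sum_le_sum fun i hi => mul_le_mul_of_nonneg_left (hB i hi) (inv_pos.2 hc).le
    _ = B := by
        rw [Finset.sum_const, nsmul_eq_mul, ← mul_assoc, mul_inv_cancel₀ hc.ne', one_mul]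

/-- JD. `(t - 1) log t ≥ 2 (t - 1)² / (t + 1)` for `t > 0`, Cauchy-Schwarz:
`(∑ |r - 1|)² ≤ ∑ (r - 1)² / (r + 1) * ∑ (r + 1) ≤ Js r / 2 * 2 q`. (`log t ≥ 2 (t - 1) / (t + 1)` for `t ≥ 1`, and the
opposite inequality for `t ≤ 1`: derivative, or Mathlib's `Real.le_log...`.) -/
theorem js_l1 (r : K → ℝ) (h0 : ∀ c, 0 < r c) (hs : ∑ c, r c = Fintype.card K) :
    (∑ c, |r c - 1|) ^ 2 ≤ Fintype.card K * Js r := by
  have h1 : (∑ c, |r c - 1|) ^ 2 ≤ (∑ c, (r c - 1) ^ 2 / (r c + 1)) * ∑ c, (r c + 1) := by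
    apply Finset.sum_sq_le_sum_mul_sum_of_sq_le_mul
    · intro c _
      have := h0 c
      positivity
    · intro c _
      have := h0 c
      positivity
    · intro c _
      have := h0 c
      rw [sq_abs]
      apply le_of_eq
      field_simp
  have h2 : ∑ c, (r c + 1) = 2 * Fintype.card K := by
    rw [Finset.sum_add_distrib, hs, Finset.sum_const, Finset.card_univ, nsmul_eq_mul]
    ring
  have h3 : ∑ c, (r c - 1) ^ 2 / (r c + 1) ≤ Js r / 2 := by
    unfold Js
    rw [Finset.sum_div]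
    refine Finset.sum_le_sum fun c _ => ?_
    have h4 := jda_log (h0 c)
    have h5 := h0 c
    rw [div_le_div_iff₀ (by linarith) (by norm_num)]
    linarith
  rw [h2] at h1
  have h4 : (0 : ℝ) ≤ 2 * Fintype.card K := by positivity
  calc (∑ c, |r c - 1|) ^ 2 ≤ (∑ c, (r c - 1) ^ 2 / (r c + 1)) * (2 * Fintype.card K) := h1
    _ ≤ (Js r / 2) * (2 * Fintype.card K) := mul_le_mul_of_nonneg_right h3 h4
    _ = Fintype.card K * Js r := by ring

end Pool.Agent.QC
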