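import Pool.Agent.Lib_MP_2c424f_pr.Defs

/-!
# Piece JDB: Jeffreys divergence: perturbation
-/

set_option autoImplicit false

open Finset

namespace Pool.Agent.QC

variable {K : Type} [Fintype K]

/-- JD. Perturbation: `0 ≤ S ≤ B`, `S ≤ T ≤ S + η`, `η ≤ 1`.

Proof. `q = card K`, `r₀ = q e^{-S} / ∑ e^{-S}`, `r = q e^{-T} / ∑ e^{-T}`. Then `e^{-η} ≤ r / r₀ ≤ e^η`, so with
`θ = log r - log r₀`, `|θ| ≤ η`, `|r - r₀| ≤ r₀ (e^η - 1) ≤ 2 η r₀`, and `|log r₀| ≤ B` since `∑ e^{-S} / q ∈ [e^{-B}, 1]`.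
`Js r = ∑ (r - 1)(log r₀ + θ) = Js r₀ + ∑ (r - r₀) log r₀ + ∑ (r - 1) θ ≤ Js r₀ + 2 η B q + 2 q η`
(`∑ |r - 1| ≤ ∑ (r + 1) = 2 q`). -/
theorem js_pert [Nonempty K] (S T : K → ℝ) {B η : ℝ} (hS0 : ∀ c, 0 ≤ S c) (hSB : ∀ c, S c ≤ B)
    (hT0 : ∀ c, S c ≤ T c) (hT1 : ∀ c, T c ≤ S c + η) (hη : 0 ≤ η) (hη1 : η ≤ 1) :
    Js (fun c => Fintype.card K * Real.exp (-T c) / ∑ c', Real.exp (-T c')) ≤
      Js (fun c => Fintype.card K * Real.exp (-S c) / ∑ c', Real.exp (-S c')) +
        Fintype.card K * ((2 * B + 2) * η) := by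
  set q : ℝ := (Fintype.card K : ℝ) with hq
  have hq0 : 0 < q := by
    rw [hq]
    exact_mod_cast Fintype.card_pos
  set ZS : ℝ := ∑ c', Real.exp (-S c') with hZS
  set ZT : ℝ := ∑ c', Real.exp (-T c') with hZT
  have hne : (univ : Finset K).Nonempty := Finset.univ_nonempty
  have hZS0 : 0 < ZS := Finset.sum_pos (fun c _ => Real.exp_pos _) hne
  have hZT0 : 0 < ZT := Finset.sum_pos (fun c _ => Real.exp_pos _) hne
  have hZTS : ZT ≤ ZS := Finset.sum_le_sum fun c _ => Real.exp_le_exp.2 (by linarith [hT0 c])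
  have hZST : Real.exp (-η) * ZS ≤ ZT := by
    rw [hZS, hZT, Finset.mul_sum]
    refine Finset.sum_le_sum fun c _ => ?_
    rw [← Real.exp_add]
    exact Real.exp_le_exp.2 (by linarith [hT1 c])
  have hZSq : ZS ≤ q := by
    have h1 : ∑ c : K, Real.exp (-S c) ≤ ∑ _c : K, (1 : ℝ) :=
      Finset.sum_le_sum fun c _ => Real.exp_le_one_iff.2 (by linarith [hS0 c])
    rw [Finset.sum_const, Finset.card_univ, nsmul_eq_mul, mul_one] at h1
    exact h1
  have hZSB : q * Real.exp (-B) ≤ ZS := by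
    have h1 : ∑ _c : K, Real.exp (-B) ≤ ∑ c : K, Real.exp (-S c) :=
      Finset.sum_le_sum fun c _ => Real.exp_le_exp.2 (by linarith [hSB c])
    rw [Finset.sum_const, Finset.card_univ, nsmul_eq_mul] at h1
    exact h1
  -- logarithms
  have l1 : 0 ≤ Real.log ZS - Real.log ZT := by
    have := Real.log_le_log hZT0 hZTS
    linarith
  have l2 : Real.log ZS - Real.log ZT ≤ η := by
    have h1 := Real.log_le_log (by positivity) hZST
    rw [Real.log_mul (Real.exp_pos _).ne' hZS0.ne', Real.log_exp] at h1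
    linarith
  have l3 : 0 ≤ Real.log q - Real.log ZS := by
    have := Real.log_le_log hZS0 hZSq
    linarith
  have l4 : Real.log q - Real.log ZS ≤ B := by
    have h1 := Real.log_le_log (by positivity) hZSB
    rw [Real.log_mul hq0.ne' (Real.exp_pos _).ne', Real.log_exp] at h1
    linarith
  have er0 : ∀ c, Real.log (q * Real.exp (-S c) / ZS) = Real.log q - S c - Real.log ZS := by
    intro c
    rw [Real.log_div (by positivity) hZS0.ne', Real.log_mul hq0.ne' (Real.exp_pos _).ne',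
      Real.log_exp]
    ring
  have er : ∀ c, Real.log (q * Real.exp (-T c) / ZT) = Real.log q - T c - Real.log ZT := by
    intro c
    rw [Real.log_div (by positivity) hZT0.ne', Real.log_mul hq0.ne' (Real.exp_pos _).ne',
      Real.log_exp]
    ring
  have hr00 : ∀ c, 0 < q * Real.exp (-S c) / ZS := fun c => by positivity
  have hr0 : ∀ c, 0 < q * Real.exp (-T c) / ZT := fun c => by positivity
  have key : ∀ c, (q * Real.exp (-T c) / ZT - 1) * Real.log (q * Real.exp (-T c) / ZT) ≤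
      (q * Real.exp (-S c) / ZS - 1) * Real.log (q * Real.exp (-S c) / ZS) +
        (2 * η * B) * (q * Real.exp (-S c) / ZS) + η * (q * Real.exp (-T c) / ZT + 1) := by
    intro c
    set r₀ := q * Real.exp (-S c) / ZS with hr₀
    set r := q * Real.exp (-T c) / ZT with hr
    set θ := Real.log r - Real.log r₀ with hθ
    have hr₀p : 0 < r₀ := hr00 c
    have hrp : 0 < r := hr0 c
    have t1 : |θ| ≤ η := by
      rw [hθ, er c, er0 c, abs_le]
      constructor
      · linarith [hT1 c]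
      · linarith [hT0 c]
    have t2 : |Real.log r₀| ≤ B := by
      rw [er0 c, abs_le]
      constructor
      · linarith [hSB c]
      · linarith [hS0 c]
    have t3 : r = r₀ * Real.exp θ := by
      rw [hθ, Real.exp_sub, Real.exp_log hrp, Real.exp_log hr₀p]
      field_simp
    have t4 : |r - r₀| ≤ r₀ * (2 * η) := by
      have h1 : r - r₀ = r₀ * (Real.exp θ - 1) := by
        rw [t3]
        ring
      rw [h1, abs_mul, abs_of_pos hr₀p]
      refine mul_le_mul_of_nonneg_left ?_ hr₀p.le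
      calc |Real.exp θ - 1| ≤ 2 * |θ| := Real.abs_exp_sub_one_le (t1.trans hη1)
        _ ≤ 2 * η := by linarith
    have t5 : (r - r₀) * Real.log r₀ ≤ (r₀ * (2 * η)) * B := by
      calc (r - r₀) * Real.log r₀ ≤ |(r - r₀) * Real.log r₀| := le_abs_self _
        _ = |r - r₀| * |Real.log r₀| := abs_mul _ _
        _ ≤ (r₀ * (2 * η)) * B := mul_le_mul t4 t2 (abs_nonneg _) (by positivity)
    have t6 : (r - 1) * θ ≤ (r + 1) * η := by
      calc (r - 1) * θ ≤ |(r - 1) * θ| := le_abs_self _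
        _ = |r - 1| * |θ| := abs_mul _ _
        _ ≤ (r + 1) * η := by
          refine mul_le_mul ?_ t1 (abs_nonneg _) (by linarith)
          rw [abs_le]
          constructor <;> linarith
    have t7 : Real.log r = Real.log r₀ + θ := by
      rw [hθ]
      ring
    rw [t7]
    nlinarith
  have hsum0 : ∑ c, q * Real.exp (-S c) / ZS = q := by
    rw [← Finset.sum_div, ← Finset.mul_sum, ← hZS]
    field_simp
  have hsum : ∑ c, q * Real.exp (-T c) / ZT = q := by
    rw [← Finset.sum_div, ← Finset.mul_sum, ← hZT]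
    field_simp
  unfold Js
  calc ∑ c, (q * Real.exp (-T c) / ZT - 1) * Real.log (q * Real.exp (-T c) / ZT)
      ≤ ∑ c, ((q * Real.exp (-S c) / ZS - 1) * Real.log (q * Real.exp (-S c) / ZS) +
        (2 * η * B) * (q * Real.exp (-S c) / ZS) + η * (q * Real.exp (-T c) / ZT + 1)) :=
        Finset.sum_le_sum fun c _ => key c
    _ = ∑ c, (q * Real.exp (-S c) / ZS - 1) * Real.log (q * Real.exp (-S c) / ZS) +
        (2 * η * B) * q + η * (q + q) := by
        rw [Finset.sum_add_distrib, Finset.sum_add_distrib, ← Finset.mul_sum, ← Finset.mul_sum,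
          hsum0, Finset.sum_add_distrib, hsum, Finset.sum_const, Finset.card_univ, nsmul_eq_mul,
          mul_one]
    _ = ∑ c, (q * Real.exp (-S c) / ZS - 1) * Real.log (q * Real.exp (-S c) / ZS) +
        q * ((2 * B + 2) * η) := by ring

end Pool.Agent.QC
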