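import Pool.Agent.Lib_MP_2c424f_pr.Defs

/-!
# Piece JDC: scalar inequalities
-/

set_option autoImplicit false

open Finset

namespace Pool.Agent.QC

theorem kap_nonneg {x : ℝ} (h0 : 0 ≤ x) : 0 ≤ kap x := by
  unfold kap
  exact mul_nonneg h0 (Real.exp_pos _).le

theorem kap_mono {x y : ℝ} (h0 : 0 ≤ x) (h : x ≤ y) : kap x ≤ kap y := by
  unfold kap
  exact mul_le_mul h (Real.exp_le_exp.mpr (by linarith)) (Real.exp_pos _).le (h0.trans h)

theorem kap_lt_one {x : ℝ} (h0 : 0 ≤ x) (h1 : x < 1) : kap x < 1 := by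
  unfold kap
  have h2 : Real.exp (x - 1) < 1 := (by have h := Real.exp_lt_exp.mpr (show x - 1 < 0 by linarith); rwa [Real.exp_zero] at h)
  have h3 : x * Real.exp (x - 1) ≤ 1 * Real.exp (x - 1) :=
    mul_le_mul_of_nonneg_right h1.le (Real.exp_pos _).le
  linarith

/-- helper of JDC: the inequality without `η` -/
private theorem jdc_core {x a : ℝ} (ha : 0 ≤ a) :
    1 - Real.exp (-(x * (Real.exp a - 1))) ≤ Real.exp (x - 1) * a := by
  have hd : ∀ b : ℝ, HasDerivAt (fun t => Real.exp (x - 1) * t - 1 + Real.exp (-(x * (Real.exp t - 1))))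
      (Real.exp (x - 1) * 1 + Real.exp (-(x * (Real.exp b - 1))) * (-(x * Real.exp b))) b := by
    intro b
    have h1 : HasDerivAt (fun t => Real.exp (x - 1) * t - 1) (Real.exp (x - 1) * 1) b :=
      ((hasDerivAt_id b).const_mul _).sub_const 1
    have h2 : HasDerivAt (fun t => -(x * (Real.exp t - 1))) (-(x * Real.exp b)) b :=
      (((Real.hasDerivAt_exp b).sub_const 1).const_mul x).neg
    exact h1.add h2.exp
  have hmono : Monotone (fun t => Real.exp (x - 1) * t - 1 + Real.exp (-(x * (Real.exp t - 1)))) := by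
    refine monotone_of_deriv_nonneg (fun b => (hd b).differentiableAt) (fun b => ?_)
    rw [(hd b).deriv]
    have h3 : x * Real.exp b ≤ Real.exp (x * Real.exp b - 1) := by
      have := Real.add_one_le_exp (x * Real.exp b - 1)
      linarith
    have h4 : Real.exp (x * Real.exp b - 1) * Real.exp (-(x * (Real.exp b - 1))) = Real.exp (x - 1) := by
      rw [← Real.exp_add]
      congr 1
      ring
    have h5 : x * Real.exp b * Real.exp (-(x * (Real.exp b - 1))) ≤ Real.exp (x - 1) := by
      rw [← h4]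
      exact mul_le_mul_of_nonneg_right h3 (Real.exp_pos _).le
    linarith
  have h := hmono ha
  simp only [mul_zero, Real.exp_zero, sub_self, neg_zero] at h
  linarith

/-- JD. `g(a) = x e^{x-1} a - x + x exp(-x (e^a - 1))`: `g(0) = 0` and
`g'(a) = x e^{x-1} (1 - e * v e^{-v}) ≥ 0` with `v = x e^a` (`v e^{-v} ≤ e^{-1}`); and
`exp(-z - η) ≥ exp(-z) - η` for `z ≥ 0`. -/
theorem scal {x a η : ℝ} (hx : 0 ≤ x) (ha : 0 ≤ a) (hη : 0 ≤ η) :
    x * (1 - Real.exp (-(x * (Real.exp a - 1)) - η)) ≤ kap x * a + x * η := by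
  have h1 := jdc_core (x := x) ha
  have h2 : 0 ≤ x * (Real.exp a - 1) := by
    have := Real.add_one_le_exp a
    exact mul_nonneg hx (by linarith)
  have h3 : Real.exp (-(x * (Real.exp a - 1))) - η ≤ Real.exp (-(x * (Real.exp a - 1)) - η) := by
    have h4 : Real.exp (-(x * (Real.exp a - 1)) - η) =
        Real.exp (-(x * (Real.exp a - 1))) * Real.exp (-η) := by
      rw [← Real.exp_add]
      congr 1
    have h5 : 1 - η ≤ Real.exp (-η) := by
      have := Real.add_one_le_exp (-η)
      linarith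
    have h6 : Real.exp (-(x * (Real.exp a - 1))) ≤ 1 := Real.exp_le_one_iff.mpr (by linarith)
    have h7 : 0 < Real.exp (-(x * (Real.exp a - 1))) := Real.exp_pos _
    rw [h4]
    nlinarith
  have h8 : 1 - Real.exp (-(x * (Real.exp a - 1)) - η) ≤ Real.exp (x - 1) * a + η := by linarith
  calc x * (1 - Real.exp (-(x * (Real.exp a - 1)) - η)) ≤ x * (Real.exp (x - 1) * a + η) :=
        mul_le_mul_of_nonneg_left h8 hx
    _ = kap x * a + x * η := by unfold kap; ring

end Pool.Agent.QC
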