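import Pool.Agent.Lib_MP_2c424f_pr.Defs

/-!
# Piece KEA: Kempe swaps
-/

set_option autoImplicit false

open Finset

namespace Pool.Agent.QC

variable {V K : Type} [Fintype V] [Fintype K] {G : SimpleGraph V}

open scoped Classical in
/-- swap `a` and `b` on the component of `u` -/
noncomputable def kswap (G : SimpleGraph V) (a b : K) (u : V) (f : V → K) : V → K :=
  fun x => if (Gab G a b f).Reachable u x then Equiv.swap a b (f x) else f x

theorem KEA_reach_col {a b : K} {u x : V} {f : V → K} (hu : f u = a ∨ f u = b)
    (h : (Gab G a b f).Reachable u x) : f x = a ∨ f x = b := by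
  obtain ⟨p⟩ := h
  induction p with
  | nil => exact hu
  | cons hadj p ih => exact ih hadj.2.2

theorem KEA_swap_col {a b c : K} [DecidableEq K] (h : c = a ∨ c = b) :
    Equiv.swap a b c = a ∨ Equiv.swap a b c = b := by
  rcases h with rfl | rfl
  · right; exact Equiv.swap_apply_left _ _
  · left; exact Equiv.swap_apply_right _ _

theorem KEA_swap_col_iff {a b c : K} [DecidableEq K] :
    (Equiv.swap a b c = a ∨ Equiv.swap a b c = b) ↔ (c = a ∨ c = b) := by
  constructor
  · intro h
    have := KEA_swap_col (a := a) (b := b) h
    rwa [Equiv.swap_apply_self] at this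
  · exact KEA_swap_col

/-- KEM. For `x`, `y` adjacent in `G`: if both are in the component or both are not, clear. If `x` is in the component and `y`
is not then `f y ∉ {a, b}` (otherwise `y` would be in the component; `f x ∈ {a, b}` as `u`'s colour is in `{a, b}`), and the new colour
of `x` is in `{a, b}`. -/
theorem kswap_proper {a b : K} {u : V} {f : V → K} (hf : Proper G f) (hu : f u = a ∨ f u = b) :
    Proper G (kswap G a b u f) := by
  classical
  have key : ∀ x y, G.Adj x y → (Gab G a b f).Reachable u x → ¬ (Gab G a b f).Reachable u y →
      kswap G a b u f x ≠ kswap G a b u f y := by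
    intro x y hxy hx hy
    have hcx := KEA_reach_col hu hx
    have hcy : ¬ (f y = a ∨ f y = b) := by
      intro hcy
      apply hy
      exact hx.trans (SimpleGraph.Adj.reachable ⟨hxy, hcx, hcy⟩)
    unfold kswap
    rw [if_pos hx, if_neg hy]
    intro h
    apply hcy
    rw [← h]
    exact KEA_swap_col hcx
  intro x y hxy
  by_cases hx : (Gab G a b f).Reachable u x <;> by_cases hy : (Gab G a b f).Reachable u y
  · unfold kswap
    rw [if_pos hx, if_pos hy]
    intro h
    exact hf x y hxy ((Equiv.swap a b).injective h)
  · exact key x y hxy hx hy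
  · exact (key y x hxy.symm hy hx).symm
  · unfold kswap
    rw [if_neg hx, if_neg hy]
    exact hf x y hxy

/-- KEM. `kswap` does not change the sets of vertices with colours in `{a, b}` -/
theorem kswap_gab {a b : K} {u : V} {f : V → K} (hu : f u = a ∨ f u = b) :
    Gab G a b (kswap G a b u f) = Gab G a b f := by
  classical
  have key : ∀ x, (kswap G a b u f x = a ∨ kswap G a b u f x = b) ↔ (f x = a ∨ f x = b) := by
    intro x
    unfold kswap
    split_ifs with h
    · exact KEA_swap_col_iff
    · rfl
  ext x y
  unfold Gab
  simp only [key]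

theorem kswap_kswap {a b : K} {u : V} {f : V → K} (hu : f u = a ∨ f u = b) :
    kswap G a b u (kswap G a b u f) = f := by
  classical
  funext x
  have h1 : kswap G a b u (kswap G a b u f) x =
      if (Gab G a b (kswap G a b u f)).Reachable u x then
        Equiv.swap a b (kswap G a b u f x) else kswap G a b u f x := by
    unfold kswap
    rfl
  rw [h1, kswap_gab hu]
  by_cases hx : (Gab G a b f).Reachable u x
  · rw [if_pos hx]
    unfold kswap
    rw [if_pos hx]
    convert Equiv.swap_apply_self a b (f x) using 2
  · rw [if_neg hx]
    unfold kswap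
    rw [if_neg hx]

end Pool.Agent.QC
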