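import Pool.Agent.Lib_MP_2c424f_pr.Defs

/-!
# Piece LCA: list colourings, the exact recursion
-/

set_option autoImplicit false

open Finset

namespace Pool.Agent.QC

variable {V K : Type} [Fintype V] [Fintype K] [Inhabited K]

omit [Fintype V] [Fintype K] [Inhabited K] in
theorem lca_mem_rm {L : V → Finset K} {T : Finset V} {c : K} {u : V} {a : K} :
    a ∈ rm L T c u ↔ a ∈ L u ∧ (u ∈ T → a ≠ c) := by
  classical
  unfold rm
  by_cases hu : u ∈ T
  · rw [if_pos hu, mem_erase]
    exact ⟨fun h => ⟨h.2, fun _ => h.1⟩, fun h => ⟨h.2 hu, h.1⟩⟩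
  · rw [if_neg hu]
    exact ⟨fun h => ⟨h, fun h' => absurd h' hu⟩, fun h => h.1⟩

theorem lca_mem_LC {G : SimpleGraph V} {S : Finset V} {L : V → Finset K} {f : V → K} :
    f ∈ LC G S L ↔ (∀ v, v ∉ S → f v = default) ∧ (∀ v ∈ S, f v ∈ L v) ∧
      ∀ u ∈ S, ∀ v ∈ S, G.Adj u v → f u ≠ f v := by
  classical
  unfold LC
  rw [mem_filter]
  exact ⟨fun h => h.2, fun h => ⟨mem_univ _, h⟩⟩

omit [Fintype K] [Inhabited K] in
theorem lca_mem_nb {G : SimpleGraph V} {v u : V} : u ∈ nb G v ↔ G.Adj v u := by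
  classical
  unfold nb
  rw [mem_filter]
  exact ⟨fun h => h.2, fun h => ⟨mem_univ _, h⟩⟩

theorem rm_empty (L : V → Finset K) (c : K) : rm L ∅ c = L := by
  funext u
  ext a
  rw [lca_mem_rm]
  simp

open scoped Classical in
theorem rm_insert (L : V → Finset K) (T : Finset V) (u : V) (c : K) :
    rm L (insert u T) c = rm (rm L T c) {u} c := by
  funext x
  ext a
  rw [lca_mem_rm, lca_mem_rm, lca_mem_rm, mem_insert, mem_singleton]
  tauto

/-- only the lists of the vertices in `S` matter -/
theorem Z_congr (G : SimpleGraph V) (S : Finset V) {L L' : V → Finset K}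
    (h : ∀ v ∈ S, L v = L' v) : Z G S L = Z G S L' := by
  unfold Z
  congr 1
  ext f
  rw [lca_mem_LC, lca_mem_LC]
  constructor
  · rintro ⟨h1, h2, h3⟩
    exact ⟨h1, fun v hv => by rw [← h v hv]; exact h2 v hv, h3⟩
  · rintro ⟨h1, h2, h3⟩
    exact ⟨h1, fun v hv => by rw [h v hv]; exact h2 v hv, h3⟩

/-- Bijection `f ↦ f` with `f v` replaced by `default`, inverse `g ↦ g` with `g v` replaced by `c`. -/
theorem Zc_eq (G : SimpleGraph V) {S : Finset V} {v : V} (hv : v ∈ S) {L : V → Finset K} {c : K}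
    (hc : c ∈ L v) [DecidableEq V] : Zc G S L v c = Z G (S.erase v) (rm L (nb G v) c) := by
  classical
  unfold Zc Z
  refine Finset.card_bij (fun f _ => Function.update f v default) ?_ ?_ ?_
  · intro f hf
    rw [mem_filter, lca_mem_LC] at hf
    obtain ⟨⟨h1, h2, h3⟩, h4⟩ := hf
    rw [lca_mem_LC]
    refine ⟨?_, ?_, ?_⟩
    · intro x hx
      by_cases hxv : x = v
      · rw [hxv, Function.update_self]
      · rw [Function.update_of_ne hxv]
        exact h1 x fun hxS => hx (mem_erase.2 ⟨hxv, hxS⟩)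
    · intro x hx
      obtain ⟨hxv, hxS⟩ := mem_erase.1 hx
      rw [Function.update_of_ne hxv, lca_mem_rm]
      refine ⟨h2 x hxS, fun hxn => ?_⟩
      rw [← h4]
      exact (h3 v hv x hxS (lca_mem_nb.1 hxn)).symm
    · intro x hx y hy hxy
      obtain ⟨hxv, hxS⟩ := mem_erase.1 hx
      obtain ⟨hyv, hyS⟩ := mem_erase.1 hy
      rw [Function.update_of_ne hxv, Function.update_of_ne hyv]
      exact h3 x hxS y hyS hxy
  · intro f hf f' hf' hff
    rw [mem_filter] at hf hf'
    funext x
    by_cases hxv : x = v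
    · rw [hxv, hf.2, hf'.2]
    · have := congrFun hff x
      simpa only [Function.update_of_ne hxv] using this
  · intro g hg
    rw [lca_mem_LC] at hg
    obtain ⟨h1, h2, h3⟩ := hg
    refine ⟨Function.update g v c, ?_, ?_⟩
    · rw [mem_filter, lca_mem_LC]
      refine ⟨⟨?_, ?_, ?_⟩, Function.update_self _ _ _⟩
      · intro x hx
        have hxv : x ≠ v := fun h => hx (h ▸ hv)
        rw [Function.update_of_ne hxv]
        exact h1 x fun hx' => hx (mem_erase.1 hx').2
      · intro x hx
        by_cases hxv : x = v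
        · rw [hxv, Function.update_self]
          exact hc
        · rw [Function.update_of_ne hxv]
          exact (lca_mem_rm.1 (h2 x (mem_erase.2 ⟨hxv, hx⟩))).1
      · intro x hx y hy hxy
        by_cases hxv : x = v
        · have hyv : y ≠ v := fun h => hxy.ne (by rw [hxv, h])
          rw [hxv, Function.update_self, Function.update_of_ne hyv]
          exact ((lca_mem_rm.1 (h2 y (mem_erase.2 ⟨hyv, hy⟩))).2
            (lca_mem_nb.2 (hxv ▸ hxy))).symm
        · by_cases hyv : y = v
          · rw [hyv, Function.update_self, Function.update_of_ne hxv]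
            exact (lca_mem_rm.1 (h2 x (mem_erase.2 ⟨hxv, hx⟩))).2
              (lca_mem_nb.2 (hyv ▸ hxy.symm))
          · rw [Function.update_of_ne hxv, Function.update_of_ne hyv]
            exact h3 x (mem_erase.2 ⟨hxv, hx⟩) y (mem_erase.2 ⟨hyv, hy⟩) hxy
    · funext x
      by_cases hxv : x = v
      · rw [hxv, Function.update_self]
        exact (h1 v (notMem_erase v S)).symm
      · rw [Function.update_of_ne hxv, Function.update_of_ne hxv]

theorem Zc_zero (G : SimpleGraph V) {S : Finset V} {v : V} (hv : v ∈ S) {L : V → Finset K} {c : K}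
    (hc : c ∉ L v) : Zc G S L v c = 0 := by
  classical
  unfold Zc
  rw [card_eq_zero, filter_eq_empty_iff]
  intro f hf hfc
  rw [lca_mem_LC] at hf
  exact hc (hfc ▸ hf.2.1 v hv)

theorem Z_sum (G : SimpleGraph V) {S : Finset V} {v : V} (hv : v ∈ S) (L : V → Finset K) :
    Z G S L = ∑ c ∈ L v, Zc G S L v c := by
  classical
  unfold Z Zc
  rw [Finset.card_eq_sum_card_fiberwise (f := fun f : V → K => f v) (t := L v)]
  intro f hf
  rw [mem_coe, lca_mem_LC] at hf
  exact hf.2.1 v hv

/-- the colourings with `f u ≠ c` and those with `f u = c` -/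
theorem Z_rm (G : SimpleGraph V) {S : Finset V} {u : V} (hu : u ∈ S) (L : V → Finset K) (c : K) :
    Z G S (rm L {u} c) + Zc G S L u c = Z G S L := by
  classical
  unfold Z Zc
  have h1 : LC G S (rm L {u} c) = (LC G S L).filter fun f => ¬ f u = c := by
    ext f
    rw [mem_filter, lca_mem_LC, lca_mem_LC]
    constructor
    · rintro ⟨h1, h2, h3⟩
      exact ⟨⟨h1, fun v hv => (lca_mem_rm.1 (h2 v hv)).1, h3⟩,
        (lca_mem_rm.1 (h2 u hu)).2 (mem_singleton_self u)⟩
    · rintro ⟨⟨h1, h2, h3⟩, h4⟩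
      refine ⟨h1, fun v hv => lca_mem_rm.2 ⟨h2 v hv, fun hvu => ?_⟩, h3⟩
      rw [mem_singleton.1 hvu]
      exact h4
  rw [h1, add_comm, ← Finset.card_union_of_disjoint (Finset.disjoint_filter_filter_not _ _ _),
    Finset.filter_union_filter_not_eq]

end Pool.Agent.QC
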