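import Pool.Agent.Lib_MP_2c424f_pr.LCA

/-!
# Piece LCB: list colourings, bounds
-/

set_option autoImplicit false

open Finset

namespace Pool.Agent.QC

variable {V K : Type} [Fintype V] [Fintype K] [Inhabited K]

/-- Deleting `v` and removing a colour from the lists of (some of) its neighbours: the list of such a
neighbour loses at most one colour and it loses the neighbour `v`. -/
theorem slack_erase (G : SimpleGraph V) {S : Finset V} {L : V → Finset K} {s : ℕ}
    (h : Slack G S L s) {v : V} (hv : v ∈ S) {T : Finset V} (hT : T ⊆ nb G v) (c : K)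
    [DecidableEq V] : Slack G (S.erase v) (rm L T c) s := by
  classical
  intro u hu
  obtain ⟨huv, huS⟩ := Finset.mem_erase.1 hu
  have h1 := h u huS
  have hsub : (S.erase v).filter (fun w => G.Adj u w) ⊆ S.filter (fun w => G.Adj u w) :=
    Finset.filter_subset_filter _ (Finset.erase_subset _ _)
  unfold rm
  split_ifs with hT'
  · have hadj : G.Adj u v := by
      have h2 := hT hT'
      unfold nb at h2
      rw [Finset.mem_filter] at h2
      exact h2.2.symm
    have h3 : (S.erase v).filter (fun w => G.Adj u w) ⊆ (S.filter (fun w => G.Adj u w)).erase v := by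
      intro w hw
      obtain ⟨hw1, hw2⟩ := Finset.mem_filter.1 hw
      obtain ⟨hw3, hw4⟩ := Finset.mem_erase.1 hw1
      exact Finset.mem_erase.2 ⟨hw3, Finset.mem_filter.2 ⟨hw4, hw2⟩⟩
    have h4 := Finset.card_le_card h3
    have h5 : v ∈ S.filter (fun w => G.Adj u w) := Finset.mem_filter.2 ⟨hv, hadj⟩
    rw [Finset.card_erase_of_mem h5] at h4
    have h6 : 0 < (S.filter (fun w => G.Adj u w)).card := Finset.card_pos.2 ⟨v, h5⟩
    have h7 := Finset.pred_card_le_card_erase (s := L u) (a := c)
    have h8 : ((S.erase v).filter (fun w => G.Adj u w)).card + s ≤ ((L u).erase c).card := by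
      omega
    convert h8 using 2
  · have h4 := Finset.card_le_card hsub
    have h8 : ((S.erase v).filter (fun w => G.Adj u w)).card + s ≤ (L u).card := by
      omega
    convert h8 using 2

open scoped Classical in
/-- colours for `v` which are free in a colouring of the rest -/
theorem lcb_count (G : SimpleGraph V) {S : Finset V} {L : V → Finset K} {s : ℕ} {v : V}
    (hv : v ∈ S) (h : Slack G S L s) : s * Z G (S.erase v) L ≤ Z G S L := by
  have hmem : ∀ g ∈ LC G (S.erase v) L, ∀ c ∈ (L v) \ ((S.filter fun u => G.Adj v u).image g),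
      Function.update g v c ∈ LC G S L := by
    intro g hg c hc
    unfold LC at hg ⊢
    rw [Finset.mem_filter] at hg ⊢
    obtain ⟨-, g1, g2, g3⟩ := hg
    obtain ⟨hc1, hc2⟩ := Finset.mem_sdiff.1 hc
    have hfree : ∀ w ∈ S, G.Adj v w → c ≠ g w := by
      intro w hw hvw hcw
      exact hc2 (Finset.mem_image.2 ⟨w, Finset.mem_filter.2 ⟨hw, hvw⟩, hcw.symm⟩)
    refine ⟨Finset.mem_univ _, ?_, ?_, ?_⟩
    · intro w hw
      have hwv : w ≠ v := fun h0 => hw (h0 ▸ hv)
      rw [Function.update_of_ne hwv]
      exact g1 w (fun h0 => hw (Finset.mem_of_mem_erase h0))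
    · intro w hw
      by_cases hwv : w = v
      · subst hwv
        rw [Function.update_self]
        exact hc1
      · rw [Function.update_of_ne hwv]
        exact g2 w (Finset.mem_erase.2 ⟨hwv, hw⟩)
    · intro x hx y hy hxy
      by_cases hxv : x = v
      · have hyv : y ≠ v := fun h0 => hxy.ne (hxv.trans h0.symm)
        rw [Function.update_of_ne hyv, hxv, Function.update_self]
        exact hfree y hy (hxv ▸ hxy)
      · by_cases hyv : y = v
        · rw [Function.update_of_ne hxv, hyv, Function.update_self]
          exact (hfree x hx (hyv ▸ hxy.symm)).symm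
        · rw [Function.update_of_ne hxv, Function.update_of_ne hyv]
          exact g3 x (Finset.mem_erase.2 ⟨hxv, hx⟩) y (Finset.mem_erase.2 ⟨hyv, hy⟩) hxy
  have hcard : ∀ g : V → K, s ≤ ((L v) \ ((S.filter fun u => G.Adj v u).image g)).card := by
    intro g
    have h1 := Finset.le_card_sdiff ((S.filter fun u => G.Adj v u).image g) (L v)
    have h2 : ((S.filter fun u => G.Adj v u).image g).card ≤ (S.filter fun u => G.Adj v u).card :=
      Finset.card_image_le
    have h3 := h v hv
    omega
  have hsig : ((LC G (S.erase v) L).sigma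
      fun g => (L v) \ ((S.filter fun u => G.Adj v u).image g)).card ≤ (LC G S L).card := by
    apply Finset.card_le_card_of_injOn (fun p => Function.update p.1 v p.2)
    · rintro ⟨g, c⟩ hp
      rw [Finset.mem_coe, Finset.mem_sigma] at hp
      exact hmem g hp.1 c hp.2
    · rintro ⟨g, c⟩ hp ⟨g', c'⟩ hp' heq
      rw [Finset.mem_coe, Finset.mem_sigma] at hp hp'
      have hg : ∀ g ∈ LC G (S.erase v) L, g v = default := by
        intro g hg
        unfold LC at hg
        rw [Finset.mem_filter] at hg
        exact hg.2.1 v (Finset.notMem_erase v S)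
      simp only at heq hp hp'
      have hc : c = c' := by
        have := congrFun heq v
        rwa [Function.update_self, Function.update_self] at this
      have hgg : g = g' := by
        funext w
        by_cases hwv : w = v
        · rw [hwv, hg g hp.1, hg g' hp'.1]
        · have := congrFun heq w
          rwa [Function.update_of_ne hwv, Function.update_of_ne hwv] at this
      subst hc
      subst hgg
      rfl
  rw [Finset.card_sigma] at hsig
  unfold Z
  calc s * (LC G (S.erase v) L).card = ∑ _g ∈ LC G (S.erase v) L, s := by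
        rw [Finset.sum_const, smul_eq_mul, mul_comm]
    _ ≤ ∑ g ∈ LC G (S.erase v) L, ((L v) \ ((S.filter fun u => G.Adj v u).image g)).card :=
        Finset.sum_le_sum fun g _ => hcard g
    _ ≤ (LC G S L).card := hsig

theorem lcb_mono (G : SimpleGraph V) (S : Finset V) {L L' : V → Finset K}
    (h : ∀ v, L v ⊆ L' v) : Z G S L ≤ Z G S L' := by
  classical
  unfold Z LC
  apply Finset.card_le_card
  intro f hf
  rw [Finset.mem_filter] at hf ⊢
  exact ⟨hf.1, hf.2.1, fun v hv => h v (hf.2.2.1 v hv), hf.2.2.2⟩

/-- For a colouring `g` of `S.erase v` (`LC G (S.erase v) L`) there are at least `s` colours for `v`; so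
`s * Z G (S.erase v) L ≤ Z G S L`; and `Zc G S L v c = Z G (S.erase v) (rm …) ≤ Z G (S.erase v) L`
(`LC` is monotone in the lists), or `Zc = 0`. -/
theorem Zc_le (G : SimpleGraph V) {S : Finset V} {L : V → Finset K} {s : ℕ} {v : V} (hv : v ∈ S)
    (h : Slack G S L s) (c : K) : s * Zc G S L v c ≤ Z G S L := by
  classical
  by_cases hc : c ∈ L v
  · have h1 : Zc G S L v c ≤ Z G (S.erase v) L := by
      rw [Zc_eq G hv hc]
      apply lcb_mono
      intro u
      unfold rm
      split_ifs
      · exact Finset.erase_subset _ _
      · exact Finset.Subset.refl _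
    have h2 := lcb_count G hv h
    have h3 : Z G (S.erase v) L = Z G (S.erase v) L := rfl
    refine (Nat.mul_le_mul_left s h1).trans ?_
    convert h2 using 2
  · rw [Zc_zero G hv hc, Nat.mul_zero]
    exact Nat.zero_le _

/-- Induction on `S`: `s * Z G (S.erase v) L ≤ Z G S L` (proof of `Zc_le`), and `Slack` for `S.erase v` (with
`T = ∅`). -/
theorem Z_pos (G : SimpleGraph V) {S : Finset V} {L : V → Finset K} {s : ℕ} (hs : 1 ≤ s)
    (h : Slack G S L s) : 0 < Z G S L := by
  classical
  induction S using Finset.induction_on with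
  | empty =>
    unfold Z
    rw [Finset.card_pos]
    refine ⟨fun _ => default, ?_⟩
    unfold LC
    rw [Finset.mem_filter]
    refine ⟨Finset.mem_univ _, fun v _ => rfl, fun v hv => absurd hv (Finset.notMem_empty v), ?_⟩
    intro u hu
    exact absurd hu (Finset.notMem_empty u)
  | insert v S hvS ih =>
    have hv : v ∈ insert v S := Finset.mem_insert_self v S
    have h1 := lcb_count G hv h
    have h2 : (insert v S).erase v = S := Finset.erase_insert hvS
    have h3 : Slack G S L s := by
      have h4 := slack_erase G h hv (T := ∅) (Finset.empty_subset _) (default : K)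
      rw [rm_empty] at h4
      rw [h2] at h4
      exact h4
    have h5 := ih h3
    rw [h2] at h1
    exact lt_of_lt_of_le (Nat.mul_pos hs h5) h1

theorem Pr_nonneg (G : SimpleGraph V) (S : Finset V) (L : V → Finset K) (v : V) (c : K) :
    0 ≤ Pr G S L v c := by
  unfold Pr
  positivity

/-- `Zc_le`, `Z_pos` -/
theorem Pr_le (G : SimpleGraph V) {S : Finset V} {L : V → Finset K} {s : ℕ} (hs : 1 ≤ s) {v : V}
    (hv : v ∈ S) (h : Slack G S L s) (c : K) : Pr G S L v c ≤ 1 / (s : ℝ) := by
  have h1 := Zc_le G hv h c
  have h2 := Z_pos G hs h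
  have h3 : (s : ℝ) * Zc G S L v c ≤ Z G S L := by exact_mod_cast h1
  have h4 : (0 : ℝ) < Z G S L := by exact_mod_cast h2
  have h5 : (0 : ℝ) < s := by exact_mod_cast hs
  unfold Pr
  rw [div_le_div_iff₀ h4 h5]
  linarith

end Pool.Agent.QC
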