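import Pool.Agent.Lib_MP_2c424f_pr.JC
import Pool.Agent.Lib_MP_2c424f_pr.JDA
import Pool.Agent.Lib_MP_2c424f_pr.JDB
import Pool.Agent.Lib_MP_2c424f_pr.JDC

/-!
# Piece LOC: one step of the recursion, local form

`A` is the finite set of the (outer) neighbours, `Gd ⊆ A` the good ones, `ρ j` a probability vector on the
colours for each `j ∈ A`, `R c = q ∏_{j ∈ A} (1 - ρ j c) / ∑_c' ∏_{j ∈ A} (1 - ρ j c')`.
-/

set_option autoImplicit false

open Finset

namespace Pool.Agent.QC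

/-- the data of a step -/
structure Loc {V K : Type} [Fintype K] (A Gd : Finset V) (ρ : V → K → ℝ) (s D t : ℕ) : Prop where
  s4 : 4 ≤ s
  sub : Gd ⊆ A
  cA : A.card ≤ D
  cG : A.card ≤ Gd.card + t
  nonneg : ∀ j ∈ A, ∀ c, 0 ≤ ρ j c
  le : ∀ j ∈ A, ∀ c, ρ j c ≤ 1 / (s : ℝ)
  sum : ∀ j ∈ A, ∑ c, ρ j c = 1
  pos : ∀ j ∈ Gd, ∀ c, 0 < ρ j c

variable {V K : Type} [Fintype K] [Nonempty K] {A Gd : Finset V} {ρ : V → K → ℝ} {s D t : ℕ}

/-- the product -/
noncomputable def PP (A : Finset V) (ρ : V → K → ℝ) (c : K) : ℝ := ∏ j ∈ A, (1 - ρ j c)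

/-- `R` -/
noncomputable def RR (A : Finset V) (ρ : V → K → ℝ) (c : K) : ℝ :=
  Fintype.card K * PP A ρ c / ∑ c', PP A ρ c'

/-- `T = - log PP` -/
noncomputable def TT (A : Finset V) (ρ : V → K → ℝ) (c : K) : ℝ := ∑ j ∈ A, -Real.log (1 - ρ j c)

/-- the sum over the good neighbours -/
noncomputable def SG (Gd : Finset V) (ρ : V → K → ℝ) (c : K) : ℝ := ∑ j ∈ Gd, ρ j c

/-- the perturbation -/
noncomputable def eta (s D t : ℕ) : ℝ := t / s + D / (s : ℝ) ^ 2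

/-- the bound for `T` and `|log R|` -/
noncomputable def BB (s D : ℕ) : ℝ := 2 * D / s

/-! ### helpers -/

theorem LOC_hs (h : Loc A Gd ρ s D t) : (4 : ℝ) ≤ (s : ℝ) := by exact_mod_cast h.s4

theorem LOC_inv_le (h : Loc A Gd ρ s D t) : 1 / (s : ℝ) ≤ 1 / 4 :=
  one_div_le_one_div_of_le (by norm_num) (LOC_hs h)

theorem LOC_inv_pos (h : Loc A Gd ρ s D t) : 0 < 1 / (s : ℝ) := by
  have := LOC_hs h
  positivity

theorem LOC_le4 (h : Loc A Gd ρ s D t) {j : V} (hj : j ∈ A) (c : K) : ρ j c ≤ 1 / 4 :=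
  (h.le j hj c).trans (LOC_inv_le h)

theorem LOC_factor_pos (h : Loc A Gd ρ s D t) {j : V} (hj : j ∈ A) (c : K) : 0 < 1 - ρ j c := by
  have := LOC_le4 h hj c
  linarith

/-- `y ≤ - log (1 - y)` -/
theorem LOC_low {y : ℝ} (hy : y < 1) : y ≤ -Real.log (1 - y) := by
  have := Real.log_le_sub_one_of_pos (show (0 : ℝ) < 1 - y by linarith)
  linarith

/-- `- log (1 - y) ≤ y + y²` for `0 ≤ y ≤ 1/2` -/
theorem LOC_up {y : ℝ} (h0 : 0 ≤ y) (h1 : y ≤ 1 / 2) : -Real.log (1 - y) ≤ y + y ^ 2 := by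
  have hpos : (0 : ℝ) < 1 - y := by linarith
  have h2 := Real.one_sub_inv_le_log_of_pos hpos
  have h3 : (1 - y)⁻¹ = 1 + y / (1 - y) := by
    field_simp
    ring
  -- use log (1 - y) >= ... through the exponential
  have key : Real.exp (-(y + y ^ 2)) ≤ 1 - y := by
    have e1 : Real.exp (-(y + y ^ 2)) = (Real.exp (y + y ^ 2))⁻¹ := Real.exp_neg _
    have e2 : 1 + (y + y ^ 2) + (y + y ^ 2) ^ 2 / 2 ≤ Real.exp (y + y ^ 2) :=
      Real.quadratic_le_exp_of_nonneg (by positivity)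
    rw [e1, inv_le_comm₀ (Real.exp_pos _) hpos]
    refine le_trans ?_ e2
    rw [inv_eq_one_div, div_le_iff₀ hpos]
    nlinarith [mul_nonneg h0 h0, mul_nonneg (mul_nonneg h0 h0) h0,
      mul_nonneg (mul_nonneg h0 h0) (sub_nonneg.2 h1),
      mul_nonneg (mul_nonneg (mul_nonneg h0 h0) h0) (sub_nonneg.2 h1),
      mul_nonneg (mul_nonneg (mul_nonneg (mul_nonneg h0 h0) h0) h0) (sub_nonneg.2 h1)]
  have := Real.log_le_log (Real.exp_pos _) key
  rw [Real.log_exp] at this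
  linarith

/-- `- log (1 - y) ≤ 2 y` for `0 ≤ y ≤ 1/2` -/
theorem LOC_up2 {y : ℝ} (h0 : 0 ≤ y) (h1 : y ≤ 1 / 2) : -Real.log (1 - y) ≤ 2 * y := by
  have := LOC_up h0 h1
  nlinarith

/-- LOC. the factors `1 - ρ` are `≥ 3/4 > 0` (`s ≥ 4`) -/
theorem pp_eq (h : Loc A Gd ρ s D t) (c : K) : PP A ρ c = Real.exp (-TT A ρ c) := by
  unfold PP TT
  rw [← Finset.sum_neg_distrib, Real.exp_sum]
  refine Finset.prod_congr rfl fun j hj => ?_
  rw [neg_neg, Real.exp_log (LOC_factor_pos h hj c)]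

theorem sg_nonneg (h : Loc A Gd ρ s D t) (c : K) : 0 ≤ SG Gd ρ c :=
  Finset.sum_nonneg fun j hj => h.nonneg j (h.sub hj) c

theorem LOC_tt_nonneg_term (h : Loc A Gd ρ s D t) {j : V} (hj : j ∈ A) (c : K) :
    0 ≤ -Real.log (1 - ρ j c) := by
  have h1 := LOC_le4 h hj c
  exact (h.nonneg j hj c).trans (LOC_low (by linarith))

theorem LOC_tt_nonneg (h : Loc A Gd ρ s D t) (c : K) : 0 ≤ TT A ρ c :=
  Finset.sum_nonneg fun _ hj => LOC_tt_nonneg_term h hj c

/-- LOC. `y ≤ - log (1 - y)` -/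
theorem sg_le_tt (h : Loc A Gd ρ s D t) (c : K) : SG Gd ρ c ≤ TT A ρ c := by
  unfold SG TT
  calc ∑ j ∈ Gd, ρ j c ≤ ∑ j ∈ Gd, -Real.log (1 - ρ j c) :=
        Finset.sum_le_sum fun j hj => by
          have h1 := LOC_le4 h (h.sub hj) c
          exact LOC_low (by linarith)
    _ ≤ ∑ j ∈ A, -Real.log (1 - ρ j c) :=
        Finset.sum_le_sum_of_subset_of_nonneg h.sub fun j hj _ => LOC_tt_nonneg_term h hj c

/-- LOC. `- log (1 - y) ≤ y + y²` for `0 ≤ y ≤ 1/2`; the bad neighbours (at most `t`) contribute at most `t / s` to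
the sum of `y`, all neighbours at most `D / s²` to the sum of `y²`. -/
theorem tt_le (h : Loc A Gd ρ s D t) (c : K) : TT A ρ c ≤ SG Gd ρ c + eta s D t := by
  classical
  have hs := LOC_hs h
  have h1 : TT A ρ c ≤ ∑ j ∈ A, (ρ j c + (1 / (s : ℝ)) ^ 2) := by
    unfold TT
    refine Finset.sum_le_sum fun j hj => ?_
    have h2 := LOC_le4 h hj c
    have h3 := LOC_up (h.nonneg j hj c) (by linarith)
    have h4 : ρ j c ^ 2 ≤ (1 / (s : ℝ)) ^ 2 := pow_le_pow_left₀ (h.nonneg j hj c) (h.le j hj c) 2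
    linarith
  have h2 : ∑ j ∈ A, ρ j c = ∑ j ∈ A \ Gd, ρ j c + ∑ j ∈ Gd, ρ j c :=
    (Finset.sum_sdiff h.sub).symm
  have h3 : ∑ j ∈ A \ Gd, ρ j c ≤ t / s := by
    have h4 : ∑ j ∈ A \ Gd, ρ j c ≤ ∑ _j ∈ A \ Gd, 1 / (s : ℝ) :=
      Finset.sum_le_sum fun j hj => h.le j (Finset.mem_sdiff.1 hj).1 c
    have h5 : ((A \ Gd).card : ℝ) ≤ t := by
      have h6 : (A \ Gd).card = A.card - Gd.card := Finset.card_sdiff_of_subset h.sub
      have h7 := h.cG
      have : (A \ Gd).card ≤ t := by omega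
      exact_mod_cast this
    rw [Finset.sum_const, nsmul_eq_mul] at h4
    refine h4.trans ?_
    rw [mul_one_div]
    gcongr
  have h4 : ∑ _j ∈ A, (1 / (s : ℝ)) ^ 2 ≤ D / (s : ℝ) ^ 2 := by
    rw [Finset.sum_const, nsmul_eq_mul, div_pow, one_pow, mul_one_div]
    have : (A.card : ℝ) ≤ D := by exact_mod_cast h.cA
    gcongr
  rw [Finset.sum_add_distrib, h2] at h1
  unfold SG eta
  linarith

/-- LOC. `- log (1 - y) ≤ 2 y` for `0 ≤ y ≤ 1/2` -/
theorem tt_le_B (h : Loc A Gd ρ s D t) (c : K) : TT A ρ c ≤ BB s D := by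
  have hs := LOC_hs h
  have h1 : TT A ρ c ≤ ∑ _j ∈ A, 2 * (1 / (s : ℝ)) := by
    unfold TT
    refine Finset.sum_le_sum fun j hj => ?_
    have h2 := LOC_le4 h hj c
    have h3 := LOC_up2 (h.nonneg j hj c) (by linarith)
    have h4 := h.le j hj c
    linarith
  refine h1.trans ?_
  rw [Finset.sum_const, nsmul_eq_mul]
  unfold BB
  have : (A.card : ℝ) ≤ D := by exact_mod_cast h.cA
  have e : 2 * (D : ℝ) / s = D * (2 * (1 / (s : ℝ))) := by ring
  rw [e]
  gcongr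

/-- LOC. `∑_c SG = Gd.card` -/
theorem sum_sg (h : Loc A Gd ρ s D t) : ∑ c, SG Gd ρ c = Gd.card := by
  unfold SG
  rw [Finset.sum_comm, Finset.sum_congr rfl fun j hj => h.sum j (h.sub hj)]
  simp

theorem LOC_pp_pos (h : Loc A Gd ρ s D t) (c : K) : 0 < PP A ρ c := by
  rw [pp_eq h c]
  exact Real.exp_pos _

theorem LOC_pp_le (h : Loc A Gd ρ s D t) (c : K) : PP A ρ c ≤ 1 := by
  rw [pp_eq h c, Real.exp_le_one_iff]
  have := LOC_tt_nonneg h c
  linarith

theorem LOC_pp_ge (h : Loc A Gd ρ s D t) (c : K) : Real.exp (-BB s D) ≤ PP A ρ c := by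
  rw [pp_eq h c, Real.exp_le_exp]
  have := tt_le_B h c
  linarith

theorem LOC_card_pos : (0 : ℝ) < Fintype.card K := by exact_mod_cast Fintype.card_pos

theorem LOC_sum_pos (h : Loc A Gd ρ s D t) : 0 < ∑ c', PP A ρ c' :=
  Finset.sum_pos (fun c _ => LOC_pp_pos h c) Finset.univ_nonempty

theorem LOC_sum_le (h : Loc A Gd ρ s D t) : ∑ c', PP A ρ c' ≤ Fintype.card K := by
  have := Finset.sum_le_card_nsmul Finset.univ (fun c' => PP A ρ c') 1 fun c _ => LOC_pp_le h c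
  simpa using this

theorem LOC_sum_ge (h : Loc A Gd ρ s D t) :
    Fintype.card K * Real.exp (-BB s D) ≤ ∑ c', PP A ρ c' := by
  have := Finset.card_nsmul_le_sum Finset.univ (fun c' => PP A ρ c') (Real.exp (-BB s D))
    fun c _ => LOC_pp_ge h c
  simpa using this

/-- LOC. `0 ≤ T ≤ B`, so `∑ e^{-T} / q ∈ [e^{-B}, 1]`. -/
theorem rr_log (h : Loc A Gd ρ s D t) (c : K) : 0 < RR A ρ c ∧ |Real.log (RR A ρ c)| ≤ BB s D := by
  have hK := LOC_card_pos (K := K)
  have hp := LOC_pp_pos h c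
  have hS := LOC_sum_pos h
  have hR : 0 < RR A ρ c := by
    unfold RR
    positivity
  refine ⟨hR, ?_⟩
  have h1 : RR A ρ c ≤ Real.exp (BB s D) := by
    unfold RR
    rw [div_le_iff₀ hS]
    have h2 := LOC_sum_ge h
    have h3 := LOC_pp_le h c
    calc Fintype.card K * PP A ρ c ≤ Fintype.card K * 1 := by gcongr
      _ = Real.exp (BB s D) * (Fintype.card K * Real.exp (-BB s D)) := by
          rw [show Real.exp (BB s D) * (Fintype.card K * Real.exp (-BB s D)) =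
            Fintype.card K * (Real.exp (BB s D) * Real.exp (-BB s D)) by ring, ← Real.exp_add]
          simp
      _ ≤ _ := by gcongr
  have h2 : Real.exp (-BB s D) ≤ RR A ρ c := by
    unfold RR
    rw [le_div_iff₀ hS]
    have h2 := LOC_sum_le h
    have h3 := LOC_pp_ge h c
    calc Real.exp (-BB s D) * ∑ c', PP A ρ c' ≤ PP A ρ c * Fintype.card K := by gcongr
      _ = _ := by ring
  rw [abs_le]
  constructor
  · have := Real.log_le_log (Real.exp_pos _) h2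
    rwa [Real.log_exp] at this
  · have := Real.log_le_log hR h1
    rwa [Real.log_exp] at this

theorem rr_sum (h : Loc A Gd ρ s D t) : ∑ c, RR A ρ c = Fintype.card K := by
  have hS := LOC_sum_pos h
  unfold RR
  rw [← Finset.sum_div, ← Finset.mul_sum, mul_div_assoc, div_self hS.ne', mul_one]

/-- LOC. `Js R = ∑ (R - 1) log R ≤ B ∑ |R - 1| ≤ 2 q B`. -/
theorem rr_js0 (h : Loc A Gd ρ s D t) : Js (RR A ρ) ≤ Fintype.card K * (2 * BB s D) := by
  have hB : 0 ≤ BB s D := (abs_nonneg _).trans (rr_log h (Classical.arbitrary K)).2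
  have h1 : ∀ c, (RR A ρ c - 1) * Real.log (RR A ρ c) ≤ (RR A ρ c + 1) * BB s D := by
    intro c
    obtain ⟨hR, hl⟩ := rr_log h c
    calc (RR A ρ c - 1) * Real.log (RR A ρ c) ≤ |(RR A ρ c - 1) * Real.log (RR A ρ c)| := le_abs_self _
      _ = |RR A ρ c - 1| * |Real.log (RR A ρ c)| := abs_mul _ _
      _ ≤ (RR A ρ c + 1) * BB s D := by
          refine mul_le_mul ?_ hl (abs_nonneg _) (by linarith)
          rw [abs_le]
          constructor <;> linarith
  unfold Js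
  refine (Finset.sum_le_sum fun c _ => h1 c).trans ?_
  rw [← Finset.sum_mul, Finset.sum_add_distrib, rr_sum h]
  simp only [Finset.sum_const, Finset.card_univ, nsmul_eq_mul, mul_one]
  linarith

end Pool.Agent.QC
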