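import Pool.Agent.Lib_MP_2c424f_pr.LOC

/-!
# Piece LOD: one step, contraction and upper bound
-/

set_option autoImplicit false

open Finset

namespace Pool.Agent.QC

variable {V K : Type} [Fintype K] [Nonempty K] {A Gd : Finset V} {ρ : V → K → ℝ} {s D t : ℕ}

/-- LOD. Contraction of the divergence.

Proof. `q = card K`, `y = Gd.card / q ≤ x`. `js_pert` with `S = SG`, `T = TT`, `B = BB s D`, `η = eta s D t`
(`pp_eq`, `sg_le_tt`, `tt_le`, `tt_le_B`): `Js R ≤ Js R₀ + q (2 B + 2) η`, `R₀ = q e^{-S} / ∑ e^{-S}`. If `Gd = ∅` then `S = 0`,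
`R₀ = 1`, `Js R₀ = 0`. Otherwise `S = y * σ` with `σ c = (∑_{j ∈ Gd} q ρ j c) / Gd.card`, `σ > 0`, `∑ σ = q`; `js_contr` and
`js_avg` (with `r j c = q ρ j c`): `Js R₀ ≤ kap y * (q A₁) ≤ kap x * (q A₁)` (`kap_mono`). -/
theorem rr_js (h : Loc A Gd ρ s D t) {x A₁ : ℝ} (hx : (D : ℝ) ≤ x * Fintype.card K)
    (hη : eta s D t ≤ 1) (hA : 0 ≤ A₁)
    (hj : ∀ j ∈ Gd, Js (fun c => Fintype.card K * ρ j c) ≤ Fintype.card K * A₁) :
    Js (RR A ρ) ≤ Fintype.card K * (kap x * A₁ + (2 * BB s D + 2) * eta s D t) := by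
  have hq0 : (0 : ℝ) < Fintype.card K := by exact_mod_cast Fintype.card_pos
  have hs4 : (4 : ℝ) ≤ s := by exact_mod_cast h.s4
  have hη0 : 0 ≤ eta s D t := by
    unfold eta
    positivity
  have hx0 : 0 ≤ x := by
    by_contra hneg
    push Not at hneg
    have h1 : x * Fintype.card K < 0 := mul_neg_of_neg_of_pos hneg hq0
    have h2 : (0 : ℝ) ≤ D := Nat.cast_nonneg D
    linarith
  have hRR : RR A ρ = fun c => Fintype.card K * Real.exp (-TT A ρ c) /
      ∑ c', Real.exp (-TT A ρ c') := by
    funext c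
    unfold RR
    rw [pp_eq h c, Finset.sum_congr rfl fun c' _ => pp_eq h c']
  have hpert := js_pert (SG Gd ρ) (TT A ρ) (B := BB s D) (η := eta s D t)
    (fun c => sg_nonneg h c) (fun c => (sg_le_tt h c).trans (tt_le_B h c))
    (fun c => sg_le_tt h c) (fun c => tt_le h c) hη0 hη
  rw [hRR]
  have hmain : Js (fun c => Fintype.card K * Real.exp (-SG Gd ρ c) /
      ∑ c', Real.exp (-SG Gd ρ c')) ≤ Fintype.card K * (kap x * A₁) := by
    rcases Gd.eq_empty_or_nonempty with he | hne
    · have h1 : (fun c => Fintype.card K * Real.exp (-SG Gd ρ c) /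
          ∑ c', Real.exp (-SG Gd ρ c')) = fun _ : K => (1 : ℝ) := by
        funext c
        have h2 : ∀ c, SG Gd ρ c = 0 := fun c => by
          unfold SG
          rw [he, Finset.sum_empty]
        simp only [h2, neg_zero, Real.exp_zero, mul_one, Finset.sum_const, Finset.card_univ,
          nsmul_eq_mul]
        exact div_self hq0.ne'
      rw [h1]
      unfold Js
      simp only [sub_self, zero_mul, Finset.sum_const_zero]
      exact mul_nonneg hq0.le (mul_nonneg (kap_nonneg hx0) hA)
    · have hG0 : (0 : ℝ) < Gd.card := by exact_mod_cast hne.card_pos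
      set y : ℝ := Gd.card / Fintype.card K with hy
      have hy0 : 0 < y := div_pos hG0 hq0
      have hyx : y ≤ x := by
        rw [hy, div_le_iff₀ hq0]
        have h1 : (Gd.card : ℝ) ≤ D := by
          exact_mod_cast (Finset.card_le_card h.sub).trans h.cA
        linarith
      set σ : K → ℝ := fun c => (∑ j ∈ Gd, Fintype.card K * ρ j c) / Gd.card with hσ
      have hyσ : ∀ c, y * σ c = SG Gd ρ c := by
        intro c
        rw [hσ, hy]
        unfold SG
        simp only
        rw [← Finset.mul_sum]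
        field_simp
      have hσ0 : ∀ c, 0 < σ c := fun c =>
        div_pos (Finset.sum_pos (fun j hj' => mul_pos hq0 (h.pos j hj' c)) hne) hG0
      have hσs : ∑ c, σ c = Fintype.card K := by
        have h1 : ∀ c, σ c = SG Gd ρ c / y := fun c => by
          rw [← hyσ c]
          field_simp
        rw [Finset.sum_congr rfl fun c _ => h1 c, ← Finset.sum_div, sum_sg h, hy]
        field_simp
      have hc := js_contr σ hσ0 hσs hy0
      have ha := js_avg Gd hne (fun j c => Fintype.card K * ρ j c)
        (fun j hj' c => mul_pos hq0 (h.pos j hj' c)) hj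
      have h2 : (fun c => Fintype.card K * Real.exp (-(y * σ c)) /
          ∑ c', Real.exp (-(y * σ c'))) = fun c => Fintype.card K * Real.exp (-SG Gd ρ c) /
          ∑ c', Real.exp (-SG Gd ρ c') := by
        funext c
        rw [hyσ c, Finset.sum_congr rfl fun c' _ => by rw [hyσ c']]
      rw [h2] at hc
      calc _ ≤ kap y * Js σ := hc
        _ ≤ kap y * (Fintype.card K * A₁) := mul_le_mul_of_nonneg_left ha (kap_nonneg hy0.le)
        _ ≤ kap x * (Fintype.card K * A₁) :=
          mul_le_mul_of_nonneg_right (kap_mono hy0.le hyx) (mul_nonneg hq0.le hA)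
        _ = _ := by ring
  refine hpert.trans ?_
  have : Fintype.card K * (kap x * A₁ + (2 * BB s D + 2) * eta s D t) =
      Fintype.card K * (kap x * A₁) + Fintype.card K * ((2 * BB s D + 2) * eta s D t) := by ring
  rw [this]
  exact add_le_add hmain le_rfl

/-- LOD. upper bound: `log R = - T - log (∑ e^{-T} / q)`, `∑ e^{-T} ≥ ∑ e^{-S-η}`, and Jensen
(`∑ e^{-S} ≥ q e^{-y}`, `y = Gd.card / q`, tangent line, `sum_sg`). -/
theorem rr_up (h : Loc A Gd ρ s D t) (c : K) :
    Real.log (RR A ρ c) ≤ (Gd.card : ℝ) / Fintype.card K - SG Gd ρ c + eta s D t := by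
  have hq0 : (0 : ℝ) < Fintype.card K := by exact_mod_cast Fintype.card_pos
  set y : ℝ := (Gd.card : ℝ) / Fintype.card K with hy
  have hP := LOC_pp_pos h c
  have hS := LOC_sum_pos h
  have hlog : Real.log (RR A ρ c) = Real.log (Fintype.card K) - TT A ρ c -
      Real.log (∑ c', PP A ρ c') := by
    unfold RR
    rw [Real.log_div (by positivity) hS.ne', Real.log_mul hq0.ne' hP.ne', pp_eq h c,
      Real.log_exp]
    ring
  have hsum : Fintype.card K * Real.exp (-y - eta s D t) ≤ ∑ c', PP A ρ c' := by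
    have h1 : ∀ c', Real.exp (-y - eta s D t) * (1 - (SG Gd ρ c' - y)) ≤ PP A ρ c' := by
      intro c'
      rw [pp_eq h c']
      have h2 : Real.exp (-y - eta s D t) * Real.exp (-(SG Gd ρ c' - y)) ≤
          Real.exp (-TT A ρ c') := by
        rw [← Real.exp_add]
        refine Real.exp_le_exp.2 ?_
        have := tt_le h c'
        linarith
      refine le_trans (mul_le_mul_of_nonneg_left ?_ (Real.exp_pos _).le) h2
      have := Real.add_one_le_exp (-(SG Gd ρ c' - y))
      linarith
    have h3 : ∑ c', Real.exp (-y - eta s D t) * (1 - (SG Gd ρ c' - y)) =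
        Fintype.card K * Real.exp (-y - eta s D t) := by
      rw [← Finset.mul_sum, Finset.sum_sub_distrib, Finset.sum_sub_distrib, sum_sg h]
      simp only [Finset.sum_const, Finset.card_univ, nsmul_eq_mul, mul_one]
      have h4 : Fintype.card K * y = Gd.card := by
        rw [hy]
        field_simp
      rw [h4]
      ring
    rw [← h3]
    exact Finset.sum_le_sum fun c' _ => h1 c'
  have hl := Real.log_le_log (by positivity) hsum
  rw [Real.log_mul hq0.ne' (Real.exp_pos _).ne', Real.log_exp] at hl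
  have h5 := sg_le_tt h c
  rw [hlog]
  linarith

end Pool.Agent.QC
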