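import Pool.Agent.Lib_MP_2c424f_pr.LOC

/-!
# Piece LOE: one step, lower bound, the top vertex
-/

set_option autoImplicit false

open Finset

namespace Pool.Agent.QC

variable {V K : Type} [Fintype K] [Nonempty K] {A Gd : Finset V} {ρ : V → K → ℝ} {s D t : ℕ}

/-- `e^{-·}` is 1-Lipschitz on `[0, ∞)` -/
theorem LOE_lip' {a b : ℝ} (ha : 0 ≤ a) : Real.exp (-a) ≤ Real.exp (-b) + |a - b| := by
  have h1 : Real.exp (-b) = Real.exp (-a) * Real.exp (a - b) := by
    rw [← Real.exp_add]; congr 1; ring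
  have h2 := Real.add_one_le_exp (a - b)
  have h3 : Real.exp (-a) ≤ 1 := Real.exp_le_one_iff.2 (by linarith)
  have h4 : 0 < Real.exp (-a) := Real.exp_pos _
  rcases le_total b a with h | h
  · have h5 : Real.exp (-a) ≤ Real.exp (-b) := Real.exp_le_exp.2 (by linarith)
    have := abs_nonneg (a - b)
    linarith
  · rw [abs_of_nonpos (by linarith), h1]
    nlinarith

theorem LOE_y_le (h : Loc A Gd ρ s D t) (hD : D ≤ Fintype.card K) :
    (Gd.card : ℝ) ≤ Fintype.card K ∧ (Gd.card : ℝ) / Fintype.card K ≤ 1 := by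
  have hK := LOC_card_pos (K := K)
  have h1 : (Gd.card : ℝ) ≤ Fintype.card K := by
    exact_mod_cast ((Finset.card_le_card h.sub).trans h.cA).trans hD
  exact ⟨h1, by rw [div_le_one hK]; exact h1⟩

/-- LOD. lower bound.

Proof. `q = card K`, `y = Gd.card / q ≤ 1`. `log R = - T - log (∑ e^{-T} / q)`, `T ≤ S + η`, `T ≥ S`, so
`log R ≥ - S - η - log (∑ e^{-S} / q)`. `∑_c e^{-S c} ≤ q e^{-y} + ∑_c |S c - y|` (`e^{-·}` is 1-Lipschitz on `[0, ∞)`),
`∑_c |S c - y| ≤ ∑_{j ∈ Gd} ∑_c |ρ j c - 1 / q| = (1 / q) ∑_j ∑_c |q ρ j c - 1| ≤ (1 / q) Gd.card q √η₁ ≤ q √η₁`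
(`js_l1`: `(∑_c |q ρ - 1|)² ≤ q * q η₁`; `Gd.card ≤ q`). So `∑ e^{-S} / q ≤ e^{-y} (1 + e^{y} √η₁) ≤ e^{-y} (1 + 3 √η₁)`
and `log` of it is `≤ - y + 3 √η₁`. -/
theorem rr_lo (h : Loc A Gd ρ s D t) {η₁ : ℝ} (h1 : 0 ≤ η₁) (hD : D ≤ Fintype.card K)
    (hj : ∀ j ∈ Gd, Js (fun c => Fintype.card K * ρ j c) ≤ Fintype.card K * η₁) (c : K) :
    (Gd.card : ℝ) / Fintype.card K - SG Gd ρ c - eta s D t - 3 * Real.sqrt η₁ ≤
      Real.log (RR A ρ c) := by
  have hK := LOC_card_pos (K := K)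
  obtain ⟨hGK, hy1⟩ := LOE_y_le h hD
  set q : ℝ := (Fintype.card K : ℝ) with hq
  set y : ℝ := (Gd.card : ℝ) / q with hy
  have hr0 := Real.sqrt_nonneg η₁
  -- l1 bound for one neighbour
  have hl1 : ∀ j ∈ Gd, ∑ c', |ρ j c' - 1 / q| ≤ Real.sqrt η₁ := by
    intro j hjG
    have h2 := js_l1 (fun c' => q * ρ j c') (fun c' => mul_pos hK (h.pos j hjG c'))
      (by rw [← Finset.mul_sum, h.sum j (h.sub hjG), mul_one])
    have h3 : (∑ c', |q * ρ j c' - 1|) ^ 2 ≤ (q * Real.sqrt η₁) ^ 2 := by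
      refine h2.trans ?_
      rw [mul_pow, Real.sq_sqrt h1, sq, mul_assoc]
      exact mul_le_mul_of_nonneg_left (hj j hjG) hK.le
    have h4 : ∑ c', |q * ρ j c' - 1| ≤ q * Real.sqrt η₁ := by
      have := abs_le_of_sq_le_sq h3 (mul_nonneg hK.le hr0)
      exact (le_abs_self _).trans this
    have h5 : ∀ c', |ρ j c' - 1 / q| = |q * ρ j c' - 1| / q := by
      intro c'
      have : ρ j c' - 1 / q = (q * ρ j c' - 1) / q := by
        field_simp
      rw [this, abs_div, abs_of_pos hK]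
    calc ∑ c', |ρ j c' - 1 / q| = (∑ c', |q * ρ j c' - 1|) / q := by
          rw [Finset.sum_div]
          exact Finset.sum_congr rfl fun c' _ => h5 c'
      _ ≤ Real.sqrt η₁ := by
          rw [div_le_iff₀ hK]
          linarith
  have hSy : ∑ c', |SG Gd ρ c' - y| ≤ q * Real.sqrt η₁ := by
    have h2 : ∀ c', |SG Gd ρ c' - y| ≤ ∑ j ∈ Gd, |ρ j c' - 1 / q| := by
      intro c'
      have h3 : SG Gd ρ c' - y = ∑ j ∈ Gd, (ρ j c' - 1 / q) := by
        unfold SG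
        rw [Finset.sum_sub_distrib, Finset.sum_const, nsmul_eq_mul, mul_one_div]
      rw [h3]
      exact Finset.abs_sum_le_sum_abs _ _
    calc ∑ c', |SG Gd ρ c' - y| ≤ ∑ c', ∑ j ∈ Gd, |ρ j c' - 1 / q| := Finset.sum_le_sum fun c' _ => h2 c'
      _ = ∑ j ∈ Gd, ∑ c', |ρ j c' - 1 / q| := Finset.sum_comm
      _ ≤ ∑ _j ∈ Gd, Real.sqrt η₁ := Finset.sum_le_sum hl1
      _ = Gd.card * Real.sqrt η₁ := by rw [Finset.sum_const, nsmul_eq_mul]
      _ ≤ q * Real.sqrt η₁ := mul_le_mul_of_nonneg_right hGK hr0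
  have hsum : ∑ c', PP A ρ c' ≤ q * (Real.exp (-y) * (1 + 3 * Real.sqrt η₁)) := by
    have h2 : ∀ c', PP A ρ c' ≤ Real.exp (-y) + |SG Gd ρ c' - y| := by
      intro c'
      rw [pp_eq h c']
      have h3 := sg_le_tt h c'
      have h4 := sg_nonneg h c'
      calc Real.exp (-TT A ρ c') ≤ Real.exp (-SG Gd ρ c') := Real.exp_le_exp.2 (by linarith)
        _ ≤ _ := LOE_lip' h4
    calc ∑ c', PP A ρ c' ≤ ∑ c', (Real.exp (-y) + |SG Gd ρ c' - y|) := Finset.sum_le_sum fun c' _ => h2 c'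
      _ = q * Real.exp (-y) + ∑ c', |SG Gd ρ c' - y| := by
          rw [Finset.sum_add_distrib, Finset.sum_const, nsmul_eq_mul, Finset.card_univ]
      _ ≤ q * Real.exp (-y) + q * Real.sqrt η₁ := by linarith
      _ ≤ q * (Real.exp (-y) * (1 + 3 * Real.sqrt η₁)) := by
          have h5 : 1 ≤ 3 * Real.exp (-y) := by
            have h6 : Real.exp y ≤ Real.exp 1 := Real.exp_le_exp.2 hy1
            have h7 := Real.exp_one_lt_d9
            have h8 : Real.exp y * Real.exp (-y) = 1 := by rw [← Real.exp_add]; simp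
            have h9 := Real.exp_pos (-y)
            nlinarith
          have h10 : Real.sqrt η₁ ≤ 3 * Real.exp (-y) * Real.sqrt η₁ := by nlinarith
          have h11 : q * Real.sqrt η₁ ≤ q * (3 * Real.exp (-y) * Real.sqrt η₁) :=
            mul_le_mul_of_nonneg_left h10 hK.le
          linarith
  have hSp := LOC_sum_pos h
  have hPp := LOC_pp_pos h c
  -- the logarithm
  have hRR : Real.exp (-TT A ρ c) * Real.exp y / (1 + 3 * Real.sqrt η₁) ≤ RR A ρ c := by
    unfold RR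
    rw [div_le_div_iff₀ (by positivity) hSp, ← pp_eq h c]
    calc PP A ρ c * Real.exp y * ∑ c', PP A ρ c' ≤ PP A ρ c * Real.exp y * (q * (Real.exp (-y) * (1 + 3 * Real.sqrt η₁))) :=
          mul_le_mul_of_nonneg_left hsum (by positivity)
      _ = (Real.exp y * Real.exp (-y)) * (q * PP A ρ c * (1 + 3 * Real.sqrt η₁)) := by ring
      _ = q * PP A ρ c * (1 + 3 * Real.sqrt η₁) := by
          rw [← Real.exp_add, add_neg_cancel, Real.exp_zero, one_mul]
  have hlog := Real.log_le_log (by positivity) hRR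
  rw [Real.log_div (by positivity) (by positivity), Real.log_mul (by positivity) (by positivity),
    Real.log_exp, Real.log_exp] at hlog
  have h12 : Real.log (1 + 3 * Real.sqrt η₁) ≤ 3 * Real.sqrt η₁ := by
    have := Real.log_le_sub_one_of_pos (show (0 : ℝ) < 1 + 3 * Real.sqrt η₁ by positivity)
    linarith
  have h13 := tt_le h c
  linarith

/-- LOD. upper bound for a vertex with the list `Λ`, `Λ.card ≥ (1 - τ) q`, `τ ≤ 1/2`.

Proof. `log = log q - T c - log ∑_{c' ∈ Λ} e^{-T c'}`. Jensen on `Λ`: `∑_{c' ∈ Λ} e^{-T c'} ≥ Λ.card exp (- a)` with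
`a = ∑_{c' ∈ Λ} T c' / Λ.card ≤ ∑_{c'} (S c' + η) / Λ.card ≤ (Gd.card + q η) / ((1 - τ) q) = (y + η) / (1 - τ) ≤
y + η + 4 τ` (`y ≤ 1`, `η ≤ 1`, `1 / (1 - τ) ≤ 1 + 2 τ`), and `- log (1 - τ) ≤ 2 τ`. -/
theorem rr_top (h : Loc A Gd ρ s D t) (hη : eta s D t ≤ 1) (hD : D ≤ Fintype.card K) {τ : ℝ}
    (h0 : 0 ≤ τ) (h1 : τ ≤ 1 / 2) (Λ : Finset K)
    (hΛ : (1 - τ) * Fintype.card K ≤ Λ.card) (c : K) :
    Real.log (Fintype.card K * PP A ρ c / ∑ c' ∈ Λ, PP A ρ c') ≤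
      (Gd.card : ℝ) / Fintype.card K - SG Gd ρ c + eta s D t + 6 * τ := by
  have hK := LOC_card_pos (K := K)
  obtain ⟨hGK, hy1⟩ := LOE_y_le h hD
  set q : ℝ := (Fintype.card K : ℝ) with hq
  set y : ℝ := (Gd.card : ℝ) / q with hy
  set η : ℝ := eta s D t with hηd
  have hη0 : 0 ≤ η := by
    rw [hηd]
    unfold eta
    positivity
  have hy0 : 0 ≤ y := by positivity
  have hτ : 0 < 1 - τ := by linarith
  have hΛ0 : (0 : ℝ) < Λ.card := lt_of_lt_of_le (mul_pos hτ hK) hΛ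
  set a : ℝ := (∑ c' ∈ Λ, TT A ρ c') / Λ.card with ha
  -- Jensen
  have hJ : Λ.card * Real.exp (-a) ≤ ∑ c' ∈ Λ, PP A ρ c' := by
    have h2 : ∀ c' ∈ Λ, Real.exp (-a) * (1 + (a - TT A ρ c')) ≤ PP A ρ c' := by
      intro c' _
      rw [pp_eq h c']
      have h3 := Real.add_one_le_exp (a - TT A ρ c')
      calc Real.exp (-a) * (1 + (a - TT A ρ c')) ≤ Real.exp (-a) * Real.exp (a - TT A ρ c') :=
            mul_le_mul_of_nonneg_left (by linarith) (Real.exp_pos _).le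
        _ = Real.exp (-TT A ρ c') := by rw [← Real.exp_add]; congr 1; ring
    refine le_trans (le_of_eq ?_) (Finset.sum_le_sum h2)
    rw [← Finset.mul_sum, Finset.sum_add_distrib, Finset.sum_sub_distrib, Finset.sum_const, Finset.sum_const,
      nsmul_eq_mul, nsmul_eq_mul, mul_one]
    have h4 : ∑ c' ∈ Λ, TT A ρ c' = Λ.card * a := by
      rw [ha]; field_simp
    rw [h4]
    ring
  -- the mean
  have hsumT : ∑ c' ∈ Λ, TT A ρ c' ≤ q * (y + η) := by
    calc ∑ c' ∈ Λ, TT A ρ c' ≤ ∑ c', TT A ρ c' :=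
          Finset.sum_le_sum_of_subset_of_nonneg (Finset.subset_univ _) fun c' _ _ => LOC_tt_nonneg h c'
      _ ≤ ∑ c', (SG Gd ρ c' + η) := Finset.sum_le_sum fun c' _ => tt_le h c'
      _ = Gd.card + q * η := by
          rw [Finset.sum_add_distrib, sum_sg h, Finset.sum_const, nsmul_eq_mul, Finset.card_univ]
      _ = q * (y + η) := by
          have : (Gd.card : ℝ) = q * y := by rw [hy]; field_simp
          rw [this]; ring
  have hale : a ≤ y + η + 4 * τ := by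
    rw [ha, div_le_iff₀ hΛ0]
    have h5 : 1 ≤ (1 + 2 * τ) * (1 - τ) := by nlinarith
    have h6 : y + η ≤ (y + η) * ((1 + 2 * τ) * (1 - τ)) := le_mul_of_one_le_right (by linarith) h5
    have h7 : (y + η) * (1 + 2 * τ) ≤ y + η + 4 * τ := by nlinarith
    calc ∑ c' ∈ Λ, TT A ρ c' ≤ q * (y + η) := hsumT
      _ ≤ q * ((y + η) * ((1 + 2 * τ) * (1 - τ))) := mul_le_mul_of_nonneg_left h6 hK.le
      _ = ((y + η) * (1 + 2 * τ)) * ((1 - τ) * q) := by ring
      _ ≤ (y + η + 4 * τ) * ((1 - τ) * q) := mul_le_mul_of_nonneg_right h7 (by positivity)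
      _ ≤ (y + η + 4 * τ) * Λ.card := mul_le_mul_of_nonneg_left hΛ (by positivity)
  -- the logarithm
  have hPp := LOC_pp_pos h c
  have hden : 0 < ∑ c' ∈ Λ, PP A ρ c' := lt_of_lt_of_le (by positivity) hJ
  have hle : q * PP A ρ c / ∑ c' ∈ Λ, PP A ρ c' ≤ Real.exp (a - TT A ρ c) / (1 - τ) := by
    rw [div_le_div_iff₀ hden hτ, pp_eq h c]
    calc q * Real.exp (-TT A ρ c) * (1 - τ) = ((1 - τ) * q) * Real.exp (-TT A ρ c) := by ring
      _ ≤ Λ.card * Real.exp (-TT A ρ c) := mul_le_mul_of_nonneg_right hΛ (Real.exp_pos _).le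
      _ = Real.exp (a - TT A ρ c) * (Λ.card * Real.exp (-a)) := by
          rw [show a - TT A ρ c = a + -TT A ρ c by ring, Real.exp_add]
          have h8 : Real.exp a * Real.exp (-a) = 1 := by rw [← Real.exp_add]; simp
          calc (Λ.card : ℝ) * Real.exp (-TT A ρ c) = (Real.exp a * Real.exp (-a)) * (Λ.card * Real.exp (-TT A ρ c)) := by
                rw [h8, one_mul]
            _ = _ := by ring
      _ ≤ Real.exp (a - TT A ρ c) * ∑ c' ∈ Λ, PP A ρ c' := mul_le_mul_of_nonneg_left hJ (Real.exp_pos _).le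
  have hlog := Real.log_le_log (by positivity) hle
  have hlog2 : Real.log (Real.exp (a - TT A ρ c) / (1 - τ)) = (a - TT A ρ c) - Real.log (1 - τ) := by
    rw [Real.log_div (Real.exp_pos _).ne' hτ.ne', Real.log_exp]
  rw [hlog2] at hlog
  have h9 : -Real.log (1 - τ) ≤ 2 * τ := LOC_up2 h0 h1
  have h10 := sg_le_tt h c
  linarith

end Pool.Agent.QC
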