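import Pool.Agent.Lib_MP_2c424f_pr.LOC

/-!
# Piece LOF: one step, scalar bounds
-/

set_option autoImplicit false

open Finset

namespace Pool.Agent.QC

variable {V K : Type} [Fintype K] [Nonempty K] {A Gd : Finset V} {ρ : V → K → ℝ} {s D t : ℕ}

theorem LOF_card_le (h : Loc A Gd ρ s D t) {x : ℝ} (hx : (D : ℝ) ≤ x * Fintype.card K) :
    0 ≤ x ∧ 0 ≤ (Gd.card : ℝ) / Fintype.card K ∧ (Gd.card : ℝ) / Fintype.card K ≤ x := by
  have hK := LOC_card_pos (K := K)
  have h1 : (Gd.card : ℝ) ≤ D := by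
    exact_mod_cast (Finset.card_le_card h.sub).trans h.cA
  have h2 : (Gd.card : ℝ) / Fintype.card K ≤ x := by
    rw [div_le_iff₀ hK]
    linarith
  have h3 : 0 ≤ (Gd.card : ℝ) / Fintype.card K := by positivity
  exact ⟨h3.trans h2, h3, h2⟩

/-- LOD. The scalar step: if all good neighbours satisfy `log (q ρ j c) ≥ - x (e^a - 1) - η₂` then
`y - SG c ≤ y (1 - exp (- x (e^a - 1) - η₂)) ≤ kap x * a + x η₂` (`y = Gd.card / q ≤ x`, `scal`). -/
theorem sg_scal (h : Loc A Gd ρ s D t) {x a η₂ : ℝ} (hx : (D : ℝ) ≤ x * Fintype.card K) (ha : 0 ≤ a)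
    (h2 : 0 ≤ η₂) (c : K) (hj : ∀ j ∈ Gd, -(x * (Real.exp a - 1)) - η₂ ≤
      Real.log (Fintype.card K * ρ j c)) :
    (Gd.card : ℝ) / Fintype.card K - SG Gd ρ c ≤ kap x * a + x * η₂ := by
  have hK := LOC_card_pos (K := K)
  obtain ⟨hx0, hy0, hyx⟩ := LOF_card_le h hx
  set E : ℝ := Real.exp (-(x * (Real.exp a - 1)) - η₂) with hE
  have hE1 : E ≤ 1 := by
    rw [hE, Real.exp_le_one_iff]
    have h3 := Real.add_one_le_exp a
    have : 0 ≤ x * (Real.exp a - 1) := mul_nonneg hx0 (by linarith)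
    linarith
  have hj' : ∀ j ∈ Gd, E / Fintype.card K ≤ ρ j c := by
    intro j hjG
    have h3 := hj j hjG
    rw [Real.le_log_iff_exp_le (mul_pos hK (h.pos j hjG c))] at h3
    rw [div_le_iff₀ hK]
    linarith
  have h4 : Gd.card * (E / Fintype.card K) ≤ SG Gd ρ c := by
    unfold SG
    have := Finset.card_nsmul_le_sum Gd (fun j => ρ j c) _ hj'
    simpa using this
  have h5 : (Gd.card : ℝ) / Fintype.card K - SG Gd ρ c ≤ (Gd.card : ℝ) / Fintype.card K * (1 - E) := by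
    have : (Gd.card : ℝ) * (E / Fintype.card K) = (Gd.card : ℝ) / Fintype.card K * E := by ring
    rw [this] at h4
    linarith
  calc (Gd.card : ℝ) / Fintype.card K - SG Gd ρ c ≤ (Gd.card : ℝ) / Fintype.card K * (1 - E) := h5
    _ ≤ x * (1 - E) := mul_le_mul_of_nonneg_right hyx (by linarith)
    _ ≤ kap x * a + x * η₂ := scal hx0 ha h2

/-- LOD. The other half of the scalar step: if all good neighbours satisfy `log (q ρ j c) ≤ a`, `a ≥ 0`, then
`SG c ≤ y e^a`, so `y - SG c ≥ - y (e^a - 1) ≥ - x (e^a - 1)`. -/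
theorem sg_scal' (h : Loc A Gd ρ s D t) {x a : ℝ} (hx : (D : ℝ) ≤ x * Fintype.card K) (ha : 0 ≤ a)
    (c : K) (hj : ∀ j ∈ Gd, Real.log (Fintype.card K * ρ j c) ≤ a) :
    -(x * (Real.exp a - 1)) ≤ (Gd.card : ℝ) / Fintype.card K - SG Gd ρ c := by
  have hK := LOC_card_pos (K := K)
  obtain ⟨hx0, hy0, hyx⟩ := LOF_card_le h hx
  have hj' : ∀ j ∈ Gd, ρ j c ≤ Real.exp a / Fintype.card K := by
    intro j hjG
    have h3 := hj j hjG
    rw [Real.log_le_iff_le_exp (mul_pos hK (h.pos j hjG c))] at h3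
    rw [le_div_iff₀ hK]
    linarith
  have h4 : SG Gd ρ c ≤ Gd.card * (Real.exp a / Fintype.card K) := by
    unfold SG
    have := Finset.sum_le_card_nsmul Gd (fun j => ρ j c) _ hj'
    simpa using this
  have h6 := Real.add_one_le_exp a
  have h5 : (Gd.card : ℝ) / Fintype.card K * (Real.exp a - 1) ≤ x * (Real.exp a - 1) :=
    mul_le_mul_of_nonneg_right hyx (by linarith)
  have : (Gd.card : ℝ) * (Real.exp a / Fintype.card K) = (Gd.card : ℝ) / Fintype.card K * Real.exp a := by ring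
  rw [this] at h4
  linarith

end Pool.Agent.QC
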