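import Pool.Agent.Lib_MP_2c424f_pr.Defs

/-!
# Piece NUE: the error
-/

set_option autoImplicit false

open Finset

namespace Pool.Agent.QC

/-- `1/s (1 + q/s) z / q ≤ a (1 + a) z / q²` with `a = 1 / (1 - x)` -/
theorem NUE_step {x q s z : ℝ} (hx1 : x < 1) (hq : 0 < q) (hs : (1 - x) * q ≤ s) (hz : 0 ≤ z) :
    1 / s * (1 + q / s) * (z / q) ≤ 1 / (1 - x) * (1 + 1 / (1 - x)) * z / q ^ 2 := by
  have h1 : 0 < 1 - x := by linarith
  have hs0 : 0 < (1 - x) * q := by positivity
  have a1 : 1 / s ≤ 1 / ((1 - x) * q) := one_div_le_one_div_of_le hs0 hs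
  have hsp : 0 < s := lt_of_lt_of_le hs0 hs
  have a2 : q / s ≤ 1 / (1 - x) := by
    rw [div_le_div_iff₀ hsp h1]
    linarith
  calc 1 / s * (1 + q / s) * (z / q) ≤ 1 / ((1 - x) * q) * (1 + 1 / (1 - x)) * (z / q) := by
        gcongr
    _ = _ := by
        field_simp

/-- NUM. the error: induction on `k`: `err q s D M k ≤ C_k / q²`, uniformly in `q ≥ 1`, `D ≤ x q`,
`s ≥ (1 - x) q`. -/
theorem err_le {x : ℝ} (hx0 : 0 < x) (hx1 : x < 1) (M k : ℕ) : ∃ C : ℝ, 0 < C ∧ ∀ q s D : ℕ,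
    1 ≤ q → (D : ℝ) ≤ x * q → (1 - x) * q ≤ s → err q s D M k ≤ C / (q : ℝ) ^ 2 := by
  have h1 : 0 < 1 - x := by linarith
  have hMs : ∀ q s : ℕ, 1 ≤ q → (1 - x) * q ≤ s → (M : ℝ) / s ≤ (M / (1 - x)) / q := by
    intro q s hq hs
    have hq' : (0 : ℝ) < q := by exact_mod_cast hq
    rw [div_div]
    have : 0 < (1 - x) * q := by positivity
    gcongr
  induction k with
  | zero =>
    refine ⟨1 / (1 - x) * (1 + 1 / (1 - x)) * (M / (1 - x)) + 1, by positivity, ?_⟩
    intro q s D hq hD hs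
    have hq' : (0 : ℝ) < q := by exact_mod_cast hq
    have h2 := NUE_step (z := (M : ℝ) / (1 - x)) hx1 hq' hs (by positivity)
    have h3 := hMs q s hq hs
    have h4 : err q s D M 0 ≤ 1 / (s : ℝ) * (1 + q / s) * ((M / (1 - x)) / q) := by
      unfold err
      gcongr
    refine h4.trans (h2.trans ?_)
    gcongr
    linarith
  | succ k ih =>
    obtain ⟨C, hC, ih⟩ := ih
    refine ⟨1 / (1 - x) * (1 + 1 / (1 - x)) * (x * C + M / (1 - x)), by positivity, ?_⟩
    intro q s D hq hD hs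
    have hq' : (0 : ℝ) < q := by exact_mod_cast hq
    have h2 := NUE_step (z := x * C + (M : ℝ) / (1 - x)) hx1 hq' hs (by positivity)
    have h3 := hMs q s hq hs
    have h5 : (D : ℝ) * err q s D M k ≤ (x * C) / q := by
      calc (D : ℝ) * err q s D M k ≤ D * (C / (q : ℝ) ^ 2) := by
            have := ih q s D hq hD hs
            gcongr
        _ ≤ (x * q) * (C / (q : ℝ) ^ 2) := by gcongr
        _ = _ := by
            field_simp
    have h4 : err q s D M (k + 1) ≤ 1 / (s : ℝ) * (1 + q / s) * ((x * C + M / (1 - x)) / q) := by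
      have h6 : (D : ℝ) * err q s D M k + M / s ≤ (x * C + M / (1 - x)) / q := by
        rw [add_div]
        linarith
      have e : err q s D M (k + 1) =
        1 / (s : ℝ) * (1 + q / s) * (D * err q s D M k + M / s) := rfl
      rw [e]
      gcongr
    exact h4.trans h2

end Pool.Agent.QC
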