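import Pool.Agent.Lib_MP_2c424f_pr.RHC

/-!
# Piece NUM: the choice of the constants
-/

set_option autoImplicit false

open Finset

namespace Pool.Agent.QC

/-- `AA j ≤ κ^j 2 B + (2 B + 2) η / (1 - κ)` -/
theorem AA_le {κ B η : ℝ} (h0 : 0 ≤ κ) (h1 : κ < 1) (hB : 0 ≤ B) (hη : 0 ≤ η) (j : ℕ) :
    AA κ B η j ≤ κ ^ j * (2 * B) + (2 * B + 2) * η / (1 - κ) := by
  have hk : 0 < 1 - κ := by linarith
  have hc : 0 ≤ (2 * B + 2) * η := by positivity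
  induction j with
  | zero =>
      have : 0 ≤ (2 * B + 2) * η / (1 - κ) := div_nonneg hc hk.le
      simp only [AA, pow_zero, one_mul]
      linarith
  | succ j ih =>
      have e : (2 * B + 2) * η / (1 - κ) = κ * ((2 * B + 2) * η / (1 - κ)) + (2 * B + 2) * η := by
        field_simp
        ring
      have ih' := mul_le_mul_of_nonneg_left ih h0
      simp only [AA, pow_succ]
      rw [e]
      nlinarith

theorem a2_le {κ B δ : ℝ} (h0 : 0 ≤ κ) (h1 : κ < 1) (hB : 0 ≤ B) (hδ : 0 ≤ δ) (j : ℕ) :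
    a2 κ B δ j ≤ κ ^ j * B + δ / (1 - κ) := by
  have hk : 0 < 1 - κ := by linarith
  induction j with
  | zero =>
      have : 0 ≤ δ / (1 - κ) := div_nonneg hδ hk.le
      simp only [a2, pow_zero, one_mul]
      linarith
  | succ j ih =>
      have e : δ / (1 - κ) = κ * (δ / (1 - κ)) + δ := by
        field_simp
        ring
      have ih' := mul_le_mul_of_nonneg_left ih h0
      simp only [a2, pow_succ]
      rw [e]
      nlinarith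

/-- a power of a number in `[0, 1)` makes a constant small -/
private theorem NUM_pow {κ C y : ℝ} (h0 : 0 ≤ κ) (h1 : κ < 1) (hC : 0 ≤ C) (hy : 0 < y) :
    ∃ j₁ : ℕ, ∀ j, j₁ ≤ j → κ ^ j * C ≤ y := by
  obtain ⟨j₁, hj⟩ := exists_pow_lt_of_lt_one (show 0 < y / (C + 1) by positivity) h1
  refine ⟨j₁, fun j hjj => ?_⟩
  have h2 : κ ^ j ≤ κ ^ j₁ := pow_le_pow_of_le_one h0 h1.le hjj
  have h3 : κ ^ j ≤ y / (C + 1) := h2.trans hj.le
  calc κ ^ j * C ≤ y / (C + 1) * C := mul_le_mul_of_nonneg_right h3 hC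
    _ ≤ y / (C + 1) * (C + 1) := mul_le_mul_of_nonneg_left (by linarith) (by positivity)
    _ = y := by field_simp

/-- NUM. For every `x < 1`, `e > 0` there are `M`, `τ > 0`, `q₀` such that for all data with `q = card K ≥ q₀`,
`D ≤ x q`, `s ≥ (1 - x) q`, `t ≤ τ q`: `q ρ(w) ≤ 1 + e`.

Proof. `κ = kap x < 1`, `B = 2 x / (1 - x) ≥ BB s D`. Let `ε = log (1 + e) > 0`. Choose `η₁ ∈ (0, 1)` with
`3 √η₁ (1 + 1/(1-κ)) ≤ ε / 6`, then `η ∈ (0, 1)` with `2 η (1 + 1/(1-κ)) ≤ ε / 6` and `(2 B + 2) η / (1 - κ) ≤ η₁ / 2`, then `j₁` with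
`κ^j₁ 2 B ≤ η₁ / 2` (so `AA j ≤ η₁` for `j ≥ j₁`, `AA_le`), `n` with `κ^n B ≤ ε / 6`, `τ = min (1/2) (min (ε / 36) ((1 - x) η / 2))`
and `M = j₁ + 2 n + 3`, `q₀` with `x / ((1 - x)² q₀) ≤ η / 2`, so `eta s D t = t / s + D / s² ≤ τ / (1 - x) + x / ((1 - x)² q) ≤ η`.
Then `top`: `q ρ ≤ exp (κ a_n + (2 η + 3 √η₁) + 6 τ) ≤ exp ε`. -/
theorem rho_final {x e : ℝ} (hx0 : 0 < x) (hx1 : x < 1) (he : 0 < e) :
    ∃ (M : ℕ) (τ : ℝ) (q₀ : ℕ), 3 ≤ M ∧ 0 < τ ∧ τ ≤ 1 / 2 ∧ 0 < q₀ ∧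
    ∀ (V K : Type) [Fintype V] [Fintype K] [Inhabited K] (G : SimpleGraph V) (dist : V → V → ℕ)
      (w : V) (S₀ : Finset V) (L₀ : V → Finset K) (s D t : ℕ), Dat G dist w S₀ L₀ s D t M →
      q₀ ≤ Fintype.card K → (D : ℝ) ≤ x * Fintype.card K → (1 - x) * Fintype.card K ≤ s →
      (t : ℝ) ≤ τ * Fintype.card K → w ∈ S₀ → (1 - τ) * Fintype.card K ≤ (L₀ w).card →
      ∀ c, Fintype.card K * rho G dist w S₀ L₀ M w c ≤ 1 + e := by
  have hκ0 : 0 ≤ kap x := kap_nonneg hx0.le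
  have hκ1 : kap x < 1 := kap_lt_one hx0.le hx1
  set κ := kap x with hκ
  have hk : 0 < 1 - κ := by linarith
  have hx' : 0 < 1 - x := by linarith
  obtain ⟨B, hBdef⟩ : ∃ B : ℝ, B = 2 * x / (1 - x) := ⟨_, rfl⟩
  have hB0 : 0 ≤ B := by rw [hBdef]; positivity
  obtain ⟨ε, hεdef⟩ : ∃ ε : ℝ, ε = Real.log (1 + e) := ⟨_, rfl⟩
  have hε : 0 < ε := by rw [hεdef]; exact Real.log_pos (by linarith)
  obtain ⟨Λ, hΛdef⟩ : ∃ Λ : ℝ, Λ = 1 + 1 / (1 - κ) := ⟨_, rfl⟩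
  have hΛ0 : 0 < Λ := by rw [hΛdef]; positivity
  -- η₁
  obtain ⟨r, hrdef⟩ : ∃ r : ℝ, r = ε / (18 * Λ) := ⟨_, rfl⟩
  have hr0 : 0 < r := by rw [hrdef]; positivity
  have hr1 : 3 * r * Λ = ε / 6 := by
    rw [hrdef]
    field_simp
    ring
  have hsq : Real.sqrt (r ^ 2) = r := Real.sqrt_sq hr0.le
  -- η
  obtain ⟨η, hη0, hη1, hη2, hη3⟩ : ∃ η : ℝ, 0 < η ∧ η ≤ 1 ∧ 2 * η * Λ ≤ ε / 6 ∧
      (2 * B + 2) * η / (1 - κ) ≤ r ^ 2 / 2 := by
    refine ⟨min 1 (min (ε / (12 * Λ)) (r ^ 2 * (1 - κ) / (2 * (2 * B + 2)))), ?_, min_le_left _ _,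
      ?_, ?_⟩
    · refine lt_min one_pos (lt_min ?_ ?_) <;> positivity
    · have h1 : min 1 (min (ε / (12 * Λ)) (r ^ 2 * (1 - κ) / (2 * (2 * B + 2)))) ≤ ε / (12 * Λ) :=
        (min_le_right _ _).trans (min_le_left _ _)
      have h2 : 2 * (ε / (12 * Λ)) * Λ = ε / 6 := by
        field_simp
        ring
      rw [← h2]
      exact mul_le_mul_of_nonneg_right (mul_le_mul_of_nonneg_left h1 (by norm_num)) hΛ0.le
    · have h1 : min 1 (min (ε / (12 * Λ)) (r ^ 2 * (1 - κ) / (2 * (2 * B + 2)))) ≤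
          r ^ 2 * (1 - κ) / (2 * (2 * B + 2)) := (min_le_right _ _).trans (min_le_right _ _)
      rw [div_le_iff₀ hk]
      have h2 : (2 * B + 2) * (r ^ 2 * (1 - κ) / (2 * (2 * B + 2))) = r ^ 2 / 2 * (1 - κ) := by
        field_simp
      rw [← h2]
      exact mul_le_mul_of_nonneg_left h1 (by positivity)
  obtain ⟨j₁, hj₁⟩ := NUM_pow (C := 2 * B) (y := r ^ 2 / 2) hκ0 hκ1 (by positivity) (by positivity)
  obtain ⟨n, hn⟩ := NUM_pow (C := B) (y := ε / 6) hκ0 hκ1 hB0 (by positivity)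
  obtain ⟨τ, hτ0, hτ1, hτ2, hτ3⟩ : ∃ τ : ℝ, 0 < τ ∧ τ ≤ 1 / 2 ∧ τ ≤ ε / 36 ∧
      τ ≤ (1 - x) * η / 2 := by
    refine ⟨min (1 / 2) (min (ε / 36) ((1 - x) * η / 2)), ?_, min_le_left _ _,
      (min_le_right _ _).trans (min_le_left _ _), (min_le_right _ _).trans (min_le_right _ _)⟩
    refine lt_min (by norm_num) (lt_min ?_ ?_) <;> positivity
  obtain ⟨q₀, hq₀⟩ := exists_nat_ge (2 * x / ((1 - x) ^ 2 * η))
  refine ⟨j₁ + 2 * n + 3, τ, q₀ + 1, by omega, hτ0, hτ1, by omega, ?_⟩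
  intro V K _ _ _ G dist w S₀ L₀ s D t hdat hq hD hs ht hw hL c
  have hq1 : (q₀ : ℝ) + 1 ≤ (Fintype.card K : ℝ) := by exact_mod_cast hq
  obtain ⟨q, hqdef⟩ : ∃ q : ℝ, q = (Fintype.card K : ℝ) := ⟨_, rfl⟩
  rw [← hqdef] at hq1 hD hs ht hL
  have hqpos : 0 < q := by
    have : (0 : ℝ) ≤ (q₀ : ℝ) := Nat.cast_nonneg _
    linarith
  have hspos : 0 < (s : ℝ) := lt_of_lt_of_le (mul_pos hx' hqpos) hs
  have hBB : BB s D ≤ B := by
    unfold BB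
    rw [hBdef, div_le_div_iff₀ hspos hx']
    nlinarith
  have heta : eta s D t ≤ η := by
    unfold eta
    have h1 : (t : ℝ) / s ≤ η / 2 := by
      rw [div_le_div_iff₀ hspos (by norm_num)]
      nlinarith
    have h2 : (D : ℝ) / (s : ℝ) ^ 2 ≤ η / 2 := by
      have h3 : 2 * x ≤ q * ((1 - x) ^ 2 * η) := by
        have h4 : 2 * x / ((1 - x) ^ 2 * η) ≤ q := by linarith
        rwa [div_le_iff₀ (by positivity)] at h4
      rw [div_le_div_iff₀ (by positivity) (by norm_num)]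
      have h5 : ((1 - x) * q) ^ 2 ≤ (s : ℝ) ^ 2 := pow_le_pow_left₀ (by positivity) hs 2
      calc (D : ℝ) * 2 ≤ x * q * 2 := by nlinarith
        _ = (2 * x) * q := by ring
        _ ≤ (q * ((1 - x) ^ 2 * η)) * q := mul_le_mul_of_nonneg_right h3 hqpos.le
        _ = η * ((1 - x) * q) ^ 2 := by ring
        _ ≤ η * (s : ℝ) ^ 2 := mul_le_mul_of_nonneg_left h5 hη0.le
    linarith
  have hAA : ∀ j, j₁ ≤ j → AA (kap x) B η j ≤ r ^ 2 := by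
    intro j hj
    have h1 := AA_le hκ0 hκ1 hB0 hη0.le j
    have h2 := hj₁ j hj
    rw [← hκ]
    linarith
  have htop := top hdat (x := x) (B := B) (η := η) (η₁ := r ^ 2) (τ := τ) (by rw [← hqdef]; exact hD)
    hx0.le hx1.le hBB heta hη1 (by positivity) hAA n rfl hw hτ0.le hτ1 (by rw [← hqdef]; exact hL) c
  refine htop.trans ?_
  rw [← hκ, hsq]
  have hδ0 : 0 ≤ 2 * η + 3 * r := by positivity
  have ha := a2_le hκ0 hκ1 hB0 hδ0 n
  have hn' := hn n le_rfl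
  have h6 : κ * a2 κ B (2 * η + 3 * r) n ≤ κ ^ n * B + (2 * η + 3 * r) / (1 - κ) := by
    have h7 : 0 ≤ κ ^ n * B + (2 * η + 3 * r) / (1 - κ) := by positivity
    calc κ * a2 κ B (2 * η + 3 * r) n ≤ κ * (κ ^ n * B + (2 * η + 3 * r) / (1 - κ)) :=
          mul_le_mul_of_nonneg_left ha hκ0
      _ ≤ 1 * (κ ^ n * B + (2 * η + 3 * r) / (1 - κ)) := mul_le_mul_of_nonneg_right hκ1.le h7
      _ = _ := one_mul _
  have h8 : (2 * η + 3 * r) / (1 - κ) + (2 * η + 3 * r) = 2 * η * Λ + 3 * r * Λ := by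
    rw [hΛdef]
    field_simp
    ring
  have h9 : κ * a2 κ B (2 * η + 3 * r) n + (2 * η + 3 * r) + 6 * τ ≤ ε := by linarith
  calc Real.exp (κ * a2 κ B (2 * η + 3 * r) n + (2 * η + 3 * r) + 6 * τ) ≤ Real.exp ε :=
        Real.exp_le_exp.2 h9
    _ = 1 + e := by rw [hεdef, Real.exp_log (by linarith)]

end Pool.Agent.QC
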