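import Pool.Agent.Lib_MP_2c424f_pr.PTB

/-!
# Piece OMB: the weighted sum over paths
-/

set_option autoImplicit false

open Finset

namespace Pool.Agent.QC

variable {V : Type} [Fintype V] {G : SimpleGraph V} {dist : V → V → ℕ} {D : ℕ}

omit [Fintype V] in
theorem omb_fac {M m : ℕ} {e₁ K₀ : ℝ} (h0 : 0 ≤ e₁) (h1 : e₁ ≤ K₀) (π : List V) (v : V) :
    0 ≤ fac dist M m e₁ K₀ π v ∧ fac dist M m e₁ K₀ π v ≤ K₀ := by
  unfold fac
  split_ifs
  · exact ⟨h0, h1⟩
  · exact ⟨h0.trans h1, le_rfl⟩

theorem omb_bad (G : SimpleGraph V) (dist : V → V → ℕ) (M m D : ℕ) (n : ℕ) :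
    ∀ π : List V, 0 ≤ bad G dist M m D n π := by
  induction n with
  | zero => intro π; exact le_rfl
  | succ n ih =>
    intro π
    unfold bad
    refine Finset.sum_nonneg fun v _ => ?_
    split_ifs
    · exact ih _
    · positivity

theorem omb_card (hG : IsLG G dist D) {c : ℝ} (hc : 0 ≤ c) (π : List V) :
    ∑ _v ∈ nxt G π, c ≤ D * c := by
  rw [Finset.sum_const, nsmul_eq_mul]
  have h : ((nxt G π).card : ℝ) ≤ D := by exact_mod_cast nxt_card hG π
  exact mul_le_mul_of_nonneg_right h hc

/-- OMB. trivial bound `om ≤ (K₀ D / q)^n` (all factors are `≤ K₀`). -/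
theorem om_triv (hG : IsLG G dist D) {M m : ℕ} {e₁ K₀ q : ℝ} (h0 : 0 ≤ e₁) (h1 : e₁ ≤ K₀)
    (hq : 0 < q) (n : ℕ) : ∀ π : List V, 0 ≤ om G dist M m e₁ K₀ q n π ∧
      om G dist M m e₁ K₀ q n π ≤ (K₀ * D / q) ^ n := by
  have hK : 0 ≤ K₀ := h0.trans h1
  induction n with
  | zero =>
    intro π
    unfold om
    simp
  | succ n ih =>
    intro π
    unfold om
    constructor
    · refine Finset.sum_nonneg fun v _ => ?_
      exact mul_nonneg (div_nonneg (omb_fac h0 h1 π v).1 hq.le) (ih _).1
    · have h2 : ∑ v ∈ nxt G π, fac dist M m e₁ K₀ π v / q * om G dist M m e₁ K₀ q n (v :: π) ≤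
          ∑ _v ∈ nxt G π, K₀ / q * (K₀ * D / q) ^ n := by
        refine Finset.sum_le_sum fun v _ => ?_
        refine mul_le_mul (div_le_div_of_nonneg_right (omb_fac h0 h1 π v).2 hq.le) (ih _).2 (ih _).1
          (by positivity)
      refine h2.trans ((omb_card hG (by positivity) π).trans (le_of_eq ?_))
      rw [pow_succ]
      ring

/-- OMB. Induction on `n`: good steps (factor `e₁`): induction hypothesis and `e₁ ≤ K₀` in the second term; crowded steps
(factor `K₀`): `om_triv`. The number of steps is at most `D` (`nxt_card`). -/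
theorem om_le (hG : IsLG G dist D) {M m : ℕ} {e₁ K₀ q : ℝ} (h0 : 0 ≤ e₁) (h1 : e₁ ≤ K₀)
    (hq : 0 < q) (n : ℕ) : ∀ π : List V, om G dist M m e₁ K₀ q n π ≤
      (e₁ * D / q) ^ n + (K₀ / q) ^ n * bad G dist M m D n π := by
  have hK : 0 ≤ K₀ := h0.trans h1
  induction n with
  | zero =>
    intro π
    unfold om bad
    simp
  | succ n ih =>
    intro π
    unfold om bad
    have h2 : ∑ v ∈ nxt G π, fac dist M m e₁ K₀ π v / q * om G dist M m e₁ K₀ q n (v :: π) ≤
        ∑ v ∈ nxt G π, (e₁ / q * (e₁ * D / q) ^ n + (K₀ / q) ^ (n + 1) *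
          (if near dist M π v ≤ m then bad G dist M m D n (v :: π) else (D : ℝ) ^ n)) := by
      refine Finset.sum_le_sum fun v _ => ?_
      unfold fac
      by_cases h : near dist M π v ≤ m
      · rw [if_pos h, if_pos h]
        have h3 := mul_le_mul_of_nonneg_left (ih (v :: π)) (div_nonneg h0 hq.le)
        refine h3.trans ?_
        rw [mul_add]
        refine add_le_add le_rfl ?_
        rw [← mul_assoc]
        refine mul_le_mul_of_nonneg_right ?_ (omb_bad G dist M m D n _)
        rw [pow_succ, mul_comm]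
        exact mul_le_mul_of_nonneg_left (div_le_div_of_nonneg_right h1 hq.le) (by positivity)
      · rw [if_neg h, if_neg h]
        have h3 := mul_le_mul_of_nonneg_left (om_triv hG (M := M) (m := m) h0 h1 hq n (v :: π)).2
          (div_nonneg hK hq.le)
        refine h3.trans ?_
        have h4 : K₀ / q * (K₀ * D / q) ^ n = (K₀ / q) ^ (n + 1) * (D : ℝ) ^ n := by
          have : K₀ * D / q = K₀ / q * D := by ring
          rw [this, mul_pow, pow_succ]
          ring
        rw [h4]
        have h5 : 0 ≤ e₁ / q * (e₁ * D / q) ^ n := by positivity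
        linarith
    refine h2.trans ?_
    rw [Finset.sum_add_distrib]
    refine add_le_add ?_ (Finset.mul_sum _ _ _).symm.le
    refine (omb_card hG (by positivity) π).trans (le_of_eq ?_)
    rw [pow_succ]
    ring

end Pool.Agent.QC
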