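import Pool.Agent.Lib_MP_2c424f_pr.UBP
import Pool.Agent.Lib_MP_2c424f_pr.OMB

/-!
# Piece PPR: the probability of a two-coloured path
-/

set_option autoImplicit false

open Finset

namespace Pool.Agent.QC

variable {V K : Type} [Fintype V] [Fintype K] [Inhabited K] {G : SimpleGraph V}
  {dist : V → V → ℕ} {D : ℕ}

omit [Fintype V] [Fintype K] [Inhabited K] in
theorem ppr_dep_and {Q : Set V} {E : (V → K) → Prop} (hE : DepOn Q E) (π : List V) (a b : K)
    (hQ : ∀ x ∈ π, x ∈ Q) : DepOn Q (fun f : V → K => E f ∧ ∀ x ∈ π, f x = a ∨ f x = b) := by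
  intro f f' hff
  have h1 := hE f f' hff
  have h2 : (∀ x ∈ π, f x = a ∨ f x = b) ↔ (∀ x ∈ π, f' x = a ∨ f' x = b) := by
    constructor
    · intro h x hx
      rw [← hff x (hQ x hx)]
      exact h x hx
    · intro h x hx
      rw [hff x (hQ x hx)]
      exact h x hx
  show (E f ∧ ∀ x ∈ π, f x = a ∨ f x = b) = (E f' ∧ ∀ x ∈ π, f' x = a ∨ f' x = b)
  rw [h1, propext h2]

theorem ppr_om_nonneg {M m : ℕ} {e₁ K₀ q : ℝ} (h0 : 0 ≤ e₁) (h1 : 0 ≤ K₀) (hq : 0 ≤ q) (n : ℕ) :
    ∀ π : List V, 0 ≤ om G dist M m e₁ K₀ q n π := by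
  induction n with
  | zero => intro π; simp [om]
  | succ n ih =>
    intro π
    unfold om
    refine Finset.sum_nonneg fun v _ => mul_nonneg (div_nonneg ?_ hq) (ih _)
    unfold fac
    split_ifs
    · exact h0
    · exact h1

/-- PPR. One step. Let `π = h :: _` and `v ∈ nxt G π`. If `f` is proper and `f` has colours in `{a, b}` on `π` and at `v` then
`f v = g f` where `g f = b` if `f h = a` and `g f = a` otherwise. `UBd` for `Q = O ∪ {x | x ∈ π}` where `E` depends on `O`,
`v ∉ Q`; the elements of `Q` near `v` (within distance `M`) are in `π` (hypothesis `hO`), there are at most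
`near dist M π v` of them. -/
theorem step_le (hG : IsLG G dist D) {M m : ℕ} {e₁ K₀ : ℝ} (hU : UBd (K := K) G dist M m e₁ K₀)
    {a b : K} (hab : a ≠ b) {O : Set V} (E : (V → K) → Prop) (hE : DepOn O E) {π : List V} {v : V}
    (hv : v ∈ nxt G π) (hO : ∀ x ∈ O, M < dist v x) :
    (cnt (fun f : V → K => Proper G f ∧ E f ∧ ∀ x ∈ v :: π, f x = a ∨ f x = b) : ℝ) ≤
      fac dist M m e₁ K₀ π v / Fintype.card K *
        cnt (fun f : V → K => Proper G f ∧ E f ∧ ∀ x ∈ π, f x = a ∨ f x = b) := by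
  classical
  rcases π with _ | ⟨h, π'⟩
  · simp [nxt] at hv
  have hv' : G.Adj h v ∧ v ∉ h :: π' := by
    unfold nxt at hv
    simpa using hv
  set π : List V := h :: π' with hπ
  set Q : Set V := O ∪ {x | x ∈ π} with hQ
  have hvQ : v ∉ Q := by
    rintro (h' | h')
    · have := hO v h'
      rw [hG.self] at this
      omega
    · exact hv'.2 h'
  have hdE : DepOn Q E := fun f f' hff => hE f f' fun x hx => hff x (Or.inl hx)
  have hdE' := ppr_dep_and (K := K) hdE π a b (fun x hx => Or.inr hx)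
  have hdg : DepOn Q (fun f : V → K => if f h = a then b else a) := by
    intro f f' hff
    have : f h = f' h := hff h (Or.inr (by simp [hπ]))
    simp only [this]
  have hq : (0 : ℝ) < Fintype.card K := by exact_mod_cast Fintype.card_pos
  have hle : (cnt (fun f : V → K => Proper G f ∧ E f ∧ ∀ x ∈ v :: π, f x = a ∨ f x = b) : ℝ) ≤
      cnt (fun f : V → K => Proper G f ∧ (E f ∧ ∀ x ∈ π, f x = a ∨ f x = b) ∧
        f v = if f h = a then b else a) := by
    have : cnt (fun f : V → K => Proper G f ∧ E f ∧ ∀ x ∈ v :: π, f x = a ∨ f x = b) ≤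
      cnt (fun f : V → K => Proper G f ∧ (E f ∧ ∀ x ∈ π, f x = a ∨ f x = b) ∧
        f v = if f h = a then b else a) := by
      refine cnt_mono fun f hf => ?_
      obtain ⟨hp, he, hx⟩ := hf
      refine ⟨hp, ⟨he, fun x hx' => hx x (List.mem_cons_of_mem _ hx')⟩, ?_⟩
      have h1 : f v = a ∨ f v = b := hx v (by simp)
      have h2 : f h = a ∨ f h = b := hx h (by simp [hπ])
      have h3 : f h ≠ f v := hp h v hv'.1
      split_ifs with h4
      · rcases h1 with h1 | h1
        · exact absurd (h4.trans h1.symm) h3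
        · exact h1
      · rcases h1 with h1 | h1
        · exact h1
        · rcases h2 with h2 | h2
          · exact absurd h2 h4
          · exact absurd (h2.trans h1.symm) h3
    exact_mod_cast this
  have hmain : (Fintype.card K : ℝ) *
      cnt (fun f : V → K => Proper G f ∧ (E f ∧ ∀ x ∈ π, f x = a ∨ f x = b) ∧
        f v = if f h = a then b else a) ≤ fac dist M m e₁ K₀ π v *
        cnt (fun f : V → K => Proper G f ∧ E f ∧ ∀ x ∈ π, f x = a ∨ f x = b) := by
    have hUU := hU v Q hvQ (fun f => E f ∧ ∀ x ∈ π, f x = a ∨ f x = b)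
      (fun f => if f h = a then b else a) hdE' hdg
    unfold fac
    split_ifs with hnear
    · refine hUU.1 (le_trans ?_ hnear)
      have h5 : cnt (fun u => u ∈ Q ∧ dist v u ≤ M) ≤
          cnt (fun u => u ∈ (π.filter fun x => dist v x ≤ M).toFinset) := by
        refine cnt_mono fun u hu => ?_
        obtain ⟨hu1 | hu1, hu2⟩ := hu
        · have := hO u hu1
          omega
        · rw [List.mem_toFinset, List.mem_filter]
          exact ⟨hu1, by simpa using hu2⟩
      refine h5.trans ?_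
      unfold near cnt
      have h6 : {u | u ∈ (π.filter fun x => dist v x ≤ M).toFinset} =
          (((π.filter fun x => dist v x ≤ M).toFinset : Finset V) : Set V) := by
        ext u; simp
      rw [h6, Set.ncard_coe_finset]
      refine (List.toFinset_card_le _).trans (le_of_eq ?_)
      congr!
    · exact hUU.2
  rw [div_mul_eq_mul_div, le_div_iff₀ hq]
  calc _ ≤ (cnt (fun f : V → K => Proper G f ∧ (E f ∧ ∀ x ∈ π, f x = a ∨ f x = b) ∧
        f v = if f h = a then b else a) : ℝ) * Fintype.card K :=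
        mul_le_mul_of_nonneg_right hle hq.le
    _ ≤ _ := by rw [mul_comm]; exact hmain

/-- PPR. Induction on `n`; union bound over the next vertex `v` (`cnt_ex`), `step_le`. The vertices of `π` are within
distance `r` of `u`, and `r + n ≤ ℓ`; so `v` is within distance `r + 1 ≤ ℓ` of `u` and `M < dist v x` for all `x` with
`ℓ + M < dist u x`. -/
theorem path_le (hG : IsLG G dist D) {M m : ℕ} {e₁ K₀ : ℝ} (h0 : 0 ≤ e₁) (h1 : 0 ≤ K₀)
    (hU : UBd (K := K) G dist M m e₁ K₀) {a b : K} (hab : a ≠ b) (u : V) (ℓ : ℕ) (E : (V → K) → Prop)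
    (hE : DepOn {x | ℓ + M < dist u x} E) (n : ℕ) : ∀ (π : List V) (r : ℕ), r + n ≤ ℓ →
    (∀ x ∈ π, dist u x ≤ r) →
    (cnt (fun f : V → K => (Proper G f ∧ E f ∧ ∀ x ∈ π, f x = a ∨ f x = b) ∧
        Ext G (fun v => f v = a ∨ f v = b) n π) : ℝ) ≤
      om G dist M m e₁ K₀ (Fintype.card K) n π *
        cnt (fun f : V → K => Proper G f ∧ E f ∧ ∀ x ∈ π, f x = a ∨ f x = b) := by
  classical
  have h1K : 0 ≤ K₀ := h1
  have hq : (0 : ℝ) < Fintype.card K := by exact_mod_cast Fintype.card_pos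
  induction n with
  | zero =>
    intro π r _ _
    simp only [Ext, and_true, om, one_mul, le_refl]
  | succ n ih =>
    intro π r hr hπ
    have h1 : cnt (fun f : V → K => (Proper G f ∧ E f ∧ ∀ x ∈ π, f x = a ∨ f x = b) ∧
        Ext G (fun v => f v = a ∨ f v = b) (n + 1) π) ≤
        ∑ v ∈ nxt G π, cnt (fun f : V → K => (Proper G f ∧ E f ∧ ∀ x ∈ v :: π, f x = a ∨ f x = b) ∧
          Ext G (fun v => f v = a ∨ f v = b) n (v :: π)) := by
      refine le_trans (cnt_mono ?_) (cnt_ex (nxt G π) _)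
      rintro f ⟨⟨hp, he, hx⟩, v, hv, hA, hext⟩
      refine ⟨v, hv, ⟨hp, he, ?_⟩, hext⟩
      intro x hx'
      rcases List.mem_cons.1 hx' with rfl | hx'
      · exact hA
      · exact hx x hx'
    have h2 : ∀ v ∈ nxt G π, (cnt (fun f : V → K =>
        (Proper G f ∧ E f ∧ ∀ x ∈ v :: π, f x = a ∨ f x = b) ∧
          Ext G (fun v => f v = a ∨ f v = b) n (v :: π)) : ℝ) ≤
        fac dist M m e₁ K₀ π v / Fintype.card K *
          om G dist M m e₁ K₀ (Fintype.card K) n (v :: π) *
          cnt (fun f : V → K => Proper G f ∧ E f ∧ ∀ x ∈ π, f x = a ∨ f x = b) := by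
      intro v hv
      have hdv : dist u v ≤ r + 1 := by
        rcases π with _ | ⟨h, π'⟩
        · simp [nxt] at hv
        · have hv' : G.Adj h v ∧ v ∉ h :: π' := by
            unfold nxt at hv
            simpa using hv
          have h3 := hπ h (by simp)
          rcases hG.step u h v hv'.1 with h4 | h4 <;> omega
      have h3 := ih (v :: π) (r + 1) (by omega) (by
        intro x hx
        rcases List.mem_cons.1 hx with rfl | hx
        · exact hdv
        · exact (hπ x hx).trans (by omega))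
      have h4 := step_le hG hU hab E hE hv (by
        intro x hx
        have h5 : ℓ + M < dist u x := hx
        have h6 := hG.tri u v x
        omega)
      have h5 := ppr_om_nonneg (G := G) (dist := dist) (M := M) (m := m) h0 h1K hq.le n (v :: π)
      calc _ ≤ _ := h3
        _ ≤ om G dist M m e₁ K₀ (Fintype.card K) n (v :: π) * _ :=
          mul_le_mul_of_nonneg_left h4 h5
        _ = _ := by ring
    calc _ ≤ ((∑ v ∈ nxt G π, cnt (fun f : V → K =>
          (Proper G f ∧ E f ∧ ∀ x ∈ v :: π, f x = a ∨ f x = b) ∧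
          Ext G (fun v => f v = a ∨ f v = b) n (v :: π)) : ℕ) : ℝ) := by exact_mod_cast h1
      _ = ∑ v ∈ nxt G π, (cnt (fun f : V → K =>
          (Proper G f ∧ E f ∧ ∀ x ∈ v :: π, f x = a ∨ f x = b) ∧
          Ext G (fun v => f v = a ∨ f v = b) n (v :: π)) : ℝ) := by push_cast; rfl
      _ ≤ ∑ v ∈ nxt G π, fac dist M m e₁ K₀ π v / Fintype.card K *
          om G dist M m e₁ K₀ (Fintype.card K) n (v :: π) *
          cnt (fun f : V → K => Proper G f ∧ E f ∧ ∀ x ∈ π, f x = a ∨ f x = b) :=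
          Finset.sum_le_sum h2
      _ = _ := by
          rw [← Finset.sum_mul]
          rfl

/-- PPR. `path_le` for `π = [u]`, `n = ℓ`, `r = 0` -/
theorem cn_le (hG : IsLG G dist D) {M m : ℕ} {e₁ K₀ : ℝ} (h0 : 0 ≤ e₁) (h1 : 0 ≤ K₀)
    (hU : UBd (K := K) G dist M m e₁ K₀) {a b : K} (hab : a ≠ b) (u : V) (ℓ : ℕ) (E : (V → K) → Prop)
    (hE : DepOn {x | ℓ + M < dist u x} E) :
    (cnt (fun f : V → K => Proper G f ∧ E f ∧ Cn G a b ℓ u f) : ℝ) ≤
      om G dist M m e₁ K₀ (Fintype.card K) ℓ [u] * cnt (fun f : V → K => Proper G f ∧ E f) := by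
  have hq : (0 : ℝ) < Fintype.card K := by exact_mod_cast Fintype.card_pos
  have h := path_le hG h0 h1 hU hab u ℓ E hE ℓ [u] 0 (by omega) (by
    intro x hx
    rw [List.mem_singleton.1 hx, hG.self])
  refine le_trans ?_ (h.trans (mul_le_mul_of_nonneg_left ?_
    (ppr_om_nonneg (G := G) (dist := dist) (M := M) (m := m) h0 h1 hq.le ℓ [u])))
  · have : cnt (fun f : V → K => Proper G f ∧ E f ∧ Cn G a b ℓ u f) ≤
        cnt (fun f : V → K => (Proper G f ∧ E f ∧ ∀ x ∈ [u], f x = a ∨ f x = b) ∧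
        Ext G (fun v => f v = a ∨ f v = b) ℓ [u]) := by
      refine cnt_mono fun f hf => ?_
      obtain ⟨hp, he, hu, hx⟩ := hf
      refine ⟨⟨hp, he, ?_⟩, hx⟩
      intro x hx'
      rw [List.mem_singleton.1 hx']
      exact hu
    exact_mod_cast this
  · have : cnt (fun f : V → K => Proper G f ∧ E f ∧ ∀ x ∈ [u], f x = a ∨ f x = b) ≤
        cnt (fun f : V → K => Proper G f ∧ E f) :=
      cnt_mono fun f hf => ⟨hf.1, hf.2.1⟩
    exact_mod_cast this

end Pool.Agent.QC
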