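import Pool.Agent.Lib_MP_2c424f_pr.Defs

/-!
# Piece PTA: visits near a vertex of a path
-/

set_option autoImplicit false

open Finset

namespace Pool.Agent.QC

variable {V : Type} [Fintype V] {G : SimpleGraph V} {dist : V → V → ℕ} {D : ℕ}

/-- self-avoiding paths (the head is the last vertex) -/
def Pth (G : SimpleGraph V) : List V → Prop
  | [] => False
  | [_] => True
  | v :: h :: π => G.Adj h v ∧ v ∉ h :: π ∧ Pth G (h :: π)

theorem pth_nxt {π : List V} (h : Pth G π) {v : V} (hv : v ∈ nxt G π) : Pth G (v :: π) := by
  cases π with
  | nil => exact h.elim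
  | cons a π =>
    simp only [nxt, mem_filter, mem_univ, true_and] at hv
    exact ⟨hv.1, hv.2, h⟩

theorem nxt_card (hG : IsLG G dist D) (π : List V) : (nxt G π).card ≤ D := by
  classical
  cases π with
  | nil => simp [nxt]
  | cons a π =>
    refine le_trans (Finset.card_le_card ?_) ((cnt_eq _).symm.le.trans (hG.deg a))
    intro v hv
    simp only [nxt, mem_filter, mem_univ, true_and] at hv ⊢
    exact hv.1

/-- PTH. Stronger: `vis ≤ 2 aft + min (dist x b) R` for the head `b`. Induction along the path (from the vertex `x`,
where both are `0`). Let `a` be the head and `b` the new vertex, `δ = dist x a`, `dist x b = δ ± 1` (`step`).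
`dist x b = δ + 1 ≤ R`: `vis` and the minimum increase by 1. `dist x b = δ + 1 > R`: nothing changes (the minimum
does not decrease). `dist x b = δ - 1 ≤ R`: `vis` and `aft` increase by 1, the minimum decreases by at most 1.
`dist x b = δ - 1 > R`: nothing changes. -/
theorem vis_le (hG : IsLG G dist D) (R : ℕ) {x : V} {π : List V} (h : Pth G π) (hx : x ∈ π) :
    vis dist R x π ≤ 2 * aft dist R x π + R := by
  have key : ∀ π : List V, Pth G π → x ∈ π → ∀ b π', π = b :: π' →
      vis dist R x π ≤ 2 * aft dist R x π + min (dist x b) R := by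
    intro π
    induction π with
    | nil => intro h; exact h.elim
    | cons c ρ ih =>
      intro h hx b π' hb
      obtain ⟨rfl, rfl⟩ := List.cons.inj hb
      by_cases hcx : c = x
      · rw [vis, if_pos hcx]; exact Nat.zero_le _
      · cases ρ with
        | nil =>
          rw [List.mem_singleton] at hx
          exact absurd hx.symm hcx
        | cons a σ =>
          obtain ⟨h1, h2, h3⟩ := h
          have hx' : x ∈ a :: σ := by
            rcases List.mem_cons.1 hx with h4 | h4
            · exact absurd h4.symm hcx
            · exact h4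
          have h4 := ih h3 hx' a σ rfl
          have h5 := hG.step x a c h1
          rw [vis, if_neg hcx, aft, if_neg hcx]
          by_cases h6 : dist x c ≤ R
          · rw [if_pos h6]
            by_cases h7 : dist x c < dist x a
            · rw [if_pos ⟨h6, h7⟩]; omega
            · rw [if_neg (fun h8 => h7 h8.2)]; omega
          · rw [if_neg h6, if_neg (fun h8 => h6 h8.1)]; omega
  cases π with
  | nil => exact h.elim
  | cons c ρ =>
    have h1 := key (c :: ρ) h hx c ρ rfl
    omega

theorem pta_nodup : ∀ {π : List V}, Pth G π → π.Nodup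
  | [], h => h.elim
  | [a], _ => List.nodup_singleton a
  | _ :: _ :: _, h => List.nodup_cons.2 ⟨h.2.1, pta_nodup h.2.2⟩

theorem pta_near_cons (M : ℕ) (b : V) (π : List V) (v : V) :
    near dist M (b :: π) v = near dist M π v + if dist v b ≤ M then 1 else 0 := by
  classical
  unfold near
  by_cases h : dist v b ≤ M
  · rw [List.filter_cons_of_pos (by simpa using h), List.length_cons, if_pos h]
  · rw [List.filter_cons_of_neg (by simpa using h), if_neg h, add_zero]

theorem pta_near (hG : IsLG G dist D) (M : ℕ) (v : V) : ∀ π : List V, π.Nodup →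
    1 ≤ near dist M π v → ∃ x ∈ π, dist v x ≤ M ∧ near dist M π v ≤ vis dist (2 * M) x π + 1 := by
  intro π
  induction π with
  | nil => intro _ h; simp [near] at h
  | cons b ρ ih =>
    intro hnd h
    rw [List.nodup_cons] at hnd
    rw [pta_near_cons] at h ⊢
    by_cases h1 : 1 ≤ near dist M ρ v
    · obtain ⟨x, hx, h2, h3⟩ := ih hnd.2 h1
      refine ⟨x, List.mem_cons_of_mem _ hx, h2, ?_⟩
      have hbx : b ≠ x := fun h4 => hnd.1 (h4 ▸ hx)
      rw [vis, if_neg hbx]
      by_cases h4 : dist v b ≤ M
      · have h5 : dist x b ≤ 2 * M := by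
          have h6 := hG.tri x v b
          have h7 := hG.symm x v
          omega
        rw [if_pos h4, if_pos h5]; omega
      · rw [if_neg h4]; omega
    · have h4 : dist v b ≤ M := by
        by_contra h5
        rw [if_neg h5] at h
        omega
      refine ⟨b, List.mem_cons_self, h4, ?_⟩
      rw [if_pos h4]; omega

/-- PTH. If more than `m` vertices of the path are within distance `M` of the next vertex `v`, let `x` be the
oldest of them (the last one in the list). The others (at least `m`) are later and within distance `2 M` of `x`. -/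
theorem near_vis (hG : IsLG G dist D) {M m : ℕ} {π : List V} (h : Pth G π) {v : V}
    (hv : v ∈ nxt G π) (hm : m < near dist M π v) : ∃ x ∈ π, m ≤ vis dist (2 * M) x (v :: π) := by
  have hvn : v ∉ π := by
    cases π with
    | nil => exact h.elim
    | cons a ρ =>
      simp only [nxt, mem_filter, mem_univ, true_and] at hv
      exact hv.2
  obtain ⟨x, hx, h1, h2⟩ := pta_near hG M v π (pta_nodup h) (by omega)
  refine ⟨x, hx, ?_⟩
  have hvx : v ≠ x := fun h4 => hvn (h4 ▸ hx)
  rw [vis, if_neg hvx]
  have h3 : dist x v ≤ 2 * M := by
    have := hG.symm x v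
    omega
  rw [if_pos h3]; omega

open scoped Classical in
/-- PTH. `inner` for `w = x`: the neighbours `v` of the head `h` with `dist x v < dist x h`; there are at most
`dist x h`, and if one of them has `dist x v ≤ R` then `dist x h ≤ R + 1`. -/
theorem inw_card (hG : IsLG G dist D) (R : ℕ) (x : V) (h : V) (π : List V) :
    ((nxt G (h :: π)).filter fun v => dist x v ≤ R ∧ dist x v < dist x h).card ≤ R + 1 := by
  rcases Finset.eq_empty_or_nonempty
    ((nxt G (h :: π)).filter fun v => dist x v ≤ R ∧ dist x v < dist x h) with h0 | ⟨v₀, hv₀⟩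
  · rw [h0]; simp
  · have hh : dist x h ≤ R + 1 := by
      simp only [nxt, mem_filter, mem_univ, true_and] at hv₀
      have := hG.step x h v₀ hv₀.1.1
      omega
    refine le_trans (Finset.card_le_card ?_)
      (((cnt_eq (fun y => G.Adj h y ∧ dist x h = dist x y + 1)).symm.le.trans (hG.inner x h)).trans hh)
    intro v hv
    simp only [nxt, mem_filter, mem_univ, true_and] at hv ⊢
    have := hG.step x h v hv.1.1
    exact ⟨hv.1.1, by omega⟩

end Pool.Agent.QC
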