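import Pool.Agent.Lib_MP_2c424f_pr.PTA

/-!
# Piece PTB: crowded paths are rare
-/

set_option autoImplicit false

open Finset

namespace Pool.Agent.QC

variable {V : Type} [Fintype V] {G : SimpleGraph V} {dist : V → V → ℕ} {D : ℕ}

/-- the potential -/
noncomputable def Psi (dist : V → V → ℕ) (R : ℕ) (θ : ℝ) (π : List V) : ℝ :=
  (π.map fun x => θ ^ aft dist R x π).sum

theorem ptb_swap {ι α : Type} (s : Finset ι) (f : ι → α → ℝ) (l : List α) :
    ∑ v ∈ s, (l.map (f v)).sum = (l.map fun x => ∑ v ∈ s, f v x).sum := by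
  induction l with
  | nil => simp
  | cons a l ih => simp only [List.map_cons, List.sum_cons, Finset.sum_add_distrib, ih]

theorem ptb_aft_self (R : ℕ) (v : V) (π : List V) : aft dist R v (v :: π) = 0 := by
  cases π with
  | nil => rfl
  | cons a π => rw [aft, if_pos rfl]

theorem ptb_term (hG : IsLG G dist D) (R : ℕ) {θ : ℝ} (hθ : 1 ≤ θ) {π : List V} (h : Pth G π)
    {x : V} (hx : x ∈ π) : ∑ v ∈ nxt G π, θ ^ aft dist R x (v :: π) ≤
      (D + θ * (R + 1)) * θ ^ aft dist R x π := by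
  classical
  cases π with
  | nil => exact h.elim
  | cons a ρ =>
    have h0 : 0 ≤ θ := zero_le_one.trans hθ
    have hp : 0 ≤ θ ^ aft dist R x (a :: ρ) := pow_nonneg h0 _
    have h1 : ∀ v ∈ nxt G (a :: ρ), θ ^ aft dist R x (v :: a :: ρ) ≤ θ ^ aft dist R x (a :: ρ) +
        if dist x v ≤ R ∧ dist x v < dist x a then θ * θ ^ aft dist R x (a :: ρ) else 0 := by
      intro v hv
      have hvn : v ≠ x := by
        simp only [nxt, mem_filter, mem_univ, true_and] at hv
        exact fun h4 => hv.2 (h4 ▸ hx)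
      rw [aft, if_neg hvn]
      by_cases h2 : dist x v ≤ R ∧ dist x v < dist x a
      · rw [if_pos h2, if_pos h2, pow_succ]
        nlinarith
      · rw [if_neg h2, if_neg h2, add_zero, add_zero]
    refine (Finset.sum_le_sum h1).trans ?_
    rw [Finset.sum_add_distrib, Finset.sum_const, nsmul_eq_mul, ← Finset.sum_filter,
      Finset.sum_const, nsmul_eq_mul]
    have h2 : ((nxt G (a :: ρ)).card : ℝ) ≤ D := by exact_mod_cast nxt_card hG _
    have h3 : ((((nxt G (a :: ρ)).filter fun v => dist x v ≤ R ∧ dist x v < dist x a).card : ℕ) : ℝ) ≤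
        R + 1 := by exact_mod_cast inw_card hG R x a ρ
    calc ((nxt G (a :: ρ)).card : ℝ) * θ ^ aft dist R x (a :: ρ) +
        ((((nxt G (a :: ρ)).filter fun v => dist x v ≤ R ∧ dist x v < dist x a).card : ℕ) : ℝ) *
          (θ * θ ^ aft dist R x (a :: ρ)) ≤ D * θ ^ aft dist R x (a :: ρ) +
          (R + 1) * (θ * θ ^ aft dist R x (a :: ρ)) :=
        add_le_add (mul_le_mul_of_nonneg_right h2 hp)
          (mul_le_mul_of_nonneg_right h3 (mul_nonneg h0 hp))
      _ = (D + θ * (R + 1)) * θ ^ aft dist R x (a :: ρ) := by ring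

/-- PTH. For `x ∈ π` (so `v ≠ x`): `aft x (v :: π) = aft x π + (0 or 1)`, with `1` for at most `R + 1` of the at most `D`
vertices `v` (`inw_card`), so `∑_v θ^aft x (v :: π) ≤ (D + θ (R + 1)) θ^aft x π` (`θ ≥ 1`). The new vertex contributes `1`
for each `v`, in total at most `D`. -/
theorem psi_step (hG : IsLG G dist D) (R : ℕ) {θ : ℝ} (hθ : 1 ≤ θ) {π : List V} (h : Pth G π) :
    ∑ v ∈ nxt G π, Psi dist R θ (v :: π) ≤ D + (D + θ * (R + 1)) * Psi dist R θ π := by
  classical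
  have h1 : ∀ v ∈ nxt G π, Psi dist R θ (v :: π) =
      1 + (π.map fun x => θ ^ aft dist R x (v :: π)).sum := by
    intro v _
    unfold Psi
    rw [List.map_cons, List.sum_cons, ptb_aft_self, pow_zero]
  rw [Finset.sum_congr rfl h1, Finset.sum_add_distrib, Finset.sum_const, nsmul_eq_mul, mul_one,
    ptb_swap]
  have h2 : ((nxt G π).card : ℝ) ≤ D := by exact_mod_cast nxt_card hG _
  have h3 : (π.map fun x => ∑ v ∈ nxt G π, θ ^ aft dist R x (v :: π)).sum ≤
      (π.map fun x => (D + θ * (R + 1)) * θ ^ aft dist R x π).sum :=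
    List.sum_le_sum fun x hx => ptb_term hG R hθ h hx
  rw [List.sum_map_mul_left] at h3
  exact add_le_add h2 h3

/-- PTH. Induction on `n` with `g = D + θ (R + 1)`, `R = 2 M`, `I` with `2 I + 2 M ≤ m`. For a crowded step `v` (`near_vis`,
`vis_le` for `v :: π`: `m ≤ 2 aft + 2 M`, so `aft x (v :: π) ≥ I` for some `x`) `Psi (v :: π) ≥ θ^I`, so
`D^n ≤ θ^(-I) g^n (Psi (v :: π) + n)`; for the others induction hypothesis; and `psi_step`, `D ≤ g`:
`∑_v θ^(-I) g^n (Psi (v :: π) + n) ≤ θ^(-I) g^n (D + g Psi π + D n) ≤ θ^(-I) g^(n+1) (Psi π + n + 1)`. -/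
theorem bad_le (hG : IsLG G dist D) {M m I : ℕ} (hI : 2 * I + 2 * M ≤ m) {θ : ℝ} (hθ : 1 ≤ θ) (n : ℕ) :
    ∀ π : List V, Pth G π → bad G dist M m D n π ≤
      (θ ^ I)⁻¹ * (D + θ * (2 * M + 1)) ^ n * (Psi dist (2 * M) θ π + n) := by
  classical
  have h0 : 0 ≤ θ := zero_le_one.trans hθ
  have hI0 : 0 ≤ (θ ^ I)⁻¹ := inv_nonneg.2 (pow_nonneg h0 _)
  have hDg : (D : ℝ) ≤ D + θ * (2 * M + 1) := by
    have : (0 : ℝ) ≤ θ * (2 * M + 1) := mul_nonneg h0 (by positivity)
    linarith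
  have hg0 : (0 : ℝ) ≤ D + θ * (2 * M + 1) := (Nat.cast_nonneg D).trans hDg
  have hPsi0 : ∀ π : List V, 0 ≤ Psi dist (2 * M) θ π := by
    intro π
    unfold Psi
    refine List.sum_nonneg fun a ha => ?_
    obtain ⟨x, _, rfl⟩ := List.mem_map.1 ha
    exact pow_nonneg h0 _
  induction n with
  | zero =>
    intro π _
    rw [bad]
    refine mul_nonneg (mul_nonneg hI0 (pow_nonneg hg0 _)) (add_nonneg (hPsi0 π) ?_)
    exact Nat.cast_nonneg _
  | succ n ih =>
    intro π h
    rw [bad]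
    have h1 : ∀ v ∈ nxt G π, (if near dist M π v ≤ m then bad G dist M m D n (v :: π)
        else (D : ℝ) ^ n) ≤ (θ ^ I)⁻¹ * (D + θ * (2 * M + 1)) ^ n *
          (Psi dist (2 * M) θ (v :: π) + n) := by
      intro v hv
      by_cases h2 : near dist M π v ≤ m
      · rw [if_pos h2]
        exact ih _ (pth_nxt h hv)
      · rw [if_neg h2]
        obtain ⟨x, hx, h3⟩ := near_vis hG h hv (not_le.1 h2)
        have hx' : x ∈ v :: π := List.mem_cons_of_mem _ hx
        have h4 := vis_le hG (2 * M) (pth_nxt h hv) hx'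
        have h5 : I ≤ aft dist (2 * M) x (v :: π) := by omega
        have h6 : θ ^ I ≤ Psi dist (2 * M) θ (v :: π) := by
          refine (pow_le_pow_right₀ hθ h5).trans ?_
          unfold Psi
          refine List.single_le_sum (fun a ha => ?_) _ (List.mem_map.2 ⟨x, hx', rfl⟩)
          obtain ⟨z, _, rfl⟩ := List.mem_map.1 ha
          exact pow_nonneg h0 _
        have h7 : 0 < θ ^ I := pow_pos (zero_lt_one.trans_le hθ) _
        have h8 : 1 ≤ (θ ^ I)⁻¹ * (Psi dist (2 * M) θ (v :: π) + n) := by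
          rw [inv_mul_eq_div, le_div_iff₀ h7, one_mul]
          have : (0 : ℝ) ≤ n := Nat.cast_nonneg n
          linarith
        calc (D : ℝ) ^ n ≤ (D + θ * (2 * M + 1)) ^ n := pow_le_pow_left₀ (Nat.cast_nonneg D) hDg n
          _ = (D + θ * (2 * M + 1)) ^ n * 1 := (mul_one _).symm
          _ ≤ (D + θ * (2 * M + 1)) ^ n * ((θ ^ I)⁻¹ * (Psi dist (2 * M) θ (v :: π) + n)) :=
            mul_le_mul_of_nonneg_left h8 (pow_nonneg hg0 _)
          _ = _ := by ring
    refine (Finset.sum_le_sum h1).trans ?_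
    rw [← Finset.mul_sum, Finset.sum_add_distrib, Finset.sum_const, nsmul_eq_mul]
    have h2 := psi_step hG (2 * M) hθ h
    push_cast at h2
    have h3 : ((nxt G π).card : ℝ) * n ≤ D * n :=
      mul_le_mul_of_nonneg_right (by exact_mod_cast nxt_card hG _) (Nat.cast_nonneg n)
    have h4 : (D : ℝ) * n ≤ (D + θ * (2 * M + 1)) * n :=
      mul_le_mul_of_nonneg_right hDg (Nat.cast_nonneg n)
    have h5 : (∑ v ∈ nxt G π, Psi dist (2 * M) θ (v :: π)) + ((nxt G π).card : ℝ) * n ≤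
        (D + θ * (2 * M + 1)) * (Psi dist (2 * M) θ π + ((n + 1 : ℕ) : ℝ)) := by
      push_cast
      have h6 : (D + θ * (2 * M + 1)) * (Psi dist (2 * M) θ π + ((n : ℝ) + 1)) =
        (D + θ * (2 * M + 1)) + (D + θ * (2 * M + 1)) * Psi dist (2 * M) θ π +
          (D + θ * (2 * M + 1)) * n := by ring
      rw [h6]
      linarith
    calc (θ ^ I)⁻¹ * (D + θ * (2 * M + 1)) ^ n *
        ((∑ v ∈ nxt G π, Psi dist (2 * M) θ (v :: π)) + ((nxt G π).card : ℝ) * n) ≤
        (θ ^ I)⁻¹ * (D + θ * (2 * M + 1)) ^ n *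
          ((D + θ * (2 * M + 1)) * (Psi dist (2 * M) θ π + ((n + 1 : ℕ) : ℝ))) :=
        mul_le_mul_of_nonneg_left h5 (mul_nonneg hI0 (pow_nonneg hg0 _))
      _ = _ := by ring

/-- PTH. for the path with one vertex: `Psi = 1` -/
theorem bad_single (hG : IsLG G dist D) {M m I : ℕ} (hI : 2 * I + 2 * M ≤ m) {θ : ℝ} (hθ : 1 ≤ θ)
    (n : ℕ) (u : V) : bad G dist M m D n [u] ≤
      (θ ^ I)⁻¹ * (D + θ * (2 * M + 1)) ^ n * (1 + n) := by
  have h1 := bad_le hG hI hθ n [u] trivial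
  have h2 : Psi dist (2 * M) θ [u] = 1 := by
    unfold Psi
    rw [List.map_cons, List.map_nil, List.sum_cons, List.sum_nil, ptb_aft_self, pow_zero, add_zero]
  rw [h2] at h1
  exact h1

end Pool.Agent.QC
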