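import Pool.Agent.Lib_MP_2c424f_pr.LCB

/-!
# Piece RAT: the product formula, approximately
-/

set_option autoImplicit false

open Finset

namespace Pool.Agent.QC

variable {V K : Type} [Fintype V] [Fintype K] [Inhabited K]

theorem rat_Pr_le_one (G : SimpleGraph V) (S : Finset V) (L : V → Finset K) (v : V) (c : K)
    (h : 0 < Z G S L) : Pr G S L v c ≤ 1 := by
  classical
  have h1 : (Zc G S L v c : ℝ) ≤ Z G S L := by
    have h2 : Zc G S L v c ≤ Z G S L := by
      unfold Zc Z
      exact Finset.card_le_card (Finset.filter_subset _ _)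
    exact_mod_cast h2
  have h3 : (0 : ℝ) < Z G S L := by exact_mod_cast h
  unfold Pr
  rw [div_le_one h3]
  exact h1

/-- RAT. Induction on `T` (`Finset.induction_on`): with `R T = Z G S (rm L T c) / Z G S L`,
`R (insert u T) = R T * (1 - Pr G S (rm L T c) u c)` (`rm_insert`, `Z_rm` for the lists `rm L T c`), `R T` and the
product are in `[0, 1]` (`R T ≤ 1`: `LC` is monotone in the lists), so the error increases by at most `t u`:
`R·(1-p) - Π·(1-b) = (R - Π)(1-p) + Π (b - p)` with `0 ≤ p ≤ 1`. -/
theorem ratio (G : SimpleGraph V) (S : Finset V) (L : V → Finset K) (c : K) (T : Finset V)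
    (hT : T ⊆ S) (hpos : ∀ T₁ ⊆ T, 0 < Z G S (rm L T₁ c)) (b t : V → ℝ)
    (hb : ∀ u ∈ T, 0 ≤ b u ∧ b u ≤ 1)
    (h : ∀ T₁ ⊆ T, ∀ u ∈ T, u ∉ T₁ → |Pr G S (rm L T₁ c) u c - b u| ≤ t u) :
    |(Z G S (rm L T c) : ℝ) / Z G S L - ∏ u ∈ T, (1 - b u)| ≤ ∑ u ∈ T, t u := by
  classical
  have hZ0 : 0 < Z G S L := by
    have h1 := hpos ∅ (Finset.empty_subset _)
    rwa [rm_empty] at h1
  have hZ0' : (0 : ℝ) < Z G S L := by exact_mod_cast hZ0
  have key : ∀ T' : Finset V, T' ⊆ T →
      |(Z G S (rm L T' c) : ℝ) / Z G S L - ∏ u ∈ T', (1 - b u)| ≤ ∑ u ∈ T', t u := by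
    intro T'
    induction T' using Finset.induction_on with
    | empty =>
      intro _
      rw [rm_empty, div_self hZ0'.ne', Finset.prod_empty, Finset.sum_empty, sub_self, abs_zero]
    | insert u T' hu ih =>
      intro hsub
      have hT' : T' ⊆ T := fun x hx => hsub (Finset.mem_insert_of_mem hx)
      have huT : u ∈ T := hsub (Finset.mem_insert_self u T')
      have ih' := ih hT'
      have hZT : (0 : ℝ) < Z G S (rm L T' c) := by exact_mod_cast hpos T' hT'
      have e1 : (Z G S (rm L (insert u T') c) : ℝ) =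
          Z G S (rm L T' c) * (1 - Pr G S (rm L T' c) u c) := by
        have h1 : rm L (insert u T') c = rm (rm L T' c) {u} c := by
          have h2 := rm_insert L T' u c
          convert h2
        rw [h1]
        have h3 := Z_rm G (hT huT) (rm L T' c) c
        have h4 : (Z G S (rm (rm L T' c) {u} c) : ℝ) + Zc G S (rm L T' c) u c
            = Z G S (rm L T' c) := by exact_mod_cast h3
        have h5 : (Zc G S (rm L T' c) u c : ℝ) = Z G S (rm L T' c) * Pr G S (rm L T' c) u c := by
          unfold Pr
          field_simp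
        linarith
      set p := Pr G S (rm L T' c) u c with hp
      set R := (Z G S (rm L T' c) : ℝ) / Z G S L with hR
      set P := ∏ u ∈ T', (1 - b u) with hP
      have e2 : (Z G S (rm L (insert u T') c) : ℝ) / Z G S L = R * (1 - p) := by
        rw [e1, hR]
        ring
      have hp0 : 0 ≤ p := Pr_nonneg G S (rm L T' c) u c
      have hp1 : p ≤ 1 := rat_Pr_le_one G S (rm L T' c) u c (hpos T' hT')
      have hP0 : 0 ≤ P := Finset.prod_nonneg fun x hx => by
        have := (hb x (hT' hx)).2
        linarith
      have hP1 : P ≤ 1 := Finset.prod_le_one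
        (fun x hx => by
          have := (hb x (hT' hx)).2
          linarith)
        (fun x hx => by
          have := (hb x (hT' hx)).1
          linarith)
      have e3 : R * (1 - p) - (1 - b u) * P = (R - P) * (1 - p) + P * (b u - p) := by ring
      rw [e2, Finset.prod_insert hu, Finset.sum_insert hu, e3]
      have h6 : |(R - P) * (1 - p)| ≤ |R - P| := by
        rw [abs_mul]
        have h7 : |1 - p| ≤ 1 := by
          rw [abs_le]
          constructor <;> linarith
        calc |R - P| * |1 - p| ≤ |R - P| * 1 := mul_le_mul_of_nonneg_left h7 (abs_nonneg _)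
          _ = |R - P| := mul_one _
      have h8 : |P * (b u - p)| ≤ t u := by
        rw [abs_mul, abs_of_nonneg hP0]
        have h9 : |b u - p| ≤ t u := by
          rw [abs_sub_comm]
          exact h T' hT' u huT hu
        calc P * |b u - p| ≤ 1 * |b u - p| := mul_le_mul_of_nonneg_right hP1 (abs_nonneg _)
          _ = |b u - p| := one_mul _
          _ ≤ t u := h9
      calc |(R - P) * (1 - p) + P * (b u - p)| ≤ |(R - P) * (1 - p)| + |P * (b u - p)| :=
            abs_add_le _ _
        _ ≤ |R - P| + t u := add_le_add h6 h8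
        _ ≤ t u + ∑ u ∈ T', t u := by linarith
  exact key T (Finset.Subset.refl T)

end Pool.Agent.QC
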