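import Pool.Agent.Lib_MP_2c424f_pr.LOD
import Pool.Agent.Lib_MP_2c424f_pr.RHA

/-!
# Piece RHB: the outward recursion and the local step, phase 1
-/

set_option autoImplicit false

open Finset

namespace Pool.Agent.QC

/-- the data: levels at most `M`, slack `s`, at most `t` bad outer neighbours except near the boundary -/
structure Dat {V K : Type} [Fintype V] [Fintype K] (G : SimpleGraph V) (dist : V → V → ℕ) (w : V)
    (S₀ : Finset V) (L₀ : V → Finset K) (s D t M : ℕ) : Prop where
  lg : IsLG G dist D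
  lev : ∀ v ∈ S₀, dist w v ≤ M
  slack : Slack G S₀ L₀ s
  s4 : 4 ≤ s
  exc : ∀ v ∈ S₀, dist w v + 2 ≤ M → cnt (fun u => u ∈ Out G dist w S₀ v ∧ L₀ u ≠ univ) ≤ t

open scoped Classical in
/-- the good outer neighbours -/
noncomputable def GO {V K : Type} [Fintype V] [Fintype K] (G : SimpleGraph V) (dist : V → V → ℕ)
    (w : V) (S₀ : Finset V) (L₀ : V → Finset K) (v : V) : Finset V :=
  (Out G dist w S₀ v).filter fun u => L₀ u = univ

variable {V K : Type} [Fintype V] [Fintype K] [Inhabited K] {G : SimpleGraph V}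
  {dist : V → V → ℕ} {w : V} {S₀ : Finset V} {L₀ : V → Finset K} {s D t M : ℕ}

omit [Fintype V] [Fintype K] [Inhabited K] in
private theorem rhb_mem {u v : V} (hu : u ∈ Out G dist w S₀ v) :
    u ∈ S₀ ∧ G.Adj v u ∧ dist w u = dist w v + 1 := by
  simpa only [Out, mem_filter] using hu

omit [Inhabited K] in
private theorem rhb_GO {u v : V} :
    u ∈ GO G dist w S₀ L₀ v ↔ u ∈ Out G dist w S₀ v ∧ L₀ u = univ := by
  simp only [GO, mem_filter]

omit [Inhabited K] in
private theorem rhb_card (h : Dat G dist w S₀ L₀ s D t M) (v : V) :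
    (Out G dist w S₀ v).card ≤ D := by
  classical
  refine le_trans ?_ (h.lg.deg v)
  rw [cnt_eq]
  refine card_le_card fun u hu => ?_
  simp only [mem_filter, mem_univ, true_and]
  exact (rhb_mem hu).2.1

/-- RHB. without information on the bad neighbours -/
theorem loc_triv (h : Dat G dist w S₀ L₀ s D t M) (k : ℕ) {v : V} (hv : v ∈ S₀) :
    Loc (Out G dist w S₀ v) ∅ (rho G dist w S₀ L₀ k) s D D := by
  have h1 : 1 ≤ s := le_trans (by norm_num) h.s4
  have hf := rho_facts G dist w S₀ L₀ h1 h.slack k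
  exact {
    s4 := h.s4
    sub := empty_subset _
    cA := rhb_card h v
    cG := by
      rw [card_empty, zero_add]
      exact rhb_card h v
    nonneg := fun u hu => (hf u (rhb_mem hu).1).1
    le := fun u hu => (hf u (rhb_mem hu).1).2.1
    sum := fun u hu => (hf u (rhb_mem hu).1).2.2
    pos := fun u hu => absurd hu (notMem_empty u) }

/-- RHB. `rho_facts`, `rho_pos` -/
theorem loc_good (h : Dat G dist w S₀ L₀ s D t M) (k : ℕ) {v : V} (hv : v ∈ S₀)
    (hM : dist w v + 2 ≤ M) :
    Loc (Out G dist w S₀ v) (GO G dist w S₀ L₀ v) (rho G dist w S₀ L₀ k) s D t := by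
  classical
  have h1 : 1 ≤ s := le_trans (by norm_num) h.s4
  have h2 : 2 ≤ s := le_trans (by norm_num) h.s4
  have hf := rho_facts G dist w S₀ L₀ h1 h.slack k
  exact {
    s4 := h.s4
    sub := filter_subset _ _
    cA := rhb_card h v
    cG := by
      have h3 : cnt (fun u => u ∈ Out G dist w S₀ v ∧ L₀ u ≠ univ) ≤ t := h.exc v hv hM
      have h4 : (Out G dist w S₀ v).card ≤ (GO G dist w S₀ L₀ v).card +
          cnt (fun u => u ∈ Out G dist w S₀ v ∧ L₀ u ≠ univ) := by
        rw [cnt_eq]
        refine le_trans (card_le_card fun u hu => ?_) (card_union_le _ _)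
        simp only [mem_union, rhb_GO, mem_filter, mem_univ, true_and]
        by_cases hL : L₀ u = univ
        · exact Or.inl ⟨hu, hL⟩
        · exact Or.inr ⟨hu, hL⟩
      omega
    nonneg := fun u hu => (hf u (rhb_mem hu).1).1
    le := fun u hu => (hf u (rhb_mem hu).1).2.1
    sum := fun u hu => (hf u (rhb_mem hu).1).2.2
    pos := fun u hu c => by
      have hu' := rhb_GO.1 hu
      refine rho_pos G dist w S₀ L₀ h2 h.slack k (rhb_mem hu'.1).1 ?_
      rw [hu'.2]
      exact mem_univ c }

/-- RHB. definition of `rho` for a good vertex -/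
theorem rho_good (k : ℕ) {v : V} (hg : L₀ v = univ) (c : K) :
    Fintype.card K * rho G dist w S₀ L₀ (k + 1) v c =
      RR (Out G dist w S₀ v) (rho G dist w S₀ L₀ k) c := by
  rw [rho, hg, if_pos (mem_univ c), RR, mul_div_assoc]
  rfl

/-- RHB. Phase 1. `AA 0 = 2 B`, `AA (j+1) = kap x * AA j + (2 B + 2) η`. -/
noncomputable def AA (κ B η : ℝ) : ℕ → ℝ
  | 0 => 2 * B
  | j + 1 => κ * AA κ B η j + (2 * B + 2) * η

private theorem rhb_AA {κ B η : ℝ} (hκ : 0 ≤ κ) (hB : 0 ≤ B) (hη : 0 ≤ η) (j : ℕ) :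
    0 ≤ AA κ B η j := by
  induction j with
  | zero =>
    rw [AA]
    positivity
  | succ j ih =>
    rw [AA]
    positivity

/-- RHB. Phase 1. Induction on `j`: `rr_js0` (`loc_triv`), `rr_js` (`loc_good`; the good outer neighbours `u` satisfy
`dist w u + (j + 1) = M`). -/
theorem phase1 (h : Dat G dist w S₀ L₀ s D t M) {x B η : ℝ} (hx : (D : ℝ) ≤ x * Fintype.card K)
    (hB : BB s D ≤ B) (hη : eta s D t ≤ η) (hη1 : η ≤ 1) (j : ℕ) : ∀ v ∈ S₀, L₀ v = univ →
    dist w v + (j + 1) = M →
    Js (fun c => Fintype.card K * rho G dist w S₀ L₀ (j + 1) v c) ≤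
      Fintype.card K * AA (kap x) B η j := by
  have hK : (0 : ℝ) < Fintype.card K := by exact_mod_cast Fintype.card_pos
  have hBB : 0 ≤ BB s D := by
    unfold BB
    positivity
  have heta : 0 ≤ eta s D t := by
    unfold eta
    positivity
  have hx0 : 0 ≤ x := by
    have h1 : 0 ≤ x * Fintype.card K := le_trans (Nat.cast_nonneg D) hx
    exact nonneg_of_mul_nonneg_left h1 hK
  have hk : 0 ≤ kap x := by
    unfold kap
    positivity
  have hAA := rhb_AA hk (hBB.trans hB) (heta.trans hη)
  induction j with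
  | zero =>
    intro v hv hg _
    have h1 : (fun c => Fintype.card K * rho G dist w S₀ L₀ (0 + 1) v c) =
        RR (Out G dist w S₀ v) (rho G dist w S₀ L₀ 0) := funext fun c => rho_good 0 hg c
    rw [h1, AA]
    refine (rr_js0 (loc_triv h 0 hv)).trans ?_
    exact mul_le_mul_of_nonneg_left (mul_le_mul_of_nonneg_left hB (by norm_num)) hK.le
  | succ j ih =>
    intro v hv hg hM
    have h1 : (fun c => Fintype.card K * rho G dist w S₀ L₀ (j + 1 + 1) v c) =
        RR (Out G dist w S₀ v) (rho G dist w S₀ L₀ (j + 1)) := funext fun c => rho_good (j + 1) hg c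
    rw [h1, AA]
    have h2 := rr_js (loc_good h (j + 1) hv (by omega)) hx (hη.trans hη1) (hAA j)
      (fun u hu => by
        have hu' := rhb_GO.1 hu
        have hu2 := rhb_mem hu'.1
        exact ih u hu2.1 hu'.2 (by omega))
    refine h2.trans (mul_le_mul_of_nonneg_left ?_ hK.le)
    have h3 : (2 * BB s D + 2) * eta s D t ≤ (2 * B + 2) * η :=
      mul_le_mul (by linarith) hη heta (by linarith)
    linarith

end Pool.Agent.QC
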