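import Pool.Agent.Lib_MP_2c424f_pr.RHB
import Pool.Agent.Lib_MP_2c424f_pr.LOE
import Pool.Agent.Lib_MP_2c424f_pr.LOF

/-!
# Piece RHC: phase 2
-/

set_option autoImplicit false

open Finset

namespace Pool.Agent.QC

variable {V K : Type} [Fintype V] [Fintype K] [Inhabited K] {G : SimpleGraph V}
  {dist : V → V → ℕ} {w : V} {S₀ : Finset V} {L₀ : V → Finset K} {s D t M : ℕ}

/-- the bounds of phase 2 -/
noncomputable def a2 (κ B δ : ℝ) : ℕ → ℝ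
  | 0 => B
  | i + 1 => κ * a2 κ B δ i + δ

omit [Inhabited K] in
open scoped Classical in
private theorem rhc_mem {v u : V} (hu : u ∈ GO G dist w S₀ L₀ v) :
    u ∈ S₀ ∧ L₀ u = univ ∧ dist w u = dist w v + 1 := by
  unfold GO Out at hu
  rw [Finset.mem_filter, Finset.mem_filter] at hu
  exact ⟨hu.1.1, hu.2, hu.1.2.2⟩

omit [Inhabited K] in
private theorem rhc_D {x : ℝ} {D : ℕ} (hx : (D : ℝ) ≤ x * Fintype.card K) (hx1 : x ≤ 1) : D ≤ Fintype.card K := by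
  have h0 : (0 : ℝ) ≤ Fintype.card K := Nat.cast_nonneg _
  have h1 : (D : ℝ) ≤ (Fintype.card K : ℝ) := by nlinarith
  exact_mod_cast h1

private theorem rhc_BB (s D : ℕ) : 0 ≤ BB s D := by
  unfold BB
  positivity

private theorem rhc_eta (s D t : ℕ) : 0 ≤ eta s D t := by
  unfold eta
  positivity

private theorem rhc_kap {x : ℝ} (hx0 : 0 ≤ x) : 0 ≤ kap x := by
  unfold kap
  positivity

private theorem rhc_a2 {κ B δ : ℝ} (h0 : 0 ≤ κ) (hB : 0 ≤ B) (hδ : 0 ≤ δ) (i : ℕ) : 0 ≤ a2 κ B δ i := by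
  induction i with
  | zero => exact hB
  | succ i ih =>
    show 0 ≤ κ * a2 κ B δ i + δ
    positivity

/-- RHB. Phase 2, lower bound for a good vertex in terms of the good outer neighbours: `rr_lo`, `sg_scal'`. -/
theorem lower (h : Dat G dist w S₀ L₀ s D t M) {x η η₁ a : ℝ} (hx : (D : ℝ) ≤ x * Fintype.card K)
    (hx1 : x ≤ 1) (hη : eta s D t ≤ η) (h1 : 0 ≤ η₁) (ha : 0 ≤ a) (k : ℕ) {v : V} (hv : v ∈ S₀)
    (hg : L₀ v = univ) (hM : dist w v + (k + 1) = M) (hk : 1 ≤ k)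
    (hJ : ∀ u ∈ S₀, L₀ u = univ → dist w u + k = M →
      Js (fun c => Fintype.card K * rho G dist w S₀ L₀ k u c) ≤ Fintype.card K * η₁)
    (c : K) (hu : ∀ u ∈ S₀, L₀ u = univ → dist w u + k = M →
      Real.log (Fintype.card K * rho G dist w S₀ L₀ k u c) ≤ a) :
    -(x * (Real.exp a - 1)) - (η + 3 * Real.sqrt η₁) ≤
      Real.log (Fintype.card K * rho G dist w S₀ L₀ (k + 1) v c) := by
  have hl := loc_good h k hv (by omega)
  have hlo := rr_lo hl h1 (rhc_D hx hx1) (fun u hu => by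
    obtain ⟨hS, hL, hd⟩ := rhc_mem hu
    exact hJ u hS hL (by omega)) c
  have hsc := sg_scal' hl hx ha c (fun u hu' => by
    obtain ⟨hS, hL, hd⟩ := rhc_mem hu'
    exact hu u hS hL (by omega))
  rw [rho_good k hg c]
  linarith

private theorem rhc_step (h : Dat G dist w S₀ L₀ s D t M) {x B η η₁ : ℝ} (hx : (D : ℝ) ≤ x * Fintype.card K)
    (hx0 : 0 ≤ x) (hx1 : x ≤ 1) (hB : BB s D ≤ B) (hη : eta s D t ≤ η) (hη1 : η ≤ 1) (h1 : 0 ≤ η₁)
    {j₁ : ℕ} (hj : ∀ j, j₁ ≤ j → AA (kap x) B η j ≤ η₁) (i : ℕ)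
    (ih : ∀ v ∈ S₀, L₀ v = univ → dist w v + (j₁ + 1 + 2 * i) = M → ∀ c,
      Real.log (Fintype.card K * rho G dist w S₀ L₀ (j₁ + 1 + 2 * i) v c) ≤
      a2 (kap x) B (2 * η + 3 * Real.sqrt η₁) i) {v : V} (hv : v ∈ S₀)
    (hM : dist w v + (j₁ + 1 + 2 * i + 2) = M) (c : K) :
    ((GO G dist w S₀ L₀ v).card : ℝ) / Fintype.card K - SG (GO G dist w S₀ L₀ v) (rho G dist w S₀ L₀ (j₁ + 1 + 2 * i + 1)) c ≤
      kap x * a2 (kap x) B (2 * η + 3 * Real.sqrt η₁) i + (η + 3 * Real.sqrt η₁) := by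
  have he0 : 0 ≤ η := (rhc_eta s D t).trans hη
  have hs0 : 0 ≤ Real.sqrt η₁ := Real.sqrt_nonneg _
  have hB0 : 0 ≤ B := (rhc_BB s D).trans hB
  have ha : 0 ≤ a2 (kap x) B (2 * η + 3 * Real.sqrt η₁) i := rhc_a2 (rhc_kap hx0) hB0 (by positivity) i
  have h2 : 0 ≤ η + 3 * Real.sqrt η₁ := by positivity
  have hl := loc_good h (j₁ + 1 + 2 * i + 1) hv (by omega)
  have hsc := sg_scal hl hx ha h2 c (fun u hu => by
    obtain ⟨hS, hL, hd⟩ := rhc_mem hu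
    refine lower h hx hx1 hη h1 ha (j₁ + 1 + 2 * i) hS hL (by omega) (by omega) (fun u' hu' hL' hd' => ?_) c
      (fun u' hu' hL' hd' => ih u' hu' hL' hd' c)
    have hph := phase1 h hx hB hη hη1 (j₁ + 2 * i) u' hu' hL' (by omega)
    have hk : j₁ + 2 * i + 1 = j₁ + 1 + 2 * i := by omega
    rw [hk] at hph
    exact hph.trans (mul_le_mul_of_nonneg_left (hj _ (by omega)) (Nat.cast_nonneg _)))
  have h3 : x * (η + 3 * Real.sqrt η₁) ≤ η + 3 * Real.sqrt η₁ := by nlinarith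
  linarith

/-- RHB. Phase 2. Induction on `i`: `rr_log` (`loc_triv`) for `i = 0`; step: `lower`, `rr_up`, `sg_scal`:
`log ≤ kap x * a + x η₂ + η` with `η₂ = η + 3 √η₁`. -/
theorem phase2 (h : Dat G dist w S₀ L₀ s D t M) {x B η η₁ : ℝ} (hx : (D : ℝ) ≤ x * Fintype.card K)
    (hx0 : 0 ≤ x) (hx1 : x ≤ 1) (hB : BB s D ≤ B) (hη : eta s D t ≤ η) (hη1 : η ≤ 1) (h1 : 0 ≤ η₁)
    {j₁ : ℕ} (hj : ∀ j, j₁ ≤ j → AA (kap x) B η j ≤ η₁) (i : ℕ) : ∀ v ∈ S₀, L₀ v = univ →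
    dist w v + (j₁ + 1 + 2 * i) = M → ∀ c,
    Real.log (Fintype.card K * rho G dist w S₀ L₀ (j₁ + 1 + 2 * i) v c) ≤
      a2 (kap x) B (2 * η + 3 * Real.sqrt η₁) i := by
  induction i with
  | zero =>
    intro v hv hg _ c
    have hl := loc_triv h j₁ hv
    have hr := (rr_log hl c).2
    show Real.log (Fintype.card K * rho G dist w S₀ L₀ (j₁ + 1) v c) ≤ B
    rw [rho_good j₁ hg c]
    exact (le_abs_self _).trans (hr.trans hB)
  | succ i ih =>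
    intro v hv hg hM c
    have hst := rhc_step h hx hx0 hx1 hB hη hη1 h1 hj i ih hv (by omega) c
    have hl := loc_good h (j₁ + 1 + 2 * i + 1) hv (by omega)
    have hup := rr_up hl c
    show Real.log (Fintype.card K * rho G dist w S₀ L₀ (j₁ + 1 + 2 * i + 1 + 1) v c) ≤
      kap x * a2 (kap x) B (2 * η + 3 * Real.sqrt η₁) i + (2 * η + 3 * Real.sqrt η₁)
    rw [rho_good (j₁ + 1 + 2 * i + 1) hg c]
    linarith

/-- RHB. The top vertex: `rr_top`, `lower`, `sg_scal`. -/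
theorem top (h : Dat G dist w S₀ L₀ s D t M) {x B η η₁ τ : ℝ} (hx : (D : ℝ) ≤ x * Fintype.card K)
    (hx0 : 0 ≤ x) (hx1 : x ≤ 1) (hB : BB s D ≤ B) (hη : eta s D t ≤ η) (hη1 : η ≤ 1) (h1 : 0 ≤ η₁)
    {j₁ : ℕ} (hj : ∀ j, j₁ ≤ j → AA (kap x) B η j ≤ η₁) (n : ℕ) (hM : M = j₁ + 2 * n + 3)
    (hw : w ∈ S₀) (hτ : 0 ≤ τ) (hτ1 : τ ≤ 1 / 2)
    (hΛ : (1 - τ) * Fintype.card K ≤ (L₀ w).card) (c : K) :
    Fintype.card K * rho G dist w S₀ L₀ M w c ≤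
      Real.exp (kap x * a2 (kap x) B (2 * η + 3 * Real.sqrt η₁) n +
        (2 * η + 3 * Real.sqrt η₁) + 6 * τ) := by
  have hww : dist w w = 0 := h.lg.self w
  have hMk : M = j₁ + 1 + 2 * n + 1 + 1 := by omega
  have hs2 : 2 ≤ s := by have := h.s4; omega
  have hq : (0 : ℝ) < Fintype.card K := by exact_mod_cast Fintype.card_pos
  by_cases hc : c ∈ L₀ w
  · have hst := rhc_step h hx hx0 hx1 hB hη hη1 h1 hj n (phase2 h hx hx0 hx1 hB hη hη1 h1 hj n) hw (by omega) c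
    have hl := loc_good h (j₁ + 1 + 2 * n + 1) hw (by omega)
    have htop := rr_top hl (hη.trans hη1) (rhc_D hx hx1) hτ hτ1 (L₀ w) hΛ c
    have hpos : 0 < rho G dist w S₀ L₀ (j₁ + 1 + 2 * n + 1 + 1) w c := rho_pos G dist w S₀ L₀ hs2 h.slack _ hw hc
    have heq : rho G dist w S₀ L₀ (j₁ + 1 + 2 * n + 1 + 1) w c =
        PP (Out G dist w S₀ w) (rho G dist w S₀ L₀ (j₁ + 1 + 2 * n + 1)) c /
          ∑ c' ∈ L₀ w, PP (Out G dist w S₀ w) (rho G dist w S₀ L₀ (j₁ + 1 + 2 * n + 1)) c' := by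
      exact if_pos hc
    rw [hMk]
    have hz : 0 < Fintype.card K * rho G dist w S₀ L₀ (j₁ + 1 + 2 * n + 1 + 1) w c := mul_pos hq hpos
    rw [← Real.exp_log hz]
    apply Real.exp_le_exp.mpr
    rw [heq, ← mul_div_assoc]
    linarith
  · rw [rho_zero_of G dist w S₀ L₀ hc, mul_zero]
    exact (Real.exp_pos _).le

end Pool.Agent.QC
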