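import Pool.Agent.Lib_MP_2c424f_pr.Defs

/-!
# Piece SKA: the events for several points
-/

set_option autoImplicit false

open Finset

namespace Pool.Agent.QC

variable {V K : Type} [Fintype V] [Fintype K] {G : SimpleGraph V} {dist : V → V → ℕ} {D : ℕ}

/-- `Ext G A n π` depends only on `A` near the path. -/
theorem SKA_ext (hG : IsLG G dist D) (p : V) (A A' : V → Prop) :
    ∀ (n r : ℕ) (π : List V), (∀ x ∈ π, dist p x ≤ r) →
      (∀ x, dist p x ≤ r + n → (A x ↔ A' x)) → (Ext G A n π ↔ Ext G A' n π) := by
  intro n
  induction n with
  | zero => intro r π _ _; simp [Ext]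
  | succ n ih =>
    intro r π hπ hA
    have key : ∀ v ∈ nxt G π, dist p v ≤ r + 1 := by
      intro v hv
      cases π with
      | nil => simp [nxt] at hv
      | cons x π =>
        simp only [nxt, mem_filter, mem_univ, true_and] at hv
        have h1 := hπ x (by simp)
        rcases hG.step p x v hv.1 with h | h <;> omega
    have h2 : ∀ v ∈ nxt G π, (A v ∧ Ext G A n (v :: π) ↔ A' v ∧ Ext G A' n (v :: π)) := by
      intro v hv
      have hv' := key v hv
      have e1 : Ext G A n (v :: π) ↔ Ext G A' n (v :: π) := by
        apply ih (r + 1)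
        · intro x hx
          rcases List.mem_cons.1 hx with rfl | hx
          · exact hv'
          · exact (hπ x hx).trans (Nat.le_succ r)
        · intro x hx
          exact hA x (by omega)
      have e2 : A v ↔ A' v := hA v (by omega)
      rw [e1, e2]
    simp only [Ext]
    constructor
    · rintro ⟨v, hv, h⟩
      exact ⟨v, hv, (h2 v hv).1 h⟩
    · rintro ⟨v, hv, h⟩
      exact ⟨v, hv, (h2 v hv).2 h⟩

/-- SKE. `Cn G a b n p` depends only on the colours within distance `n` of `p`. (For `Ext G A n π` with all vertices
of `π` within distance `r` of `p`: it depends only on `A` within distance `r + n`; induction on `n`.) -/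
theorem cn_dep (hG : IsLG G dist D) (a b : K) (n : ℕ) (p : V) :
    DepOn {y | dist p y ≤ n} (fun f : V → K => Cn G a b n p f) := by
  intro f f' hf
  have h0 : f p = f' p := hf p (by simp [hG.self p])
  have h1 := SKA_ext hG p (fun v => f v = a ∨ f v = b) (fun v => f' v = a ∨ f' v = b) n 0 [p]
    (by intro x hx; rw [List.mem_singleton.1 hx, hG.self p])
    (by intro x hx; rw [hf x (by simpa using hx)])
  exact propext (by simp only [Cn]; rw [h0, h1])

/-- SKE. Several points. If the single bound `h` holds with conditions at a distance `> ℓ + M` then for a list of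
points with pairwise distances `> 2 ℓ + M` the probability of all events is at most `h ^ length`. Induction on the list:
the event for the tail depends only on the vertices within distance `ℓ` of the points of the tail, which are at a
distance `> ℓ + M` from the head. -/
theorem cn_many (hG : IsLG G dist D) {a b : K} {ℓ M : ℕ} {h : ℝ} (h0 : 0 ≤ h)
    (hc : ∀ (u : V) (E : (V → K) → Prop), DepOn {y | ℓ + M < dist u y} E →
      (cnt (fun f : V → K => Proper G f ∧ E f ∧ Cn G a b ℓ u f) : ℝ) ≤
        h * cnt (fun f : V → K => Proper G f ∧ E f)) :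
    ∀ P : List V, P.Pairwise (fun x y => 2 * ℓ + M < dist x y) →
    (cnt (fun f : V → K => Proper G f ∧ ∀ p ∈ P, Cn G a b ℓ p f) : ℝ) ≤
      h ^ P.length * cnt (fun f : V → K => Proper G f) := by
  intro P
  induction P with
  | nil =>
    intro _
    have : cnt (fun f : V → K => Proper G f ∧ ∀ p ∈ ([] : List V), Cn G a b ℓ p f) =
        cnt (fun f : V → K => Proper G f) := cnt_congr (fun f => by simp)
    rw [this]; simp
  | cons u P ih =>
    intro hP
    rw [List.pairwise_cons] at hP
    obtain ⟨hu, hP⟩ := hP
    have h1 := hc u (fun f => ∀ p ∈ P, Cn G a b ℓ p f) (by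
      intro f f' hf
      apply propext
      refine forall_congr' fun p => forall_congr' fun hp => ?_
      have := cn_dep hG a b ℓ p f f' (by
        intro y hy
        apply hf y
        have h2 := hu p hp
        have h3 := hG.tri u y p
        have h4 : dist p y ≤ ℓ := hy
        have h5 := hG.symm p y
        show ℓ + M < dist u y
        omega)
      exact iff_of_eq this)
    have h2 : cnt (fun f : V → K => Proper G f ∧ ∀ p ∈ u :: P, Cn G a b ℓ p f) =
        cnt (fun f : V → K => Proper G f ∧ (∀ p ∈ P, Cn G a b ℓ p f) ∧ Cn G a b ℓ u f) :=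
      cnt_congr (fun f => by
        simp only [List.forall_mem_cons]
        tauto)
    rw [h2]
    refine h1.trans ?_
    calc h * (cnt (fun f : V → K => Proper G f ∧ ∀ p ∈ P, Cn G a b ℓ p f) : ℝ)
        ≤ h * (h ^ P.length * cnt (fun f : V → K => Proper G f)) :=
          mul_le_mul_of_nonneg_left (ih hP) h0
      _ = h ^ (u :: P).length * cnt (fun f : V → K => Proper G f) := by
          rw [List.length_cons, pow_succ]; ring

end Pool.Agent.QC
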