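import Pool.Agent.Lib_MP_2c424f_pr.Defs

/-!
# Piece SKC: existence of chains
-/

set_option autoImplicit false

open Finset

namespace Pool.Agent.QC

variable {V K : Type} [Fintype V] [Fintype K] {G : SimpleGraph V} {dist : V → V → ℕ} {D : ℕ}

/-- a chain: consecutive points within distance `r`, the others more than `r` apart (head = last point) -/
def Chn (dist : V → V → ℕ) (r : ℕ) : List V → Prop
  | [] => False
  | [_] => True
  | v :: h :: π => dist h v ≤ r ∧ (∀ x ∈ π, r < dist x v) ∧ Chn dist r (h :: π)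

/-- SKC: the auxiliary graph -/
def SKC_H' (dist : V → V → ℕ) (hs : ∀ x y, dist x y = dist y x) (H : SimpleGraph V) (r : ℕ) (x : V) :
    SimpleGraph V where
  Adj p p' := p ≠ p' ∧ dist p p' ≤ r ∧ H.Reachable x p ∧ H.Reachable x p'
  symm := ⟨fun a b h => ⟨h.1.symm, by rw [hs b a]; exact h.2.1, h.2.2.2, h.2.2.1⟩⟩
  loopless := ⟨fun a h => h.1 rfl⟩

theorem SKC_pred {H : SimpleGraph V} {x y : V} {n : ℕ} (h : H.Reachable x y) (hn : H.dist x y = n + 1) :
    ∃ z, H.Adj z y ∧ H.dist x z = n ∧ H.Reachable x z := by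
  obtain ⟨w, hw⟩ := h.symm.exists_walk_length_eq_dist
  rw [SimpleGraph.dist_comm, hn] at hw
  cases w with
  | nil => simp at hw
  | @cons _ z _ ha w' =>
    have hl : w'.length = n := by simpa using hw
    have hr : H.Reachable x z := w'.reachable.symm
    refine ⟨z, ha.symm, ?_, hr⟩
    have h1 : H.dist x z ≤ n := by
      rw [SimpleGraph.dist_comm, ← hl]; exact SimpleGraph.dist_le w'
    have h2 : H.dist x y ≤ H.dist x z + 1 := by
      obtain ⟨w2, hw2⟩ := hr.exists_walk_length_eq_dist
      have := SimpleGraph.dist_le (w2.append (SimpleGraph.Walk.cons ha.symm SimpleGraph.Walk.nil))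
      simpa [hw2] using this
    omega

theorem SKC_level {H : SimpleGraph V} {x : V} (n : ℕ) : ∀ y : V, H.Reachable x y → H.dist x y = n →
    ∀ N ≤ n, ∃ z, H.Reachable x z ∧ H.dist x z = N := by
  induction n with
  | zero => intro y hy hd N hN; exact ⟨y, hy, by omega⟩
  | succ n ih =>
    intro y hy hd N hN
    rcases Nat.lt_or_ge n N with h | h
    · exact ⟨y, hy, by omega⟩
    · obtain ⟨z, -, hz, hr⟩ := SKC_pred hy hd
      exact ih z hr hz N h

theorem SKC_list (hG : IsLG G dist D) {H : SimpleGraph V} {r : ℕ} {x : V} (n : ℕ) :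
    ∀ y : V, H.Reachable x y → (SKC_H' dist hG.symm H r x).Reachable x y →
      (SKC_H' dist hG.symm H r x).dist x y = n →
      ∃ π : List V, (y :: π).length = n + 1 ∧ Chn dist r (y :: π) ∧ (y :: π).getLast? = some x ∧
        (∀ p ∈ y :: π, H.Reachable x p) ∧
        (∀ p ∈ π, (SKC_H' dist hG.symm H r x).Reachable x p ∧
          (SKC_H' dist hG.symm H r x).dist x p < n) := by
  induction n with
  | zero =>
    intro y hy hy' hd
    have : x = y := (hy'.dist_eq_zero_iff).1 hd
    subst this
    exact ⟨[], by simp, trivial, by simp, by simpa using hy, by simp⟩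
  | succ n ih =>
    intro y hy hy' hd
    obtain ⟨z, ha, hz, hr⟩ := SKC_pred hy' hd
    obtain ⟨π, h1, h2, h3, h4, h5⟩ := ih z ha.2.2.1 hr hz
    refine ⟨z :: π, ?_, ?_, ?_, ?_, ?_⟩
    · simpa using h1
    · refine ⟨ha.2.1, fun p hp => ?_, h2⟩
      by_contra hc
      have hc' : dist p y ≤ r := by omega
      obtain ⟨hpr, hpd⟩ := h5 p hp
      have hne : p ≠ y := by
        rintro rfl
        omega
      have hadj : (SKC_H' dist hG.symm H r x).Adj p y :=
        ⟨hne, hc', h4 p (List.mem_cons_of_mem _ hp), hy⟩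
      obtain ⟨w2, hw2⟩ := hpr.exists_walk_length_eq_dist
      have := SimpleGraph.dist_le (w2.append (SimpleGraph.Walk.cons hadj SimpleGraph.Walk.nil))
      simp [hw2] at this
      omega
    · rw [List.getLast?_cons_cons]; exact h3
    · intro p hp
      rcases List.mem_cons.1 hp with rfl | hp
      · exact hy
      · exact h4 p hp
    · intro p hp
      rcases List.mem_cons.1 hp with rfl | hp
      · exact ⟨hr, by omega⟩
      · exact ⟨(h5 p hp).1, by have := (h5 p hp).2; omega⟩

theorem SKC_dist (hG : IsLG G dist D) {H' : SimpleGraph V} {r : ℕ} (hH : ∀ a b, H'.Adj a b → dist a b ≤ r)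
    {a b : V} (w : H'.Walk a b) : dist a b ≤ r * w.length := by
  induction w with
  | nil => simp [hG.self]
  | @cons u v w h p ih =>
    have h1 := hG.tri u v w
    have h2 := hH _ _ h
    simp only [SimpleGraph.Walk.length_cons]
    rw [Nat.mul_succ]
    omega

theorem SKC_reach (hG : IsLG G dist D) {H : SimpleGraph V} (hH : ∀ x y, H.Adj x y → G.Adj x y)
    {r : ℕ} (hr : 1 ≤ r) {x a b : V} (hxa : H.Reachable x a) (w : H.Walk a b) :
    (SKC_H' dist hG.symm H r x).Reachable a b := by
  induction w with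
  | nil => exact SimpleGraph.Reachable.refl _
  | @cons u v w h p ih =>
    have hv : H.Reachable x v := hxa.trans h.reachable
    refine SimpleGraph.Reachable.trans (SimpleGraph.Adj.reachable ?_) (ih hv)
    refine ⟨h.ne, ?_, hxa, hv⟩
    have := hG.step u u v (hH _ _ h)
    rw [hG.self] at this
    omega

/-- SKE. Existence of chains in a connected set: if `x` is connected in `H` to `y` with `dist x y > r * N` (`r ≥ 1`) then
there is a chain of `N + 1` points starting (last in the list) at `x`, all connected to `x` in `H`.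

Proof. Let `H'` be the graph on `V` with `H'.Adj p p'` iff `p ≠ p'`, `dist p p' ≤ r` and both are `H`-reachable from `x`. Adjacent
vertices of `H` are `H'`-adjacent when reachable (`dist = 1 ≤ r`), so `y` is `H'`-reachable from `x`; let
`n = H'.dist x y`; `dist x y ≤ r n`, so `n > N`. On a shortest `H'`-path `x = p_0, p_1, …` we have `H'.dist x p_i = i`;
adjacent vertices differ by at most one in `H'.dist x ·`, so `p_i`, `p_j` are not `H'`-adjacent for `|i - j| ≥ 2` and so
`dist p_i p_j > r`. The list is `p_N, …, p_0`. -/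
theorem exists_chn (hG : IsLG G dist D) {H : SimpleGraph V} (hH : ∀ x y, H.Adj x y → G.Adj x y)
    {r N : ℕ} (hr : 1 ≤ r) {x y : V} (h : H.Reachable x y) (hN : r * N < dist x y) :
    ∃ π : List V, π.length = N + 1 ∧ Chn dist r π ∧ π.getLast? = some x ∧
      ∀ p ∈ π, H.Reachable x p := by
  obtain ⟨w⟩ := h
  have hR : (SKC_H' dist hG.symm H r x).Reachable x y :=
    SKC_reach hG hH hr (SimpleGraph.Reachable.refl _) w
  obtain ⟨w', hw'⟩ := hR.exists_walk_length_eq_dist
  have hd := SKC_dist hG (H' := SKC_H' dist hG.symm H r x) (r := r) (fun a b h => h.2.1) w'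
  have hlt : N < (SKC_H' dist hG.symm H r x).dist x y := by
    rw [← hw']
    by_contra hc
    have : r * w'.length ≤ r * N := Nat.mul_le_mul_left _ (by omega)
    omega
  obtain ⟨z, hz, hzd⟩ := SKC_level _ y hR rfl N hlt.le
  have hzH : H.Reachable x z := by
    rcases eq_or_ne x z with rfl | hne
    · exact SimpleGraph.Reachable.refl _
    · have hN0 : N ≠ 0 := by
        rintro rfl
        exact hne ((hz.dist_eq_zero_iff).1 hzd)
      obtain ⟨m, rfl⟩ := Nat.exists_eq_succ_of_ne_zero hN0
      obtain ⟨p, hp, -, -⟩ := SKC_pred hz hzd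
      exact hp.2.2.2
  obtain ⟨π, h1, h2, h3, h4, -⟩ := SKC_list hG N z hzH hz hzd
  exact ⟨z :: π, h1, h2, h3, h4⟩

end Pool.Agent.QC
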