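import Pool.Agent.Lib_MP_2c424f_pr.LCB

/-!
# Piece TRA: colourings with prescribed colours and list colourings
-/

set_option autoImplicit false

open Finset

namespace Pool.Agent.QC

variable {V K : Type} [Fintype V] [Fintype K] [Inhabited K]

open scoped Classical in
/-- the free vertices -/
noncomputable def fr (Q : Set V) : Finset V := univ.filter fun v => v ∉ Q

open scoped Classical in
/-- the lists -/
noncomputable def fl (G : SimpleGraph V) (Q : Set V) (σ : V → K) : V → Finset K :=
  fun u => univ.filter fun c => ∀ p ∈ Q, G.Adj u p → c ≠ σ p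

open scoped Classical in
/-- the general bijection -/
theorem TRA_gen (G : SimpleGraph V) (Q : Set V) (σ : V → K)
    (hσ : ∀ u ∈ Q, ∀ v ∈ Q, G.Adj u v → σ u ≠ σ v) (P P' : (V → K) → Prop)
    (hP : ∀ f, P f ↔ P' (fun v => if v ∈ Q then default else f v)) :
    cnt (fun f : V → K => Proper G f ∧ (∀ x ∈ Q, f x = σ x) ∧ P f) =
      ((LC G (fr Q) (fl G Q σ)).filter P').card := by
  have e1 : ((LC G (fr Q) (fl G Q σ)).filter P').card =
      cnt (fun f : V → K => f ∈ LC G (fr Q) (fl G Q σ) ∧ P' f) := by
    rw [cnt_eq]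
    congr 1
    ext f
    simp
  rw [e1]
  refine cnt_bij (fun f v => if v ∈ Q then default else f v) ?_ ?_ ?_
  · rintro f ⟨h1, h2, h3⟩
    refine ⟨?_, (hP f).1 h3⟩
    unfold LC
    rw [mem_filter]
    refine ⟨mem_univ _, ?_, ?_, ?_⟩
    · intro v hv
      have hv' : v ∈ Q := by
        by_contra h
        exact hv (by unfold fr; simp [h])
      simp [hv']
    · intro v hv
      have hv' : v ∉ Q := by
        unfold fr at hv
        simpa using hv
      simp only [hv', if_false]
      unfold fl
      rw [mem_filter]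
      refine ⟨mem_univ _, fun p hp hadj => ?_⟩
      rw [← h2 p hp]
      exact h1 v p hadj
    · intro u hu v hv hadj
      have hu' : u ∉ Q := by
        unfold fr at hu
        simpa using hu
      have hv' : v ∉ Q := by
        unfold fr at hv
        simpa using hv
      simp only [hu', hv', if_false]
      exact h1 u v hadj
  · rintro f f' ⟨_, h2, _⟩ ⟨_, h2', _⟩ hff
    funext v
    by_cases hv : v ∈ Q
    · rw [h2 v hv, h2' v hv]
    · have := congrFun hff v
      simpa [hv] using this
  · rintro g ⟨hg, hg'⟩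
    unfold LC at hg
    rw [mem_filter] at hg
    obtain ⟨_, g1, g2, g3⟩ := hg
    have hfr : ∀ v, v ∉ Q → v ∈ fr Q := by
      intro v hv
      unfold fr
      simp [hv]
    have hge : (fun v => if v ∈ Q then default else (if v ∈ Q then σ v else g v)) = g := by
      funext v
      by_cases hv : v ∈ Q
      · have h4 : v ∉ fr Q := by
          unfold fr
          simp [hv]
        simp [hv, g1 v h4]
      · simp [hv]
    refine ⟨fun v => if v ∈ Q then σ v else g v, ⟨?_, ?_, ?_⟩, hge⟩
    · intro u v hadj
      by_cases hu : u ∈ Q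
      · by_cases hv : v ∈ Q
        · simp only [hu, hv, if_true]
          exact hσ u hu v hv hadj
        · simp only [hu, hv, if_true, if_false]
          have h5 := g2 v (hfr v hv)
          unfold fl at h5
          rw [mem_filter] at h5
          exact (h5.2 u hu hadj.symm).symm
      · by_cases hv : v ∈ Q
        · simp only [hu, hv, if_true, if_false]
          have h5 := g2 u (hfr u hu)
          unfold fl at h5
          rw [mem_filter] at h5
          exact h5.2 v hv hadj
        · simp only [hu, hv, if_false]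
          exact g3 u (hfr u hu) v (hfr v hv) hadj
    · intro x hx
      simp [hx]
    · rw [hP, hge]
      exact hg'

/-- TRL. If `σ` is proper on `Q`: bijection `f ↦ (f off Q, default on Q)` between the proper colourings which agree
with `σ` on `Q` and `LC G (fr Q) (fl G Q σ)`. -/
theorem cnt_agree (G : SimpleGraph V) (Q : Set V) (σ : V → K)
    (hσ : ∀ u ∈ Q, ∀ v ∈ Q, G.Adj u v → σ u ≠ σ v) :
    cnt (fun f : V → K => Proper G f ∧ ∀ x ∈ Q, f x = σ x) = Z G (fr Q) (fl G Q σ) := by
  classical
  have h := TRA_gen G Q σ hσ (fun _ => True) (fun _ => True) (fun _ => Iff.rfl)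
  unfold Z
  rw [cnt_congr (p' := fun f : V → K => Proper G f ∧ (∀ x ∈ Q, f x = σ x) ∧ True)
    (fun f => by simp), h]
  congr 1
  simp

theorem cnt_agree_c (G : SimpleGraph V) (Q : Set V) (σ : V → K)
    (hσ : ∀ u ∈ Q, ∀ v ∈ Q, G.Adj u v → σ u ≠ σ v) {w : V} (hw : w ∉ Q) (b : K) :
    cnt (fun f : V → K => Proper G f ∧ (∀ x ∈ Q, f x = σ x) ∧ f w = b) =
      Zc G (fr Q) (fl G Q σ) w b := by
  classical
  have h := TRA_gen G Q σ hσ (fun f => f w = b) (fun f => f w = b) (fun f => by simp [hw])
  unfold Zc
  rw [h]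

/-- TRL. A proper colouring which agrees with `σ` on `Q` exists only if `σ` is proper on `Q`. -/
theorem cnt_agree_zero (G : SimpleGraph V) (Q : Set V) (σ : V → K)
    (hσ : ¬ ∀ u ∈ Q, ∀ v ∈ Q, G.Adj u v → σ u ≠ σ v) (p : (V → K) → Prop) :
    cnt (fun f : V → K => Proper G f ∧ (∀ x ∈ Q, f x = σ x) ∧ p f) = 0 := by
  have h0 : {f : V → K | Proper G f ∧ (∀ x ∈ Q, f x = σ x) ∧ p f} = ∅ := by
    rw [Set.eq_empty_iff_forall_notMem]
    rintro f ⟨h1, h2, _⟩
    apply hσ
    intro u hu v hv hadj
    rw [← h2 u hu, ← h2 v hv]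
    exact h1 u v hadj
  unfold cnt
  rw [h0, Set.ncard_empty]

/-- TRL. slack: a vertex of degree at most `D` has at least `q - D + (free degree)` colours -/
theorem fl_slack (G : SimpleGraph V) (Q : Set V) (σ : V → K) {D : ℕ}
    (hD : ∀ x, cnt (fun y => G.Adj x y) ≤ D) (hq : D ≤ Fintype.card K) :
    Slack G (fr Q) (fl G Q σ) (Fintype.card K - D) := by
  classical
  intro v _
  have h1 := hD v
  rw [cnt_eq] at h1
  have h2 : (univ.filter fun y => G.Adj v y) =
      ((fr Q).filter fun u => G.Adj v u) ∪ (univ.filter fun u => G.Adj v u ∧ u ∈ Q) := by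
    ext u
    unfold fr
    by_cases hu : u ∈ Q <;> simp [hu]
  have h3 : Disjoint ((fr Q).filter fun u => G.Adj v u)
      (univ.filter fun u => G.Adj v u ∧ u ∈ Q) := by
    rw [Finset.disjoint_left]
    intro u hu hu'
    unfold fr at hu
    simp only [mem_filter, mem_univ, true_and] at hu hu'
    exact hu.1 hu'.2
  have h4 : (univ.filter fun y => G.Adj v y).card =
      ((fr Q).filter fun u => G.Adj v u).card +
        (univ.filter fun u => G.Adj v u ∧ u ∈ Q).card := by
    rw [h2, Finset.card_union_of_disjoint h3]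
  have h5 : (univ : Finset K) ⊆ fl G Q σ v ∪
      (univ.filter fun u => G.Adj v u ∧ u ∈ Q).image σ := by
    intro c _
    by_cases hc : c ∈ fl G Q σ v
    · exact mem_union_left _ hc
    · apply mem_union_right
      unfold fl at hc
      simp only [mem_filter, mem_univ, true_and, not_forall, not_not] at hc
      obtain ⟨p, hp, hadj, hcp⟩ := hc
      rw [mem_image]
      exact ⟨p, by simp [hp, hadj], hcp.symm⟩
  have h6 : Fintype.card K ≤ (fl G Q σ v).card +
      (univ.filter fun u => G.Adj v u ∧ u ∈ Q).card := by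
    calc Fintype.card K = (univ : Finset K).card := rfl
      _ ≤ _ := Finset.card_le_card h5
      _ ≤ _ := Finset.card_union_le _ _
      _ ≤ _ := Nat.add_le_add_left Finset.card_image_le _
  omega

end Pool.Agent.QC
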