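import Pool.Agent.Lib_MP_2c424f_pr.Defs

/-!
# Piece TRB: summation over classes
-/

set_option autoImplicit false

open Finset

namespace Pool.Agent.QC

variable {V K : Type} [Fintype V] [Fintype K] [Inhabited K]

open scoped Classical in
/-- the restriction to `Q'` -/
noncomputable def trb_r (Q' : Set V) (f : V → K) : V → K := fun x => if x ∈ Q' then f x else default

theorem trb_rr (Q' : Set V) (f : V → K) : trb_r Q' (trb_r Q' f) = trb_r Q' f := by
  classical
  funext x
  unfold trb_r
  by_cases hx : x ∈ Q'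
  · rw [if_pos hx, if_pos hx]
  · rw [if_neg hx, if_neg hx]

theorem trb_iff (Q' : Set V) (f σ : V → K) (hσ : trb_r Q' σ = σ) :
    trb_r Q' f = σ ↔ ∀ x ∈ Q', f x = σ x := by
  classical
  constructor
  · intro h x hx
    rw [← h]
    unfold trb_r
    rw [if_pos hx]
  · intro h
    funext x
    by_cases hx : x ∈ Q'
    · rw [← h x hx]
      unfold trb_r
      rw [if_pos hx]
    · rw [← hσ]
      unfold trb_r
      rw [if_neg hx, if_neg hx]

open scoped Classical in
theorem trb_key (Q' : Set V) (p : (V → K) → Prop) :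
    (cnt p : ℝ) = ∑ σ ∈ univ.filter (fun σ : V → K => trb_r Q' σ = σ),
      (cnt (fun f : V → K => p f ∧ ∀ x ∈ Q', f x = σ x) : ℝ) := by
  have h1 : (univ.filter p).card = ∑ σ ∈ univ.filter (fun σ : V → K => trb_r Q' σ = σ),
      ((univ.filter p).filter (fun f => trb_r Q' f = σ)).card :=
    Finset.card_eq_sum_card_fiberwise (fun f _ => by
      simp only [coe_filter, mem_univ, true_and, Set.mem_setOf_eq]
      exact trb_rr Q' f)
  rw [cnt_eq, h1]
  push_cast
  refine Finset.sum_congr rfl fun σ hσ => ?_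
  have hσ' : trb_r Q' σ = σ := (Finset.mem_filter.1 hσ).2
  rw [cnt_eq, Finset.filter_filter]
  congr 2
  ext f
  simp only [mem_filter, mem_univ, true_and]
  rw [trb_iff Q' f σ hσ']

/-- TRL. Summation over the colours on `Q'`: partition the colourings according to their restriction to `Q'`
(`σ = fun x => if x ∈ Q' then f x else default`); on a class `E f = E σ` and `g f = g σ`. -/
theorem sum_classes (G : SimpleGraph V) {Q Q' : Set V} (hQ : Q ⊆ Q') {w : V} {κ q : ℝ}
    (h : ∀ (σ : V → K) (b : K),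
      q * cnt (fun f : V → K => Proper G f ∧ (∀ x ∈ Q', f x = σ x) ∧ f w = b) ≤
        κ * cnt (fun f : V → K => Proper G f ∧ ∀ x ∈ Q', f x = σ x))
    (E : (V → K) → Prop) (g : (V → K) → K) (hE : DepOn Q E) (hg : DepOn Q g) :
    q * cnt (fun f : V → K => Proper G f ∧ E f ∧ f w = g f) ≤
      κ * cnt (fun f : V → K => Proper G f ∧ E f) := by
  classical
  rw [trb_key Q' (fun f : V → K => Proper G f ∧ E f ∧ f w = g f),
    trb_key Q' (fun f : V → K => Proper G f ∧ E f), Finset.mul_sum, Finset.mul_sum]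
  refine Finset.sum_le_sum fun σ _ => ?_
  by_cases hEσ : E σ
  · have h1 : cnt (fun f : V → K => (Proper G f ∧ E f ∧ f w = g f) ∧ ∀ x ∈ Q', f x = σ x) =
        cnt (fun f : V → K => Proper G f ∧ (∀ x ∈ Q', f x = σ x) ∧ f w = g σ) := by
      apply cnt_congr
      intro f
      constructor
      · rintro ⟨⟨h1, h2, h3⟩, h4⟩
        refine ⟨h1, h4, ?_⟩
        rw [h3]
        exact hg f σ fun x hx => h4 x (hQ hx)
      · rintro ⟨h1, h4, h3⟩
        have e1 : E f = E σ := hE f σ fun x hx => h4 x (hQ hx)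
        have e2 : g f = g σ := hg f σ fun x hx => h4 x (hQ hx)
        exact ⟨⟨h1, by rw [e1]; exact hEσ, by rw [h3, e2]⟩, h4⟩
    have h2 : cnt (fun f : V → K => (Proper G f ∧ E f) ∧ ∀ x ∈ Q', f x = σ x) =
        cnt (fun f : V → K => Proper G f ∧ ∀ x ∈ Q', f x = σ x) := by
      apply cnt_congr
      intro f
      constructor
      · rintro ⟨⟨h1, -⟩, h4⟩
        exact ⟨h1, h4⟩
      · rintro ⟨h1, h4⟩
        have e1 : E f = E σ := hE f σ fun x hx => h4 x (hQ hx)
        exact ⟨⟨h1, by rw [e1]; exact hEσ⟩, h4⟩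
    rw [h1, h2]
    exact h σ (g σ)
  · have h1 : cnt (fun f : V → K => (Proper G f ∧ E f ∧ f w = g f) ∧ ∀ x ∈ Q', f x = σ x) = 0 := by
      unfold cnt
      rw [Set.ncard_eq_zero (Set.toFinite _)]
      ext f
      constructor
      · rintro ⟨⟨-, h2, -⟩, h4⟩
        have e1 : E f = E σ := hE f σ fun x hx => h4 x (hQ hx)
        exact hEσ (by rw [← e1]; exact h2)
      · intro hf
        exact absurd hf (Set.notMem_empty f)
    have h2 : cnt (fun f : V → K => (Proper G f ∧ E f) ∧ ∀ x ∈ Q', f x = σ x) = 0 := by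
      unfold cnt
      rw [Set.ncard_eq_zero (Set.toFinite _)]
      ext f
      constructor
      · rintro ⟨⟨-, h2⟩, h4⟩
        have e1 : E f = E σ := hE f σ fun x hx => h4 x (hQ hx)
        exact hEσ (by rw [← e1]; exact h2)
      · intro hf
        exact absurd hf (Set.notMem_empty f)
    rw [h1, h2]
    simp

end Pool.Agent.QC
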