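import Pool.Agent.Lib_MP_2c424f_pr.RHB
import Pool.Agent.Lib_MP_2c424f_pr.TRA
import Pool.Agent.Lib_MP_2c424f_pr.TRB

/-!
# Piece UBA: local uniformity: crude bound, the data
-/

set_option autoImplicit false

open Finset

namespace Pool.Agent.QC

/-- Uniform bounds for the conditional probabilities given the colours on `Q`: `e₁ / q` if at most `m` elements of `Q` are
at a distance `≤ M` from `v`, and always `K₀ / q`. -/
def UBd {V K : Type} [Fintype V] [Fintype K] (G : SimpleGraph V) (dist : V → V → ℕ) (M m : ℕ)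
    (e₁ K₀ : ℝ) : Prop :=
  ∀ (v : V) (Q : Set V), v ∉ Q → ∀ (E : (V → K) → Prop) (g : (V → K) → K), DepOn Q E →
    DepOn Q g →
    (cnt (fun u => u ∈ Q ∧ dist v u ≤ M) ≤ m →
      (Fintype.card K : ℝ) * cnt (fun f : V → K => Proper G f ∧ E f ∧ f v = g f) ≤
        e₁ * cnt (fun f : V → K => Proper G f ∧ E f)) ∧
    (Fintype.card K : ℝ) * cnt (fun f : V → K => Proper G f ∧ E f ∧ f v = g f) ≤
      K₀ * cnt (fun f : V → K => Proper G f ∧ E f)

variable {V K : Type} [Fintype V] [Fintype K] [Inhabited K]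

/-- UBP. The crude bound. `sum_classes` with `Q' = Q`; for a fixed `σ` (proper on `Q`, otherwise both sides are `0`):
`Zc_le` with `s = q - D` (`fl_slack`): `s * Zc ≤ Z`, and `q ≤ K₀ s`. -/
theorem ub_crude {G : SimpleGraph V} {dist : V → V → ℕ} {D : ℕ} (hG : IsLG G dist D) {K₀ : ℝ}
    (hD : D < Fintype.card K) (hK : (Fintype.card K : ℝ) ≤ K₀ * (Fintype.card K - D : ℕ)) {v : V}
    {Q : Set V} (hv : v ∉ Q) (E : (V → K) → Prop) (g : (V → K) → K) (hE : DepOn Q E)
    (hg : DepOn Q g) :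
    (Fintype.card K : ℝ) * cnt (fun f : V → K => Proper G f ∧ E f ∧ f v = g f) ≤
      K₀ * cnt (fun f : V → K => Proper G f ∧ E f) := by
  classical
  refine sum_classes G (le_refl Q) (w := v) ?_ E g hE hg
  intro σ b
  by_cases hσ : ∀ u ∈ Q, ∀ v ∈ Q, G.Adj u v → σ u ≠ σ v
  · rw [cnt_agree G Q σ hσ, cnt_agree_c G Q σ hσ hv b]
    have hvf : v ∈ fr Q := by
      unfold fr
      rw [mem_filter]
      exact ⟨mem_univ _, hv⟩
    have h1 := Zc_le G hvf (fl_slack G Q σ hG.deg hD.le) b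
    have h2 : ((Fintype.card K - D : ℕ) : ℝ) * Zc G (fr Q) (fl G Q σ) v b ≤
        Z G (fr Q) (fl G Q σ) := by
      exact_mod_cast h1
    have hK0 : 0 ≤ K₀ := by
      have h3 : (0 : ℝ) < ((Fintype.card K - D : ℕ) : ℝ) := by
        have : 0 < Fintype.card K - D := by omega
        exact_mod_cast this
      have h4 : (0 : ℝ) ≤ Fintype.card K := Nat.cast_nonneg _
      exact nonneg_of_mul_nonneg_left (h4.trans hK) h3
    calc (Fintype.card K : ℝ) * Zc G (fr Q) (fl G Q σ) v b
        ≤ K₀ * ((Fintype.card K - D : ℕ) : ℝ) * Zc G (fr Q) (fl G Q σ) v b :=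
          mul_le_mul_of_nonneg_right hK (Nat.cast_nonneg _)
      _ = K₀ * (((Fintype.card K - D : ℕ) : ℝ) * Zc G (fr Q) (fl G Q σ) v b) := by ring
      _ ≤ K₀ * Z G (fr Q) (fl G Q σ) := mul_le_mul_of_nonneg_left h2 hK0
  · have h1 := cnt_agree_zero G Q σ hσ (fun f => f v = b)
    have h2 := cnt_agree_zero G Q σ hσ (fun _ => True)
    have h3 : cnt (fun f : V → K => Proper G f ∧ ∀ x ∈ Q, f x = σ x) = 0 := by
      rw [← h2]
      exact cnt_congr fun f => by simp
    rw [h1, h3]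
    simp

omit [Fintype K] [Inhabited K] in
theorem uba_P (dist : V → V → ℕ) {M m : ℕ} {v : V} {Q : Set V}
    (hm : cnt (fun u => u ∈ Q ∧ dist v u ≤ M) ≤ m) :
    ∃ B : Finset V, B.card ≤ m ∧ ∀ p, p ∈ B ↔ p ∈ Q ∧ dist v p ≤ M := by
  classical
  rw [cnt_eq] at hm
  refine ⟨_, hm, fun p => ?_⟩
  simp only [mem_filter, mem_univ, true_and]

omit [Fintype K] [Inhabited K] in
theorem uba_mem_fr {Q : Set V} {v : V} : v ∈ fr Q ↔ v ∉ Q := by
  classical
  unfold fr
  rw [mem_filter]
  exact ⟨fun h => h.2, fun h => ⟨mem_univ _, h⟩⟩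

omit [Inhabited K] in
theorem uba_fl {G : SimpleGraph V} {Q : Set V} {σ : V → K} {u : V} {c : K} (hc : c ∉ fl G Q σ u) :
    ∃ p ∈ Q, G.Adj u p ∧ c = σ p := by
  classical
  unfold fl at hc
  simp only [mem_filter, mem_univ, true_and, not_forall, not_not] at hc
  obtain ⟨p, hp, hadj, hcp⟩ := hc
  exact ⟨p, hp, hadj, hcp⟩

/-- UBP. The data for `S₀ = ` the vertices of the ball of radius `M` of `v` not in `Q`,
`Q' = Q ∪ {u | M < dist v u}`.

Proof. `lev` by definition, `slack` by `fl_slack`. `exc`: let `x ∈ S₀` with `dist v x + 2 ≤ M`. An outer neighbour `u`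
with `L₀ u ≠ univ` has a neighbour `p ∈ Q'`; `dist v u = dist v x + 1 ≤ M - 1`, so `dist v p ≤ M` (`step`), so
`p ∈ Q`; and `u` is a common neighbour of `x` and `p ≠ x` (`x ∉ Q'`). So there are at most `2 m` such `u` (`common`; union over
the at most `m` elements `p` of `Q` in the ball). -/
theorem ub_dat {G : SimpleGraph V} {dist : V → V → ℕ} {D : ℕ} (hG : IsLG G dist D) {M m : ℕ}
    (hD : D + 4 ≤ Fintype.card K) {v : V} {Q : Set V}
    (hm : cnt (fun u => u ∈ Q ∧ dist v u ≤ M) ≤ m) (σ : V → K) :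
    Dat G dist v (fr (Q ∪ {u | M < dist v u})) (fl G (Q ∪ {u | M < dist v u}) σ)
      (Fintype.card K - D) D (2 * m) M := by
  classical
  refine ⟨hG, ?_, fl_slack G _ σ hG.deg (by omega), by omega, ?_⟩
  · intro x hx
    rw [uba_mem_fr] at hx
    by_contra h
    exact hx (Or.inr (not_le.1 h))
  · intro x hx hxM
    rw [uba_mem_fr] at hx
    obtain ⟨B, hB, hB'⟩ := uba_P dist hm
    have h1 : cnt (fun u => u ∈ Out G dist v (fr (Q ∪ {u | M < dist v u})) x ∧
        fl G (Q ∪ {u | M < dist v u}) σ u ≠ univ) ≤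
        cnt (fun u => ∃ p ∈ B, G.Adj x u ∧ G.Adj p u) := by
      refine cnt_mono ?_
      rintro u ⟨hu, hL⟩
      have hu' : u ∈ fr (Q ∪ {u | M < dist v u}) ∧ G.Adj x u ∧ dist v u = dist v x + 1 := by
        simpa only [Out, mem_filter] using hu
      have hc : ∃ c : K, c ∉ fl G (Q ∪ {u | M < dist v u}) σ u := by
        by_contra hne
        apply hL
        rw [eq_univ_iff_forall]
        intro c
        by_contra hcc
        exact hne ⟨c, hcc⟩
      obtain ⟨c, hc⟩ := hc
      obtain ⟨p, hp, hadj, -⟩ := uba_fl hc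
      have hpM : dist v p ≤ M := by
        rcases hG.step v u p hadj with h | h <;> omega
      have hpQ : p ∈ Q := by
        rcases (Set.mem_union _ _ _).1 hp with h | h
        · exact h
        · exact absurd h (not_lt.2 hpM)
      exact ⟨p, (hB' p).2 ⟨hpQ, hpM⟩, hu'.2.1, hadj.symm⟩
    refine h1.trans ((cnt_ex _ _).trans ?_)
    have h2 : ∀ p ∈ B, cnt (fun u => G.Adj x u ∧ G.Adj p u) ≤ 2 := by
      intro p hp
      rw [hB'] at hp
      exact hG.common x p fun h => hx (Or.inl (h ▸ hp.1))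
    refine (Finset.sum_le_card_nsmul _ _ _ h2).trans ?_
    rw [smul_eq_mul, mul_comm]
    exact Nat.mul_le_mul_left 2 hB

/-- UBP. the list of `v` itself: `v` has at most `m` neighbours in `Q'` (all in `Q` as `M ≥ 1`) -/
theorem ub_list {G : SimpleGraph V} {dist : V → V → ℕ} {D : ℕ} (hG : IsLG G dist D) {M m : ℕ}
    (hM : 1 ≤ M) {v : V} {Q : Set V} (hm : cnt (fun u => u ∈ Q ∧ dist v u ≤ M) ≤ m) (σ : V → K) :
    Fintype.card K ≤ (fl G (Q ∪ {u | M < dist v u}) σ v).card + m := by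
  classical
  obtain ⟨B, hB, hB'⟩ := uba_P dist hm
  have h5 : (univ : Finset K) ⊆ fl G (Q ∪ {u | M < dist v u}) σ v ∪ B.image σ := by
    intro c _
    by_cases hc : c ∈ fl G (Q ∪ {u | M < dist v u}) σ v
    · exact mem_union_left _ hc
    · apply mem_union_right
      obtain ⟨p, hp, hadj, hcp⟩ := uba_fl hc
      have hpM : dist v p ≤ M := by
        have h0 := hG.self v
        rcases hG.step v v p hadj with h | h <;> omega
      have hpQ : p ∈ Q := by
        rcases (Set.mem_union _ _ _).1 hp with h | h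
        · exact h
        · exact absurd h (not_lt.2 hpM)
      rw [mem_image]
      exact ⟨p, (hB' p).2 ⟨hpQ, hpM⟩, hcp.symm⟩
  calc Fintype.card K = (univ : Finset K).card := rfl
    _ ≤ _ := Finset.card_le_card h5
    _ ≤ _ := Finset.card_union_le _ _
    _ ≤ _ := Nat.add_le_add_left (Finset.card_image_le.trans hB) _

end Pool.Agent.QC
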