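import Pool.Agent.Lib_MP_2c424f_pr.UBA
import Pool.Agent.Lib_MP_2c424f_pr.CLB
import Pool.Agent.Lib_MP_2c424f_pr.NUM
import Pool.Agent.Lib_MP_2c424f_pr.NUE

/-!
# Piece UBP: local uniformity
-/

set_option autoImplicit false

open Finset

namespace Pool.Agent.QC

variable {V K : Type} [Fintype V] [Fintype K] [Inhabited K]

/-- the numerical part: `q (ρ + C / q²) ≤ 1 + e` -/
theorem UBP_num {q C e ρ P : ℝ} (hq : 0 < q) (hCq : C ≤ e / 2 * q) (hρ : q * ρ ≤ 1 + e / 2)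
    (hP : P - ρ ≤ C / q ^ 2) : q * P ≤ 1 + e := by
  have h1 : C / q ^ 2 * q ≤ e / 2 := by
    rw [div_mul_eq_mul_div, div_le_iff₀ (by positivity)]
    nlinarith
  nlinarith

/-- one class -/
theorem UBP_class {x e C τ₁ : ℝ} {M : ℕ} (hM : 1 ≤ M) {G : SimpleGraph V} {dist : V → V → ℕ} {D m : ℕ}
    (hG : IsLG G dist D)
    (hrho : ∀ (w : V) (S₀ : Finset V) (L₀ : V → Finset K) (s D t : ℕ), Dat G dist w S₀ L₀ s D t M →
      (D : ℝ) ≤ x * Fintype.card K → (1 - x) * Fintype.card K ≤ s →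
      (t : ℝ) ≤ τ₁ * Fintype.card K → w ∈ S₀ → (1 - τ₁) * Fintype.card K ≤ (L₀ w).card →
      ∀ c, Fintype.card K * rho G dist w S₀ L₀ M w c ≤ 1 + e / 2)
    (hD4 : D + 4 ≤ Fintype.card K) (hDx : (D : ℝ) ≤ x * Fintype.card K)
    (hCq : C ≤ e / 2 * Fintype.card K)
    (herr : err (Fintype.card K) (Fintype.card K - D) D M M ≤ C / (Fintype.card K : ℝ) ^ 2)
    (hm2 : ((2 * m : ℕ) : ℝ) ≤ τ₁ * Fintype.card K)
    {v : V} {Q : Set V} (hv : v ∉ Q) (hm : cnt (fun u => u ∈ Q ∧ dist v u ≤ M) ≤ m)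
    (σ : V → K) (b : K) (_hσ : ∀ u ∈ Q ∪ {u | M < dist v u}, ∀ v' ∈ Q ∪ {u | M < dist v u},
      G.Adj u v' → σ u ≠ σ v') :
    (Fintype.card K : ℝ) * Zc G (fr (Q ∪ {u | M < dist v u})) (fl G (Q ∪ {u | M < dist v u}) σ) v b ≤
      (1 + e) * Z G (fr (Q ∪ {u | M < dist v u})) (fl G (Q ∪ {u | M < dist v u}) σ) := by
  classical
  have hdat := ub_dat hG hD4 hm σ (M := M) (v := v) (Q := Q)
  have hlist := ub_list (D := D) hG hM hm σ (v := v) (Q := Q)
  have hvS : v ∈ fr (Q ∪ {u | M < dist v u}) := by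
    simp [fr, hv, hG.self]
  set S₀ := fr (Q ∪ {u | M < dist v u}) with hS₀
  set L₀ := fl G (Q ∪ {u | M < dist v u}) σ with hL₀
  have hcast : ((Fintype.card K - D : ℕ) : ℝ) = Fintype.card K - D := by
    rw [Nat.cast_sub (by omega)]
  have hs1 : (1 - x) * Fintype.card K ≤ ((Fintype.card K - D : ℕ) : ℝ) := by
    rw [hcast]
    linarith
  have hr := hrho v S₀ L₀ _ D (2 * m) hdat hDx hs1 hm2 hvS (by
    have : (Fintype.card K : ℝ) ≤ (L₀ v).card + m := by exact_mod_cast hlist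
    push_cast at hm2
    have hm0 : (0 : ℝ) ≤ m := Nat.cast_nonneg m
    linarith) b
  have hcl := claim hG (w := v) (S₀ := S₀) (L₀ := L₀) (s := Fintype.card K - D) (M := M) (by omega)
    hdat.lev hdat.slack M v S₀ L₀ (by rw [hG.self]; omega) hvS
    { sub := Finset.Subset.refl _
      lsub := fun _ => Finset.Subset.refl _
      out := fun u hu _ => ⟨hu, rfl⟩
      slack := hdat.slack } rfl b
  have hZ : 0 < Z G S₀ L₀ := Z_pos G (s := Fintype.card K - D) (by omega) hdat.slack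
  have hZ' : (0 : ℝ) < Z G S₀ L₀ := by exact_mod_cast hZ
  have hq : (0 : ℝ) < Fintype.card K := by
    have : 0 < Fintype.card K := by omega
    exact_mod_cast this
  have hP := UBP_num hq hCq hr ((le_abs_self _).trans (hcl.trans herr))
  unfold Pr at hP
  rw [mul_div_assoc', div_le_iff₀ hZ'] at hP
  exact hP

/-- UBP. Local uniformity. For `x < 1`, `e > 0` there are `M`, `τ > 0`, `q₀` such that for `q ≥ q₀`, `D ≤ x q` the
bounds hold with `m = ⌊τ q⌋`, `e₁ = 1 + e`, `K₀ = 1 / (1 - x)`.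

Proof. `rho_final` for `x`, `e / 2` gives `M`, `τ₁`, `q₁`; `err_le` for `k = M` gives `C`. Let `τ = τ₁ / 2`, `q₀` large: `q₀ ≥ q₁`,
`(1 - x) q₀ ≥ 4`, `C / q₀ ≤ e / 2`. The second bound is `ub_crude`. First bound: `sum_classes` with
`Q' = Q ∪ {u | M < dist v u}`; for fixed `σ` (proper on `Q'`, otherwise both sides are `0` by `cnt_agree_zero`)
`cnt_agree`, `cnt_agree_c`: `Zc = Pr * Z`, `q Pr ≤ q rho + q err ≤ 1 + e / 2 + C / q` by `claim` (for `v ∈ S₀`, `k = M`,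
`S = S₀`, `L = L₀`, the class conditions being trivial) and `rho_final` (`ub_dat`, `ub_list`; `t = 2 m ≤ τ₁ q`,
`m ≤ τ₁ q`). -/
theorem ub_main {x e : ℝ} (hx0 : 0 < x) (hx1 : x < 1) (he : 0 < e) :
    ∃ (M : ℕ) (τ : ℝ) (q₀ : ℕ), 0 < τ ∧ 0 < q₀ ∧
    ∀ (V K : Type) [Fintype V] [Fintype K] [Inhabited K] (G : SimpleGraph V) (dist : V → V → ℕ)
      (D : ℕ), IsLG G dist D → q₀ ≤ Fintype.card K → (D : ℝ) ≤ x * Fintype.card K →
      UBd (K := K) G dist M ⌊τ * Fintype.card K⌋₊ (1 + e) (1 / (1 - x)) := by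
  obtain ⟨M, τ₁, q₁, hM, hτ₁, hτ₁', hq₁, hrho⟩ := rho_final hx0 hx1 (half_pos he)
  obtain ⟨C, hC, herr⟩ := err_le hx0 hx1 M M
  refine ⟨M, τ₁ / 2, max (max q₁ ⌈4 / (1 - x)⌉₊) ⌈2 * C / e⌉₊, by positivity, by
    exact lt_of_lt_of_le hq₁ ((le_max_left _ _).trans (le_max_left _ _)), ?_⟩
  intro V K _ _ _ G dist D hG hq hDx
  have h1x : 0 < 1 - x := by linarith
  have hq1 : q₁ ≤ Fintype.card K := ((le_max_left _ _).trans (le_max_left _ _)).trans hq
  have hq2 : 4 / (1 - x) ≤ Fintype.card K := Nat.ceil_le.mp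
    (((le_max_right _ _).trans (le_max_left _ _)).trans hq)
  have hq3 : 2 * C / e ≤ Fintype.card K := Nat.ceil_le.mp ((le_max_right _ _).trans hq)
  have hqpos : 0 < Fintype.card K := lt_of_lt_of_le hq₁ hq1
  rw [div_le_iff₀ h1x] at hq2
  rw [div_le_iff₀ he] at hq3
  have hD4 : D + 4 ≤ Fintype.card K := by
    have : (D : ℝ) + 4 ≤ Fintype.card K := by linarith
    exact_mod_cast this
  have hcast : ((Fintype.card K - D : ℕ) : ℝ) = Fintype.card K - D := by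
    rw [Nat.cast_sub (by omega)]
  have hs1 : (1 - x) * Fintype.card K ≤ ((Fintype.card K - D : ℕ) : ℝ) := by
    rw [hcast]
    linarith
  intro v Q hv E g hE hg
  constructor
  · intro hm
    refine sum_classes G (Q := Q) (Q' := Q ∪ {u | M < dist v u}) Set.subset_union_left ?_ E g hE hg
    intro σ b
    by_cases hσ : ∀ u ∈ Q ∪ {u | M < dist v u}, ∀ v' ∈ Q ∪ {u | M < dist v u},
      G.Adj u v' → σ u ≠ σ v'
    · rw [cnt_agree G _ σ hσ, cnt_agree_c G _ σ hσ (by simp [hv, hG.self])]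
      refine UBP_class (x := x) (C := C) (τ₁ := τ₁) (m := ⌊τ₁ / 2 * Fintype.card K⌋₊) (D := D)
        (by omega) hG ?_ hD4 hDx (by linarith) (herr _ _ _ (by omega) hDx hs1) ?_ hv hm σ b hσ
      · intro w S₀ L₀ s D t h1 h2 h3 h4 h5 h6
        exact hrho V K G dist w S₀ L₀ s D t h1 hq1 h2 h3 h4 h5 h6
      · have := Nat.floor_le (a := τ₁ / 2 * (Fintype.card K : ℝ)) (by positivity)
        push_cast
        linarith
    · rw [cnt_agree_zero G _ σ hσ]
      simp only [Nat.cast_zero, mul_zero]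
      positivity
  · refine ub_crude hG (by omega) ?_ hv E g hE hg
    rw [div_mul_eq_mul_div, le_div_iff₀ h1x]
    linarith

end Pool.Agent.QC
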